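import Pool.Agent.Lib.MP_1ad228_ntC.GGfacts

/-!
JOB AlA.  The values `lin (f s) y` of the short vectors of `x` at another point `y`.

PROOF.  Let `U s = lin (f s) y`. `lamLem x y (GG_uni hx)` gives `l` with `Dd x y ∣ y j - l * x j` for all `j`
(`Dd_dvd`); since `lin (f s) x = 0`, `U s = ∑ j, f s j * (y j - l * x j)` is divisible by `Dd x y`.
`x_1 * U s = x_1 * lin (f s) y - y_1 * lin (f s) x = ∑ j, f s j * mn x y 1 j`; the term `j = 1` is 0, so
`|x_1 * U s| ≤ 3 * H * Del x y` (`le_Del`); with `g^16 ≤ q x_1`: `g^16 |U s| ≤ q x_1 |U s| ≤ 3 H q Del`.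
`U ≠ 0`: otherwise, by linear algebra (`LinearIndependent ℤ f`, three independent vectors orthogonal to both
`x` and `y` in a space of dimension 4), `x` and `y` are proportional over ℚ and `Del x y = 0`, against
`Del_pos`. (E.g. if `mn x y 1 j ≠ 0` (`exists_Del`) then `x, y` are independent over ℚ and their common orthogonal
complement has dimension 2, so it cannot contain 3 independent vectors; or the 3x4 matrix `f` over ℚ has
kernel of dimension 1.)
-/

namespace Pool.Agent.Lib.MP_1ad228_ntC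

open Classical

theorem alA_dvd {g q : ℕ} {x y : Fin 4 → ℤ} (hx : x ∈ GG g q) (f : Fin 4 → ℤ)
    (h0 : lin f x = 0) : (Dd x y : ℤ) ∣ lin f y := by
  obtain ⟨l, hl⟩ := lamLem x y (GG_uni hx)
  have h1 := hl (Dd x y : ℤ) (fun i j => Dd_dvd x y i j)
  have h2 : lin f y = ∑ j, f j * (y j - l * x j) := by
    have h3 : lin f y = lin f y - l * lin f x := by rw [h0, mul_zero, sub_zero]
    rw [h3]
    unfold lin
    rw [Finset.mul_sum, ← Finset.sum_sub_distrib]
    refine Finset.sum_congr rfl fun j _ => ?_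
    ring
  rw [h2]
  exact Finset.dvd_sum fun j _ => Dvd.dvd.mul_left (h1 j) _

theorem alA_le {g q H : ℕ} (hg : 1 ≤ g) {x : Fin 4 → ℤ} (hx : x ∈ GG g q) (y : Fin 4 → ℤ)
    (f : Fin 4 → ℤ) (h0 : lin f x = 0) (hH : ∀ i, |f i| ≤ (H : ℤ)) :
    (g : ℤ) ^ 16 * |lin f y| ≤ 3 * H * q * Del x y := by
  have hx1 := GG_pos hg hx
  have hpiv := GG_pivot hx
  have h2 : x 1 * lin f y = ∑ j, f j * mn x y 1 j := by
    have h3 : x 1 * lin f y = x 1 * lin f y - y 1 * lin f x := by rw [h0, mul_zero, sub_zero]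
    rw [h3]
    unfold lin mn
    rw [Finset.mul_sum, Finset.mul_sum, ← Finset.sum_sub_distrib]
    refine Finset.sum_congr rfl fun j _ => ?_
    ring
  have hb : ∀ j, |f j * mn x y 1 j| ≤ (H : ℤ) * Del x y := by
    intro j
    rw [abs_mul]
    exact mul_le_mul (hH j) (le_Del x y j) (abs_nonneg _) (Int.natCast_nonneg H)
  have h11 : f 1 * mn x y 1 1 = 0 := by
    unfold mn
    ring
  have h4 : |x 1 * lin f y| ≤ 3 * (H * Del x y) := by
    rw [h2, Fin.sum_univ_four, h11, add_zero]
    have a1 := abs_add_le (f 0 * mn x y 1 0 + f 2 * mn x y 1 2) (f 3 * mn x y 1 3)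
    have a2 := abs_add_le (f 0 * mn x y 1 0) (f 2 * mn x y 1 2)
    have b0 := hb 0
    have b2 := hb 2
    have b3 := hb 3
    linarith
  rw [abs_mul, abs_of_pos hx1] at h4
  calc (g : ℤ) ^ 16 * |lin f y| ≤ (q * x 1) * |lin f y| := mul_le_mul_of_nonneg_right hpiv (abs_nonneg _)
    _ = q * (x 1 * |lin f y|) := by ring
    _ ≤ q * (3 * (H * Del x y)) := mul_le_mul_of_nonneg_left h4 (Int.natCast_nonneg q)
    _ = 3 * H * q * Del x y := by ring

private theorem AlA_card : ∀ j : Fin 4, j ≠ 1 → Fintype.card {k : Fin 4 // k ≠ 1 ∧ k ≠ j} = 2 := by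
  decide

theorem alA_ne {x y : Fin 4 → ℤ} (h : 1 ≤ Del x y) (f : Fin 3 → Fin 4 → ℤ)
    (hf : LinearIndependent ℤ f) (h0 : ∀ s, lin (f s) x = 0) : ∃ s, lin (f s) y ≠ 0 := by
  by_contra hcon
  push Not at hcon
  obtain ⟨j, hj1, hj, _⟩ := exists_Del x y h
  have hspan : ∀ v ∈ Submodule.span ℤ (Set.range f), lin v x = 0 ∧ lin v y = 0 := by
    intro v hv
    induction hv using Submodule.span_induction with
    | mem v hv =>
      obtain ⟨s, rfl⟩ := hv
      exact ⟨h0 s, hcon s⟩
    | zero =>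
      unfold lin
      simp
    | add u v _ _ hu hv =>
      rw [lin_add, lin_add, hu.1, hu.2, hv.1, hv.2]
      simp
    | smul c v _ hv =>
      rw [lin_smul, lin_smul, hv.1, hv.2]
      simp
  have hdis : Disjoint (Submodule.span ℤ (Set.range f))
      (LinearMap.ker (LinearMap.funLeft ℤ ℤ (Subtype.val : {k : Fin 4 // k ≠ 1 ∧ k ≠ j} → Fin 4))) := by
    rw [Submodule.disjoint_def]
    intro v hv hk
    obtain ⟨hvx, hvy⟩ := hspan v hv
    have hz : ∀ k : Fin 4, k ≠ 1 → k ≠ j → v k = 0 := by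
      intro k h1 h2
      have := congrFun (LinearMap.mem_ker.1 hk) ⟨k, h1, h2⟩
      exact this
    have hsum : ∀ w : Fin 4 → ℤ, lin v w = v 1 * w 1 + v j * w j := by
      intro w
      unfold lin
      rw [← Finset.sum_subset (Finset.subset_univ ({1, j} : Finset (Fin 4)))]
      · rw [Finset.sum_pair hj1.symm]
      · intro k _ hk
        simp only [Finset.mem_insert, Finset.mem_singleton, not_or] at hk
        rw [hz k hk.1 hk.2, zero_mul]
    rw [hsum] at hvx hvy
    have e1 : v j * mn x y 1 j = 0 := by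
      unfold mn
      linear_combination x 1 * hvy - y 1 * hvx
    have e2 : v 1 * mn x y 1 j = 0 := by
      unfold mn
      linear_combination y j * hvx - x j * hvy
    have f1 : v j = 0 := (mul_eq_zero.1 e1).resolve_right hj
    have f2 : v 1 = 0 := (mul_eq_zero.1 e2).resolve_right hj
    funext k
    by_cases h1 : k = 1
    · rw [h1]; exact f2
    · by_cases h2 : k = j
      · rw [h2]; exact f1
      · exact hz k h1 h2
  have hind := hf.map hdis
  have hle := hind.fintype_card_le_finrank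
  rw [Module.finrank_fintype_fun_eq_card, Fintype.card_fin] at hle
  have hc := AlA_card j hj1
  have hc' : Fintype.card {k : Fin 4 // k ≠ 1 ∧ k ≠ j} = 2 := by
    rw [← hc]
  omega

end Pool.Agent.Lib.MP_1ad228_ntC
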