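import Pool.Agent.Lib.MP_1ad228_ntC.GGfacts
import Pool.Agent.Lib.MP_1ad228_ntC.AlA

/-!
JOB AlB.  Fibres: the points `y` with given values of the three short vectors of `x`.

PROOF.  Let `y, y'` be two points of the set and `z = y' - y`: `lin (f s) z = 0` for all `s`. By linear algebra `z` is
proportional to `x` over ℚ, i.e. all `mn x z i j = 0` (if some minor of `(x, z)` is nonzero then `x, z` are
independent and their common orthogonal complement has dimension 2, but contains the three
independent `f s`; the proof of `alA_ne` gives this for minors containing coordinate 1, which is enough as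
`x 1 ≠ 0`). With `lin u x = 1` (`GG_uni`), `t = lin u z`: `z j = t * x j` (`z j = ∑ u i (x i z j - z i x j) + t x j`).
So all points of the set are `y + t x`, and `t ↦ y_1 + t x_1` takes values in `(0, g^16]` with
`q x_1 ≥ g^16`, so the difference of two values of `t` is at most `q - 1` in absolute value: precisely, if `t0` is the
smallest `t` (relative to a fixed `y`), then `0 ≤ t - t0` and `(t - t0) x_1 ≤ g^16 - (something positive) < q x_1`,
so `t - t0 < q`: at most `q` points.
-/

namespace Pool.Agent.Lib.MP_1ad228_ntC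

open Classical

private theorem AlB_prop {g q : ℕ} (hg : 1 ≤ g) {x : Fin 4 → ℤ} (hx : x ∈ GG g q)
    (f : Fin 3 → Fin 4 → ℤ) (hf : LinearIndependent ℤ f) (h0 : ∀ s, lin (f s) x = 0) (z : Fin 4 → ℤ)
    (hz : ∀ s, lin (f s) z = 0) : ∃ t : ℤ, ∀ j, z j = t * x j := by
  have hx1 := GG_pos hg hx
  have hD : Del x z = 0 := by
    by_contra hne
    obtain ⟨s, hs⟩ := alA_ne (Nat.one_le_iff_ne_zero.2 hne) f hf h0
    exact hs (hz s)
  have hmn : ∀ j, x 1 * z j = x j * z 1 := by
    intro j
    have h1 := le_Del x z j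
    rw [hD, Nat.cast_zero] at h1
    have h2 : mn x z 1 j = 0 := abs_nonpos_iff.1 h1
    unfold mn at h2
    linarith
  obtain ⟨u, hu⟩ := GG_uni hx
  have h1 : x 1 * lin u z = z 1 := by
    calc x 1 * lin u z = ∑ j, u j * (x 1 * z j) := by
          unfold lin
          rw [Finset.mul_sum]
          exact Finset.sum_congr rfl fun j _ => by ring
      _ = ∑ j, u j * (x j * z 1) := Finset.sum_congr rfl fun j _ => by rw [hmn j]
      _ = lin u x * z 1 := by
          unfold lin
          rw [Finset.sum_mul]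
          exact Finset.sum_congr rfl fun j _ => by ring
      _ = z 1 := by rw [hu, one_mul]
  refine ⟨lin u z, fun j => ?_⟩
  have h2 := hmn j
  rw [← h1] at h2
  have h3 : x 1 * z j = x 1 * (lin u z * x j) := by
    rw [h2]
    ring
  exact mul_left_cancel₀ hx1.ne' h3

theorem alB (g q : ℕ) (hg : 1 ≤ g) (hq : 1 ≤ q) (x : Fin 4 → ℤ) (hx : x ∈ GG g q)
    (f : Fin 3 → Fin 4 → ℤ) (hf : LinearIndependent ℤ f) (h0 : ∀ s, lin (f s) x = 0)
    (U : Fin 3 → ℤ) : ((GG g q).filter fun y => ∀ s, lin (f s) y = U s).card ≤ q := by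
  have hx1 := GG_pos hg hx
  have hpiv := GG_pivot hx
  rw [← Finset.card_range q]
  apply Finset.card_le_card_of_injOn (fun y : Fin 4 → ℤ => ((y 1 - 1) / x 1).toNat)
  · intro y hy
    rw [Finset.mem_coe, Finset.mem_filter] at hy
    rw [Finset.mem_coe, Finset.mem_range]
    have hy1 := GG_pos hg hy.1
    have hy2 := GG_le hy.1 1
    rw [abs_of_pos hy1] at hy2
    have h1 : 0 ≤ (y 1 - 1) / x 1 := Int.ediv_nonneg (by omega) hx1.le
    have h2 : (y 1 - 1) / x 1 < q := by
      rw [Int.ediv_lt_iff_lt_mul hx1]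
      linarith
    show ((y 1 - 1) / x 1).toNat < q
    omega
  · intro y hy y' hy' heq
    rw [Finset.mem_coe, Finset.mem_filter] at hy hy'
    have hy1 := GG_pos hg hy.1
    have hy1' := GG_pos hg hy'.1
    have h1 : 0 ≤ (y 1 - 1) / x 1 := Int.ediv_nonneg (by omega) hx1.le
    have h2 : 0 ≤ (y' 1 - 1) / x 1 := Int.ediv_nonneg (by omega) hx1.le
    have h3 : (y 1 - 1) / x 1 = (y' 1 - 1) / x 1 := by
      have h4 : ((y 1 - 1) / x 1).toNat = ((y' 1 - 1) / x 1).toNat := heq
      omega
    obtain ⟨t, ht⟩ := AlB_prop hg hx f hf h0 (y' - y) (fun s => by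
      rw [lin_sub_right, hy.2 s, hy'.2 s, sub_self])
    have ht1 := ht 1
    rw [Pi.sub_apply] at ht1
    have h5 : (y' 1 - 1) / x 1 = (y 1 - 1) / x 1 + t := by
      have h6 : y' 1 - 1 = (y 1 - 1) + t * x 1 := by linarith
      rw [h6, Int.add_mul_ediv_right _ _ hx1.ne']
    have ht0 : t = 0 := by omega
    funext j
    have := ht j
    rw [Pi.sub_apply, ht0, zero_mul] at this
    omega

end Pool.Agent.Lib.MP_1ad228_ntC
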