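import Pool.Agent.Lib.MP_1ad228_ntC.AlA
import Pool.Agent.Lib.MP_1ad228_ntC.AlB

/-!
JOB Alpha.  Pair sum over the pairs with `Del ≤ Dd * g^16` (paper section 5, alpha).

PROOF.  `H = g^6`, `f` the short vectors of `HGood H x` (`GG_good`), `B = g^16`. For `y` in the set let `D = Dd x y`,
`Δ = Del x y` (`1 ≤ Δ`, `Del_pos`; `1 ≤ D`, `Dd_pos`; `Δ ≤ 2 g^32`, `Del_le`), `U s = lin (f s) y`.
`alA_dvd`: `D ∣ U s`; put `V s = U s / D`. `alA_le`: `B |U s| ≤ 3 H q Δ ≤ 3 H q D B`, so `|V s| ≤ 3 H q`.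
`alA_ne`: some `U s ≠ 0`, so `D ≤ |U s|` and `B D ≤ 3 H q Δ ≤ 6 H q B^2`, so `D ≤ 6 H q B`, and
`D/Δ ≤ 3 H q/B`.
The map `y ↦ (D, V)` goes to `Icc 1 (6 H q B) × [-3Hq, 3Hq]^3` (at most `6 H q B * (6Hq+1)^3` elements) and its
fibres have at most `q` elements (`alB` with `U = D V`). So the number of `y` is at most `6 H q B (7 H q)^3 q`, and the
sum at most `6 H q B (7Hq)^3 q * 3Hq/B = 6174 H^5 q^6 ≤ 46656 q^6 g^30`.
-/

namespace Pool.Agent.Lib.MP_1ad228_ntC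

open Classical

private theorem Alpha_key {g q : ℕ} (hg : 1 ≤ g) {x y : Fin 4 → ℤ}
    (hx : x ∈ GG g q) (hy : y ∈ GG g q) (hne : y ≠ x) (hD : Del x y ≤ Dd x y * g ^ 16)
    (f : Fin 3 → Fin 4 → ℤ) (hf : LinearIndependent ℤ f) (hf0 : ∀ s, lin (f s) x = 0)
    (hfH : ∀ s i, |f s i| ≤ ((g ^ 6 : ℕ) : ℤ)) :
    1 ≤ Dd x y ∧ 1 ≤ Del x y ∧ (∀ s, |lin (f s) y| ≤ ((3 * g ^ 6 * q : ℕ) : ℤ) * (Dd x y : ℤ)) ∧
      g ^ 16 * Dd x y ≤ 3 * g ^ 6 * q * Del x y ∧ Dd x y ≤ 6 * g ^ 6 * q * g ^ 16 := by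
  have h1 : 1 ≤ Del x y := Del_pos hg hx hy hne.symm
  have h2 : 1 ≤ Dd x y := Dd_pos x y h1
  have hB : (0 : ℤ) < (g : ℤ) ^ 16 := by positivity
  have hle : ∀ s, (g : ℤ) ^ 16 * |lin (f s) y| ≤ 3 * ((g ^ 6 : ℕ) : ℤ) * q * Del x y := fun s =>
    alA_le hg hx y (f s) (hf0 s) (hfH s)
  have hdv : ∀ s, (Dd x y : ℤ) ∣ lin (f s) y := fun s => alA_dvd hx (f s) (hf0 s)
  obtain ⟨s, hs⟩ := alA_ne h1 f hf hf0
  have h4 : g ^ 16 * Dd x y ≤ 3 * g ^ 6 * q * Del x y := by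
    have h5 : (Dd x y : ℤ) ≤ |lin (f s) y| :=
      Int.le_of_dvd (abs_pos.2 hs) ((dvd_abs _ _).2 (hdv s))
    have h6 : (g : ℤ) ^ 16 * (Dd x y : ℤ) ≤ 3 * ((g ^ 6 : ℕ) : ℤ) * q * Del x y :=
      (mul_le_mul_of_nonneg_left h5 hB.le).trans (hle s)
    exact_mod_cast h6
  refine ⟨h2, h1, ?_, h4, ?_⟩
  · intro s
    have h7 : (Del x y : ℤ) ≤ (Dd x y : ℤ) * (g : ℤ) ^ 16 := by exact_mod_cast hD
    have h8 : (g : ℤ) ^ 16 * |lin (f s) y| ≤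
        (g : ℤ) ^ 16 * (((3 * g ^ 6 * q : ℕ) : ℤ) * (Dd x y : ℤ)) := by
      refine (hle s).trans ?_
      have h9 : 3 * ((g ^ 6 : ℕ) : ℤ) * q * (Del x y : ℤ) ≤
          3 * ((g ^ 6 : ℕ) : ℤ) * q * ((Dd x y : ℤ) * (g : ℤ) ^ 16) :=
        mul_le_mul_of_nonneg_left h7 (by positivity)
      refine h9.trans (le_of_eq ?_)
      push_cast
      ring
    exact le_of_mul_le_mul_left h8 hB
  · have h10 := Del_le hx hy
    have hB' : 0 < g ^ 16 := by positivity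
    refine Nat.le_of_mul_le_mul_left (?_ : g ^ 16 * Dd x y ≤ g ^ 16 * (6 * g ^ 6 * q * g ^ 16)) hB'
    calc g ^ 16 * Dd x y ≤ 3 * g ^ 6 * q * Del x y := h4
      _ ≤ 3 * g ^ 6 * q * (2 * g ^ 32) := Nat.mul_le_mul_left _ h10
      _ = g ^ 16 * (6 * g ^ 6 * q * g ^ 16) := by ring

private theorem Alpha_card (g q : ℕ) (hg : 1 ≤ g) (hq : 1 ≤ q) (x : Fin 4 → ℤ) (hx : x ∈ GG g q)
    (f : Fin 3 → Fin 4 → ℤ) (hf : LinearIndependent ℤ f) (hf0 : ∀ s, lin (f s) x = 0)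
    (hfH : ∀ s i, |f s i| ≤ ((g ^ 6 : ℕ) : ℤ)) :
    ((GG g q).filter (fun y => y ≠ x ∧ Del x y ≤ Dd x y * g ^ 16)).card ≤
      q * (6 * g ^ 6 * q * g ^ 16 * (7 * g ^ 6 * q) ^ 3) := by
  have h1 : ((GG g q).filter (fun y => y ≠ x ∧ Del x y ≤ Dd x y * g ^ 16)).card ≤
      q * (Finset.Icc 1 (6 * g ^ 6 * q * g ^ 16) ×ˢ Fintype.piFinset (fun _ : Fin 3 =>
        Finset.Icc (-((3 * g ^ 6 * q : ℕ) : ℤ)) ((3 * g ^ 6 * q : ℕ) : ℤ))).card := by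
    refine Finset.card_le_mul_card_image_of_maps_to
      (f := fun y => (Dd x y, fun s => lin (f s) y / (Dd x y : ℤ))) ?_ q ?_
    · intro y hy
      rw [Finset.mem_filter] at hy
      obtain ⟨k1, -, k3, -, k5⟩ := Alpha_key hg hx hy.1 hy.2.1 hy.2.2 f hf hf0 hfH
      rw [Finset.mem_product, Finset.mem_Icc, Fintype.mem_piFinset]
      refine ⟨⟨k1, k5⟩, fun s => ?_⟩
      rw [Finset.mem_Icc, ← abs_le]
      show |lin (f s) y / (Dd x y : ℤ)| ≤ _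
      have hD0 : (0 : ℤ) < (Dd x y : ℤ) := by exact_mod_cast k1
      obtain ⟨c, hc⟩ := alA_dvd (y := y) hx (f s) (hf0 s)
      have k6 := k3 s
      rw [hc, Int.mul_ediv_cancel_left _ hD0.ne']
      rw [hc, abs_mul, abs_of_pos hD0, mul_comm] at k6
      exact le_of_mul_le_mul_right k6 hD0
    · rintro ⟨D, V⟩ -
      refine le_trans (Finset.card_le_card ?_) (alB g q hg hq x hx f hf hf0 fun s => (D : ℤ) * V s)
      intro y hy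
      rw [Finset.mem_filter, Finset.mem_filter] at hy
      obtain ⟨⟨hy1, -, -⟩, hy2⟩ := hy
      rw [Finset.mem_filter]
      refine ⟨hy1, fun s => ?_⟩
      have e1 : Dd x y = D := congrArg Prod.fst hy2
      have e2 : lin (f s) y / (Dd x y : ℤ) = V s := congrFun (congrArg Prod.snd hy2) s
      rw [← e1, ← e2]
      exact (Int.mul_ediv_cancel' (alA_dvd hx (f s) (hf0 s))).symm
  refine h1.trans (Nat.mul_le_mul_left q ?_)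
  rw [Finset.card_product, Nat.card_Icc, Fintype.card_piFinset]
  simp only [Int.card_Icc, Finset.prod_const, Finset.card_univ, Fintype.card_fin]
  have hpos : 1 ≤ g ^ 6 * q := Nat.one_le_iff_ne_zero.2 (by positivity)
  have e3 : (((3 * g ^ 6 * q : ℕ) : ℤ) + 1 - -((3 * g ^ 6 * q : ℕ) : ℤ)).toNat ≤ 7 * g ^ 6 * q := by
    have e4 : 3 * g ^ 6 * q = 3 * (g ^ 6 * q) := by ring
    have e5 : 7 * g ^ 6 * q = 7 * (g ^ 6 * q) := by ring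
    rw [e4, e5]
    omega
  have e6 : 6 * g ^ 6 * q * g ^ 16 + 1 - 1 = 6 * g ^ 6 * q * g ^ 16 := by omega
  rw [e6]
  exact Nat.mul_le_mul_left _ (Nat.pow_le_pow_left e3 3)

theorem alpha (g q : ℕ) (hg : 1 ≤ g) (hq : 1 ≤ q) (x : Fin 4 → ℤ) (hx : x ∈ GG g q) :
    ∑ y ∈ (GG g q).filter (fun y => y ≠ x ∧ Del x y ≤ Dd x y * g ^ 16),
      (Dd x y : ℝ) / (Del x y : ℝ) ≤ 46656 * (q : ℝ) ^ 6 * (g : ℝ) ^ 30 := by
  obtain ⟨f, hf, hf0, hfH⟩ := GG_good hx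
  have hg0 : (0 : ℝ) < g := by exact_mod_cast hg
  have hq0 : (0 : ℝ) < q := by exact_mod_cast hq
  have hterm : ∀ y ∈ (GG g q).filter (fun y => y ≠ x ∧ Del x y ≤ Dd x y * g ^ 16),
      (Dd x y : ℝ) / (Del x y : ℝ) ≤ 3 * (g : ℝ) ^ 6 * q / (g : ℝ) ^ 16 := by
    intro y hy
    rw [Finset.mem_filter] at hy
    obtain ⟨-, k2, -, k4, -⟩ := Alpha_key hg hx hy.1 hy.2.1 hy.2.2 f hf hf0 hfH
    have hΔ : (0 : ℝ) < (Del x y : ℝ) := by exact_mod_cast k2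
    rw [div_le_div_iff₀ hΔ (by positivity)]
    have k6 : (g : ℝ) ^ 16 * (Dd x y : ℝ) ≤ 3 * (g : ℝ) ^ 6 * q * (Del x y : ℝ) := by
      exact_mod_cast k4
    linarith
  have hsum := Finset.sum_le_card_nsmul _ _ _ hterm
  refine hsum.trans ?_
  rw [nsmul_eq_mul]
  have hc : (((GG g q).filter (fun y => y ≠ x ∧ Del x y ≤ Dd x y * g ^ 16)).card : ℝ) ≤
      (q : ℝ) * (6 * (g : ℝ) ^ 6 * q * (g : ℝ) ^ 16 * (7 * (g : ℝ) ^ 6 * q) ^ 3) := by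
    exact_mod_cast Alpha_card g q hg hq x hx f hf hf0 hfH
  calc _ ≤ (q : ℝ) * (6 * (g : ℝ) ^ 6 * q * (g : ℝ) ^ 16 * (7 * (g : ℝ) ^ 6 * q) ^ 3) *
        (3 * (g : ℝ) ^ 6 * q / (g : ℝ) ^ 16) := mul_le_mul_of_nonneg_right hc (by positivity)
    _ = 6174 * (q : ℝ) ^ 6 * (g : ℝ) ^ 30 := by
        field_simp
        ring
    _ ≤ 46656 * (q : ℝ) ^ 6 * (g : ℝ) ^ 30 := by
        have : (0 : ℝ) ≤ (q : ℝ) ^ 6 * (g : ℝ) ^ 30 := by positivity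
        nlinarith

end Pool.Agent.Lib.MP_1ad228_ntC
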