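import Pool.Agent.Lib.MP_1ad228_ntC.Basic

/-!
JOB BX_Perp.  Integer points of a box on a primitive hyperplane.

PROOF.  Let `u` be a vector with `lin u f = 1`.  For `0 ≤ m < r` let `v m : Fin 4 → ℤ` be
`v m j = (m * u j) % r` for `j ≠ i` and `v m i = 0`, so `0 ≤ v m j < r` (`Int.emod_nonneg`, `Int.emod_lt_of_pos`).
Map `(m, x)` (`m ∈ Finset.range r`, `x` in the set `Z = (VBox B).filter (lin f x = 0)`) to the vector `y`
with `y i = 0`, `y j = x j + v m j` for `j ≠ i` (`fun j => if j = i then 0 else x j + (m * u j) % r`).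
It lies in `Fintype.piFinset fun j => if j = i then {0} else Finset.Icc (-(B:ℤ)) (B + r)`, whose cardinality is
`(2 * B + r + 1)^3 ≤ (4 B)^3 = 64 B^3` (`Fintype.card_piFinset`, `Finset.prod_ite`-style or `fin_cases i` and
`Fin.prod_univ_four`).
The map is injective: modulo `r` (note `(r:ℤ) ∣ f i`)
`∑ j, f j * y j ≡ ∑_{j ≠ i} f j * x j + m ∑_{j ≠ i} f j * u j ≡ - f i * x i + m (1 - f i * u i) ≡ m`,
so `y` determines `m` (`0 ≤ m < r`), hence `x j` for `j ≠ i`, hence `f i * x i = - ∑_{j ≠ i} f j * x j` and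
`x i` (`f i ≠ 0`).
`Finset.card_le_card_of_injOn`, `Finset.card_product`.
-/

namespace Pool.Agent.Lib.MP_1ad228_ntC

open Classical

private theorem perp_card (i : Fin 4) (c : ℕ) : ∏ j : Fin 4, (if j = i then 1 else c) = c ^ 3 := by
  fin_cases i <;> simp [Fin.prod_univ_four] <;> ring

theorem perpCount (B r : ℕ) (hr : 1 ≤ r) (hrB : r ≤ B) (f : Fin 4 → ℤ) (hf : Uni f) (i : Fin 4)
    (hi : |f i| = (r : ℤ)) :
    r * ((VBox B).filter fun x => lin f x = 0).card ≤ 64 * B ^ 3 := by
  obtain ⟨u, hu⟩ := hf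
  have hr0 : (0 : ℤ) < (r : ℤ) := by exact_mod_cast hr
  have hfi : f i ≠ 0 := by
    intro h
    rw [h, abs_zero] at hi
    omega
  have hdvd : (r : ℤ) ∣ f i := by
    rw [← hi]
    exact (abs_dvd _ _).2 dvd_rfl
  set Z := (VBox B).filter fun x => lin f x = 0 with hZ
  let φ : ℕ × (Fin 4 → ℤ) → (Fin 4 → ℤ) := fun p j => if j = i then 0 else p.2 j + ((p.1 : ℤ) * u j) % (r : ℤ)
  let T : Finset (Fin 4 → ℤ) := Fintype.piFinset fun j => if j = i then {0} else Finset.Icc (-(B : ℤ)) (B + r)
  have hT : T.card = (2 * B + r + 1) ^ 3 := by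
    have h1 : ∀ j : Fin 4, (if j = i then ({0} : Finset ℤ) else Finset.Icc (-(B : ℤ)) (B + r)).card =
        if j = i then 1 else (2 * B + r + 1) := by
      intro j
      split_ifs with h
      · simp
      · rw [Int.card_Icc]
        omega
    simp only [T, Fintype.card_piFinset, h1]
    exact perp_card i _
  have hmaps : ∀ p ∈ Finset.range r ×ˢ Z, φ p ∈ T := by
    intro p hp
    rw [Finset.mem_product, Finset.mem_range, hZ, Finset.mem_filter, mem_VBox] at hp
    simp only [T, Fintype.mem_piFinset, φ]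
    intro j
    split_ifs with h
    · simp
    · have h1 := Int.emod_nonneg ((p.1 : ℤ) * u j) hr0.ne'
      have h2 := Int.emod_lt_of_pos ((p.1 : ℤ) * u j) hr0
      have h3 := abs_le.1 (hp.2.1 j)
      rw [Finset.mem_Icc]
      constructor <;> linarith [h3.1, h3.2]
  have key : ∀ p ∈ Finset.range r ×ˢ Z, (r : ℤ) ∣ (∑ j, f j * φ p j) - p.1 := by
    intro p hp
    rw [Finset.mem_product, Finset.mem_range, hZ, Finset.mem_filter] at hp
    have h1 : ∀ j, (r : ℤ) ∣ f j * φ p j - (f j * p.2 j + (p.1 : ℤ) * (u j * f j)) := by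
      intro j
      by_cases h : j = i
      · have h2 : f j * φ p j - (f j * p.2 j + (p.1 : ℤ) * (u j * f j)) =
            f j * (φ p j - (p.2 j + (p.1 : ℤ) * u j)) := by ring
        rw [h2, h]
        exact Dvd.dvd.mul_right hdvd _
      · have h2 : f j * φ p j - (f j * p.2 j + (p.1 : ℤ) * (u j * f j)) =
            f j * (((p.1 : ℤ) * u j) % (r : ℤ) - (p.1 : ℤ) * u j) := by
          simp only [φ, if_neg h]
          ring
        rw [h2]
        refine Dvd.dvd.mul_left ?_ _
        have h3 := Int.emod_add_mul_ediv ((p.1 : ℤ) * u j) (r : ℤ)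
        refine ⟨-(((p.1 : ℤ) * u j) / (r : ℤ)), ?_⟩
        linear_combination h3
    have h2 : (∑ j, f j * φ p j) - p.1 = ∑ j, (f j * φ p j - (f j * p.2 j + (p.1 : ℤ) * (u j * f j))) := by
      rw [Finset.sum_sub_distrib, Finset.sum_add_distrib, ← Finset.mul_sum]
      have h3 : ∑ j, f j * p.2 j = 0 := hp.2.2
      have h4 : ∑ j, u j * f j = 1 := hu
      rw [h3, h4]
      ring
    rw [h2]
    exact Finset.dvd_sum (fun j _ => h1 j)
  have hinj : Set.InjOn φ (↑(Finset.range r ×ˢ Z) : Set (ℕ × (Fin 4 → ℤ))) := by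
    intro p hp q hq hpq
    rw [Finset.mem_coe] at hp hq
    have kp := key p hp
    have kq := key q hq
    rw [hpq] at kp
    rw [Finset.mem_product, Finset.mem_range, hZ, Finset.mem_filter] at hp hq
    have h1 : (r : ℤ) ∣ (p.1 : ℤ) - q.1 := by
      have := dvd_sub kq kp
      have h2 : (∑ j, f j * φ q j) - (q.1 : ℤ) - ((∑ j, f j * φ q j) - (p.1 : ℤ)) = (p.1 : ℤ) - q.1 := by ring
      rwa [h2] at this
    have h2 : (p.1 : ℤ) - q.1 = 0 := by
      refine Int.eq_zero_of_abs_lt_dvd h1 ?_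
      rw [abs_lt]
      constructor <;> omega
    have h3 : p.1 = q.1 := by omega
    have h4 : ∀ j, j ≠ i → p.2 j = q.2 j := by
      intro j hj
      have := congrFun hpq j
      simp only [φ, if_neg hj, h3] at this
      linarith
    have h5 : p.2 i = q.2 i := by
      have e1 : ∑ j, f j * p.2 j = 0 := hp.2.2
      have e2 : ∑ j, f j * q.2 j = 0 := hq.2.2
      have e3 : ∑ j, f j * (p.2 j - q.2 j) = 0 := by
        simp only [mul_sub, Finset.sum_sub_distrib, e1, e2, sub_zero]
      rw [Finset.sum_eq_single i] at e3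
      · rcases mul_eq_zero.1 e3 with h | h
        · exact absurd h hfi
        · linarith
      · intro j _ hj
        rw [h4 j hj, sub_self, mul_zero]
      · intro h
        exact absurd (Finset.mem_univ i) h
    refine Prod.ext h3 (funext fun j => ?_)
    by_cases hj : j = i
    · rw [hj]
      exact h5
    · exact h4 j hj
  have hcard := Finset.card_le_card_of_injOn φ hmaps hinj
  rw [Finset.card_product, Finset.card_range, hT] at hcard
  refine hcard.trans ?_
  have h1 : 2 * B + r + 1 ≤ 4 * B := by omega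
  calc (2 * B + r + 1) ^ 3 ≤ (4 * B) ^ 3 := Nat.pow_le_pow_left h1 3
    _ = 64 * B ^ 3 := by ring

end Pool.Agent.Lib.MP_1ad228_ntC
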