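import Pool.Agent.Lib.MP_1ad228_ntC.BX_Two

/-!
JOB BX_Short.  A bad point has a very short orthogonal vector (paper section 6).

PROOF.  Let `H = g^6`, `B = g^16`. The `(H+1)^4` vectors `f` of `P = Fintype.piFinset fun _ => Finset.Icc 0 H`
have `lin f x` in `Finset.Icc (-(4 H B)) (4 H B)`, a set with `8 H B + 1` elements. By the pigeonhole
principle (`Finset.exists_le_card_fiber_of_mul_le_card_of_maps_to` or
`Finset.exists_lt_card_fiber_of_mul_lt_card_of_maps_to`, `n = (g / 7 + 1)^2`, natural division) there is a value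
`v` such that `S = P.filter (lin f x = v)` has more than `(g/7+1)^2` elements: because
`(8 g^22 + 1) (g/7+1)^2 < (g^6+1)^4` (from `7 * (g/7) ≤ g`, so `49 (g/7+1)^2 ≤ (g+7)^2 ≤ (1.07 g)^2`,
`g ≥ 100`).  Differences of elements of `S` are orthogonal to `x` and bounded by `H`, so `det0` and `twoCoord`
give coordinates `i, j`. Map `f ∈ S` to `(f i / (7 g^5), f j / (7 g^5))` in
`Finset.Icc 0 (g/7) ×ˢ Finset.Icc 0 (g/7)` (`f i ≤ g^6`, so `f i / (7 g^5) ≤ g / 7`: if `c = f i / (7 g^5)`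
then `7 g^5 c ≤ g^6`, `7 c ≤ g`). Two different elements `a, b` of `S` have the same image
(`Finset.exists_ne_map_eq_of_card_lt_of_maps_to`); then `|b i - a i| ≤ 7 g^5`, `|b j - a j| ≤ 7 g^5`, and
`b - a` is the wanted vector; finally `primPerp`.
-/

namespace Pool.Agent.Lib.MP_1ad228_ntC

open Classical

theorem BX_Short_lin_bound (x f : Fin 4 → ℤ) (H B : ℤ) (hH : 0 ≤ H)
    (hf : ∀ i, |f i| ≤ H) (hx : ∀ i, |x i| ≤ B) : |lin f x| ≤ 4 * (H * B) := by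
  unfold lin
  refine (Finset.abs_sum_le_sum_abs _ _).trans ?_
  have h : ∀ i ∈ (Finset.univ : Finset (Fin 4)), |f i * x i| ≤ H * B := by
    intro i _
    rw [abs_mul]
    exact mul_le_mul (hf i) (hx i) (abs_nonneg _) hH
  refine (Finset.sum_le_sum h).trans ?_
  rw [Finset.sum_const, Finset.card_univ, Fintype.card_fin]
  simp

theorem BX_Short_num (g : ℕ) (hg : 100 ≤ g) :
    (8 * g ^ 22 + 1) * (g / 7 + 1) ^ 2 < (g ^ 6 + 1) ^ 4 := by
  have h1 : 7 * (g / 7 + 1) ≤ g + 7 := by omega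
  have h2 : (g + 7) ^ 2 ≤ 2 * g ^ 2 := by nlinarith
  have h3 : 49 * (g / 7 + 1) ^ 2 ≤ 2 * g ^ 2 := by
    calc 49 * (g / 7 + 1) ^ 2 = (7 * (g / 7 + 1)) ^ 2 := by ring
      _ ≤ (g + 7) ^ 2 := Nat.pow_le_pow_left h1 2
      _ ≤ _ := h2
  have hpos : 0 < g := by omega
  have h4 : g ^ 2 ≤ g ^ 24 := Nat.pow_le_pow_right hpos (by norm_num)
  have h5 : 0 < g ^ 24 := Nat.pow_pos hpos
  have h6 : 49 * ((8 * g ^ 22 + 1) * (g / 7 + 1) ^ 2) ≤ 18 * g ^ 24 := by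
    calc 49 * ((8 * g ^ 22 + 1) * (g / 7 + 1) ^ 2)
        = (8 * g ^ 22 + 1) * (49 * (g / 7 + 1) ^ 2) := by ring
      _ ≤ (8 * g ^ 22 + 1) * (2 * g ^ 2) := Nat.mul_le_mul_left _ h3
      _ = 16 * g ^ 24 + 2 * g ^ 2 := by ring
      _ ≤ 18 * g ^ 24 := by omega
  have h7 : g ^ 24 ≤ (g ^ 6 + 1) ^ 4 := by
    calc g ^ 24 = (g ^ 6) ^ 4 := by ring
      _ ≤ _ := Nat.pow_le_pow_left (Nat.le_succ _) 4
  omega

theorem BX_Short_div {c a b : ℤ} (hc : 0 < c) (h : a / c = b / c) : |b - a| ≤ c := by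
  have h1 := Int.mul_ediv_add_emod a c
  have h2 := Int.mul_ediv_add_emod b c
  have h3 := Int.emod_nonneg a hc.ne'
  have h4 := Int.emod_nonneg b hc.ne'
  have h5 := Int.emod_lt_of_pos a hc
  have h6 := Int.emod_lt_of_pos b hc
  rw [h] at h1
  rw [abs_le]
  constructor <;> linarith

theorem shortPerp (g : ℕ) (hg : 100 ≤ g) (x : Fin 4 → ℤ) (hx : x ∈ VBox (g ^ 16))
    (hn : ¬ HGood (g ^ 6) x) :
    ∃ f : Fin 4 → ℤ, Uni f ∧ lin f x = 0 ∧ ∀ i, |f i| ≤ 15 * (g : ℤ) ^ 5 := by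
  have hgp : (0 : ℤ) < (g : ℤ) := by exact_mod_cast (by omega : 0 < g)
  have hx' := mem_VBox.1 hx
  set P : Finset (Fin 4 → ℤ) := Fintype.piFinset fun _ => Finset.Icc (0 : ℤ) ((g : ℤ) ^ 6) with hP
  set V : Finset ℤ := Finset.Icc (-(4 * (g : ℤ) ^ 22)) (4 * (g : ℤ) ^ 22) with hV
  have hPc : P.card = (g ^ 6 + 1) ^ 4 := by
    rw [hP, Fintype.card_piFinset, Finset.prod_const, Finset.card_univ, Fintype.card_fin,
      Int.card_Icc]
    have : ((g : ℤ) ^ 6 + 1 - 0).toNat = g ^ 6 + 1 := by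
      have : ((g : ℤ) ^ 6 + 1 - 0) = ((g ^ 6 + 1 : ℕ) : ℤ) := by push_cast; ring
      rw [this, Int.toNat_natCast]
    rw [this]
  have hVc : V.card = 8 * g ^ 22 + 1 := by
    rw [hV, Int.card_Icc]
    have : (4 * (g : ℤ) ^ 22 + 1 - -(4 * (g : ℤ) ^ 22)) = ((8 * g ^ 22 + 1 : ℕ) : ℤ) := by
      push_cast; ring
    rw [this, Int.toNat_natCast]
  have hPm : ∀ f ∈ P, ∀ i, 0 ≤ f i ∧ f i ≤ (g : ℤ) ^ 6 := by
    intro f hf i
    rw [hP, Fintype.mem_piFinset] at hf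
    exact Finset.mem_Icc.1 (hf i)
  have hmaps : ∀ f ∈ P, lin f x ∈ V := by
    intro f hf
    have h := BX_Short_lin_bound x f ((g : ℤ) ^ 6) ((g : ℤ) ^ 16) (by positivity)
      (fun i => by rw [abs_of_nonneg (hPm f hf i).1]; exact (hPm f hf i).2)
      (fun i => by have := hx' i; push_cast at this; exact this)
    have h2 : 4 * ((g : ℤ) ^ 6 * (g : ℤ) ^ 16) = 4 * (g : ℤ) ^ 22 := by ring
    rw [h2] at h
    rw [hV, Finset.mem_Icc]
    exact abs_le.1 h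
  obtain ⟨v, -, hv⟩ := Finset.exists_lt_card_fiber_of_mul_lt_card_of_maps_to (n := (g / 7 + 1) ^ 2)
    hmaps (by rw [hPc, hVc]; exact BX_Short_num g hg)
  set S := P.filter fun f => lin f x = v with hS
  have hSm : ∀ f ∈ S, (∀ i, 0 ≤ f i ∧ f i ≤ (g : ℤ) ^ 6) ∧ lin f x = v := by
    intro f hf
    rw [hS, Finset.mem_filter] at hf
    exact ⟨hPm f hf.1, hf.2⟩
  have hdiff : ∀ o ∈ S, ∀ a ∈ S, lin (a - o) x = 0 ∧ ∀ i, |(a - o) i| ≤ ((g ^ 6 : ℕ) : ℤ) := by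
    intro o ho a ha
    refine ⟨?_, fun i => ?_⟩
    · rw [lin_sub, (hSm o ho).2, (hSm a ha).2, sub_self]
    · have h1 := (hSm o ho).1 i
      have h2 := (hSm a ha).1 i
      rw [Pi.sub_apply, abs_le]
      push_cast
      constructor <;> linarith [h1.1, h1.2, h2.1, h2.2]
  obtain ⟨i, j, hij⟩ := twoCoord S (by
    intro o ho a ha b hb c hc i j k
    have h1 := hdiff o ho a ha
    have h2 := hdiff o ho b hb
    have h3 := hdiff o ho c hc
    have := det0 (g ^ 6) x hn (a - o) (b - o) (c - o) h1.1 h2.1 h3.1 h1.2 h2.2 h3.2 i j k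
    simpa only [Pi.sub_apply] using this)
  have hc7 : (0 : ℤ) < 7 * (g : ℤ) ^ 5 := by positivity
  have hmap2 : ∀ f ∈ S, (f i / (7 * (g : ℤ) ^ 5), f j / (7 * (g : ℤ) ^ 5)) ∈
      Finset.Icc (0 : ℤ) ((g / 7 : ℕ) : ℤ) ×ˢ Finset.Icc (0 : ℤ) ((g / 7 : ℕ) : ℤ) := by
    intro f hf
    have key : ∀ l, f l / (7 * (g : ℤ) ^ 5) ∈ Finset.Icc (0 : ℤ) ((g / 7 : ℕ) : ℤ) := by
      intro l
      have hl := (hSm f hf).1 l
      rw [Finset.mem_Icc]
      refine ⟨Int.ediv_nonneg hl.1 hc7.le, ?_⟩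
      rw [Int.natCast_div]
      refine Int.le_ediv_of_mul_le (by norm_num) ?_
      have h1 : f l / (7 * (g : ℤ) ^ 5) * (7 * (g : ℤ) ^ 5) ≤ f l := Int.ediv_mul_le _ hc7.ne'
      have h2 : f l / (7 * (g : ℤ) ^ 5) * 7 * (g : ℤ) ^ 5 ≤ (g : ℤ) * (g : ℤ) ^ 5 := by
        nlinarith [hl.2]
      exact le_of_mul_le_mul_right h2 (by positivity)
    exact Finset.mem_product.2 ⟨key i, key j⟩
  obtain ⟨a, ha, b, hb, hne, hab⟩ := Finset.exists_ne_map_eq_of_card_lt_of_maps_to (by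
    rw [Finset.card_product, Int.card_Icc]
    have : (((g / 7 : ℕ) : ℤ) + 1 - 0).toNat = g / 7 + 1 := by omega
    rw [this, ← pow_two]
    exact hv) hmap2
  have hab1 : a i / (7 * (g : ℤ) ^ 5) = b i / (7 * (g : ℤ) ^ 5) := congrArg Prod.fst hab
  have hab2 : a j / (7 * (g : ℤ) ^ 5) = b j / (7 * (g : ℤ) ^ 5) := congrArg Prod.snd hab
  have h1 := BX_Short_div hc7 hab1
  have h2 := BX_Short_div hc7 hab2
  refine primPerp (15 * (g : ℤ) ^ 5) x (b - a) (sub_ne_zero.2 hne.symm) (hdiff a ha b hb).1 ?_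
  intro k
  rw [Pi.sub_apply]
  refine (hij a ha b hb k).trans ?_
  have : (0 : ℤ) < (g : ℤ) ^ 5 := by positivity
  linarith

end Pool.Agent.Lib.MP_1ad228_ntC
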