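import Pool.Agent.Lib.MP_1ad228_ntC.Basic

/-!
JOB BX_Two.  Sets of vectors of rank at most two; primitive vectors.

PROOF.
`det0`: if the minor is not zero then `![a, b, c]` is linearly independent over ℤ
(`Fintype.linearIndependent_iff`, `Fin.sum_univ_three`: from `l a + m b + n c = 0` at the coordinates
`i, j, k` one gets `l * minor = 0`, `m * minor = 0`, `n * minor = 0` by Cramer (`linear_combination`)), so
`HGood H x`.
`twoCoord`: let `D p q i j = (p i - o i) * (q j - o j) - (p j - o j) * (q i - o i)` for `p q ∈ S`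
where `o` is a fixed element of `S`. Take `(p, q, i, j)` in `S ×ˢ S ×ˢ univ ×ˢ univ` maximising `|D|`
(`Finset.exists_max_image`). For `a, b ∈ S` put `s = b - a = (b - o) - (a - o)`. By the hypothesis applied to
`(o, b, p, q)` and to `(o, a, p, q)` (both linear in the first vector, subtract):
`s k * D p q i j = s i * D p q k j - s j * D p q k i`. If the maximum `M` is positive then
`|s k| M ≤ |s i| M + |s j| M`. If the maximum is 0, all the vectors `a - o` (`a ∈ S`) are parallel: take
`(p, i)` maximising `|p i - o i|`; if this is 0 then every element of `S` is `o` and everything is 0;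
otherwise `(a k - o k) (p i - o i) = (a i - o i) (p k - o k)` and the same for `b`, subtract:
`|s k| |p i - o i| = |s i| |p k - o k| ≤ |s i| |p i - o i|`; take `j = i`.
`primPerp`: the ideal spanned by the coordinates of `f` is generated by some `d ≠ 0`
(`IsPrincipalIdealRing.principal`, or `Int.gcd` of the four coordinates); `f = d • f'`; `d = ∑ u_i f_i`
(`Ideal.mem_span_range_iff_exists_fun`) so `∑ u_i f'_i = 1`; `|f' i| ≤ |f i|`.
-/

namespace Pool.Agent.Lib.MP_1ad228_ntC

open Classical

theorem det0 (H : ℕ) (x : Fin 4 → ℤ) (hx : ¬ HGood H x) (a b c : Fin 4 → ℤ)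
    (ha : lin a x = 0) (hb : lin b x = 0) (hc : lin c x = 0) (ha' : ∀ i, |a i| ≤ (H : ℤ))
    (hb' : ∀ i, |b i| ≤ (H : ℤ)) (hc' : ∀ i, |c i| ≤ (H : ℤ)) (i j k : Fin 4) :
    a k * (b i * c j - b j * c i) = a i * (b k * c j - b j * c k) - a j * (b k * c i - b i * c k) := by
  by_contra hne
  refine hx ⟨![a, b, c], ?_, ?_, ?_⟩
  · have hD : a k * (b i * c j - b j * c i) - (a i * (b k * c j - b j * c k) - a j * (b k * c i - b i * c k)) ≠ 0 :=
      sub_ne_zero.2 hne
    rw [Fintype.linearIndependent_iff]
    intro g hg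
    simp only [Fin.sum_univ_three, Matrix.cons_val_zero, Matrix.cons_val_one, Matrix.cons_val] at hg
    have e : ∀ t, g 0 * a t + g 1 * b t + g 2 * c t = 0 := by
      intro t
      have := congrFun hg t
      simpa [Pi.add_apply, Pi.smul_apply, smul_eq_mul] using this
    have e0 : g 0 = 0 := by
      have : g 0 * (a k * (b i * c j - b j * c i) -
          (a i * (b k * c j - b j * c k) - a j * (b k * c i - b i * c k))) = 0 := by
        linear_combination (b j * c k - b k * c j) * e i - (b i * c k - b k * c i) * e j +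
          (b i * c j - b j * c i) * e k
      exact (mul_eq_zero.1 this).resolve_right hD
    have e1 : g 1 = 0 := by
      have : g 1 * (a k * (b i * c j - b j * c i) -
          (a i * (b k * c j - b j * c k) - a j * (b k * c i - b i * c k))) = 0 := by
        linear_combination (a k * c j - a j * c k) * e i + (a i * c k - a k * c i) * e j +
          (a j * c i - a i * c j) * e k
      exact (mul_eq_zero.1 this).resolve_right hD
    have e2 : g 2 = 0 := by
      have : g 2 * (a k * (b i * c j - b j * c i) -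
          (a i * (b k * c j - b j * c k) - a j * (b k * c i - b i * c k))) = 0 := by
        linear_combination (a j * b k - a k * b j) * e i + (a k * b i - a i * b k) * e j +
          (a i * b j - a j * b i) * e k
      exact (mul_eq_zero.1 this).resolve_right hD
    intro t
    fin_cases t
    · exact e0
    · exact e1
    · exact e2
  · intro s
    fin_cases s
    · exact ha
    · exact hb
    · exact hc
  · intro s
    fin_cases s
    · exact ha'
    · exact hb'
    · exact hc'

theorem twoCoord (S : Finset (Fin 4 → ℤ))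
    (h : ∀ o ∈ S, ∀ a ∈ S, ∀ b ∈ S, ∀ c ∈ S, ∀ i j k : Fin 4,
      (a k - o k) * ((b i - o i) * (c j - o j) - (b j - o j) * (c i - o i)) =
        (a i - o i) * ((b k - o k) * (c j - o j) - (b j - o j) * (c k - o k)) -
        (a j - o j) * ((b k - o k) * (c i - o i) - (b i - o i) * (c k - o k))) :
    ∃ i j : Fin 4, ∀ a ∈ S, ∀ b ∈ S, ∀ k, |b k - a k| ≤ |b i - a i| + |b j - a j| := by
  rcases S.eq_empty_or_nonempty with hS | ⟨o, ho⟩
  · subst hS
    exact ⟨0, 0, fun a ha => absurd ha (Finset.notMem_empty a)⟩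
  let D : (Fin 4 → ℤ) → (Fin 4 → ℤ) → Fin 4 → Fin 4 → ℤ := fun p q i j =>
    (p i - o i) * (q j - o j) - (p j - o j) * (q i - o i)
  obtain ⟨⟨p, q, i, j⟩, hmem, hmax⟩ := Finset.exists_max_image
    (S ×ˢ S ×ˢ (Finset.univ : Finset (Fin 4)) ×ˢ (Finset.univ : Finset (Fin 4)))
    (fun z => |D z.1 z.2.1 z.2.2.1 z.2.2.2|)
    ⟨(o, o, 0, 0), by
      rw [Finset.mem_product, Finset.mem_product, Finset.mem_product]
      exact ⟨ho, ho, Finset.mem_univ _, Finset.mem_univ _⟩⟩
  rw [Finset.mem_product, Finset.mem_product] at hmem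
  have hp : p ∈ S := hmem.1
  have hq : q ∈ S := hmem.2.1
  have hmax' : ∀ p' ∈ S, ∀ q' ∈ S, ∀ i' j', |D p' q' i' j'| ≤ |D p q i j| := by
    intro p' hp' q' hq' i' j'
    refine hmax (p', q', i', j') ?_
    rw [Finset.mem_product, Finset.mem_product, Finset.mem_product]
    exact ⟨hp', hq', Finset.mem_univ _, Finset.mem_univ _⟩
  rcases (abs_nonneg (D p q i j)).lt_or_eq with hM | hM
  · refine ⟨i, j, fun a ha b hb k => ?_⟩
    have h1 : (b k - a k) * D p q i j = (b i - a i) * D p q k j - (b j - a j) * D p q k i := by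
      have e1 := h o ho b hb p hp q hq i j k
      have e2 := h o ho a ha p hp q hq i j k
      simp only [D]
      linear_combination e1 - e2
    have h2 : |b k - a k| * |D p q i j| ≤ (|b i - a i| + |b j - a j|) * |D p q i j| := by
      rw [← abs_mul, h1]
      refine (abs_sub _ _).trans ?_
      rw [abs_mul, abs_mul, add_mul]
      exact add_le_add (mul_le_mul_of_nonneg_left (hmax' p hp q hq k j) (abs_nonneg _))
        (mul_le_mul_of_nonneg_left (hmax' p hp q hq k i) (abs_nonneg _))
    exact le_of_mul_le_mul_right h2 hM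
  · have hz : ∀ p' ∈ S, ∀ q' ∈ S, ∀ i' j', D p' q' i' j' = 0 := by
      intro p' hp' q' hq' i' j'
      have := hmax' p' hp' q' hq' i' j'
      rw [← hM] at this
      exact abs_nonpos_iff.1 this
    obtain ⟨⟨r, t⟩, hmem2, hmax2⟩ := Finset.exists_max_image
      (S ×ˢ (Finset.univ : Finset (Fin 4))) (fun z => |z.1 z.2 - o z.2|)
      ⟨(o, 0), by
        rw [Finset.mem_product]
        exact ⟨ho, Finset.mem_univ _⟩⟩
    rw [Finset.mem_product] at hmem2
    have hr : r ∈ S := hmem2.1
    have hmax2' : ∀ r' ∈ S, ∀ t', |r' t' - o t'| ≤ |r t - o t| := by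
      intro r' hr' t'
      refine hmax2 (r', t') ?_
      rw [Finset.mem_product]
      exact ⟨hr', Finset.mem_univ _⟩
    refine ⟨t, t, fun a ha b hb k => ?_⟩
    rcases (abs_nonneg (r t - o t)).lt_or_eq with hM2 | hM2
    · have e1 := hz a ha r hr k t
      have e2 := hz b hb r hr k t
      simp only [D] at e1 e2
      have h1 : (b k - a k) * (r t - o t) = (b t - a t) * (r k - o k) := by
        linear_combination e2 - e1
      have h2 : |b k - a k| * |r t - o t| ≤ |b t - a t| * |r t - o t| := by
        rw [← abs_mul, h1, abs_mul]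
        exact mul_le_mul_of_nonneg_left (hmax2' r hr k) (abs_nonneg _)
      have h3 := le_of_mul_le_mul_right h2 hM2
      have h4 := abs_nonneg (b t - a t)
      linarith
    · have e1 : a k = o k := by
        have := hmax2' a ha k
        rw [← hM2] at this
        exact sub_eq_zero.1 (abs_nonpos_iff.1 this)
      have e2 : b k = o k := by
        have := hmax2' b hb k
        rw [← hM2] at this
        exact sub_eq_zero.1 (abs_nonpos_iff.1 this)
      rw [e1, e2, sub_self, abs_zero]
      positivity

theorem primPerp (R : ℤ) (x f : Fin 4 → ℤ) (hf : f ≠ 0) (hx : lin f x = 0) (hR : ∀ i, |f i| ≤ R) :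
    ∃ f' : Fin 4 → ℤ, Uni f' ∧ lin f' x = 0 ∧ ∀ i, |f' i| ≤ R := by
  obtain ⟨d, hd⟩ := (IsPrincipalIdealRing.principal (Ideal.span (Set.range f))).principal
  have h1 : d ∈ Ideal.span (Set.range f) := by
    rw [hd]
    exact Ideal.mem_span_singleton_self d
  obtain ⟨c, hc⟩ := Ideal.mem_span_range_iff_exists_fun.1 h1
  have h2 : ∀ i, ∃ y, f i = d * y := by
    intro i
    have h3 : f i ∈ Ideal.span (Set.range f) := Ideal.subset_span ⟨i, rfl⟩
    rw [hd] at h3
    exact Ideal.mem_span_singleton.1 h3
  choose f' hf' using h2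
  have hd0 : d ≠ 0 := by
    intro h
    refine hf (funext fun i => ?_)
    rw [hf' i, h, zero_mul]
    rfl
  have h4 : ∀ y : Fin 4 → ℤ, lin f y = d * lin f' y := by
    intro y
    unfold lin
    rw [Finset.mul_sum]
    refine Finset.sum_congr rfl fun i _ => ?_
    rw [hf' i]
    ring
  refine ⟨f', ⟨c, ?_⟩, ?_, ?_⟩
  · have h5 : d * lin c f' = d * 1 := by
      rw [mul_one, lin_comm, ← h4, lin_comm]
      exact hc
    exact mul_left_cancel₀ hd0 h5
  · have h5 : d * lin f' x = 0 := by rw [← h4, hx]
    exact (mul_eq_zero.1 h5).resolve_left hd0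
  · intro i
    refine le_trans ?_ (hR i)
    rw [hf' i, abs_mul]
    have h5 : 1 ≤ |d| := Int.one_le_abs hd0
    have h6 := abs_nonneg (f' i)
    nlinarith

end Pool.Agent.Lib.MP_1ad228_ntC
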