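import Pool.Agent.Lib.MP_1ad228_ntC.BX_Short
import Pool.Agent.Lib.MP_1ad228_ntC.BX_Perp

/-!
JOB BadX.  Few bad points (paper section 6).

PROOF.  `R = 15 g^5`. By `shortPerp` the set is contained in the union over `r ∈ Finset.Icc 1 R`, `i : Fin 4`, and
`f ∈ F r i := (VBox r).filter (fun f => |f i| = r ∧ Uni f)` of `(VBox B).filter (lin f x = 0)`
(`i` = a coordinate with `|f i|` maximal, `r = |f i|`, `r ≥ 1` because `Uni f` is impossible for `f = 0`).
`(F r i).card ≤ 2 (2r+1)^3 ≤ 54 r^3` (the coordinate `i` is `r` or `-r`: contained in the `piFinset` with `{r,-r}` at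
`i` and `Icc (-r) r` elsewhere). With `perpCount` each set has `r * card ≤ 64 B^3`. So the union over `f ∈ F r i`
has `r * card ≤ 54 r^3 * 64 B^3`, i.e. `card ≤ 3456 r^2 B^3`; four values of `i`: `13824 r^2 B^3`; sum over
`r ≤ R`: `≤ 13824 R^3 B^3 = 13824 * 3375 g^15 g^48 = 46656000 g^63`.
-/

namespace Pool.Agent.Lib.MP_1ad228_ntC

open Classical

/-- The primitive vectors with sup norm `r` attained at `i`. -/
noncomputable def BadX_F (r : ℕ) (i : Fin 4) : Finset (Fin 4 → ℤ) :=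
  (VBox r).filter fun f => |f i| = (r : ℤ) ∧ Uni f

theorem BadX_prod (i : Fin 4) (c : ℕ) :
    (∏ j : Fin 4, if j = i then 2 else c) = 2 * c ^ 3 := by
  fin_cases i <;> simp [Fin.prod_univ_four] <;> ring

theorem BadX_cardF (r : ℕ) (hr : 1 ≤ r) (i : Fin 4) : (BadX_F r i).card ≤ 54 * r ^ 3 := by
  have h1 : BadX_F r i ⊆ Fintype.piFinset fun j : Fin 4 =>
      if j = i then ({(r : ℤ), -(r : ℤ)} : Finset ℤ) else Finset.Icc (-(r : ℤ)) (r : ℤ) := by
    intro f hf
    rw [BadX_F, Finset.mem_filter] at hf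
    rw [Fintype.mem_piFinset]
    intro j
    by_cases hj : j = i
    · rw [if_pos hj, hj]
      rcases abs_choice (f i) with h | h
      · rw [h] at hf
        simp [hf.2.1]
      · rw [h] at hf
        have : f i = -(r : ℤ) := by linarith [hf.2.1]
        simp [this]
    · rw [if_neg hj, Finset.mem_Icc]
      exact abs_le.1 (mem_VBox.1 hf.1 j)
  refine (Finset.card_le_card h1).trans ?_
  rw [Fintype.card_piFinset]
  have h2 : (∏ j : Fin 4, (if j = i then ({(r : ℤ), -(r : ℤ)} : Finset ℤ)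
      else Finset.Icc (-(r : ℤ)) (r : ℤ)).card) ≤ ∏ j : Fin 4, (if j = i then 2 else (2 * r + 1)) := by
    refine Finset.prod_le_prod' fun j _ => ?_
    by_cases hj : j = i
    · rw [if_pos hj, if_pos hj]
      exact Finset.card_le_two
    · rw [if_neg hj, if_neg hj, Int.card_Icc]
      omega
  refine h2.trans ?_
  rw [BadX_prod]
  have h3 : 2 * r + 1 ≤ 3 * r := by omega
  calc 2 * (2 * r + 1) ^ 3 ≤ 2 * (3 * r) ^ 3 := Nat.mul_le_mul_left _ (Nat.pow_le_pow_left h3 3)
    _ = 54 * r ^ 3 := by ring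

/-- The points of the box orthogonal to `f`. -/
noncomputable def BadX_Z (B : ℕ) (f : Fin 4 → ℤ) : Finset (Fin 4 → ℤ) :=
  (VBox B).filter fun x => lin f x = 0

theorem BadX_cardU (B r : ℕ) (hr : 1 ≤ r) (hrB : r ≤ B) (i : Fin 4) :
    ((BadX_F r i).biUnion (BadX_Z B)).card ≤ 3456 * r ^ 2 * B ^ 3 := by
  have h1 : r * ((BadX_F r i).biUnion (BadX_Z B)).card ≤ r * (3456 * r ^ 2 * B ^ 3) := by
    calc r * ((BadX_F r i).biUnion (BadX_Z B)).card
        ≤ r * ∑ f ∈ BadX_F r i, (BadX_Z B f).card := Nat.mul_le_mul_left _ Finset.card_biUnion_le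
      _ = ∑ f ∈ BadX_F r i, r * (BadX_Z B f).card := Finset.mul_sum _ _ _
      _ ≤ ∑ _f ∈ BadX_F r i, 64 * B ^ 3 := by
          refine Finset.sum_le_sum fun f hf => ?_
          rw [BadX_F, Finset.mem_filter] at hf
          exact perpCount B r hr hrB f hf.2.2 i hf.2.1
      _ = (BadX_F r i).card * (64 * B ^ 3) := by rw [Finset.sum_const, smul_eq_mul]
      _ ≤ (54 * r ^ 3) * (64 * B ^ 3) := Nat.mul_le_mul_right _ (BadX_cardF r hr i)
      _ = r * (3456 * r ^ 2 * B ^ 3) := by ring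
  exact Nat.le_of_mul_le_mul_left h1 (by omega)

/-- paper section 6. -/
theorem badX (g : ℕ) (hg : 100 ≤ g) :
    ((VBox (g ^ 16)).filter fun x => ¬ HGood (g ^ 6) x).card ≤ 5 * 10 ^ 7 * g ^ 63 := by
  have hg0 : 0 < g := by omega
  set R := 15 * g ^ 5 with hR
  have hRB : R ≤ g ^ 16 := by
    calc R ≤ g ^ 1 * g ^ 5 := by rw [hR, pow_one]; exact Nat.mul_le_mul_right _ (by omega)
      _ = g ^ 6 := by ring
      _ ≤ g ^ 16 := Nat.pow_le_pow_right hg0 (by norm_num)
  have hsub : ((VBox (g ^ 16)).filter fun x => ¬ HGood (g ^ 6) x) ⊆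
      (Finset.Icc 1 R).biUnion fun r => (Finset.univ : Finset (Fin 4)).biUnion fun i =>
        (BadX_F r i).biUnion (BadX_Z (g ^ 16)) := by
    intro x hx
    rw [Finset.mem_filter] at hx
    obtain ⟨f, hf, hfx, hfR⟩ := shortPerp g hg x hx.1 hx.2
    obtain ⟨i, -, hi⟩ := Finset.exists_max_image (Finset.univ : Finset (Fin 4))
      (fun i => (f i).natAbs) ⟨0, Finset.mem_univ _⟩
    have hiR : (f i).natAbs ≤ R := by
      have := hfR i
      rw [Int.abs_eq_natAbs] at this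
      rw [hR]
      exact_mod_cast this
    have hi1 : 1 ≤ (f i).natAbs := by
      by_contra hcon
      have h0 : (f i).natAbs = 0 := by omega
      have hall : ∀ j, f j = 0 := by
        intro j
        have := hi j (Finset.mem_univ _)
        rw [h0] at this
        exact Int.natAbs_eq_zero.1 (by omega)
      obtain ⟨u, hu⟩ := hf
      have : lin u f = 0 := by
        unfold lin
        exact Finset.sum_eq_zero fun j _ => by rw [hall j, mul_zero]
      rw [this] at hu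
      exact zero_ne_one hu
    rw [Finset.mem_biUnion]
    refine ⟨(f i).natAbs, Finset.mem_Icc.2 ⟨hi1, hiR⟩, ?_⟩
    rw [Finset.mem_biUnion]
    refine ⟨i, Finset.mem_univ _, ?_⟩
    rw [Finset.mem_biUnion]
    refine ⟨f, ?_, ?_⟩
    · rw [BadX_F, Finset.mem_filter]
      refine ⟨mem_VBox.2 fun j => ?_, Int.abs_eq_natAbs _, hf⟩
      rw [Int.abs_eq_natAbs]
      exact_mod_cast hi j (Finset.mem_univ _)
    · rw [BadX_Z, Finset.mem_filter]
      exact ⟨hx.1, hfx⟩
  refine (Finset.card_le_card hsub).trans ?_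
  refine Finset.card_biUnion_le.trans ?_
  have h1 : ∀ r ∈ Finset.Icc 1 R, ((Finset.univ : Finset (Fin 4)).biUnion fun i =>
      (BadX_F r i).biUnion (BadX_Z (g ^ 16))).card ≤ 13824 * R ^ 2 * (g ^ 16) ^ 3 := by
    intro r hr
    rw [Finset.mem_Icc] at hr
    refine Finset.card_biUnion_le.trans ?_
    refine (Finset.sum_le_sum fun i _ => BadX_cardU (g ^ 16) r hr.1 (hr.2.trans hRB) i).trans ?_
    rw [Finset.sum_const, Finset.card_univ, Fintype.card_fin, smul_eq_mul]
    calc 4 * (3456 * r ^ 2 * (g ^ 16) ^ 3) = 13824 * r ^ 2 * (g ^ 16) ^ 3 := by ring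
      _ ≤ 13824 * R ^ 2 * (g ^ 16) ^ 3 :=
        Nat.mul_le_mul_right _ (Nat.mul_le_mul_left _ (Nat.pow_le_pow_left hr.2 2))
  refine (Finset.sum_le_sum h1).trans ?_
  rw [Finset.sum_const, Nat.card_Icc, smul_eq_mul, Nat.add_sub_cancel]
  calc R * (13824 * R ^ 2 * (g ^ 16) ^ 3) = 46656000 * g ^ 63 := by rw [hR]; ring
    _ ≤ 5 * 10 ^ 7 * g ^ 63 := Nat.mul_le_mul_right _ (by norm_num)

end Pool.Agent.Lib.MP_1ad228_ntC
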