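import Pool.Agent.Lib.MP_1ad228_ntC.Defs

namespace Pool.Agent.Lib.MP_1ad228_ntC

open Classical

section ring
variable {R : Type*} [CommRing R]

theorem ev_ten (u v w x : Fin 4 → R) : ev (ten u v w) x = lin u x * lin v x * lin w x := by
  unfold ev ten lin
  rw [Finset.sum_mul_sum, Finset.sum_mul]
  refine Finset.sum_congr rfl fun i _ => ?_
  rw [Finset.sum_mul]
  refine Finset.sum_congr rfl fun j _ => ?_
  rw [Finset.mul_sum]
  refine Finset.sum_congr rfl fun k _ => ?_
  ring

theorem ev_add (a b : Ten R) (x : Fin 4 → R) : ev (a + b) x = ev a x + ev b x := by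
  simp only [ev, Pi.add_apply, add_mul, Finset.sum_add_distrib]

theorem ev_sub (a b : Ten R) (x : Fin 4 → R) : ev (a - b) x = ev a x - ev b x := by
  simp only [ev, Pi.sub_apply, sub_mul, Finset.sum_sub_distrib]

theorem ev_neg (a : Ten R) (x : Fin 4 → R) : ev (-a) x = -ev a x := by
  simp only [ev, Pi.neg_apply, neg_mul, Finset.sum_neg_distrib]

theorem ev_zero (x : Fin 4 → R) : ev (0 : Ten R) x = 0 := by
  simp [ev]

theorem ev_smul (c : R) (a : Ten R) (x : Fin 4 → R) :
    ev (fun i j k => c * a i j k) x = c * ev a x := by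
  simp only [ev, Finset.mul_sum, mul_assoc]

theorem ev_smul' (c : R) (a : Ten R) (x : Fin 4 → R) : ev (c • a) x = c * ev a x := by
  rw [← ev_smul]; rfl

theorem ev_sum {ι : Type*} (s : Finset ι) (a : ι → Ten R) (x : Fin 4 → R) :
    ev (∑ t ∈ s, a t) x = ∑ t ∈ s, ev (a t) x := by
  induction s using Finset.induction_on with
  | empty => simp [ev_zero]
  | insert t s ht ih => rw [Finset.sum_insert ht, Finset.sum_insert ht, ev_add, ih]

theorem ev_scale (c : R) (a : Ten R) (x : Fin 4 → R) : ev a (fun i => c * x i) = c ^ 3 * ev a x := by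
  simp only [ev, Finset.mul_sum]
  refine Finset.sum_congr rfl fun i _ => Finset.sum_congr rfl fun j _ =>
    Finset.sum_congr rfl fun k _ => ?_
  ring

theorem lin_add (u v x : Fin 4 → R) : lin (u + v) x = lin u x + lin v x := by
  simp only [lin, Pi.add_apply, add_mul, Finset.sum_add_distrib]

theorem lin_add_right (u x y : Fin 4 → R) : lin u (x + y) = lin u x + lin u y := by
  simp only [lin, Pi.add_apply, mul_add, Finset.sum_add_distrib]

theorem lin_sub (u v x : Fin 4 → R) : lin (u - v) x = lin u x - lin v x := by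
  simp only [lin, Pi.sub_apply, sub_mul, Finset.sum_sub_distrib]

theorem lin_sub_right (u x y : Fin 4 → R) : lin u (x - y) = lin u x - lin u y := by
  simp only [lin, Pi.sub_apply, mul_sub, Finset.sum_sub_distrib]

theorem lin_smul (c : R) (u x : Fin 4 → R) : lin (c • u) x = c * lin u x := by
  simp only [lin, Pi.smul_apply, smul_eq_mul, Finset.mul_sum, mul_assoc]

theorem lin_smul_right (c : R) (u x : Fin 4 → R) : lin u (c • x) = c * lin u x := by
  simp only [lin, Pi.smul_apply, smul_eq_mul, Finset.mul_sum]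
  exact Finset.sum_congr rfl fun i _ => by ring

theorem lin_comm (u x : Fin 4 → R) : lin u x = lin x u := by
  simp only [lin]
  exact Finset.sum_congr rfl fun i _ => by ring

theorem lin_single (i : Fin 4) (x : Fin 4 → R) : lin (Pi.single i 1) x = x i := by
  simp [lin, Pi.single_apply]

theorem mn_swap (x y : Fin 4 → R) (i j : Fin 4) : mn y x i j = -mn x y i j := by
  simp only [mn]; ring

end ring

theorem ev_ct (R : Type*) [CommRing R] (a : Ten ℤ) (x : Fin 4 → ℤ) :
    ev (ct R a) (cv R x) = ((ev a x : ℤ) : R) := by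
  simp [ev, ct, cv, Int.cast_sum, Int.cast_mul]

theorem lin_cv (R : Type*) [CommRing R] (u x : Fin 4 → ℤ) :
    lin (cv R u) (cv R x) = ((lin u x : ℤ) : R) := by
  simp [lin, cv, Int.cast_sum, Int.cast_mul]

theorem ct_add (R : Type*) [CommRing R] (a b : Ten ℤ) : ct R (a + b) = ct R a + ct R b := by
  funext i j k; simp [ct]

theorem ct_sub (R : Type*) [CommRing R] (a b : Ten ℤ) : ct R (a - b) = ct R a - ct R b := by
  funext i j k; simp [ct]

theorem mem_Box {X : ℕ} {a : Ten ℤ} : a ∈ Box X ↔ ∀ i j k, |a i j k| ≤ (X : ℤ) := by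
  simp [Box, Fintype.mem_piFinset, Finset.mem_Icc, abs_le]

theorem mem_VBox {X : ℕ} {x : Fin 4 → ℤ} : x ∈ VBox X ↔ ∀ i, |x i| ≤ (X : ℤ) := by
  simp [VBox, Fintype.mem_piFinset, Finset.mem_Icc, abs_le]

theorem card_Box (X : ℕ) : (Box X).card = (2 * X + 1) ^ 64 := by
  have h : ((X : ℤ) + 1 - -(X : ℤ)).toNat = 2 * X + 1 := by omega
  simp only [Box, Fintype.card_piFinset, Int.card_Icc, h, Finset.prod_const, Finset.card_univ,
    Fintype.card_fin]
  rw [← pow_mul, ← pow_mul]

theorem card_VBox (X : ℕ) : (VBox X).card = (2 * X + 1) ^ 4 := by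
  have h : ((X : ℤ) + 1 - -(X : ℤ)).toNat = 2 * X + 1 := by omega
  simp only [VBox, Fintype.card_piFinset, Int.card_Icc, h, Finset.prod_const, Finset.card_univ,
    Fintype.card_fin]

theorem tn_le {X : ℕ} {a : Ten ℤ} : tn a ≤ X ↔ ∀ i j k, |a i j k| ≤ (X : ℤ) := by
  simp only [tn, Finset.sup_le_iff, Finset.mem_univ, true_implies]
  constructor
  · intro h i j k
    have := h i j k
    rw [← Int.natCast_natAbs]
    exact_mod_cast this
  · intro h i j k
    have := h i j k
    rw [← Int.natCast_natAbs] at this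
    exact_mod_cast this

theorem mem_Box_iff_tn {X : ℕ} {a : Ten ℤ} : a ∈ Box X ↔ tn a ≤ X := by
  rw [mem_Box, tn_le]

/-- Trivial bound for the value. -/
theorem ev_bound {X Y : ℕ} {a : Ten ℤ} {x : Fin 4 → ℤ} (ha : ∀ i j k, |a i j k| ≤ (X : ℤ))
    (hx : ∀ i, |x i| ≤ (Y : ℤ)) : |ev a x| ≤ 64 * X * Y ^ 3 := by
  have h1 : ∀ i j k : Fin 4, |a i j k * (x i * x j * x k)| ≤ (X : ℤ) * Y ^ 3 := by
    intro i j k
    rw [abs_mul, abs_mul, abs_mul]
    have := ha i j k
    have h2 := hx i
    have h3 := hx j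
    have h4 := hx k
    calc |a i j k| * (|x i| * |x j| * |x k|) ≤ (X : ℤ) * (Y * Y * Y) := by gcongr
      _ = (X : ℤ) * Y ^ 3 := by ring
  unfold ev
  calc |∑ i, ∑ j, ∑ k, a i j k * (x i * x j * x k)|
      ≤ ∑ i, ∑ j, ∑ k, |a i j k * (x i * x j * x k)| := by
        refine (Finset.abs_sum_le_sum_abs _ _).trans (Finset.sum_le_sum fun i _ => ?_)
        refine (Finset.abs_sum_le_sum_abs _ _).trans (Finset.sum_le_sum fun j _ => ?_)
        exact Finset.abs_sum_le_sum_abs _ _
    _ ≤ ∑ i : Fin 4, ∑ j : Fin 4, ∑ k : Fin 4, (X : ℤ) * Y ^ 3 :=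
        Finset.sum_le_sum fun i _ => Finset.sum_le_sum fun j _ => Finset.sum_le_sum fun k _ => h1 i j k
    _ = 64 * X * Y ^ 3 := by simp; ring

end Pool.Agent.Lib.MP_1ad228_ntC
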