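import Pool.Agent.Lib.MP_1ad228_ntC.CntY

/-!
JOB Beta.  Pair sum over the pairs with `Dd * g^16 < Del` (paper section 5, beta).

PROOF.  `B = g^16`. Group the `y` by `m = Dd x y > w` and by `j` with `2^j ≤ Del < 2^(j+1)` (`j = Nat.log 2 (Del x y)`);
`m B < Del ≤ Y ≤ 2 B^2` gives `1 ≤ m < 2B` and `δ := 2^(j+1) > m B`, `δ ≤ 2Y`. By `cntY` (`Dd_dvd`) the class has
at most `81 q^3 δ^3/(B^2 m^3)` elements, each contributes `m/Del ≤ m/2^j = 2m/δ`; so the class contributes at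
most `162 q^3 δ^2/(B^2 m^2)`. Sum over `δ = 2^(j+1) ≤ 2Y`: `∑ δ^2 ≤ (4/3) (2Y)^2`, so for each `m` at most
`864 q^3 Y^2/(B^2 m^2)`. Sum over `m > w`: `∑_{m > w} 1/m^2 ≤ 2/(w+1)` (`1/m^2 ≤ 2(1/m - 1/(m+1))` for `m ≥ 1`,
telescoping). Total at most `1728 q^3 Y^2/(B^2 (w+1))`.
(`Finset.sum_fiberwise_of_maps_to` twice, with `m ∈ Ioo w (2B)`, `j ∈ range (Nat.log 2 Y + 1)`.)
-/

namespace Pool.Agent.Lib.MP_1ad228_ntC

open Classical

private theorem Beta_tele (w N : ℕ) : ∑ m ∈ Finset.Ico (w + 1) N, 1 / (m : ℝ) ^ 2 ≤ 2 / ((w : ℝ) + 1) := by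
  rcases Nat.lt_or_ge N (w + 1) with h | h
  · rw [Finset.Ico_eq_empty_of_le h.le, Finset.sum_empty]
    positivity
  · have key : ∑ m ∈ Finset.Ico (w + 1) N, 1 / (m : ℝ) ^ 2 ≤ 2 / ((w : ℝ) + 1) - 2 / (N : ℝ) := by
      induction N, h using Nat.le_induction with
      | base => simp
      | succ N hN ih =>
        rw [Finset.sum_Ico_succ_top hN]
        have hN0 : (1 : ℝ) ≤ (N : ℝ) := by
          have : 1 ≤ N := by omega
          exact_mod_cast this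
        have hN1 : (0 : ℝ) < (N : ℝ) := by linarith
        have h1 : 1 / (N : ℝ) ^ 2 ≤ 2 / (N : ℝ) - 2 / ((N + 1 : ℕ) : ℝ) := by
          push_cast
          rw [div_sub_div _ _ hN1.ne' (by positivity), div_le_div_iff₀ (by positivity) (by positivity)]
          nlinarith
        linarith
    have h2 : (0 : ℝ) ≤ 2 / (N : ℝ) := by positivity
    linarith

private theorem Beta_geom (L : ℕ) : ∑ j ∈ Finset.range (L + 1), (4 : ℝ) ^ j ≤ 4 / 3 * 4 ^ L := by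
  induction L with
  | zero => norm_num
  | succ L ih =>
    rw [Finset.sum_range_succ]
    have h1 : (4 : ℝ) ^ (L + 1) = 4 * 4 ^ L := by ring
    have h2 : (0 : ℝ) ≤ 4 ^ L := by positivity
    rw [h1]
    linarith

private theorem Beta_class (g q w Y : ℕ) (hg : 1 ≤ g) (hq : 1 ≤ q) (x : Fin 4 → ℤ) (hx : x ∈ GG g q)
    (hY : Y ≤ 2 * g ^ 32) (m j : ℕ) :
    ∑ y ∈ ((GG g q).filter (fun y => y ≠ x ∧ Dd x y * g ^ 16 < Del x y ∧ w < Dd x y ∧
        Del x y ≤ Y)).filter (fun y => (Dd x y, Nat.log 2 (Del x y)) = (m, j)),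
      (Dd x y : ℝ) / (Del x y : ℝ) ≤
        648 * (q : ℝ) ^ 3 / (g : ℝ) ^ 32 * (1 / (m : ℝ) ^ 2 * 4 ^ j) := by
  set T := ((GG g q).filter (fun y => y ≠ x ∧ Dd x y * g ^ 16 < Del x y ∧ w < Dd x y ∧
        Del x y ≤ Y)).filter (fun y => (Dd x y, Nat.log 2 (Del x y)) = (m, j)) with hT
  have hmem : ∀ y ∈ T, y ∈ GG g q ∧ Dd x y = m ∧ m * g ^ 16 < Del x y ∧ w < m ∧ Del x y ≤ Y ∧
      2 ^ j ≤ Del x y ∧ Del x y < 2 ^ (j + 1) := by
    intro y hy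
    rw [hT, Finset.mem_filter, Finset.mem_filter, Prod.mk.injEq] at hy
    obtain ⟨⟨h1, -, h2, h3, h4⟩, h5, h6⟩ := hy
    rw [h5] at h2 h3
    have h7 : Del x y ≠ 0 := by omega
    refine ⟨h1, h5, h2, h3, h4, ?_, ?_⟩
    · rw [← h6]
      exact Nat.pow_log_le_self 2 h7
    · rw [← h6]
      exact Nat.lt_pow_succ_log_self (by norm_num) _
  have hg0 : (0 : ℝ) < (g : ℝ) := by exact_mod_cast hg
  rcases Finset.eq_empty_or_nonempty T with he | ⟨y0, hy0⟩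
  · rw [he, Finset.sum_empty]
    positivity
  · obtain ⟨-, -, c1, c2, c3, c4, c5⟩ := hmem y0 hy0
    have hm1 : 1 ≤ m := by omega
    have hm0 : (0 : ℝ) < (m : ℝ) := by exact_mod_cast hm1
    have hm2 : m ≤ 2 * g ^ 16 := by
      have h1 : m * g ^ 16 < (2 * g ^ 16) * g ^ 16 := by
        calc m * g ^ 16 < Del x y0 := c1
          _ ≤ 2 * g ^ 32 := c3.trans hY
          _ = (2 * g ^ 16) * g ^ 16 := by ring
      exact (Nat.lt_of_mul_lt_mul_right h1).le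
    have hcnt := cntY g q hg hq x hx m (2 ^ (j + 1)) hm1 hm2 (c1.trans c5).le
    have hsub : T ⊆ (VBox (g ^ 16)).filter (fun y => 1 ≤ y 1 ∧ (∀ i j, (m : ℤ) ∣ mn x y i j) ∧
        Del x y ≤ 2 ^ (j + 1)) := by
      intro y hy
      obtain ⟨d1, d2, -, -, -, -, d7⟩ := hmem y hy
      rw [Finset.mem_filter]
      refine ⟨?_, ?_, ?_, d7.le⟩
      · unfold GG at d1
        exact (Finset.mem_filter.1 d1).1
      · have := GG_pos hg d1
        omega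
      · intro i i'
        rw [← d2]
        exact Dd_dvd x y i i'
    have hcard : (T.card : ℝ) ≤ 81 * (q : ℝ) ^ 3 * ((2 ^ (j + 1) : ℕ) : ℝ) ^ 3 /
        ((g : ℝ) ^ 32 * (m : ℝ) ^ 3) :=
      le_trans (Nat.cast_le.2 (Finset.card_le_card hsub)) hcnt
    have hterm : ∀ y ∈ T, (Dd x y : ℝ) / (Del x y : ℝ) ≤ (m : ℝ) / 2 ^ j := by
      intro y hy
      obtain ⟨-, d2, -, -, -, d6, -⟩ := hmem y hy
      rw [d2]
      have h1 : (2 : ℝ) ^ j ≤ (Del x y : ℝ) := by exact_mod_cast d6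
      exact div_le_div_of_nonneg_left hm0.le (by positivity) h1
    refine (Finset.sum_le_card_nsmul _ _ _ hterm).trans ?_
    rw [nsmul_eq_mul]
    refine (mul_le_mul_of_nonneg_right hcard (by positivity)).trans (le_of_eq ?_)
    have h2 : (4 : ℝ) ^ j = 2 ^ j * 2 ^ j := by
      rw [← mul_pow]
      norm_num
    push_cast
    rw [h2, pow_succ]
    field_simp
    ring

theorem beta (g q w Y : ℕ) (hg : 1 ≤ g) (hq : 1 ≤ q) (x : Fin 4 → ℤ) (hx : x ∈ GG g q)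
    (hY : Y ≤ 2 * g ^ 32) :
    ∑ y ∈ (GG g q).filter (fun y => y ≠ x ∧ Dd x y * g ^ 16 < Del x y ∧ w < Dd x y ∧ Del x y ≤ Y),
      (Dd x y : ℝ) / (Del x y : ℝ) ≤
        1728 * (q : ℝ) ^ 3 * (Y : ℝ) ^ 2 / ((g : ℝ) ^ 32 * (w + 1)) := by
  have hg0 : (0 : ℝ) < (g : ℝ) := by exact_mod_cast hg
  rcases Nat.eq_zero_or_pos Y with hY0 | hY0
  · have he : (GG g q).filter (fun y => y ≠ x ∧ Dd x y * g ^ 16 < Del x y ∧ w < Dd x y ∧
        Del x y ≤ Y) = ∅ := by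
      rw [Finset.filter_eq_empty_iff]
      rintro y - ⟨-, h1, -, h2⟩
      omega
    rw [he, Finset.sum_empty]
    positivity
  · have hmaps : ∀ y ∈ (GG g q).filter (fun y => y ≠ x ∧ Dd x y * g ^ 16 < Del x y ∧
        w < Dd x y ∧ Del x y ≤ Y), (Dd x y, Nat.log 2 (Del x y)) ∈
        (Finset.Ico (w + 1) (2 * g ^ 16)) ×ˢ (Finset.range (Nat.log 2 Y + 1)) := by
      intro y hy
      rw [Finset.mem_filter] at hy
      obtain ⟨-, -, h2, h3, h4⟩ := hy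
      rw [Finset.mem_product, Finset.mem_Ico, Finset.mem_range]
      refine ⟨⟨h3, ?_⟩, ?_⟩
      · have h1 : Dd x y * g ^ 16 < (2 * g ^ 16) * g ^ 16 := by
          calc Dd x y * g ^ 16 < Del x y := h2
            _ ≤ 2 * g ^ 32 := h4.trans hY
            _ = (2 * g ^ 16) * g ^ 16 := by ring
        exact Nat.lt_of_mul_lt_mul_right h1
      · have := Nat.log_mono_right (b := 2) h4
        exact Nat.lt_succ_of_le this
    rw [← Finset.sum_fiberwise_of_maps_to hmaps]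
    refine (Finset.sum_le_sum fun p _ => Beta_class g q w Y hg hq x hx hY p.1 p.2).trans ?_
    have hprod : ∑ p ∈ (Finset.Ico (w + 1) (2 * g ^ 16)) ×ˢ (Finset.range (Nat.log 2 Y + 1)),
        (1 / (p.1 : ℝ) ^ 2 * 4 ^ p.2) = (∑ m ∈ Finset.Ico (w + 1) (2 * g ^ 16), 1 / (m : ℝ) ^ 2) *
        ∑ j ∈ Finset.range (Nat.log 2 Y + 1), (4 : ℝ) ^ j := by
      rw [Finset.sum_mul_sum, Finset.sum_product]
    rw [← Finset.mul_sum, hprod]
    have hL : (4 : ℝ) ^ Nat.log 2 Y ≤ (Y : ℝ) ^ 2 := by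
      have h1 : 2 ^ Nat.log 2 Y ≤ Y := Nat.pow_log_le_self 2 hY0.ne'
      have h2 : (2 : ℝ) ^ Nat.log 2 Y ≤ (Y : ℝ) := by exact_mod_cast h1
      have h3 : (4 : ℝ) ^ Nat.log 2 Y = (2 ^ Nat.log 2 Y) ^ 2 := by
        rw [← pow_mul, mul_comm, pow_mul]
        norm_num
      rw [h3]
      exact pow_le_pow_left₀ (by positivity) h2 2
    have h1 := Beta_tele w (2 * g ^ 16)
    have h2 : ∑ j ∈ Finset.range (Nat.log 2 Y + 1), (4 : ℝ) ^ j ≤ 4 / 3 * (Y : ℝ) ^ 2 :=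
      (Beta_geom _).trans (mul_le_mul_of_nonneg_left hL (by norm_num))
    have h3 : (∑ m ∈ Finset.Ico (w + 1) (2 * g ^ 16), 1 / (m : ℝ) ^ 2) *
        ∑ j ∈ Finset.range (Nat.log 2 Y + 1), (4 : ℝ) ^ j ≤
        (2 / ((w : ℝ) + 1)) * (4 / 3 * (Y : ℝ) ^ 2) :=
      mul_le_mul h1 h2 (Finset.sum_nonneg fun _ _ => by positivity) (by positivity)
    refine (mul_le_mul_of_nonneg_left h3 (by positivity)).trans (le_of_eq ?_)
    field_simp
    ring

end Pool.Agent.Lib.MP_1ad228_ntC
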