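import Pool.Agent.Lib.MP_1ad228_ntC.Basic

/-!
JOB Cover.  A coset of a subgroup of the tensors in a large box.

PROOF.  Cell of an integer `z` with `|z| ≤ M*X`: `c(z) = min ((z + M*X) / X) (2*M - 1)` (integer division; for
`X = 0` every cell is 0 and `z = 0`). Cells are in `{0, .., 2M-1}` and two integers of `[-MX, MX]`
in the same cell differ by at most `X` (cell `i` is contained in `[-MX + iX, -MX + (i+1)X]`).
Map every tensor of `Box (M*X)` with `a - a0 ∈ S` to its 64 cells: the target has `(2M)^64` elements and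
each fibre has at most `#{a ∈ Box X, a ∈ S}` elements (fix one element `a₁` of the fibre, `a ↦ a - a₁` is
injective into that set). `Finset.card_le_mul_card_image` or
`Finset.card_eq_sum_card_fiberwise`.
-/

namespace Pool.Agent.Lib.MP_1ad228_ntC

open Classical

private theorem Cover_cell (M X : ℕ) (hM : 1 ≤ M) (z w : ℤ)
    (hz : |z| ≤ ((M * X : ℕ) : ℤ)) (hw : |w| ≤ ((M * X : ℕ) : ℤ))
    (h : min ((z + ((M * X : ℕ) : ℤ)) / (X : ℤ)).toNat (2 * M - 1) =
      min ((w + ((M * X : ℕ) : ℤ)) / (X : ℤ)).toNat (2 * M - 1)) : |z - w| ≤ (X : ℤ) := by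
  rcases Nat.eq_zero_or_pos X with hX | hX
  · subst hX
    simp only [Nat.mul_zero, Nat.cast_zero, abs_nonpos_iff] at hz hw
    simp [hz, hw]
  · have hXp : (0 : ℤ) < X := by exact_mod_cast hX
    push_cast at hz hw h
    have hMp : (1 : ℤ) ≤ M := by exact_mod_cast hM
    obtain ⟨hz1, hz2⟩ := abs_le.mp hz
    obtain ⟨hw1, hw2⟩ := abs_le.mp hw
    set A : ℤ := (z + (M : ℤ) * X) / (X : ℤ) with hA
    set B : ℤ := (w + (M : ℤ) * X) / (X : ℤ) with hB
    have hA0 : 0 ≤ A := Int.ediv_nonneg (by linarith) hXp.le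
    have hB0 : 0 ≤ B := Int.ediv_nonneg (by linarith) hXp.le
    have a1 : (X : ℤ) * A ≤ z + M * X := Int.mul_ediv_self_le hXp.ne'
    have a2 : z + M * X < (X : ℤ) * A + X := by
      have := Int.lt_mul_ediv_self_add (x := z + (M : ℤ) * X) hXp
      exact this
    have b1 : (X : ℤ) * B ≤ w + M * X := Int.mul_ediv_self_le hXp.ne'
    have b2 : w + M * X < (X : ℤ) * B + X := Int.lt_mul_ediv_self_add hXp
    -- compare
    have key : ∀ (p r P R : ℤ), 0 ≤ P → 0 ≤ R → (X : ℤ) * P ≤ p + M * X → p + M * X < (X : ℤ) * P + X →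
        (X : ℤ) * R ≤ r + M * X → r ≤ M * X → p ≤ M * X → min P.toNat (2 * M - 1) = min R.toNat (2 * M - 1) →
        p - r ≤ X := by
      intro p r P R hP hR p1 p2 r1 r2 p3 hpr
      by_cases hc : P ≤ 2 * (M : ℤ) - 1 ∧ R ≤ 2 * (M : ℤ) - 1
      · have hPR : P = R := by
          have h1 : P.toNat ≤ 2 * M - 1 := by omega
          have h2 : R.toNat ≤ 2 * M - 1 := by omega
          rw [min_eq_left h1, min_eq_left h2] at hpr
          omega
        subst hPR
        linarith
      · have h3 : 2 * (M : ℤ) - 1 ≤ R := by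
          by_contra hlt
          push Not at hlt
          have h2 : R.toNat < 2 * M - 1 := by omega
          rw [min_eq_left h2.le] at hpr
          by_cases hq : P ≤ 2 * (M : ℤ) - 1
          · exact hc ⟨hq, by omega⟩
          · have h4 : 2 * M - 1 ≤ P.toNat := by omega
            rw [min_eq_right h4] at hpr
            omega
        have h5 : (X : ℤ) * (2 * M - 1) ≤ X * R := mul_le_mul_of_nonneg_left h3 hXp.le
        have h6 : (X : ℤ) * (2 * M - 1) = 2 * (M * X) - X := by ring
        linarith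
    rw [abs_le]
    constructor
    · have := key w z B A hB0 hA0 b1 b2 a1 hz2 hw2 h.symm
      linarith
    · have := key z w A B hA0 hB0 a1 a2 b1 hw2 hz2 h
      linarith

theorem cover (S : AddSubgroup (Ten ℤ)) (a0 : Ten ℤ) (M X : ℕ) (hM : 1 ≤ M) :
    ((Box (M * X)).filter fun a => a - a0 ∈ S).card ≤
      (2 * M) ^ 64 * ((Box X).filter fun a => a ∈ S).card := by
  set c : Ten ℤ → (Fin 4 → Fin 4 → Fin 4 → Fin (2 * M)) := fun a i j k =>
    ⟨min ((a i j k + ((M * X : ℕ) : ℤ)) / (X : ℤ)).toNat (2 * M - 1), by omega⟩ with hc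
  have hcard : (Finset.univ : Finset (Fin 4 → Fin 4 → Fin 4 → Fin (2 * M))).card = (2 * M) ^ 64 := by
    rw [Finset.card_univ]
    simp only [Fintype.card_fun, Fintype.card_fin]
    rw [← pow_mul, ← pow_mul]
  rw [← hcard]
  refine le_of_le_of_eq ?_ (Nat.mul_comm _ _)
  refine Finset.card_le_mul_card_image_of_maps_to (f := c) (fun a _ => Finset.mem_univ _) _ ?_
  intro t _
  set F := (((Box (M * X)).filter fun a => a - a0 ∈ S).filter fun a => c a = t) with hF
  rcases F.eq_empty_or_nonempty with he | ⟨a1, ha1⟩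
  · rw [he]
    simp
  · refine Finset.card_le_card_of_injOn (fun a => a - a1) ?_ ?_
    · intro a ha
      have ha' : a ∈ F := ha
      rw [hF, Finset.mem_filter, Finset.mem_filter] at ha' ha1
      simp only [Finset.coe_filter]
      refine ⟨?_, ?_⟩
      · rw [mem_Box]
        intro i j k
        have h1 := mem_Box.mp ha'.1.1 i j k
        have h2 := mem_Box.mp ha1.1.1 i j k
        have h3 : c a i j k = c a1 i j k := by rw [ha'.2, ha1.2]
        have h4 := Fin.ext_iff.mp h3
        exact Cover_cell M X hM _ _ h1 h2 h4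
      · have h1 := S.sub_mem ha'.1.2 ha1.1.2
        have h2 : a - a0 - (a1 - a0) = a - a1 := by abel
        rw [h2] at h1
        exact h1
    · intro a _ b _ hab
      exact sub_left_injective hab

end Pool.Agent.Lib.MP_1ad228_ntC
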