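import Mathlib

/-!
MP_1ad228_nt, stream C (cubic surfaces).  Definitions.
Paper: team-store PAPER_MP_1ad228_ntC.md
-/

namespace Pool.Agent.Lib.MP_1ad228_ntC

open Classical

/-- 4 x 4 x 4 tensors. -/
abbrev Ten (R : Type*) := Fin 4 → Fin 4 → Fin 4 → R

/-- Value of the cubic form of the tensor `a` at `x`. -/
def ev {R : Type*} [CommRing R] (a : Ten R) (x : Fin 4 → R) : R :=
  ∑ i, ∑ j, ∑ k, a i j k * (x i * x j * x k)

/-- Linear form with coefficients `u`. -/
def lin {R : Type*} [CommRing R] (u x : Fin 4 → R) : R := ∑ i, u i * x i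

/-- Product tensor. -/
def ten {R : Type*} [CommRing R] (u v w : Fin 4 → R) : Ten R := fun i j k => u i * v j * w k

/-- Partial derivative (direction `j`) of the cubic form at `x`. -/
def dev {R : Type*} [CommRing R] (a : Ten R) (x : Fin 4 → R) (j : Fin 4) : R :=
  ∑ k, ∑ l, (a j k l + a k j l + a k l j) * (x k * x l)

/-- Cast of integer tensors. -/
def ct (R : Type*) [CommRing R] (a : Ten ℤ) : Ten R := fun i j k => (a i j k : R)

/-- Cast of integer vectors. -/
def cv (R : Type*) [CommRing R] (x : Fin 4 → ℤ) : Fin 4 → R := fun i => (x i : R)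

/-- Unimodular vectors. -/
def Uni {R : Type*} [CommRing R] (x : Fin 4 → R) : Prop := ∃ u : Fin 4 → R, lin u x = 1

/-- Integer tensors with all entries in `[-X, X]`. -/
noncomputable def Box (X : ℕ) : Finset (Ten ℤ) :=
  Fintype.piFinset fun _ => Fintype.piFinset fun _ => Fintype.piFinset fun _ =>
    Finset.Icc (-(X : ℤ)) (X : ℤ)

/-- Integer vectors with all entries in `[-X, X]`. -/
noncomputable def VBox (X : ℕ) : Finset (Fin 4 → ℤ) :=
  Fintype.piFinset fun _ => Finset.Icc (-(X : ℤ)) (X : ℤ)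

/-- Sup norm of an integer tensor. -/
def tn (a : Ten ℤ) : ℕ :=
  Finset.univ.sup fun i => Finset.univ.sup fun j => Finset.univ.sup fun k => (a i j k).natAbs

/-- Weight function. -/
noncomputable def psi (A : ℕ) (a : Ten ℤ) : ℝ := max 0 (1 - (tn a : ℝ) / (2 * A))

/-- 2 x 2 minors of `(x, y)`. -/
def mn {R : Type*} [CommRing R] (x y : Fin 4 → R) (i j : Fin 4) : R := x i * y j - x j * y i

/-- Largest minor containing the pivot coordinate 1. -/
def Del (x y : Fin 4 → ℤ) : ℕ := Finset.univ.sup fun j => (mn x y 1 j).natAbs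

/-- gcd of all minors. -/
def Dd (x y : Fin 4 → ℤ) : ℕ :=
  Finset.univ.gcd fun i : Fin 4 => Finset.univ.gcd fun j : Fin 4 => (mn x y i j).natAbs

/-- `x` is `H`-good: three independent integer vectors of size at most `H` orthogonal to `x`. -/
def HGood (H : ℕ) (x : Fin 4 → ℤ) : Prop :=
  ∃ f : Fin 3 → Fin 4 → ℤ, LinearIndependent ℤ f ∧ (∀ s, lin (f s) x = 0) ∧
    ∀ s i, |f s i| ≤ (H : ℤ)

/-- The set of test points (`B = g^16`, `H = g^6`). -/
noncomputable def GG (g q : ℕ) : Finset (Fin 4 → ℤ) :=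
  (VBox (g ^ 16)).filter fun x => ((g : ℤ) ^ 16 ≤ q * x 1 ∧ Uni x ∧ HGood (g ^ 6) x)

/-- Number of tensors in the box vanishing at `x`. -/
noncomputable def n1 (x : Fin 4 → ℤ) (X : ℕ) : ℕ := ((Box X).filter fun a => ev a x = 0).card

/-- Number of tensors in the box vanishing at `x` and at `y`. -/
noncomputable def n2 (x y : Fin 4 → ℤ) (X : ℕ) : ℕ :=
  ((Box X).filter fun a => ev a x = 0 ∧ ev a y = 0).card

/-- Weighted slices. -/
noncomputable def sl (A : ℕ) (x y : Fin 4 → ℤ) (m m' : ℤ) : ℝ :=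
  ∑ a ∈ (Box (2 * A)).filter (fun a => ev a x = m ∧ ev a y = m'), psi A a

/-- The local condition of the tensor `a` at `x`. -/
def Loc (W K A : ℕ) (a : Ten ℤ) (x : Fin 4 → ℤ) : Prop :=
  (W : ℤ) ∣ ev a x ∧ (K : ℤ) * |ev a x| ≤ A * (x 1) ^ 3

/-- The set of values allowed by the local condition at `x`. -/
noncomputable def MS (W K A : ℕ) (x : Fin 4 → ℤ) : Finset ℤ :=
  (Finset.Icc (-(A * (x 1) ^ 3)) (A * (x 1) ^ 3)).filter fun m =>
    ((W : ℤ) ∣ m ∧ (K : ℤ) * |m| ≤ A * (x 1) ^ 3)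

/-- Number of test points on the surface. -/
noncomputable def Nn (g q : ℕ) (a : Ten ℤ) : ℕ := ((GG g q).filter fun x => ev a x = 0).card

/-- Local prediction. -/
noncomputable def Ll (g q W K A : ℕ) (a : Ten ℤ) : ℝ :=
  ∑ x ∈ (GG g q).filter (fun x => Loc W K A a x), 1 / ((MS W K A x).card : ℝ)

/-- The weighted variance. -/
noncomputable def Vq (g q W K A : ℕ) : ℝ :=
  ∑ a ∈ Box (2 * A), psi A a * ((Nn g q a : ℝ) - Ll g q W K A a) ^ 2

/-- Contribution of a pair of points to the variance. -/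
noncomputable def EE (W K A : ℕ) (x y : Fin 4 → ℤ) : ℝ :=
  sl A x y 0 0
    - (1 / ((MS W K A x).card : ℝ)) * ∑ m ∈ MS W K A x, sl A x y m 0
    - (1 / ((MS W K A y).card : ℝ)) * ∑ m' ∈ MS W K A y, sl A x y 0 m'
    + (1 / ((MS W K A x).card : ℝ)) * (1 / ((MS W K A y).card : ℝ)) *
        ∑ m ∈ MS W K A x, ∑ m' ∈ MS W K A y, sl A x y m m'

/-- Number of unimodular zeros modulo `m` of a tensor over `ZMod m`. -/
noncomputable def sm (m : ℕ) (a : Ten (ZMod m)) : ℕ :=
  Nat.card {x : Fin 4 → ZMod m // Uni x ∧ ev a x = 0}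

/-- Tensors over `ZMod m` with a singular unimodular zero (some coordinate normalised to 1). -/
def Exc (m : ℕ) (a : Ten (ZMod m)) : Prop :=
  ∃ (x : Fin 4 → ZMod m) (i : Fin 4), x i = 1 ∧ ev a x = 0 ∧ ∀ j, j ≠ i → dev a x j = 0

/-- The modulus `W` attached to `w`: every `m ≤ w` divides it. -/
def WW (w : ℕ) : ℕ := ∏ p ∈ (Finset.range (w + 1)).filter Nat.Prime, p ^ w

/-- Solubility over all `p`-adic fields. -/
def PSol (a : Ten ℤ) : Prop :=
  ∀ (p : ℕ) [Fact p.Prime], ∃ x : Fin 4 → ℚ_[p], x ≠ 0 ∧ ev (ct ℚ_[p] a) x = 0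

end Pool.Agent.Lib.MP_1ad228_ntC
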