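import Pool.Agent.Lib.MP_1ad228_ntC.Vals

/-!
JOB GGfacts.  Elementary facts about the test points.

PROOF.  Unfold `GG`, `Finset.mem_filter`, `mem_VBox`. `GG_pos`: `g^16 ≤ q * x 1` with `g ≥ 1`.
`exists_Del`: the supremum of a finite nonempty family is attained (`Finset.exists_mem_eq_sup`); if
`Del x y ≥ 1` the index is not 1 because `mn x y 1 1 = 0`.
`Del_pos`: otherwise all `x_1 y_j = x_j y_1`. With `lin u x = 1`: `x_1 * lin u y = y_1`, so `x_1 ∣ y_1`;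
symmetrically `y_1 ∣ x_1`; both positive, so equal; then `y_j = x_j` for all `j`.
`Del_le`: `|x_1 y_j - x_j y_1| ≤ 2 * g^16 * g^16`.
`Dd_le_Del`, `Dd_pos`: `Dd x y` divides the nonzero minor of `exists_Del`.
`card_GG_le`: `(2*g^16+1)^4 ≤ 81 * g^64`.
-/

namespace Pool.Agent.Lib.MP_1ad228_ntC

open Classical

theorem GG_pos {g q : ℕ} (hg : 1 ≤ g) {x : Fin 4 → ℤ} (hx : x ∈ GG g q) : 0 < x 1 := by
  unfold GG at hx
  rw [Finset.mem_filter] at hx
  have h1 := hx.2.1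
  have h2 : (0 : ℤ) < (g : ℤ) ^ 16 := by positivity
  have h3 : (0 : ℤ) < q * x 1 := lt_of_lt_of_le h2 h1
  exact pos_of_mul_pos_right h3 (by positivity)

theorem GG_le {g q : ℕ} {x : Fin 4 → ℤ} (hx : x ∈ GG g q) (i : Fin 4) :
    |x i| ≤ (g : ℤ) ^ 16 := by
  unfold GG at hx
  rw [Finset.mem_filter] at hx
  have h1 := mem_VBox.mp hx.1 i
  push_cast at h1
  exact h1

theorem GG_pivot {g q : ℕ} {x : Fin 4 → ℤ} (hx : x ∈ GG g q) : (g : ℤ) ^ 16 ≤ q * x 1 := by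
  unfold GG at hx
  rw [Finset.mem_filter] at hx
  exact hx.2.1

theorem GG_uni {g q : ℕ} {x : Fin 4 → ℤ} (hx : x ∈ GG g q) : Uni x := by
  unfold GG at hx
  rw [Finset.mem_filter] at hx
  exact hx.2.2.1

theorem GG_good {g q : ℕ} {x : Fin 4 → ℤ} (hx : x ∈ GG g q) : HGood (g ^ 6) x := by
  unfold GG at hx
  rw [Finset.mem_filter] at hx
  exact hx.2.2.2

theorem Del_symm (x y : Fin 4 → ℤ) : Del y x = Del x y := by
  unfold Del
  simp only [mn_swap x y, Int.natAbs_neg]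

theorem le_Del (x y : Fin 4 → ℤ) (j : Fin 4) : |mn x y 1 j| ≤ (Del x y : ℤ) := by
  rw [← Int.natCast_natAbs]
  have h : (mn x y 1 j).natAbs ≤ Del x y := by
    unfold Del
    exact Finset.le_sup (f := fun j => (mn x y 1 j).natAbs) (Finset.mem_univ j)
  exact_mod_cast h

theorem exists_Del (x y : Fin 4 → ℤ) (h : 1 ≤ Del x y) :
    ∃ j : Fin 4, j ≠ 1 ∧ mn x y 1 j ≠ 0 ∧ |mn x y 1 j| = (Del x y : ℤ) := by
  obtain ⟨j, -, hj⟩ := Finset.exists_mem_eq_sup (Finset.univ : Finset (Fin 4)) Finset.univ_nonempty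
    (fun j => (mn x y 1 j).natAbs)
  have hj' : Del x y = (mn x y 1 j).natAbs := hj
  have hne : mn x y 1 j ≠ 0 := by
    intro h0
    rw [h0, Int.natAbs_zero] at hj'
    omega
  refine ⟨j, ?_, hne, ?_⟩
  · intro hj1
    apply hne
    rw [hj1]
    simp only [mn]
    ring
  · rw [hj', Int.natCast_natAbs]

private theorem GGfacts_dvd (x y : Fin 4 → ℤ) (hx : Uni x) (h : ∀ j, mn x y 1 j = 0) :
    x 1 ∣ y 1 := by
  obtain ⟨u, hu⟩ := hx
  refine ⟨lin u y, ?_⟩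
  have h1 : x 1 * lin u y - y 1 * lin u x = ∑ j, u j * mn x y 1 j := by
    unfold lin mn
    rw [Finset.mul_sum, Finset.mul_sum, ← Finset.sum_sub_distrib]
    exact Finset.sum_congr rfl fun j _ => by ring
  have h2 : ∑ j, u j * mn x y 1 j = 0 := by
    refine Finset.sum_eq_zero fun j _ => ?_
    rw [h j, mul_zero]
  rw [h2, hu] at h1
  linarith

theorem Del_pos {g q : ℕ} (hg : 1 ≤ g) {x y : Fin 4 → ℤ} (hx : x ∈ GG g q) (hy : y ∈ GG g q)
    (h : x ≠ y) : 1 ≤ Del x y := by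
  by_contra hlt
  have h0 : Del x y = 0 := by omega
  have hz : ∀ j, mn x y 1 j = 0 := by
    intro j
    have := le_Del x y j
    rw [h0, Nat.cast_zero, abs_nonpos_iff] at this
    exact this
  have hz' : ∀ j, mn y x 1 j = 0 := by
    intro j
    rw [mn_swap x y, hz j, neg_zero]
  have d1 := GGfacts_dvd x y (GG_uni hx) hz
  have d2 := GGfacts_dvd y x (GG_uni hy) hz'
  have p1 := GG_pos hg hx
  have p2 := GG_pos hg hy
  have e1 : x 1 = y 1 := le_antisymm (Int.le_of_dvd p2 d1) (Int.le_of_dvd p1 d2)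
  apply h
  funext j
  have := hz j
  simp only [mn] at this
  rw [e1] at this
  have h3 : y 1 * (y j - x j) = 0 := by linarith
  rcases mul_eq_zero.mp h3 with h4 | h4
  · exact absurd h4 p2.ne'
  · linarith

theorem Del_le {g q : ℕ} {x y : Fin 4 → ℤ} (hx : x ∈ GG g q) (hy : y ∈ GG g q) :
    Del x y ≤ 2 * g ^ 32 := by
  unfold Del
  refine Finset.sup_le fun j _ => ?_
  have h1 : |mn x y 1 j| ≤ ((2 * g ^ 32 : ℕ) : ℤ) := by
    have b1 := GG_le hx 1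
    have b2 := GG_le hx j
    have b3 := GG_le hy 1
    have b4 := GG_le hy j
    simp only [mn]
    calc |x 1 * y j - x j * y 1| ≤ |x 1 * y j| + |x j * y 1| := abs_sub _ _
      _ = |x 1| * |y j| + |x j| * |y 1| := by rw [abs_mul, abs_mul]
      _ ≤ (g : ℤ) ^ 16 * (g : ℤ) ^ 16 + (g : ℤ) ^ 16 * (g : ℤ) ^ 16 := by gcongr
      _ = ((2 * g ^ 32 : ℕ) : ℤ) := by push_cast; ring
  rw [← Int.natCast_natAbs] at h1
  exact_mod_cast h1

theorem Dd_le_Del (x y : Fin 4 → ℤ) (h : 1 ≤ Del x y) : Dd x y ≤ Del x y := by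
  obtain ⟨j, -, hne, hj⟩ := exists_Del x y h
  have h1 := Dd_dvd x y 1 j
  have h2 : (Dd x y : ℤ) ∣ |mn x y 1 j| := (dvd_abs _ _).mpr h1
  rw [hj, Int.natCast_dvd_natCast] at h2
  exact Nat.le_of_dvd (by omega) h2

theorem Dd_pos (x y : Fin 4 → ℤ) (h : 1 ≤ Del x y) : 1 ≤ Dd x y := by
  obtain ⟨j, -, hne, hj⟩ := exists_Del x y h
  have h1 := Dd_dvd x y 1 j
  by_contra hlt
  have h0 : Dd x y = 0 := by omega
  rw [h0, Nat.cast_zero, zero_dvd_iff] at h1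
  exact hne h1

theorem card_GG_le {g q : ℕ} (hg : 1 ≤ g) : ((GG g q).card : ℝ) ≤ 81 * (g : ℝ) ^ 64 := by
  have h1 : (GG g q).card ≤ (2 * g ^ 16 + 1) ^ 4 := by
    rw [← card_VBox]
    unfold GG
    exact Finset.card_filter_le _ _
  have h2 : (2 * g ^ 16 + 1) ^ 4 ≤ 81 * g ^ 64 := by
    have h3 : 1 ≤ g ^ 16 := Nat.one_le_pow _ _ hg
    calc (2 * g ^ 16 + 1) ^ 4 ≤ (3 * g ^ 16) ^ 4 := Nat.pow_le_pow_left (by omega) 4
      _ = 81 * g ^ 64 := by ring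
  exact_mod_cast h1.trans h2

end Pool.Agent.Lib.MP_1ad228_ntC
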