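import Pool.Agent.Lib.MP_1ad228_ntC.LL
import Pool.Agent.Lib.MP_1ad228_ntC.GGfacts

/-!
JOB Near.  Short integer tensors with small prescribed values (paper section 3).

PROOF.  `D = Dd x y` divides `W`, hence `m` and `m'`. An integer tensor with values `(m, m')`: `val1` for `y` gives
`a` with `ev a y = m'` -- better take `a = m' • ten v v v` with `lin v y = 1`, whose value at `x` is
`m' (lin v x)^3`, divisible by `D`; add a multiple of the tensor of `valD x y` (value 0 at `y`, `D` at `x`) to get the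
value `m` at `x` (`m - m' (lin v x)^3` is a multiple of `D`).
Rational tensor: `j` as in `exists_Del` (`Del_pos`), `Δ = mn x y 1 j`, `|Δ| = Del x y`, and linear forms
`p = (y_j e_1 - y_1 e_j)/Δ`, `r = (-x_j e_1 + x_1 e_j)/Δ` (`p(x)=1, p(y)=0, r(x)=0, r(y)=1`);
`b = (m/x_1^2) p⊗e_1⊗e_1 + (m'/y_1^2) r⊗e_1⊗e_1`: values `m` at `x`, `m'` at `y`. Entries:
`k^2 |m| ≤ A x_1^3`, so `|m|/x_1^2 ≤ A x_1/k^2 ≤ A g^16/k^2`, and `|p| ≤ g^16/Del`, so each of the two terms is at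
most `A g^32/(k^2 Del)`, the sum is at most `2 A g^32/(k^2 Del) ≤ 2A/(k q^2) ≤ 2A/k`.
`LL2` with `H = g^6`: entries of `a0` at most `2A/k + 216 g^12 ≤ 2A/k + A/(2k) ≤ 3A/k`.
`k * tn a0 ≤ 3 * A`: `tn a0` is the maximum of the absolute values of the entries (`tn_le` with
`X = 3*A/k`, natural division, `Nat.le_div_iff_mul_le`).
-/

namespace Pool.Agent.Lib.MP_1ad228_ntC

open Classical

private theorem Near_int (x y : Fin 4 → ℤ) (hx : Uni x) (hy : Uni y) (m m' : ℤ)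
    (h : (Dd x y : ℤ) ∣ m) (h' : (Dd x y : ℤ) ∣ m') : ∃ a : Ten ℤ, ev a x = m ∧ ev a y = m' := by
  obtain ⟨v, hv⟩ := hy
  obtain ⟨aD, h0, h1⟩ := valD x y hx
  obtain ⟨t, ht⟩ := dvd_sub h (h'.mul_right ((lin v x) ^ 3))
  refine ⟨m' • ten v v v + t • aD, ?_, ?_⟩
  · rw [ev_add, ev_smul', ev_smul', ev_ten, h1]
    linear_combination -ht
  · rw [ev_add, ev_smul', ev_smul', ev_ten, h0, hv]
    ring

private theorem Near_lin2 (j : Fin 4) (hj : j ≠ 1) (c d Δ : ℚ) (z : Fin 4 → ℚ) :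
    lin (fun i : Fin 4 => ((if i = 1 then c else 0) + (if i = j then d else 0)) / Δ) z
      = (c * z 1 + d * z j) / Δ := by
  unfold lin
  have e1 : ∀ i : Fin 4, ((if i = 1 then c else 0) + (if i = j then d else 0)) / Δ * z i
      = (if i = 1 then c * z i / Δ else 0) + (if i = j then d * z i / Δ else 0) := by
    intro i
    split_ifs <;> ring
  rw [Finset.sum_congr rfl (fun i _ => e1 i), Finset.sum_add_distrib, Finset.sum_ite_eq', Finset.sum_ite_eq']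
  simp only [Finset.mem_univ, if_true]
  ring

private theorem Near_bd2 (j : Fin 4) (hj : j ≠ 1) (c d Δ G : ℚ) (hΔ : 0 < |Δ|) (hG : 0 ≤ G) (hc : |c| ≤ G) (hd : |d| ≤ G)
    (i : Fin 4) : |((if i = 1 then c else 0) + (if i = j then d else 0)) / Δ| ≤ G / |Δ| := by
  rw [abs_div]
  apply div_le_div_of_nonneg_right _ hΔ.le
  by_cases h1 : i = 1
  · have h2 : i ≠ j := by
      rw [h1]
      exact hj.symm
    rw [if_pos h1, if_neg h2, add_zero]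
    exact hc
  · rw [if_neg h1, zero_add]
    by_cases h2 : i = j
    · rw [if_pos h2]
      exact hd
    · rw [if_neg h2, abs_zero]
      exact hG

private theorem Near_single (i : Fin 4) : |(Pi.single 1 1 : Fin 4 → ℚ) i| ≤ 1 := by
  rw [Pi.single_apply]
  split_ifs <;> simp

private theorem Near_term {g k A : ℕ} (hk : 1 ≤ k) {D : ℚ} (hD : 0 < D) (hgD : (g : ℚ) ^ 32 ≤ k * D) {m x1 : ℤ}
    (hx1 : 0 < x1) (hxg : x1 ≤ (g : ℤ) ^ 16) (hm : (k : ℤ) ^ 2 * |m| ≤ A * x1 ^ 3) {P : ℚ} (hP0 : 0 ≤ P)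
    (hP : P ≤ (g : ℚ) ^ 16 / D) : |(m : ℚ) / (x1 : ℚ) ^ 2| * P ≤ A / k := by
  have hk0 : (0 : ℚ) < k := by exact_mod_cast hk
  have hx0 : (0 : ℚ) < x1 := by exact_mod_cast hx1
  have hxg' : (x1 : ℚ) ≤ (g : ℚ) ^ 16 := by exact_mod_cast hxg
  have hm' : (k : ℚ) ^ 2 * |(m : ℚ)| ≤ A * (x1 : ℚ) ^ 3 := by exact_mod_cast hm
  have hA0 : (0 : ℚ) ≤ A := Nat.cast_nonneg _
  have hg0 : (0 : ℚ) ≤ (g : ℚ) ^ 16 := by positivity
  have h1 : |(m : ℚ) / (x1 : ℚ) ^ 2| ≤ A * (g : ℚ) ^ 16 / (k : ℚ) ^ 2 := by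
    rw [abs_div, abs_of_pos (pow_pos hx0 2), div_le_div_iff₀ (pow_pos hx0 2) (pow_pos hk0 2)]
    calc |(m : ℚ)| * (k : ℚ) ^ 2 = (k : ℚ) ^ 2 * |(m : ℚ)| := by ring
      _ ≤ A * (x1 : ℚ) ^ 3 := hm'
      _ = A * x1 * (x1 : ℚ) ^ 2 := by ring
      _ ≤ A * (g : ℚ) ^ 16 * (x1 : ℚ) ^ 2 := by gcongr
  have h2 : |(m : ℚ) / (x1 : ℚ) ^ 2| * P ≤ A * (g : ℚ) ^ 16 / (k : ℚ) ^ 2 * ((g : ℚ) ^ 16 / D) :=
    mul_le_mul h1 hP hP0 (by positivity)
  refine h2.trans ?_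
  rw [div_mul_div_comm, div_le_div_iff₀ (by positivity) hk0]
  calc (A : ℚ) * (g : ℚ) ^ 16 * (g : ℚ) ^ 16 * k = A * k * (g : ℚ) ^ 32 := by ring
    _ ≤ A * k * (k * D) := by gcongr
    _ = A * ((k : ℚ) ^ 2 * D) := by ring

theorem near (g q k A W : ℕ) (hg : 1 ≤ g) (hq : 1 ≤ q) (hk : 1 ≤ k)
    (hA : 432 * g ^ 12 * k ≤ A) (x y : Fin 4 → ℤ) (hx : x ∈ GG g q) (hy : y ∈ GG g q)
    (hxy : x ≠ y) (hD : Dd x y ∣ W) (hΔ : q ^ 2 * g ^ 32 ≤ k * Del x y) (m m' : ℤ)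
    (hm : m ∈ MS W (k ^ 2) A x) (hm' : m' ∈ MS W (k ^ 2) A y) :
    ∃ a0 : Ten ℤ, ev a0 x = m ∧ ev a0 y = m' ∧ k * tn a0 ≤ 3 * A := by
  have hDel := Del_pos hg hx hy hxy
  obtain ⟨j, hj1, hj0, hjD⟩ := exists_Del x y hDel
  have hxU := GG_uni hx
  have hyU := GG_uni hy
  have hx1 := GG_pos hg hx
  have hy1 := GG_pos hg hy
  unfold MS at hm hm'
  rw [Finset.mem_filter] at hm hm'
  obtain ⟨-, hmW, hmK⟩ := hm
  obtain ⟨-, hmW', hmK'⟩ := hm'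
  have hDW : (Dd x y : ℤ) ∣ (W : ℤ) := by exact_mod_cast hD
  obtain ⟨a, hax, hay⟩ := Near_int x y hxU hyU m m' (hDW.trans hmW) (hDW.trans hmW')
  have hk0 : (0 : ℚ) < k := by exact_mod_cast hk
  have hDel0 : (0 : ℚ) < (Del x y : ℚ) := by exact_mod_cast hDel
  set Δ : ℚ := ((mn x y 1 j : ℤ) : ℚ) with hΔdef
  have hΔabs : |Δ| = (Del x y : ℚ) := by
    rw [hΔdef, ← Int.cast_abs, hjD, Int.cast_natCast]
  have hΔ0 : Δ ≠ 0 := by
    intro h
    rw [h, abs_zero] at hΔabs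
    linarith
  have hΔe : Δ = (x 1 : ℚ) * y j - x j * y 1 := by
    rw [hΔdef]
    unfold mn
    push_cast
    ring
  have hgD : (g : ℚ) ^ 32 ≤ k * (Del x y : ℚ) := by
    have h1 : g ^ 32 ≤ k * Del x y := by
      refine le_trans ?_ hΔ
      exact Nat.le_mul_of_pos_left _ (by positivity)
    exact_mod_cast h1
  have hxb : ∀ i, |(x i : ℚ)| ≤ (g : ℚ) ^ 16 := by
    intro i
    have h1 := GG_le hx i
    rw [← Int.cast_abs]
    exact_mod_cast h1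
  have hyb : ∀ i, |(y i : ℚ)| ≤ (g : ℚ) ^ 16 := by
    intro i
    have h1 := GG_le hy i
    rw [← Int.cast_abs]
    exact_mod_cast h1
  set P : Fin 4 → ℚ := fun i : Fin 4 =>
    ((if i = 1 then (y j : ℚ) else 0) + (if i = j then -(y 1 : ℚ) else 0)) / Δ with hP
  set R : Fin 4 → ℚ := fun i : Fin 4 =>
    ((if i = 1 then -(x j : ℚ) else 0) + (if i = j then (x 1 : ℚ) else 0)) / Δ with hR
  have hPx : lin P (cv ℚ x) = 1 := by
    rw [hP, Near_lin2 j hj1, div_eq_one_iff_eq hΔ0, hΔe]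
    simp only [cv]
    ring
  have hPy : lin P (cv ℚ y) = 0 := by
    rw [hP, Near_lin2 j hj1]
    simp only [cv]
    rw [div_eq_zero_iff]
    left
    ring
  have hRx : lin R (cv ℚ x) = 0 := by
    rw [hR, Near_lin2 j hj1]
    simp only [cv]
    rw [div_eq_zero_iff]
    left
    ring
  have hRy : lin R (cv ℚ y) = 1 := by
    rw [hR, Near_lin2 j hj1, div_eq_one_iff_eq hΔ0, hΔe]
    simp only [cv]
    ring
  have hG0 : (0 : ℚ) ≤ (g : ℚ) ^ 16 := by positivity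
  have hPb : ∀ i, |P i| ≤ (g : ℚ) ^ 16 / (Del x y : ℚ) := by
    intro i
    rw [← hΔabs]
    exact Near_bd2 j hj1 _ _ Δ _ (abs_pos.mpr hΔ0) hG0 (hyb j) (by rw [abs_neg]; exact hyb 1) i
  have hRb : ∀ i, |R i| ≤ (g : ℚ) ^ 16 / (Del x y : ℚ) := by
    intro i
    rw [← hΔabs]
    exact Near_bd2 j hj1 _ _ Δ _ (abs_pos.mpr hΔ0) hG0 (by rw [abs_neg]; exact hxb j) (hxb 1) i
  set E : Fin 4 → ℚ := Pi.single 1 1 with hE
  have hEl : ∀ z : Fin 4 → ℤ, lin E (cv ℚ z) = (z 1 : ℚ) := by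
    intro z
    rw [hE, lin_single]
    rfl
  set b : Ten ℚ := ((m : ℚ) / (x 1 : ℚ) ^ 2) • ten P E E + ((m' : ℚ) / (y 1 : ℚ) ^ 2) • ten R E E with hb
  have hx1q : (x 1 : ℚ) ≠ 0 := by exact_mod_cast hx1.ne'
  have hy1q : (y 1 : ℚ) ≠ 0 := by exact_mod_cast hy1.ne'
  have hbx : ev b (cv ℚ x) = (m : ℚ) := by
    rw [hb, ev_add, ev_smul', ev_smul', ev_ten, ev_ten, hPx, hRx, hEl]
    field_simp
    ring
  have hby : ev b (cv ℚ y) = (m' : ℚ) := by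
    rw [hb, ev_add, ev_smul', ev_smul', ev_ten, ev_ten, hPy, hRy, hEl]
    field_simp
    ring
  have hxg : x 1 ≤ (g : ℤ) ^ 16 := (le_abs_self _).trans (GG_le hx 1)
  have hyg : y 1 ≤ (g : ℤ) ^ 16 := (le_abs_self _).trans (GG_le hy 1)
  have hmK1 : (k : ℤ) ^ 2 * |m| ≤ A * (x 1) ^ 3 := by
    have h1 := hmK
    push_cast at h1
    exact h1
  have hmK2 : (k : ℤ) ^ 2 * |m'| ≤ A * (y 1) ^ 3 := by
    have h1 := hmK'
    push_cast at h1
    exact h1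
  have hbb : ∀ i i2 i3, |b i i2 i3| ≤ 2 * (A : ℚ) / k := by
    intro i i2 i3
    have e1 : b i i2 i3 = ((m : ℚ) / (x 1 : ℚ) ^ 2) * (P i * E i2 * E i3)
        + ((m' : ℚ) / (y 1 : ℚ) ^ 2) * (R i * E i2 * E i3) := rfl
    have hEE : |E i2 * E i3| ≤ 1 := by
      rw [abs_mul]
      exact mul_le_one₀ (Near_single i2) (abs_nonneg _) (Near_single i3)
    have t1 : |P i * E i2 * E i3| ≤ (g : ℚ) ^ 16 / (Del x y : ℚ) := by
      rw [mul_assoc, abs_mul]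
      calc |P i| * |E i2 * E i3| ≤ |P i| * 1 := mul_le_mul_of_nonneg_left hEE (abs_nonneg _)
        _ ≤ _ := by rw [mul_one]; exact hPb i
    have t2 : |R i * E i2 * E i3| ≤ (g : ℚ) ^ 16 / (Del x y : ℚ) := by
      rw [mul_assoc, abs_mul]
      calc |R i| * |E i2 * E i3| ≤ |R i| * 1 := mul_le_mul_of_nonneg_left hEE (abs_nonneg _)
        _ ≤ _ := by rw [mul_one]; exact hRb i
    have u1 := Near_term (A := A) hk hDel0 hgD hx1 hxg hmK1 (abs_nonneg _) t1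
    have u2 := Near_term (A := A) hk hDel0 hgD hy1 hyg hmK2 (abs_nonneg _) t2
    rw [e1]
    refine (abs_add_le _ _).trans ?_
    rw [abs_mul, abs_mul ((m' : ℚ) / (y 1 : ℚ) ^ 2)]
    have e2 : 2 * (A : ℚ) / k = A / k + A / k := by ring
    rw [e2]
    exact add_le_add u1 u2
  obtain ⟨a', h1, h2, h3⟩ := LL2 (g ^ 6) x y ⟨j, hj0⟩ (GG_good hx) (GG_good hy) a b (2 * (A : ℚ) / k) hbb
    (by rw [hax, hbx]) (by rw [hay, hby])
  refine ⟨a', by rw [h1, hax], by rw [h2, hay], ?_⟩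
  have h4 : tn a' ≤ 3 * A / k := by
    rw [tn_le]
    intro i i2 i3
    have h5 := h3 i i2 i3
    have h6 : |a' i i2 i3| = (((a' i i2 i3).natAbs : ℕ) : ℤ) := (Int.natCast_natAbs _).symm
    rw [h6]
    have h7 : (a' i i2 i3).natAbs ≤ 3 * A / k := by
      rw [Nat.le_div_iff_mul_le (by omega)]
      have h8 : ((a' i i2 i3).natAbs : ℚ) = |(a' i i2 i3 : ℚ)| := by
        rw [Nat.cast_natAbs, Int.cast_abs]
      have h9 : ((a' i i2 i3).natAbs : ℚ) * k ≤ 3 * A := by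
        rw [h8]
        have h10 : |(a' i i2 i3 : ℚ)| * k ≤ (2 * (A : ℚ) / k + 216 * ((g ^ 6 : ℕ) : ℚ) ^ 2) * k :=
          mul_le_mul_of_nonneg_right h5 hk0.le
        have h11 : (2 * (A : ℚ) / k + 216 * ((g ^ 6 : ℕ) : ℚ) ^ 2) * k = 2 * A + 216 * (g : ℚ) ^ 12 * k := by
          push_cast
          field_simp
        have h12 : 432 * (g : ℚ) ^ 12 * k ≤ A := by exact_mod_cast hA
        have h13 : (0 : ℚ) ≤ A := Nat.cast_nonneg _
        linarith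
      exact_mod_cast h9
    exact_mod_cast h7
  calc k * tn a' ≤ k * (3 * A / k) := Nat.mul_le_mul_left _ h4
    _ ≤ 3 * A := Nat.mul_div_le _ _

end Pool.Agent.Lib.MP_1ad228_ntC
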