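import Pool.Agent.Lib.MP_1ad228_ntC.EEle
import Pool.Agent.Lib.MP_1ad228_ntC.Near

/-!
JOB EEgood.  Good pairs contribute little (paper sections 3, 4).

PROOF.  `n = n2 x y A`, `S = sl A x y 0 0`. If `k ≤ 2`: `EEle` gives `|EE| ≤ 2*4^64*n ≤ (5/k)*6^64*n`.
If `k ≥ 3`: for all `m ∈ MS W (k^2) A x`, `m' ∈ MS W (k^2) A y`, `near` gives `a0` with these values and
`k * tn a0 ≤ 3A`, so `tn a0 ≤ A` and `tn a0/(2A) ≤ 3/(2k)`; by `sl_close`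
`|sl A x y m m' - S| ≤ (3/(2k)) * 6^64 * n =: δ`. Since `x_1, y_1 > 0`, `0 ∈ MS W (k^2) A x` and
`0 ∈ MS W (k^2) A y`: so the same holds for `sl A x y m 0`, `sl A x y 0 m'`, and the cardinalities are
positive, the averages are true averages: `|T - S| ≤ δ`, `|T' - S| ≤ δ`, `|U - S| ≤ δ`. Hence
`|EE| = |-(T - S) - (T' - S) + (U - S)| ≤ 3 δ ≤ (5/k) * 6^64 * n`. (`A ≥ 1` because `432 g^12 k ≤ A`.)
-/

namespace Pool.Agent.Lib.MP_1ad228_ntC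

open Classical

private theorem EEgood_avg {ι : Type*} (s : Finset ι) (f : ι → ℝ) (S δ : ℝ) (hs : s.Nonempty)
    (h : ∀ m ∈ s, |f m - S| ≤ δ) : |(1 / (s.card : ℝ)) * ∑ m ∈ s, f m - S| ≤ δ := by
  have hc : (0 : ℝ) < (s.card : ℝ) := by exact_mod_cast hs.card_pos
  have h1 : (1 / (s.card : ℝ)) * ∑ m ∈ s, f m - S
      = (1 / (s.card : ℝ)) * ∑ m ∈ s, (f m - S) := by
    rw [Finset.sum_sub_distrib, Finset.sum_const, nsmul_eq_mul]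
    field_simp
  rw [h1, abs_mul, abs_of_pos (one_div_pos.mpr hc)]
  have h2 : |∑ m ∈ s, (f m - S)| ≤ (s.card : ℝ) * δ := by
    refine (Finset.abs_sum_le_sum_abs _ _).trans ?_
    calc ∑ m ∈ s, |f m - S| ≤ ∑ _m ∈ s, δ := Finset.sum_le_sum h
      _ = (s.card : ℝ) * δ := by rw [Finset.sum_const, nsmul_eq_mul]
  calc 1 / (s.card : ℝ) * |∑ m ∈ s, (f m - S)| ≤ 1 / (s.card : ℝ) * ((s.card : ℝ) * δ) := by
        gcongr
    _ = δ := by field_simp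

private theorem EEgood_zero_mem {W K A : ℕ} {x : Fin 4 → ℤ} (h : 0 < x 1) :
    (0 : ℤ) ∈ MS W K A x := by
  have h0 : (0 : ℤ) ≤ (A : ℤ) * (x 1) ^ 3 := by positivity
  simp only [MS, Finset.mem_filter, Finset.mem_Icc, dvd_zero, abs_zero, mul_zero, true_and]
  exact ⟨⟨by linarith, h0⟩, h0⟩

theorem EEgood (g q k A W : ℕ) (hg : 1 ≤ g) (hq : 1 ≤ q) (hk : 1 ≤ k)
    (hA : 432 * g ^ 12 * k ≤ A) (x y : Fin 4 → ℤ) (hx : x ∈ GG g q) (hy : y ∈ GG g q)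
    (hxy : x ≠ y) (hD : Dd x y ∣ W) (hΔ : q ^ 2 * g ^ 32 ≤ k * Del x y) :
    |EE W (k ^ 2) A x y| ≤ 5 / (k : ℝ) * 6 ^ 64 * (n2 x y A : ℝ) := by
  have hn : (0 : ℝ) ≤ (n2 x y A : ℝ) := Nat.cast_nonneg _
  have hk0 : (0 : ℝ) < (k : ℝ) := by exact_mod_cast hk
  have hg12 : 1 ≤ g ^ 12 := Nat.one_le_pow _ _ hg
  have hA1 : 1 ≤ A := by
    have : 1 ≤ 432 * g ^ 12 * k := by
      have : 1 ≤ 432 * g ^ 12 := by omega
      exact Nat.mul_pos this hk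
    omega
  by_cases hk2 : k ≤ 2
  · refine (EEle W (k ^ 2) A x y).trans ?_
    have hk2' : (k : ℝ) ≤ 2 := by exact_mod_cast hk2
    have h5 : (5 : ℝ) / 2 ≤ 5 / (k : ℝ) := by gcongr
    have h6 : (2 : ℝ) * 4 ^ 64 ≤ 5 / 2 * 6 ^ 64 := by norm_num
    calc 2 * 4 ^ 64 * (n2 x y A : ℝ) ≤ (5 / 2 * 6 ^ 64) * (n2 x y A : ℝ) := by gcongr
      _ ≤ 5 / (k : ℝ) * 6 ^ 64 * (n2 x y A : ℝ) := by gcongr
  · have hk3 : 3 ≤ k := by omega
    set S : ℝ := sl A x y 0 0 with hS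
    set δ : ℝ := 3 / (2 * (k : ℝ)) * (6 ^ 64 * (n2 x y A : ℝ)) with hδ
    have hx1 := GG_pos hg hx
    have hy1 := GG_pos hg hy
    have key : ∀ m ∈ MS W (k ^ 2) A x, ∀ m' ∈ MS W (k ^ 2) A y, |sl A x y m m' - S| ≤ δ := by
      intro m hm m' hm'
      obtain ⟨a0, h1, h2, h3⟩ := near g q k A W hg hq hk hA x y hx hy hxy hD hΔ m m' hm hm'
      have h4 : tn a0 ≤ A := by
        have : 3 * tn a0 ≤ k * tn a0 := Nat.mul_le_mul_right _ hk3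
        omega
      have h5 := sl_close A hA1 x y a0 h4
      rw [h1, h2] at h5
      refine h5.trans ?_
      rw [hδ]
      have hAr : (0 : ℝ) < (A : ℝ) := by exact_mod_cast hA1
      have h6 : (tn a0 : ℝ) / (2 * (A : ℝ)) ≤ 3 / (2 * (k : ℝ)) := by
        rw [div_le_div_iff₀ (by positivity) (by positivity)]
        have h7 : (k : ℝ) * (tn a0 : ℝ) ≤ 3 * (A : ℝ) := by exact_mod_cast h3
        nlinarith
      gcongr
    have z1 : (0 : ℤ) ∈ MS W (k ^ 2) A x := EEgood_zero_mem hx1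
    have z2 : (0 : ℤ) ∈ MS W (k ^ 2) A y := EEgood_zero_mem hy1
    have hT : |(1 / ((MS W (k ^ 2) A x).card : ℝ)) * ∑ m ∈ MS W (k ^ 2) A x, sl A x y m 0 - S| ≤ δ :=
      EEgood_avg _ _ _ _ ⟨0, z1⟩ fun m hm => key m hm 0 z2
    have hT' : |(1 / ((MS W (k ^ 2) A y).card : ℝ)) * ∑ m' ∈ MS W (k ^ 2) A y, sl A x y 0 m' - S| ≤ δ :=
      EEgood_avg _ _ _ _ ⟨0, z2⟩ fun m' hm' => key 0 z1 m' hm'
    have hU0 : (1 / ((MS W (k ^ 2) A x).card : ℝ)) * (1 / ((MS W (k ^ 2) A y).card : ℝ)) *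
        ∑ m ∈ MS W (k ^ 2) A x, ∑ m' ∈ MS W (k ^ 2) A y, sl A x y m m'
        = (1 / ((MS W (k ^ 2) A x).card : ℝ)) * ∑ m ∈ MS W (k ^ 2) A x,
          ((1 / ((MS W (k ^ 2) A y).card : ℝ)) * ∑ m' ∈ MS W (k ^ 2) A y, sl A x y m m') := by
      rw [← Finset.mul_sum, mul_assoc]
    have hU : |(1 / ((MS W (k ^ 2) A x).card : ℝ)) * (1 / ((MS W (k ^ 2) A y).card : ℝ)) *
        ∑ m ∈ MS W (k ^ 2) A x, ∑ m' ∈ MS W (k ^ 2) A y, sl A x y m m' - S| ≤ δ := by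
      rw [hU0]
      exact EEgood_avg _ _ _ _ ⟨0, z1⟩ fun m hm =>
        EEgood_avg _ _ _ _ ⟨0, z2⟩ fun m' hm' => key m hm m' hm'
    have hEE : |EE W (k ^ 2) A x y| ≤ 3 * δ := by
      unfold EE
      rw [abs_le] at hT hT' hU ⊢
      obtain ⟨a1, a2⟩ := hT
      obtain ⟨b1, b2⟩ := hT'
      obtain ⟨c1, c2⟩ := hU
      constructor <;> linarith
    refine hEE.trans ?_
    rw [hδ]
    have h9 : 3 * (3 / (2 * (k : ℝ)) * (6 ^ 64 * (n2 x y A : ℝ)))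
        = (9 / 2) / (k : ℝ) * 6 ^ 64 * (n2 x y A : ℝ) := by
      field_simp
      ring
    rw [h9]
    gcongr
    norm_num

end Pool.Agent.Lib.MP_1ad228_ntC
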