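import Pool.Agent.Lib.MP_1ad228_ntC.Slice

/-!
JOB EEle.  Trivial bound for the contribution of a pair.

PROOF.  With `C = 4^64 * n2 x y A` every slice is in `[0, C]` (`sl_nonneg`, `sl_le`), so the averages
`(1/μ) ∑_{m ∈ MS} slice` are in `[0, C]` (also when `μ = 0`: then it is 0), and the double average too.
`EE = S - T - T' + U` with all four in `[0, C]`, so `|EE| ≤ 2 C`. `n2_self`: `n2 x x A = n1 x A`.
-/

namespace Pool.Agent.Lib.MP_1ad228_ntC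

open Classical

private theorem EEle_avg (s : Finset ℤ) (f : ℤ → ℝ) {C : ℝ} (hC : 0 ≤ C)
    (h0 : ∀ m, 0 ≤ f m) (h1 : ∀ m, f m ≤ C) :
    0 ≤ (1 / (s.card : ℝ)) * ∑ m ∈ s, f m ∧ (1 / (s.card : ℝ)) * ∑ m ∈ s, f m ≤ C := by
  have hs : 0 ≤ ∑ m ∈ s, f m := Finset.sum_nonneg fun m _ => h0 m
  refine ⟨mul_nonneg (by positivity) hs, ?_⟩
  rcases Nat.eq_zero_or_pos s.card with hc | hc
  · rw [hc, Nat.cast_zero, div_zero, zero_mul]
    exact hC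
  · have hc' : (0 : ℝ) < (s.card : ℝ) := by exact_mod_cast hc
    rw [one_div, inv_mul_le_iff₀ hc']
    calc ∑ m ∈ s, f m ≤ ∑ _m ∈ s, C := Finset.sum_le_sum fun m _ => h1 m
      _ = (s.card : ℝ) * C := by rw [Finset.sum_const, nsmul_eq_mul]

private theorem EEle_four {a b c d C : ℝ} (ha : 0 ≤ a ∧ a ≤ C) (hb : 0 ≤ b ∧ b ≤ C)
    (hc : 0 ≤ c ∧ c ≤ C) (hd : 0 ≤ d ∧ d ≤ C) : |a - b - c + d| ≤ 2 * C := by
  obtain ⟨a0, a1⟩ := ha
  obtain ⟨b0, b1⟩ := hb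
  obtain ⟨c0, c1⟩ := hc
  obtain ⟨d0, d1⟩ := hd
  rw [abs_le]
  constructor <;> linarith

theorem EEle (W K A : ℕ) (x y : Fin 4 → ℤ) : |EE W K A x y| ≤ 2 * 4 ^ 64 * (n2 x y A : ℝ) := by
  obtain ⟨C, hC⟩ : ∃ C : ℝ, C = 4 ^ 64 * (n2 x y A : ℝ) := ⟨_, rfl⟩
  have h0 : ∀ m m', 0 ≤ sl A x y m m' := fun m m' => sl_nonneg A x y m m'
  have h1 : ∀ m m', sl A x y m m' ≤ C := fun m m' => by
    rw [hC]
    exact sl_le A x y m m'
  have hC0 : 0 ≤ C := (h0 0 0).trans (h1 0 0)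
  have e1 : 2 * 4 ^ 64 * (n2 x y A : ℝ) = 2 * C := by rw [hC, mul_assoc]
  rw [e1]
  unfold EE
  have e2 : (1 / ((MS W K A x).card : ℝ)) * (1 / ((MS W K A y).card : ℝ)) *
        ∑ m ∈ MS W K A x, ∑ m' ∈ MS W K A y, sl A x y m m' =
      (1 / ((MS W K A x).card : ℝ)) * ∑ m ∈ MS W K A x,
        ((1 / ((MS W K A y).card : ℝ)) * ∑ m' ∈ MS W K A y, sl A x y m m') := by
    rw [← Finset.mul_sum]
    ring
  rw [e2]
  refine EEle_four ⟨h0 0 0, h1 0 0⟩ ?_ ?_ ?_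
  · exact EEle_avg _ (fun m => sl A x y m 0) hC0 (fun m => h0 m 0) (fun m => h1 m 0)
  · exact EEle_avg _ (fun m' => sl A x y 0 m') hC0 (fun m' => h0 0 m') (fun m' => h1 0 m')
  · refine EEle_avg _ (fun m => (1 / ((MS W K A y).card : ℝ)) *
      ∑ m' ∈ MS W K A y, sl A x y m m') hC0 (fun m => ?_) (fun m => ?_)
    · exact (EEle_avg _ (fun m' => sl A x y m m') hC0 (fun m' => h0 m m') (fun m' => h1 m m')).1
    · exact (EEle_avg _ (fun m' => sl A x y m m') hC0 (fun m' => h0 m m') (fun m' => h1 m m')).2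

theorem n2_self (x : Fin 4 → ℤ) (A : ℕ) : n2 x x A = n1 x A := by
  unfold n2 n1
  congr 1
  ext a
  simp only [Finset.mem_filter, and_self]

end Pool.Agent.Lib.MP_1ad228_ntC
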