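import Pool.Agent.Lib.MP_1ad228_ntC.Basic

/-!
JOB Expand.  The variance is the sum over pairs of test points.

PROOF.  For `x ∈ GG g q` write `s_x(a) = 1` if `ev a x = 0` and 0 otherwise, and
`l_x(a) = (1/μ_x) * ∑ m ∈ MS W K A x, (1 if ev a x = m else 0)`. For `K ≥ 1`, `Loc W K A a x` iff
`ev a x ∈ MS W K A x` (the interval condition follows from `K |m| ≤ A x_1^3`), so
`Nn g q a = ∑_x s_x(a)`, `Ll g q W K A a = ∑_x l_x(a)` and
`(N - L)^2 = ∑_x ∑_y (s_x - l_x)(s_y - l_y) = ∑_x ∑_y (s_x s_y - l_x s_y - s_x l_y + l_x l_y)`.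
Multiply by `psi A a`, sum over `a ∈ Box (2*A)`, exchange the sums:
`∑_a psi s_x s_y = sl A x y 0 0`, `∑_a psi l_x s_y = (1/μ_x) ∑ m, sl A x y m 0`, and so on.
-/

namespace Pool.Agent.Lib.MP_1ad228_ntC

open Classical

/-- Indicator of `ev a x = m`. -/
private noncomputable def expandD (x : Fin 4 → ℤ) (m : ℤ) (a : Ten ℤ) : ℝ :=
  if ev a x = m then 1 else 0

/-- The local function. -/
private noncomputable def expandL (W K A : ℕ) (x : Fin 4 → ℤ) (a : Ten ℤ) : ℝ :=
  (1 / ((MS W K A x).card : ℝ)) * ∑ m ∈ MS W K A x, expandD x m a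

private theorem expand_mem (W K A : ℕ) (hK : 1 ≤ K) (x : Fin 4 → ℤ) (a : Ten ℤ) :
    ev a x ∈ MS W K A x ↔ Loc W K A a x := by
  unfold MS Loc
  rw [Finset.mem_filter, Finset.mem_Icc]
  constructor
  · exact fun h => h.2
  · intro h
    refine ⟨?_, h⟩
    have h1 : |ev a x| ≤ (A : ℤ) * (x 1) ^ 3 := by
      have h2 : (1 : ℤ) ≤ (K : ℤ) := by exact_mod_cast hK
      have h3 : 1 * |ev a x| ≤ (K : ℤ) * |ev a x| :=
        mul_le_mul_of_nonneg_right h2 (abs_nonneg _)
      have h4 := h.2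
      linarith
    exact abs_le.mp h1

private theorem expand_L (W K A : ℕ) (hK : 1 ≤ K) (x : Fin 4 → ℤ) (a : Ten ℤ) :
    expandL W K A x a = if Loc W K A a x then 1 / ((MS W K A x).card : ℝ) else 0 := by
  unfold expandL expandD
  rw [Finset.sum_ite_eq]
  by_cases h : Loc W K A a x
  · rw [if_pos ((expand_mem W K A hK x a).mpr h), if_pos h, mul_one]
  · rw [if_neg (fun h' => h ((expand_mem W K A hK x a).mp h')), if_neg h, mul_zero]

private theorem expand_sl (A : ℕ) (x y : Fin 4 → ℤ) (m m' : ℤ) :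
    sl A x y m m' = ∑ a ∈ Box (2 * A), psi A a * (expandD x m a * expandD y m' a) := by
  unfold sl expandD
  rw [Finset.sum_filter]
  refine Finset.sum_congr rfl fun a _ => ?_
  by_cases h1 : ev a x = m
  · by_cases h2 : ev a y = m'
    · rw [if_pos ⟨h1, h2⟩, if_pos h1, if_pos h2]; ring
    · rw [if_neg (fun h => h2 h.2), if_neg h2]; ring
  · rw [if_neg (fun h => h1 h.1), if_neg h1]; ring

private theorem expand_EE (W K A : ℕ) (x y : Fin 4 → ℤ) :
    EE W K A x y = ∑ a ∈ Box (2 * A), psi A a *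
      ((expandD x 0 a - expandL W K A x a) * (expandD y 0 a - expandL W K A y a)) := by
  have e1 : (1 / ((MS W K A x).card : ℝ)) * ∑ m ∈ MS W K A x, sl A x y m 0
      = ∑ a ∈ Box (2 * A), psi A a * (expandL W K A x a * expandD y 0 a) := by
    simp only [expand_sl, expandL]
    rw [Finset.sum_comm, Finset.mul_sum]
    refine Finset.sum_congr rfl fun a _ => ?_
    rw [← Finset.mul_sum, ← Finset.sum_mul]
    ring
  have e2 : (1 / ((MS W K A y).card : ℝ)) * ∑ m' ∈ MS W K A y, sl A x y 0 m'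
      = ∑ a ∈ Box (2 * A), psi A a * (expandD x 0 a * expandL W K A y a) := by
    simp only [expand_sl, expandL]
    rw [Finset.sum_comm, Finset.mul_sum]
    refine Finset.sum_congr rfl fun a _ => ?_
    rw [← Finset.mul_sum, ← Finset.mul_sum]
    ring
  have e3 : (1 / ((MS W K A x).card : ℝ)) * (1 / ((MS W K A y).card : ℝ)) *
        ∑ m ∈ MS W K A x, ∑ m' ∈ MS W K A y, sl A x y m m'
      = ∑ a ∈ Box (2 * A), psi A a * (expandL W K A x a * expandL W K A y a) := by
    simp only [expand_sl, expandL]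
    have h1 : ∑ m ∈ MS W K A x, ∑ m' ∈ MS W K A y, ∑ a ∈ Box (2 * A),
          psi A a * (expandD x m a * expandD y m' a)
        = ∑ a ∈ Box (2 * A), psi A a *
          ((∑ m ∈ MS W K A x, expandD x m a) * ∑ m' ∈ MS W K A y, expandD y m' a) := by
      calc ∑ m ∈ MS W K A x, ∑ m' ∈ MS W K A y, ∑ a ∈ Box (2 * A),
            psi A a * (expandD x m a * expandD y m' a)
          = ∑ m ∈ MS W K A x, ∑ a ∈ Box (2 * A), ∑ m' ∈ MS W K A y,
            psi A a * (expandD x m a * expandD y m' a) :=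
            Finset.sum_congr rfl fun m _ => Finset.sum_comm
        _ = ∑ a ∈ Box (2 * A), ∑ m ∈ MS W K A x, ∑ m' ∈ MS W K A y,
            psi A a * (expandD x m a * expandD y m' a) := Finset.sum_comm
        _ = _ := by
            refine Finset.sum_congr rfl fun a _ => ?_
            rw [Finset.sum_mul_sum, Finset.mul_sum]
            refine Finset.sum_congr rfl fun m _ => ?_
            rw [Finset.mul_sum]
    rw [h1, Finset.mul_sum]
    refine Finset.sum_congr rfl fun a _ => ?_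
    ring
  unfold EE
  rw [e1, e2, e3, expand_sl, ← Finset.sum_sub_distrib, ← Finset.sum_sub_distrib,
    ← Finset.sum_add_distrib]
  refine Finset.sum_congr rfl fun a _ => ?_
  ring

theorem expand (g q W K A : ℕ) (hK : 1 ≤ K) :
    Vq g q W K A = ∑ x ∈ GG g q, ∑ y ∈ GG g q, EE W K A x y := by
  have hN : ∀ a : Ten ℤ, (Nn g q a : ℝ) = ∑ x ∈ GG g q, expandD x 0 a := by
    intro a
    unfold Nn expandD
    rw [Finset.card_filter, Nat.cast_sum]
    refine Finset.sum_congr rfl fun x _ => ?_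
    by_cases h : ev a x = 0
    · rw [if_pos h, if_pos h, Nat.cast_one]
    · rw [if_neg h, if_neg h, Nat.cast_zero]
  have hL : ∀ a : Ten ℤ, Ll g q W K A a = ∑ x ∈ GG g q, expandL W K A x a := by
    intro a
    unfold Ll
    rw [Finset.sum_filter]
    exact Finset.sum_congr rfl fun x _ => (expand_L W K A hK x a).symm
  have hQ : ∀ a : Ten ℤ, psi A a * ((Nn g q a : ℝ) - Ll g q W K A a) ^ 2
      = ∑ x ∈ GG g q, ∑ y ∈ GG g q, psi A a *
      ((expandD x 0 a - expandL W K A x a) * (expandD y 0 a - expandL W K A y a)) := by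
    intro a
    rw [hN, hL, ← Finset.sum_sub_distrib, sq, Finset.sum_mul_sum, Finset.mul_sum]
    refine Finset.sum_congr rfl fun x _ => ?_
    rw [Finset.mul_sum]
  unfold Vq
  calc ∑ a ∈ Box (2 * A), psi A a * ((Nn g q a : ℝ) - Ll g q W K A a) ^ 2
      = ∑ a ∈ Box (2 * A), ∑ x ∈ GG g q, ∑ y ∈ GG g q, psi A a *
      ((expandD x 0 a - expandL W K A x a) * (expandD y 0 a - expandL W K A y a)) :=
        Finset.sum_congr rfl fun a _ => hQ a
    _ = ∑ x ∈ GG g q, ∑ a ∈ Box (2 * A), ∑ y ∈ GG g q, psi A a *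
      ((expandD x 0 a - expandL W K A x a) * (expandD y 0 a - expandL W K A y a)) :=
        Finset.sum_comm
    _ = ∑ x ∈ GG g q, ∑ y ∈ GG g q, ∑ a ∈ Box (2 * A), psi A a *
      ((expandD x 0 a - expandL W K A x a) * (expandD y 0 a - expandL W K A y a)) :=
        Finset.sum_congr rfl fun x _ => Finset.sum_comm
    _ = ∑ x ∈ GG g q, ∑ y ∈ GG g q, EE W K A x y :=
        Finset.sum_congr rfl fun x _ => Finset.sum_congr rfl fun y _ => (expand_EE W K A x y).symm

end Pool.Agent.Lib.MP_1ad228_ntC
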