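import Mathlib

/-!
MP_1ad228_nt, stream C: integral cubic forms in four variables.
-/

namespace Pool.Agent.Lib.MP_1ad228_ntC

/-- Integral cubic forms of height at most `A`. -/
def Forms (A : ℕ) : Set (MvPolynomial (Fin 4) ℤ) :=
  {f | f.IsHomogeneous 3 ∧ ∀ m, |f.coeff m| ≤ (A : ℤ)}

/-- Smoothness of the cubic surface `f = 0` over the complex numbers. -/
def Smooth (f : MvPolynomial (Fin 4) ℤ) : Prop :=
  ∀ x : Fin 4 → ℂ, (∀ i, MvPolynomial.aeval x (MvPolynomial.pderiv i f) = 0) → x = 0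

/-- Everywhere locally soluble. -/
def LocSol (f : MvPolynomial (Fin 4) ℤ) : Prop :=
  (∃ x : Fin 4 → ℝ, x ≠ 0 ∧ MvPolynomial.aeval x f = 0) ∧
  ∀ (p : ℕ) [Fact p.Prime], ∃ x : Fin 4 → ℚ_[p], x ≠ 0 ∧ MvPolynomial.aeval x f = 0

/-- `f` has a nonzero integer zero with all coordinates bounded by `X` . -/
def SmallZero (X : ℤ) (f : MvPolynomial (Fin 4) ℤ) : Prop :=
  ∃ x : Fin 4 → ℤ, x ≠ 0 ∧ (∀ i, |x i| ≤ X) ∧ MvPolynomial.aeval x f = 0

end Pool.Agent.Lib.MP_1ad228_ntC
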