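import Pool.Agent.Lib.MP_1ad228_ntC.Basic
import Pool.Agent.Lib.MP_1ad228_ntC.FormsDefs

/-!
MP_1ad228_nt, stream C: tensors and forms, definitions (owner helper9).
-/

namespace Pool.Agent.Lib.MP_1ad228_ntC

/-- The exponent of `X_i X_j X_k`. -/
noncomputable def mo (i j k : Fin 4) : Fin 4 →₀ ℕ :=
  Finsupp.single i 1 + Finsupp.single j 1 + Finsupp.single k 1

/-- The cubic form of a tensor. -/
noncomputable def poly (a : Ten ℤ) : MvPolynomial (Fin 4) ℤ :=
  ∑ i, ∑ j, ∑ k, MvPolynomial.monomial (mo i j k) (a i j k)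

/-- The sorted index triple. -/
def sr (i j k : Fin 4) : Fin 4 × Fin 4 × Fin 4 :=
  (min i (min j k), max (min i j) (min (max i j) k), max i (max j k))

/-- The tensor of a form, supported on the sorted index triples. -/
noncomputable def toTen (f : MvPolynomial (Fin 4) ℤ) : Ten ℤ := fun i j k =>
  if i ≤ j ∧ j ≤ k then f.coeff (mo i j k) else 0

/-- Sign. -/
def sg (x : ℤ) : ℤ := if 0 ≤ x then 1 else -1

/-- The tensor with the form of `α` and off-diagonal entries `± b`. -/
def mkT (α b : Ten ℤ) : Ten ℤ := fun i j k =>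
  if i ≤ j ∧ j ≤ k then
    α i j k - sg (α i j k) * ∑ t ∈ (Finset.univ : Finset (Fin 4 × Fin 4 × Fin 4)).filter
      (fun t => ¬ (t.1 ≤ t.2.1 ∧ t.2.1 ≤ t.2.2) ∧ sr t.1 t.2.1 t.2.2 = (i, j, k)),
        b t.1 t.2.1 t.2.2
  else sg (α (sr i j k).1 (sr i j k).2.1 (sr i j k).2.2) * b i j k

/-- Tensors with entries in `[0, q]`, zero at the sorted index triples. -/
noncomputable def BB (q : ℕ) : Finset (Ten ℤ) :=
  Fintype.piFinset fun i => Fintype.piFinset fun j => Fintype.piFinset fun k =>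
    if i ≤ j ∧ j ≤ k then {0} else Finset.Icc 0 (q : ℤ)

end Pool.Agent.Lib.MP_1ad228_ntC
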