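import Pool.Agent.Lib.MP_1ad228_ntC.FmPoly

/-!
# JOB FmFib (about 70 lines): the tensors with a given form

`fib44`: let `U = {b | |b i j k| ≤ A, b i j k = 0 for sorted (i, j, k)}` (a `piFinset` as `BB`, cardinality `(2 A + 1) ^ 44`).  The map `a ↦` (`a` with the sorted entries replaced by `0`) sends the
set of the statement to `U` and is injective on it: if `poly a = poly a'` and the unsorted entries agree, `c = a - a'` is supported on the sorted triples and `poly c = 0` (`poly_sub`), so
`c = toTen (poly c) = toTen 0 = 0` (`toTen_poly`).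
-/

namespace Pool.Agent.Lib.MP_1ad228_ntC

private noncomputable def FmFib_U (A : ℕ) : Finset (Ten ℤ) :=
  Fintype.piFinset fun i => Fintype.piFinset fun j => Fintype.piFinset fun k =>
    if i ≤ j ∧ j ≤ k then {0} else Finset.Icc (-(A : ℤ)) (A : ℤ)

private theorem FmFib_mem {A : ℕ} {b : Ten ℤ} : b ∈ FmFib_U A ↔
    ∀ i j k, b i j k ∈ (if i ≤ j ∧ j ≤ k then ({0} : Finset ℤ) else Finset.Icc (-(A : ℤ)) (A : ℤ)) := by
  unfold FmFib_U
  simp only [Fintype.mem_piFinset]

private theorem FmFib_card (A : ℕ) : (FmFib_U A).card = (2 * A + 1) ^ 44 := by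
  have h : ((A : ℤ) + 1 - -(A : ℤ)).toNat = 2 * A + 1 := by omega
  have h1 : ∀ i j k : Fin 4, (if i ≤ j ∧ j ≤ k then ({0} : Finset ℤ) else Finset.Icc (-(A : ℤ)) (A : ℤ)).card =
      (2 * A + 1) ^ (if i ≤ j ∧ j ≤ k then 0 else 1) := by
    intro i j k
    by_cases h2 : i ≤ j ∧ j ≤ k
    · rw [if_pos h2, if_pos h2, Finset.card_singleton, pow_zero]
    · rw [if_neg h2, if_neg h2, Int.card_Icc, h, pow_one]
  unfold FmFib_U
  simp only [Fintype.card_piFinset, h1, Finset.prod_pow_eq_pow_sum]
  congr 1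

open Classical in
theorem fib44 (A : ℕ) (f : MvPolynomial (Fin 4) ℤ) :
    ((Box A).filter fun a => poly a = f).card ≤ (2 * A + 1) ^ 44 := by
  rw [← FmFib_card A]
  apply Finset.card_le_card_of_injOn (fun a : Ten ℤ => fun i j k => if i ≤ j ∧ j ≤ k then 0 else a i j k)
  · intro a ha
    rw [Finset.mem_coe, Finset.mem_filter, mem_Box] at ha
    rw [Finset.mem_coe, FmFib_mem]
    intro i j k
    show (if i ≤ j ∧ j ≤ k then 0 else a i j k) ∈ _
    by_cases h : i ≤ j ∧ j ≤ k
    · rw [if_pos h, if_pos h]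
      exact Finset.mem_singleton_self _
    · rw [if_neg h, if_neg h, Finset.mem_Icc]
      exact abs_le.1 (ha.1 i j k)
  · intro a ha a' ha' heq
    rw [Finset.mem_coe, Finset.mem_filter] at ha ha'
    have h1 : ∀ i j k, ¬ (i ≤ j ∧ j ≤ k) → (a - a') i j k = 0 := by
      intro i j k h
      have h2 := congrFun (congrFun (congrFun heq i) j) k
      simp only [h, if_false] at h2
      simp only [Pi.sub_apply, h2, sub_self]
    have h2 : poly (a - a') = poly (0 : Ten ℤ) := by
      rw [poly_sub, ha.2, ha'.2, sub_self]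
      have := poly_sub (0 : Ten ℤ) 0
      rw [sub_self, sub_self] at this
      exact this.symm
    have h3 : a - a' = 0 := by
      rw [← toTen_poly h1, h2]
      exact toTen_poly (c := 0) (fun _ _ _ _ => rfl)
    exact sub_eq_zero.1 h3

end Pool.Agent.Lib.MP_1ad228_ntC
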