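import Pool.Agent.Lib.MP_1ad228_ntC.FmPoly

/-!
# JOB FmLoc (about 50 lines): local solubility of the form and of the tensor

* `psol_of_locSol`: `aeval_poly` (over `ℚ_[p]`).
* `locSol_of_zero`: an integer zero `x ≠ 0`: `cv ℝ x`, `cv ℚ_[p] x` are nonzero zeros (`ev_ct`, `Int.cast_injective`, characteristic zero).
* `smallZero_iff`: `aeval_poly` over `ℤ`: `ct ℤ a = a` (`Int.cast_id`).
-/

namespace Pool.Agent.Lib.MP_1ad228_ntC

theorem psol_of_locSol {a : Ten ℤ} (h : LocSol (poly a)) : PSol a := by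
  intro p hp
  obtain ⟨x, hx, h1⟩ := h.2 p
  refine ⟨x, hx, ?_⟩
  rw [aeval_poly] at h1
  exact h1

theorem locSol_of_zero {a : Ten ℤ} {x : Fin 4 → ℤ} (hx : x ≠ 0) (h : ev a x = 0) : LocSol (poly a) := by
  have key : ∀ (R : Type) [CommRing R] [CharZero R], ∃ y : Fin 4 → R, y ≠ 0 ∧
      MvPolynomial.aeval y (poly a) = 0 := by
    intro R _ _
    refine ⟨cv R x, fun h0 => hx ?_, ?_⟩
    · funext i
      have h1 := congrFun h0 i
      exact Int.cast_injective (α := R) (h1.trans Int.cast_zero.symm)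
    · rw [aeval_poly, ev_ct, h, Int.cast_zero]
  refine ⟨key ℝ, fun p hp => key ℚ_[p]⟩

theorem smallZero_iff (X : ℤ) (a : Ten ℤ) :
    SmallZero X (poly a) ↔ ∃ x : Fin 4 → ℤ, x ≠ 0 ∧ (∀ i, |x i| ≤ X) ∧ ev a x = 0 := by
  have e : ct ℤ a = a := by
    funext i j k
    show ((a i j k : ℤ) : ℤ) = a i j k
    exact Int.cast_id
  unfold SmallZero
  simp only [aeval_poly, e]

end Pool.Agent.Lib.MP_1ad228_ntC
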