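import Pool.Agent.Lib.MP_1ad228_ntC.FormsDefs

/-!
# JOB FmMat (about 150 lines): a singular cubic form is a zero of a characteristic polynomial

Let `I = {β : Fin 4 → Fin 6 // ∑ β i = 5}` (the exponents of degree `5`), a finite type.  Every `β ∈ I` has an index `ix β` with `β (ix β) ≥ 2` (otherwise the sum is `≤ 4`); choose it.  For a form
`f` of degree `3` over `ℤ` and `β' ∈ I` put `g_{β'} = X^(β' - 2 e_{ix β'}) * pderiv (ix β') f`, homogeneous of degree `5` (`MvPolynomial.IsHomogeneous.pderiv`, `.mul`, `isHomogeneous_monomial`),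
and `M(f) : Matrix I I ℤ`, `M(f) β β' = coeff (X^β) g_{β'}`.
(1) For `x : Fin 4 → ℂ`: `∑_β x^β * (M(f) β β' : ℂ) = aeval x g_{β'} = x^(..) * aeval x (pderiv .. f)` (all monomials of a homogeneous polynomial of degree `5` are in `I`:
`MvPolynomial.aeval_def`/`eval₂_eq'`, `IsHomogeneous.coeff_eq_zero`).  So if all the partial derivatives vanish at `x ≠ 0` then the row vector `(x^β)_β`, which is not zero (`x_i ≠ 0` gives
`x_i^5 ≠ 0`), is in the left kernel of `M(f)` over `ℂ`: `det M(f) = 0` (`Matrix.exists_vecMul_eq_zero_iff`, `Matrix.det` and `Int.castRingHom`: `RingHom.map_det`).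
(2) `M(f + s * Fer) = M(f) + 3 s * 1` with `Fer = X₀³ + X₁³ + X₂³ + X₃³`: `pderiv i Fer = 3 X_i²`, so `g_{β'}` of `Fer` is `3 X^β'`.
(3) So if `f + s * Fer` is not smooth then `det (M(f) + 3 s) = 0`, i.e. `- 3 s` is a root of the characteristic polynomial of `M(f)` (`Matrix.charpoly`, `Matrix.eval_charpoly`: `eval t charpoly = det (t - M)`),
monic of degree `card I` (`Matrix.charpoly_monic`, `Matrix.charpoly_natDegree_eq_dim`), which has at most `card I` roots (`Polynomial.card_roots'`); `s ↦ - 3 s` is injective.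
Take `N = Fintype.card I`.  (Any other constant `N` is fine.)
-/

namespace Pool.Agent.Lib.MP_1ad228_ntC

/-- The Fermat cubic. -/
noncomputable def Fer : MvPolynomial (Fin 4) ℤ := ∑ i : Fin 4, MvPolynomial.X i ^ 3

private def FmMat_I : Finset (Fin 4 →₀ ℕ) := Finset.finsuppAntidiag Finset.univ 5

private theorem FmMat_mem {μ : Fin 4 →₀ ℕ} : μ ∈ FmMat_I ↔ ∑ i, μ i = 5 := by
  unfold FmMat_I
  rw [Finset.mem_finsuppAntidiag]
  constructor
  · intro h
    exact h.1
  · intro h
    exact ⟨h, Finset.subset_univ _⟩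

private theorem FmMat_ex (μ : Fin 4 →₀ ℕ) (h : ∑ i, μ i = 5) : ∃ i, 2 ≤ μ i := by
  by_contra hc
  push Not at hc
  rw [Fin.sum_univ_four] at h
  have h0 := hc 0
  have h1 := hc 1
  have h2 := hc 2
  have h3 := hc 3
  omega

private noncomputable def FmMat_ix (μ : {μ // μ ∈ FmMat_I}) : Fin 4 :=
  Classical.choose (FmMat_ex μ.1 (FmMat_mem.1 μ.2))

private theorem FmMat_ix_spec (μ : {μ // μ ∈ FmMat_I}) : 2 ≤ μ.1 (FmMat_ix μ) :=
  Classical.choose_spec (FmMat_ex μ.1 (FmMat_mem.1 μ.2))

private noncomputable def FmMat_g (f : MvPolynomial (Fin 4) ℤ) (μ : {μ // μ ∈ FmMat_I}) : MvPolynomial (Fin 4) ℤ :=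
  MvPolynomial.monomial (μ.1 - Finsupp.single (FmMat_ix μ) 2) 1 * MvPolynomial.pderiv (FmMat_ix μ) f

private theorem FmMat_le (μ : {μ // μ ∈ FmMat_I}) : Finsupp.single (FmMat_ix μ) 2 ≤ μ.1 := by
  rw [Finsupp.single_le_iff]
  exact FmMat_ix_spec μ

private theorem FmMat_hom {f : MvPolynomial (Fin 4) ℤ} (hf : f.IsHomogeneous 3) (μ : {μ // μ ∈ FmMat_I}) :
    (FmMat_g f μ).IsHomogeneous 5 := by
  have h1 : (μ.1 - Finsupp.single (FmMat_ix μ) 2).degree = 3 := by
    have h2 : (μ.1 - Finsupp.single (FmMat_ix μ) 2 + Finsupp.single (FmMat_ix μ) 2).degree = 5 := by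
      rw [tsub_add_cancel_of_le (FmMat_le μ), Finsupp.degree_eq_sum]
      exact FmMat_mem.1 μ.2
    rw [map_add, Finsupp.degree_single] at h2
    omega
  have h2 : (MvPolynomial.monomial (μ.1 - Finsupp.single (FmMat_ix μ) 2) (1 : ℤ)).IsHomogeneous 3 :=
    MvPolynomial.isHomogeneous_monomial _ h1
  exact h2.mul hf.pderiv

private theorem FmMat_aeval {p : MvPolynomial (Fin 4) ℤ} (hp : p.IsHomogeneous 5) (x : Fin 4 → ℂ) :
    MvPolynomial.aeval x p = ∑ β : {μ // μ ∈ FmMat_I}, (∏ i, x i ^ β.1 i) * ((p.coeff β.1 : ℤ) : ℂ) := by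
  have h1 : p.support ⊆ FmMat_I := by
    intro d hd
    rw [FmMat_mem, ← Finsupp.degree_eq_sum]
    by_contra hne
    exact (MvPolynomial.mem_support_iff.1 hd) (hp.coeff_eq_zero hne)
  rw [MvPolynomial.aeval_def, MvPolynomial.eval₂_eq']
  rw [Finset.sum_subset h1]
  · rw [← Finset.sum_coe_sort FmMat_I]
    refine Finset.sum_congr rfl fun β _ => ?_
    rw [mul_comm]
    rfl
  · intro d _ hd
    rw [MvPolynomial.notMem_support_iff.1 hd]
    simp

private noncomputable def FmMat_M (f : MvPolynomial (Fin 4) ℤ) : Matrix {μ // μ ∈ FmMat_I} {μ // μ ∈ FmMat_I} ℤ :=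
  fun β β' => (FmMat_g f β').coeff β.1

private theorem FmMat_det {f : MvPolynomial (Fin 4) ℤ} (hf : f.IsHomogeneous 3) (hs : ¬ Smooth f) :
    (FmMat_M f).det = 0 := by
  unfold Smooth at hs
  push Not at hs
  obtain ⟨x, hx, hx0⟩ := hs
  have h1 : ((FmMat_M f).map (Int.castRingHom ℂ)).det = 0 := by
    rw [← Matrix.exists_vecMul_eq_zero_iff]
    refine ⟨fun β => ∏ i, x i ^ β.1 i, ?_, ?_⟩
    · intro h0
      obtain ⟨i, hi⟩ := Function.ne_iff.1 hx0
      have hmem : Finsupp.single i 5 ∈ FmMat_I := by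
        rw [FmMat_mem]
        simp [Finsupp.single_apply]
      have h2 := congrFun h0 ⟨Finsupp.single i 5, hmem⟩
      simp only [Pi.zero_apply] at h2
      rw [Finset.prod_eq_zero_iff] at h2
      obtain ⟨j, _, hj⟩ := h2
      by_cases hij : i = j
      · subst hij
        rw [Finsupp.single_eq_same] at hj
        exact hi (pow_eq_zero_iff (by norm_num) |>.1 hj)
      · rw [Finsupp.single_apply, if_neg hij, pow_zero] at hj
        exact one_ne_zero hj
    · funext β'
      rw [Matrix.vecMul]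
      have h3 := FmMat_aeval (FmMat_hom hf β') x
      have h4 : MvPolynomial.aeval x (FmMat_g f β') = 0 := by
        unfold FmMat_g
        rw [map_mul, hx, mul_zero]
      rw [h4] at h3
      exact h3.symm
  have h2 : ((FmMat_M f).map (Int.castRingHom ℂ)).det = (Int.castRingHom ℂ) (FmMat_M f).det := by
    rw [RingHom.map_det]
    rfl
  rw [h2] at h1
  exact (Int.cast_eq_zero (α := ℂ)).1 h1

private theorem FmMat_pderiv (i : Fin 4) : MvPolynomial.pderiv i Fer = MvPolynomial.monomial (Finsupp.single i 2) (3 : ℤ) := by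
  unfold Fer
  rw [map_sum, Finset.sum_eq_single i]
  · rw [Derivation.leibniz_pow, MvPolynomial.pderiv_X_self]
    have h1 : MvPolynomial.monomial (Finsupp.single i 2) (3 : ℤ) = 3 * MvPolynomial.X i ^ 2 := by
      rw [MvPolynomial.X_pow_eq_monomial]
      have : (3 : MvPolynomial (Fin 4) ℤ) = MvPolynomial.C 3 := rfl
      rw [this, MvPolynomial.C_mul_monomial, mul_one]
    rw [h1]
    simp
  · intro j _ hj
    rw [Derivation.leibniz_pow, MvPolynomial.pderiv_X_of_ne hj]
    simp
  · intro h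
    exact absurd (Finset.mem_univ _) h

private theorem FmMat_shift (f : MvPolynomial (Fin 4) ℤ) (s : ℤ) :
    FmMat_M (f + MvPolynomial.C s * Fer) = FmMat_M f + (3 * s) • (1 : Matrix _ _ ℤ) := by
  ext β β'
  rw [Matrix.add_apply, Matrix.smul_apply]
  unfold FmMat_M FmMat_g
  have h1 : MvPolynomial.pderiv (FmMat_ix β') (f + MvPolynomial.C s * Fer) =
      MvPolynomial.pderiv (FmMat_ix β') f + MvPolynomial.monomial (Finsupp.single (FmMat_ix β') 2) (3 * s) := by
    rw [map_add, MvPolynomial.pderiv_C_mul, FmMat_pderiv, MvPolynomial.C_mul_monomial, mul_comm s 3]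
  rw [h1, mul_add, MvPolynomial.coeff_add, MvPolynomial.monomial_mul, tsub_add_cancel_of_le (FmMat_le β'),
    MvPolynomial.coeff_monomial, one_mul]
  congr 1
  by_cases h : β = β'
  · subst h
    rw [if_pos rfl, Matrix.one_apply_eq, smul_eq_mul, mul_one]
  · rw [if_neg (fun h' => h (Subtype.ext h'.symm)), Matrix.one_apply_ne h, smul_zero]

private theorem FmMat_ferhom : Fer.IsHomogeneous 3 := by
  unfold Fer
  apply MvPolynomial.IsHomogeneous.sum
  intro i _
  have := (MvPolynomial.isHomogeneous_X ℤ i).pow 3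
  simpa using this

theorem exists_sing : ∃ N : ℕ, ∀ f : MvPolynomial (Fin 4) ℤ, f.IsHomogeneous 3 →
    ∀ S : Finset ℤ, (∀ s ∈ S, ¬ Smooth (f + MvPolynomial.C s * Fer)) → S.card ≤ N := by
  refine ⟨Fintype.card {μ // μ ∈ FmMat_I}, fun f hf S hS => ?_⟩
  have hmon := Matrix.charpoly_monic (FmMat_M f)
  have hsub : S.image (fun s => -(3 * s)) ⊆ (FmMat_M f).charpoly.roots.toFinset := by
    intro t ht
    rw [Finset.mem_image] at ht
    obtain ⟨s, hs, rfl⟩ := ht
    rw [Multiset.mem_toFinset, Polynomial.mem_roots hmon.ne_zero, Polynomial.IsRoot.def, Matrix.eval_charpoly]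
    have h1 : (f + MvPolynomial.C s * Fer).IsHomogeneous 3 := by
      apply hf.add
      have := (MvPolynomial.isHomogeneous_C (Fin 4) s).mul FmMat_ferhom
      simpa using this
    have h2 := FmMat_det h1 (hS s hs)
    rw [FmMat_shift] at h2
    have h3 : (Matrix.scalar {μ // μ ∈ FmMat_I}) (-(3 * s)) - FmMat_M f =
        -(FmMat_M f + (3 * s) • (1 : Matrix _ _ ℤ)) := by
      rw [map_neg, Matrix.scalar_apply, ← Matrix.smul_one_eq_diagonal]
      abel
    rw [h3, Matrix.det_neg, h2, mul_zero]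
  have hinj : (S.image (fun s => -(3 * s))).card = S.card := by
    apply Finset.card_image_of_injective
    intro a b hab
    simp only at hab
    omega
  rw [← hinj]
  refine (Finset.card_le_card hsub).trans ((Multiset.toFinset_card_le _).trans ((Polynomial.card_roots' _).trans ?_))
  rw [Matrix.charpoly_natDegree_eq_dim]

end Pool.Agent.Lib.MP_1ad228_ntC
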