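import Pool.Agent.Lib.MP_1ad228_ntC.FmDefs

/-!
# JOB FmPoly (about 150 lines): tensors and cubic forms

* `coeff_poly`: `MvPolynomial.coeff_sum`, `MvPolynomial.coeff_monomial`.
* `poly_hom`: `MvPolynomial.IsHomogeneous.sum` three times and `MvPolynomial.isHomogeneous_monomial` (degree of `mo i j k` is `3`: `Finsupp.degree` is additive, `map_add`,
  `Finsupp.degree_single`; or `MvPolynomial.IsHomogeneous` unfolded: weight).
* `aeval_poly`: `map_sum`, `MvPolynomial.aeval_monomial`, `mo`, `Finsupp.prod_add_index'`, `Finsupp.prod_single_index`; compare with `ev`, `ct`.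
* `mo_inj`: apply the equality at all `l : Fin 4` (`Finsupp.single_apply`): `[i=l]+[j=l]+[k=l] = [i'=l]+[j'=l]+[k'=l]`; the statement
  `∀ i j k i' j' k' : Fin 4, i ≤ j → j ≤ k → i' ≤ j' → j' ≤ k' → (∀ l : Fin 4, (if i = l then 1 else 0) + (if j = l then 1 else 0) + (if k = l then 1 else 0) = ... ) → i = i' ∧ j = j' ∧ k = k'`
  in natural numbers is decidable (`decide`, 4096 cases; if too slow: `i` is the least `l` with positive count, remove it, and so on).
* `mo_sr`: `mo` is symmetric (`add_comm`); `rcases le_total i j`, `le_total j k`, `le_total i k`, simplify the minima and maxima.  `sr_sorted` in the same way, `sr_of_sorted` too (or `decide`, 64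
  cases).
* `exists_mo`: `μ ≠ 0`, pick `i` with `μ i ≥ 1`, `μ = single i 1 + μ'`, `μ'` has sum `2`, again and again (`Finsupp` subtraction `tsub`), then sort with `mo_sr`.
* `poly_toTen`: compare coefficients (`MvPolynomial.ext`): if `∑ i, μ i ≠ 3` both sides vanish (`IsHomogeneous.coeff_eq_zero`; in `coeff_poly` every `mo i j k` has sum `3`); otherwise
  `μ = mo i₀ j₀ k₀` sorted and in `coeff_poly` only the sorted triple `(i₀, j₀, k₀)` contributes (`mo_inj`; `toTen` vanishes at the unsorted triples).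
* `toTen_poly`: for `c` supported on sorted triples `toTen (poly c) = c` (same computation).
* `toTen_mem`: each entry is a coefficient or `0`.
* `poly_mem`: the coefficient of `μ` in `poly a` is a sum of the entries `a t` over the triples `t` with `mo t = μ`; there are at most `6` of them: they are permutations of one triple
  (`mo t = mo t'` implies `sr t = sr t'`, and `#{t | sr t = s} ≤ 6` by `decide`).
-/

namespace Pool.Agent.Lib.MP_1ad228_ntC

theorem coeff_poly (a : Ten ℤ) (μ : Fin 4 →₀ ℕ) :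
    (poly a).coeff μ = ∑ i, ∑ j, ∑ k, if mo i j k = μ then a i j k else 0 := by
  unfold poly
  simp only [MvPolynomial.coeff_sum, MvPolynomial.coeff_monomial]

private theorem FmPoly_degree (i j k : Fin 4) : (mo i j k).degree = 3 := by
  unfold mo
  rw [map_add, map_add, Finsupp.degree_single, Finsupp.degree_single, Finsupp.degree_single]

private theorem FmPoly_sum_mo (i j k : Fin 4) : ∑ l, (mo i j k) l = 3 := by
  unfold mo
  simp only [Finsupp.add_apply, Finset.sum_add_distrib, Finsupp.single_apply, Finset.sum_ite_eq,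
    Finset.mem_univ, if_true]

theorem poly_hom (a : Ten ℤ) : (poly a).IsHomogeneous 3 := by
  unfold poly
  apply MvPolynomial.IsHomogeneous.sum
  intro i _
  apply MvPolynomial.IsHomogeneous.sum
  intro j _
  apply MvPolynomial.IsHomogeneous.sum
  intro k _
  exact MvPolynomial.isHomogeneous_monomial _ (FmPoly_degree i j k)

theorem poly_sub (a b : Ten ℤ) : poly (a - b) = poly a - poly b := by
  unfold poly
  simp only [Pi.sub_apply, map_sub, Finset.sum_sub_distrib]

theorem aeval_poly {R : Type*} [CommRing R] (a : Ten ℤ) (x : Fin 4 → R) :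
    MvPolynomial.aeval x (poly a) = ev (ct R a) x := by
  unfold poly ev ct
  simp only [map_sum, MvPolynomial.aeval_monomial]
  refine Finset.sum_congr rfl fun i _ => Finset.sum_congr rfl fun j _ => Finset.sum_congr rfl fun k _ => ?_
  have hs : ∀ i : Fin 4, (Finsupp.single i 1).prod (fun i k => x i ^ k) = x i := fun i => by
    rw [Finsupp.prod_single_index (h := fun i k => x i ^ k) (pow_zero _), pow_one]
  have key : (mo i j k).prod (fun i k => x i ^ k) = x i * x j * x k := by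
    unfold mo
    have e1 := Finsupp.prod_add_index' (f := Finsupp.single i 1 + Finsupp.single j 1) (g := Finsupp.single k 1)
      (h := fun i k => x i ^ k) (fun _ => pow_zero _) (fun _ _ _ => pow_add _ _ _)
    have e2 := Finsupp.prod_add_index' (f := Finsupp.single i 1) (g := Finsupp.single j 1)
      (h := fun i k => x i ^ k) (fun _ => pow_zero _) (fun _ _ _ => pow_add _ _ _)
    exact e1.trans (congrArg₂ (· * ·) (e2.trans (congrArg₂ (· * ·) (hs i) (hs j))) (hs k))
  rw [key]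
  simp

private theorem FmPoly_dec : ∀ i j k i' j' k' : Fin 4, i ≤ j → j ≤ k → i' ≤ j' → j' ≤ k' →
    (∀ l : Fin 4, (if i = l then 1 else 0) + (if j = l then 1 else 0) + (if k = l then 1 else 0) =
      (if i' = l then 1 else 0) + (if j' = l then 1 else 0) + (if k' = l then 1 else 0)) →
    i = i' ∧ j = j' ∧ k = k' := by
  decide +kernel

theorem mo_inj {i j k i' j' k' : Fin 4} (h1 : i ≤ j) (h2 : j ≤ k) (h1' : i' ≤ j') (h2' : j' ≤ k')
    (h : mo i j k = mo i' j' k') : i = i' ∧ j = j' ∧ k = k' := by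
  apply FmPoly_dec i j k i' j' k' h1 h2 h1' h2'
  intro l
  have := DFunLike.congr_fun h l
  unfold mo at this
  simpa only [Finsupp.add_apply, Finsupp.single_apply] using this

private theorem FmPoly_perm : ∀ i j k : Fin 4, sr i j k = (i, j, k) ∨ sr i j k = (i, k, j) ∨
    sr i j k = (j, i, k) ∨ sr i j k = (j, k, i) ∨ sr i j k = (k, i, j) ∨ sr i j k = (k, j, i) := by
  decide +kernel

theorem mo_sr (i j k : Fin 4) : mo (sr i j k).1 (sr i j k).2.1 (sr i j k).2.2 = mo i j k := by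
  rcases FmPoly_perm i j k with h | h | h | h | h | h <;> rw [h] <;> unfold mo <;> simp only [] <;> abel

private theorem FmPoly_sorted : ∀ i j k : Fin 4, (sr i j k).1 ≤ (sr i j k).2.1 ∧ (sr i j k).2.1 ≤ (sr i j k).2.2 := by
  decide +kernel

theorem sr_sorted (i j k : Fin 4) : (sr i j k).1 ≤ (sr i j k).2.1 ∧ (sr i j k).2.1 ≤ (sr i j k).2.2 :=
  FmPoly_sorted i j k

private theorem FmPoly_of_sorted : ∀ i j k : Fin 4, i ≤ j → j ≤ k → sr i j k = (i, j, k) := by
  decide +kernel

theorem sr_of_sorted {i j k : Fin 4} (h1 : i ≤ j) (h2 : j ≤ k) : sr i j k = (i, j, k) :=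
  FmPoly_of_sorted i j k h1 h2

theorem exists_mo {μ : Fin 4 →₀ ℕ} (h : ∑ i, μ i = 3) : ∃ i j k, i ≤ j ∧ j ≤ k ∧ mo i j k = μ := by
  have h1 : Multiset.card (Finsupp.toMultiset μ) = 3 := by
    rw [Finsupp.card_toMultiset, Finsupp.sum_fintype _ _ (fun _ => rfl)]
    exact h
  obtain ⟨x, y, z, hxyz⟩ := Multiset.card_eq_three.1 h1
  have h2 : mo x y z = μ := by
    have h3 : Finsupp.toMultiset (mo x y z) = Finsupp.toMultiset μ := by
      rw [hxyz]
      unfold mo
      rw [map_add, map_add, Finsupp.toMultiset_single, Finsupp.toMultiset_single, Finsupp.toMultiset_single,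
        one_nsmul, one_nsmul, one_nsmul]
      rfl
    ext l
    rw [← Finsupp.count_toMultiset, h3, Finsupp.count_toMultiset]
  exact ⟨_, _, _, (sr_sorted x y z).1, (sr_sorted x y z).2, (mo_sr x y z).trans h2⟩

private theorem FmPoly_single {c : Ten ℤ} (hc : ∀ i j k, ¬ (i ≤ j ∧ j ≤ k) → c i j k = 0) {i0 j0 k0 : Fin 4}
    (h1 : i0 ≤ j0) (h2 : j0 ≤ k0) :
    (∑ i, ∑ j, ∑ k, if mo i j k = mo i0 j0 k0 then c i j k else 0) = c i0 j0 k0 := by
  have key : ∀ i j k, (i ≠ i0 ∨ j ≠ j0 ∨ k ≠ k0) → (if mo i j k = mo i0 j0 k0 then c i j k else 0) = 0 := by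
    intro i j k hne
    by_cases hm : mo i j k = mo i0 j0 k0
    · rw [if_pos hm]
      apply hc
      rintro ⟨h3, h4⟩
      obtain ⟨rfl, rfl, rfl⟩ := mo_inj h3 h4 h1 h2 hm
      simp at hne
    · rw [if_neg hm]
  rw [Finset.sum_eq_single i0, Finset.sum_eq_single j0, Finset.sum_eq_single k0, if_pos rfl]
  · intro k _ hk
    exact key _ _ _ (Or.inr (Or.inr hk))
  · intro h
    exact absurd (Finset.mem_univ _) h
  · intro j _ hj
    exact Finset.sum_eq_zero fun k _ => key _ _ _ (Or.inr (Or.inl hj))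
  · intro h
    exact absurd (Finset.mem_univ _) h
  · intro i _ hi
    exact Finset.sum_eq_zero fun j _ => Finset.sum_eq_zero fun k _ => key _ _ _ (Or.inl hi)
  · intro h
    exact absurd (Finset.mem_univ _) h

private theorem FmPoly_toTen_supp (f : MvPolynomial (Fin 4) ℤ) : ∀ i j k, ¬ (i ≤ j ∧ j ≤ k) → toTen f i j k = 0 := by
  intro i j k h
  unfold toTen
  rw [if_neg h]

theorem poly_toTen {f : MvPolynomial (Fin 4) ℤ} (hf : f.IsHomogeneous 3) : poly (toTen f) = f := by
  ext μ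
  rw [coeff_poly]
  by_cases h : ∑ i, μ i = 3
  · obtain ⟨i0, j0, k0, h1, h2, rfl⟩ := exists_mo h
    rw [FmPoly_single (FmPoly_toTen_supp f) h1 h2]
    unfold toTen
    rw [if_pos ⟨h1, h2⟩]
  · rw [hf.coeff_eq_zero (by rw [Finsupp.degree_eq_sum]; exact h)]
    refine Finset.sum_eq_zero fun i _ => Finset.sum_eq_zero fun j _ => Finset.sum_eq_zero fun k _ => ?_
    rw [if_neg]
    intro hm
    apply h
    rw [← hm]
    exact FmPoly_sum_mo i j k

theorem toTen_poly {c : Ten ℤ} (hc : ∀ i j k, ¬ (i ≤ j ∧ j ≤ k) → c i j k = 0) : toTen (poly c) = c := by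
  funext i j k
  by_cases h : i ≤ j ∧ j ≤ k
  · unfold toTen
    rw [if_pos h, coeff_poly, FmPoly_single hc h.1 h.2]
  · rw [FmPoly_toTen_supp _ i j k h, hc i j k h]

theorem toTen_mem {A : ℕ} {f : MvPolynomial (Fin 4) ℤ} (hf : f ∈ Forms A) : toTen f ∈ Box A := by
  rw [mem_Box]
  intro i j k
  unfold toTen
  by_cases h : i ≤ j ∧ j ≤ k
  · rw [if_pos h]
    exact hf.2 _
  · rw [if_neg h, abs_zero]
    exact Int.natCast_nonneg A

private theorem FmPoly_six : ∀ s : Fin 4 × Fin 4 × Fin 4,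
    (Finset.univ.filter (fun t : Fin 4 × Fin 4 × Fin 4 => sr t.1 t.2.1 t.2.2 = s)).card ≤ 6 := by
  decide +kernel

private theorem FmPoly_six' (μ : Fin 4 →₀ ℕ) :
    (Finset.univ.filter (fun t : Fin 4 × Fin 4 × Fin 4 => mo t.1 t.2.1 t.2.2 = μ)).card ≤ 6 := by
  by_cases h : ∃ t0 : Fin 4 × Fin 4 × Fin 4, mo t0.1 t0.2.1 t0.2.2 = μ
  · obtain ⟨t0, h0⟩ := h
    refine (Finset.card_le_card ?_).trans (FmPoly_six (sr t0.1 t0.2.1 t0.2.2))
    intro t ht
    rw [Finset.mem_filter] at ht ⊢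
    refine ⟨ht.1, ?_⟩
    have h1 : mo (sr t.1 t.2.1 t.2.2).1 (sr t.1 t.2.1 t.2.2).2.1 (sr t.1 t.2.1 t.2.2).2.2 =
        mo (sr t0.1 t0.2.1 t0.2.2).1 (sr t0.1 t0.2.1 t0.2.2).2.1 (sr t0.1 t0.2.1 t0.2.2).2.2 := by
      rw [mo_sr, mo_sr, ht.2, h0]
    obtain ⟨e1, e2, e3⟩ := mo_inj (sr_sorted _ _ _).1 (sr_sorted _ _ _).2 (sr_sorted _ _ _).1 (sr_sorted _ _ _).2 h1
    exact Prod.ext e1 (Prod.ext e2 e3)
  · have : Finset.univ.filter (fun t : Fin 4 × Fin 4 × Fin 4 => mo t.1 t.2.1 t.2.2 = μ) = ∅ := by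
      rw [Finset.filter_eq_empty_iff]
      intro t _ ht
      exact h ⟨t, ht⟩
    rw [this]
    simp

theorem poly_mem {A : ℕ} {a : Ten ℤ} (ha : a ∈ Box A) : poly a ∈ Forms (6 * A) := by
  refine ⟨poly_hom a, fun μ => ?_⟩
  rw [mem_Box] at ha
  have h1 : (poly a).coeff μ = ∑ t ∈ Finset.univ.filter (fun t : Fin 4 × Fin 4 × Fin 4 => mo t.1 t.2.1 t.2.2 = μ),
      a t.1 t.2.1 t.2.2 := by
    rw [coeff_poly, Finset.sum_filter, Fintype.sum_prod_type]
    refine Finset.sum_congr rfl fun i _ => ?_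
    rw [Fintype.sum_prod_type]
  rw [h1]
  calc |∑ t ∈ Finset.univ.filter (fun t : Fin 4 × Fin 4 × Fin 4 => mo t.1 t.2.1 t.2.2 = μ), a t.1 t.2.1 t.2.2|
      ≤ ∑ t ∈ Finset.univ.filter (fun t : Fin 4 × Fin 4 × Fin 4 => mo t.1 t.2.1 t.2.2 = μ), |a t.1 t.2.1 t.2.2| :=
        Finset.abs_sum_le_sum_abs _ _
    _ ≤ ∑ _t ∈ Finset.univ.filter (fun t : Fin 4 × Fin 4 × Fin 4 => mo t.1 t.2.1 t.2.2 = μ), (A : ℤ) :=
        Finset.sum_le_sum fun t _ => ha _ _ _
    _ ≤ ((6 * A : ℕ) : ℤ) := by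
        rw [Finset.sum_const, nsmul_eq_mul]
        have := FmPoly_six' μ
        push_cast
        exact mul_le_mul_of_nonneg_right (by exact_mod_cast this) (Int.natCast_nonneg A)

end Pool.Agent.Lib.MP_1ad228_ntC
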