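import Pool.Agent.Lib.MP_1ad228_ntC.FmPoly

/-!
# JOB FmXfer (about 120 lines): from tensors to forms

* `poly_mkT` (`α` supported on the sorted triples): `poly (mkT α b) = ∑_t monomial (mo t) (mkT α b t)`.  Write the triple sum as a sum over `t : Fin 4 × Fin 4 × Fin 4`
  (`Fintype.sum_prod_type`), split into sorted and unsorted `t`.  The sorted ones give
  `∑_{t sorted} monomial (mo t) (α t) - ∑_{t sorted} ∑_{t' unsorted, sr t' = t} monomial (mo t) (sg (α t) * b t')`, the unsorted ones `∑_{t' unsorted} monomial (mo t') (sg (α (sr t')) * b t')`;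
  the last two cancel: `Finset.sum_fiberwise_of_maps_to` for `t' ↦ sr t'` (values sorted by `sr_sorted`) and `mo_sr`.  The first is `poly α` because `α` vanishes at the unsorted triples.
* `mkT_mem`: unsorted entries: `|± b| ≤ q ≤ A`.  Sorted entries: the filter has at most `5` elements (`decide`: `∀ i j k, (univ.filter ..).card ≤ 5`), so the sum `s` is in `[0, 5 q]`, `5 q ≤ A`, and
  `|α - sg α * s| ≤ A` since `|α| ≤ A`: if `α ≥ 0` it is `α - s ∈ [-A, A]`, otherwise `α + s`.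
* `mkT_inj`: if `mkT α b = mkT α' b'` then `poly α = poly α'` by `poly_mkT`, so `α = α'` (`toTen_poly`); at an unsorted triple `sg (..) * b = sg (..) * b'` and `sg = ± 1`; at a sorted one
  `b = b' = 0` (`BB`).
* `card_BB`: `Fintype.card_piFinset`, `Fin.prod_univ_four`, `simp` (44 unsorted triples), or `decide`-free computation: product over triples of `if sorted then 1 else q + 1`.
* `xfer`: the map `(f, b) ↦ mkT (toTen f) b` from `S × BB (A / 5)` to `T` is injective (`S` is finite: as a subset of the image of `Box A` under `poly`, `poly_toTen`, `toTen_mem`):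
  `Set.ncard_eq_toFinset_card`, `Finset.card_le_card_of_injOn`, `Finset.card_product`.
-/

namespace Pool.Agent.Lib.MP_1ad228_ntC

private theorem FmXfer_sum (a : Ten ℤ) : poly a = ∑ t : Fin 4 × Fin 4 × Fin 4,
    MvPolynomial.monomial (mo t.1 t.2.1 t.2.2) (a t.1 t.2.1 t.2.2) := by
  unfold poly
  rw [Fintype.sum_prod_type]
  refine Finset.sum_congr rfl fun i _ => ?_
  rw [Fintype.sum_prod_type]

private theorem FmXfer_card (i j k : Fin 4) :
    ((Finset.univ : Finset (Fin 4 × Fin 4 × Fin 4)).filter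
      (fun t => ¬ (t.1 ≤ t.2.1 ∧ t.2.1 ≤ t.2.2) ∧
        sr t.1 t.2.1 t.2.2 = (i, j, k))).card ≤ 5 := by
  revert i j k
  decide +kernel

private theorem FmXfer_card44 :
    ((Finset.univ : Finset (Fin 4 × Fin 4 × Fin 4)).filter
      (fun t => ¬ (t.1 ≤ t.2.1 ∧ t.2.1 ≤ t.2.2))).card = 44 := by
  decide +kernel

private theorem FmXfer_memBB {q : ℕ} {b : Ten ℤ} : b ∈ BB q ↔ ∀ i j k,
    ((i ≤ j ∧ j ≤ k) → b i j k = 0) ∧ (¬ (i ≤ j ∧ j ≤ k) → 0 ≤ b i j k ∧ b i j k ≤ (q : ℤ)) := by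
  unfold BB
  simp only [Fintype.mem_piFinset]
  refine forall_congr' fun i => forall_congr' fun j => forall_congr' fun k => ?_
  by_cases h : i ≤ j ∧ j ≤ k
  · rw [if_pos h, Finset.mem_singleton]
    exact ⟨fun h1 => ⟨fun _ => h1, fun h2 => absurd h h2⟩, fun h1 => h1.1 h⟩
  · rw [if_neg h, Finset.mem_Icc]
    exact ⟨fun h1 => ⟨fun h2 => absurd h2 h, fun _ => h1⟩, fun h1 => h1.2 h⟩

theorem poly_mkT {α : Ten ℤ} (hα : ∀ i j k, ¬ (i ≤ j ∧ j ≤ k) → α i j k = 0) (b : Ten ℤ) :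
    poly (mkT α b) = poly α := by
  have hd : poly (mkT α b) - poly α = 0 := by
    rw [← poly_sub, FmXfer_sum, ← Finset.sum_filter_add_sum_filter_not Finset.univ
      (fun t : Fin 4 × Fin 4 × Fin 4 => t.1 ≤ t.2.1 ∧ t.2.1 ≤ t.2.2)]
    have h2 : ∑ t ∈ (Finset.univ : Finset (Fin 4 × Fin 4 × Fin 4)).filter
          (fun t => ¬ (t.1 ≤ t.2.1 ∧ t.2.1 ≤ t.2.2)),
          MvPolynomial.monomial (mo t.1 t.2.1 t.2.2) ((mkT α b - α) t.1 t.2.1 t.2.2) =
        ∑ t0 ∈ (Finset.univ : Finset (Fin 4 × Fin 4 × Fin 4)).filter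
          (fun t => t.1 ≤ t.2.1 ∧ t.2.1 ≤ t.2.2),
          ∑ t ∈ ((Finset.univ : Finset (Fin 4 × Fin 4 × Fin 4)).filter
            (fun t => ¬ (t.1 ≤ t.2.1 ∧ t.2.1 ≤ t.2.2))).filter
            (fun t => sr t.1 t.2.1 t.2.2 = t0),
            MvPolynomial.monomial (mo t.1 t.2.1 t.2.2) ((mkT α b - α) t.1 t.2.1 t.2.2) :=
      (Finset.sum_fiberwise_of_maps_to (fun t _ => by
        rw [Finset.mem_filter]
        exact ⟨Finset.mem_univ _, sr_sorted _ _ _⟩) _).symm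
    rw [h2, ← Finset.sum_add_distrib]
    refine Finset.sum_eq_zero fun t0 ht0 => ?_
    rw [Finset.mem_filter] at ht0
    have hs0 := ht0.2
    have h3 : ∑ t ∈ ((Finset.univ : Finset (Fin 4 × Fin 4 × Fin 4)).filter
            (fun t => ¬ (t.1 ≤ t.2.1 ∧ t.2.1 ≤ t.2.2))).filter
            (fun t => sr t.1 t.2.1 t.2.2 = t0),
            MvPolynomial.monomial (mo t.1 t.2.1 t.2.2) ((mkT α b - α) t.1 t.2.1 t.2.2) =
        MvPolynomial.monomial (mo t0.1 t0.2.1 t0.2.2) (sg (α t0.1 t0.2.1 t0.2.2) *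
          ∑ t ∈ (Finset.univ : Finset (Fin 4 × Fin 4 × Fin 4)).filter
            (fun t => ¬ (t.1 ≤ t.2.1 ∧ t.2.1 ≤ t.2.2) ∧
              sr t.1 t.2.1 t.2.2 = (t0.1, t0.2.1, t0.2.2)), b t.1 t.2.1 t.2.2) := by
      rw [Finset.mul_sum, map_sum, Finset.filter_filter]
      refine Finset.sum_congr rfl fun t ht => ?_
      rw [Finset.mem_filter] at ht
      obtain ⟨-, hu, hst⟩ := ht
      have h4 : mo t.1 t.2.1 t.2.2 = mo t0.1 t0.2.1 t0.2.2 := by
        rw [← mo_sr t.1 t.2.1 t.2.2, hst]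
      have h5 : (mkT α b - α) t.1 t.2.1 t.2.2 = sg (α t0.1 t0.2.1 t0.2.2) * b t.1 t.2.1 t.2.2 := by
        show mkT α b t.1 t.2.1 t.2.2 - α t.1 t.2.1 t.2.2 = _
        rw [hα _ _ _ hu, sub_zero]
        unfold mkT
        rw [if_neg hu, hst]
      rw [h4, h5]
    rw [h3]
    have h6 : (mkT α b - α) t0.1 t0.2.1 t0.2.2 = -(sg (α t0.1 t0.2.1 t0.2.2) *
          ∑ t ∈ (Finset.univ : Finset (Fin 4 × Fin 4 × Fin 4)).filter
            (fun t => ¬ (t.1 ≤ t.2.1 ∧ t.2.1 ≤ t.2.2) ∧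
              sr t.1 t.2.1 t.2.2 = (t0.1, t0.2.1, t0.2.2)), b t.1 t.2.1 t.2.2) := by
      show mkT α b t0.1 t0.2.1 t0.2.2 - α t0.1 t0.2.1 t0.2.2 = _
      unfold mkT
      rw [if_pos hs0]
      ring
    rw [h6, ← map_add, neg_add_cancel, map_zero]
  exact sub_eq_zero.1 hd

theorem mkT_mem {A : ℕ} {α b : Ten ℤ} (hα : α ∈ Box A) (hb : b ∈ BB (A / 5)) : mkT α b ∈ Box A := by
  rw [mem_Box] at hα ⊢
  intro i j k
  have hA5 : ((A / 5 : ℕ) : ℤ) * 5 ≤ (A : ℤ) := by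
    have := Nat.div_mul_le_self A 5
    exact_mod_cast this
  have hA0 : (0 : ℤ) ≤ ((A / 5 : ℕ) : ℤ) := Int.natCast_nonneg _
  have hb' := FmXfer_memBB.1 hb
  unfold mkT
  split_ifs with hs
  · obtain ⟨s, hsd⟩ : ∃ s, s = ∑ t ∈ (Finset.univ : Finset (Fin 4 × Fin 4 × Fin 4)).filter
      (fun t => ¬ (t.1 ≤ t.2.1 ∧ t.2.1 ≤ t.2.2) ∧ sr t.1 t.2.1 t.2.2 = (i, j, k)),
        b t.1 t.2.1 t.2.2 := ⟨_, rfl⟩
    rw [← hsd]
    have hb1 : ∀ t : Fin 4 × Fin 4 × Fin 4, 0 ≤ b t.1 t.2.1 t.2.2 ∧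
        b t.1 t.2.1 t.2.2 ≤ ((A / 5 : ℕ) : ℤ) := by
      intro t
      by_cases h : t.1 ≤ t.2.1 ∧ t.2.1 ≤ t.2.2
      · rw [(hb' _ _ _).1 h]
        exact ⟨le_rfl, hA0⟩
      · exact (hb' _ _ _).2 h
    have hs0 : 0 ≤ s := by
      rw [hsd]
      exact Finset.sum_nonneg fun t _ => (hb1 t).1
    have hs1 : s ≤ (A : ℤ) := by
      have h1 : s ≤ ((Finset.univ : Finset (Fin 4 × Fin 4 × Fin 4)).filter
          (fun t => ¬ (t.1 ≤ t.2.1 ∧ t.2.1 ≤ t.2.2) ∧
            sr t.1 t.2.1 t.2.2 = (i, j, k))).card • ((A / 5 : ℕ) : ℤ) := by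
        rw [hsd]
        exact Finset.sum_le_card_nsmul _ _ _ fun t _ => (hb1 t).2
      have h2 := FmXfer_card i j k
      rw [nsmul_eq_mul] at h1
      have h3 : (((Finset.univ : Finset (Fin 4 × Fin 4 × Fin 4)).filter
          (fun t => ¬ (t.1 ≤ t.2.1 ∧ t.2.1 ≤ t.2.2) ∧
            sr t.1 t.2.1 t.2.2 = (i, j, k))).card : ℤ) ≤ 5 := by exact_mod_cast h2
      have h4 := mul_le_mul_of_nonneg_right h3 hA0
      linarith
    have h5 := hα i j k
    rw [abs_le] at h5 ⊢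
    unfold sg
    split_ifs with h6
    · constructor <;> linarith
    · constructor <;> linarith
  · obtain ⟨h1, h2⟩ := (hb' i j k).2 hs
    unfold sg
    rw [abs_le]
    split_ifs with h6
    · constructor <;> linarith
    · constructor <;> linarith

theorem mkT_inj {q : ℕ} {α α' b b' : Ten ℤ} (hα : ∀ i j k, ¬ (i ≤ j ∧ j ≤ k) → α i j k = 0)
    (hα' : ∀ i j k, ¬ (i ≤ j ∧ j ≤ k) → α' i j k = 0) (hb : b ∈ BB q) (hb' : b' ∈ BB q)
    (h : mkT α b = mkT α' b') : α = α' ∧ b = b' := by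
  have hp : poly α = poly α' := by rw [← poly_mkT hα b, ← poly_mkT hα' b', h]
  have hαα : α = α' := by rw [← toTen_poly hα, ← toTen_poly hα', hp]
  refine ⟨hαα, ?_⟩
  subst hαα
  funext i j k
  have h1 := FmXfer_memBB.1 hb i j k
  have h2 := FmXfer_memBB.1 hb' i j k
  by_cases hs : i ≤ j ∧ j ≤ k
  · rw [h1.1 hs, h2.1 hs]
  · have h3 : mkT α b i j k = mkT α b' i j k := by rw [h]
    unfold mkT at h3
    rw [if_neg hs, if_neg hs] at h3
    have h4 : ∀ z : ℤ, sg z ≠ 0 := by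
      intro z
      unfold sg
      split_ifs <;> decide
    exact mul_left_cancel₀ (h4 _) h3

theorem card_BB (q : ℕ) : (BB q).card = (q + 1) ^ 44 := by
  unfold BB
  rw [Fintype.card_piFinset]
  have h1 : ∀ i j k : Fin 4, (if i ≤ j ∧ j ≤ k then ({0} : Finset ℤ) else
      Finset.Icc 0 (q : ℤ)).card = if i ≤ j ∧ j ≤ k then 1 else q + 1 := by
    intro i j k
    split_ifs
    · rfl
    · rw [Int.card_Icc]
      omega
  have h2 : ∀ i : Fin 4, (Fintype.piFinset fun j => Fintype.piFinset fun k =>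
      if i ≤ j ∧ j ≤ k then ({0} : Finset ℤ) else Finset.Icc 0 (q : ℤ)).card =
      ∏ y : Fin 4 × Fin 4, if i ≤ y.1 ∧ y.1 ≤ y.2 then 1 else q + 1 := by
    intro i
    rw [Fintype.card_piFinset, Fintype.prod_prod_type]
    refine Finset.prod_congr rfl fun j _ => ?_
    rw [Fintype.card_piFinset]
    exact Finset.prod_congr rfl fun k _ => h1 i j k
  rw [Finset.prod_congr rfl fun i _ => h2 i]
  have h3 : ∏ i : Fin 4, ∏ y : Fin 4 × Fin 4, (if i ≤ y.1 ∧ y.1 ≤ y.2 then 1 else q + 1) =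
      ∏ t : Fin 4 × Fin 4 × Fin 4, if t.1 ≤ t.2.1 ∧ t.2.1 ≤ t.2.2 then 1 else q + 1 := by
    rw [Fintype.prod_prod_type]
  rw [h3, Finset.prod_ite, Finset.prod_const_one, one_mul, Finset.prod_const, FmXfer_card44]

theorem Forms_finite (A : ℕ) : (Forms A).Finite := by
  refine Set.Finite.subset ((Box A).finite_toSet.image poly) ?_
  intro f hf
  exact ⟨toTen f, toTen_mem hf, poly_toTen hf.1⟩

theorem xfer {A : ℕ} (S : Set (MvPolynomial (Fin 4) ℤ)) (hS : S ⊆ Forms A) (T : Finset (Ten ℤ))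
    (hT : ∀ f ∈ S, ∀ a ∈ Box A, poly a = f → a ∈ T) : S.ncard * (A / 5 + 1) ^ 44 ≤ T.card := by
  classical
  have hSf : S.Finite := (Forms_finite A).subset hS
  rw [Set.ncard_eq_toFinset_card S hSf, ← card_BB, ← Finset.card_product]
  have hsup : ∀ f : MvPolynomial (Fin 4) ℤ, ∀ i j k, ¬ (i ≤ j ∧ j ≤ k) → toTen f i j k = 0 := by
    intro f i j k h
    unfold toTen
    rw [if_neg h]
  refine Finset.card_le_card_of_injOn (fun x => mkT (toTen x.1) x.2) ?_ ?_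
  · rintro ⟨f, b⟩ hx
    rw [Finset.mem_coe, Finset.mem_product, Set.Finite.mem_toFinset] at hx
    obtain ⟨hf, hb⟩ := hx
    have hfA := hS hf
    exact hT f hf _ (mkT_mem (toTen_mem hfA) hb) (by
      rw [poly_mkT (hsup f), poly_toTen hfA.1])
  · rintro ⟨f, b⟩ hx ⟨f', b'⟩ hx' he
    rw [Finset.mem_coe, Finset.mem_product, Set.Finite.mem_toFinset] at hx hx'
    have hf : f ∈ S := hx.1
    have hf' : f' ∈ S := hx'.1
    obtain ⟨h1, h2⟩ := mkT_inj (hsup f) (hsup f') hx.2 hx'.2 he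
    have h2' : b = b' := h2
    have h3 : f = f' := by
      rw [← poly_toTen (hS hf).1, ← poly_toTen (hS hf').1, h1]
    rw [h3, h2']

end Pool.Agent.Lib.MP_1ad228_ntC
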