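import Pool.Agent.Lib.MP_1ad228_ntC.LD_Base

/-!
JOB LD_Equi (MP_1ad228_nt stream C, piece LD).
-/

namespace Pool.Agent.Lib.MP_1ad228_ntC

open Classical

theorem LD_Equi_one (m : ℕ) [NeZero m] (A : ℕ) (c : ZMod m) :
    ((Finset.Icc (-(A : ℤ)) (A : ℤ)).filter fun z : ℤ => (z : ZMod m) = c).card ≤
      (2 * A + 1) / m + 1 := by
  have hm : (0 : ℤ) < (m : ℤ) := by
    have := NeZero.pos m
    exact_mod_cast this
  rw [← Finset.card_range ((2 * A + 1) / m + 1)]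
  refine Finset.card_le_card_of_injOn (fun z => ((z + A) / (m : ℤ)).toNat) ?_ ?_
  · intro z hz
    have hz' := Finset.mem_filter.1 (Finset.mem_coe.1 hz)
    have hz1 := Finset.mem_Icc.1 hz'.1
    rw [Finset.mem_coe, Finset.mem_range, Nat.lt_succ_iff]
    have h1 : (z + A) / (m : ℤ) ≤ ((2 * A + 1 : ℕ) : ℤ) / (m : ℤ) := by
      apply Int.ediv_le_ediv hm
      push_cast
      linarith [hz1.2]
    have h2 : ((2 * A + 1 : ℕ) : ℤ) / (m : ℤ) = (((2 * A + 1) / m : ℕ) : ℤ) := by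
      rw [Int.natCast_div]
    rw [h2] at h1
    exact Int.toNat_le.2 h1
  · intro z hz w hw hzw
    have hz' := Finset.mem_filter.1 (Finset.mem_coe.1 hz)
    have hw' := Finset.mem_filter.1 (Finset.mem_coe.1 hw)
    have hz1 := Finset.mem_Icc.1 hz'.1
    have hw1 := Finset.mem_Icc.1 hw'.1
    have h0z : 0 ≤ (z + A) / (m : ℤ) := Int.ediv_nonneg (by linarith [hz1.1]) hm.le
    have h0w : 0 ≤ (w + A) / (m : ℤ) := Int.ediv_nonneg (by linarith [hw1.1]) hm.le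
    have h3 : (z + A) / (m : ℤ) = (w + A) / (m : ℤ) := by
      have h4 : ((z + A) / (m : ℤ)).toNat = ((w + A) / (m : ℤ)).toNat := hzw
      have h5 : (((z + A) / (m : ℤ)).toNat : ℤ) = (((w + A) / (m : ℤ)).toNat : ℤ) := by rw [h4]
      rwa [Int.toNat_of_nonneg h0z, Int.toNat_of_nonneg h0w] at h5
    have h6 : ((z : ZMod m)) = ((w : ZMod m)) := by rw [hz'.2, hw'.2]
    have h7 : z ≡ w [ZMOD (m : ℤ)] := (ZMod.intCast_eq_intCast_iff z w m).1 h6
    have h8 : (z + A) % (m : ℤ) = (w + A) % (m : ℤ) := h7.add_right _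
    have h9 := Int.emod_add_mul_ediv (z + A) (m : ℤ)
    have h10 := Int.emod_add_mul_ediv (w + A) (m : ℤ)
    rw [h3, h8] at h9
    linarith

theorem LD_Equi_ten (m : ℕ) [NeZero m] (A : ℕ) (r : Ten (ZMod m)) :
    ((Box A).filter fun a => ct (ZMod m) a = r).card ≤ ((2 * A + 1) / m + 1) ^ 64 := by
  have hsub : ((Box A).filter fun a => ct (ZMod m) a = r) ⊆
      Fintype.piFinset fun i => Fintype.piFinset fun j => Fintype.piFinset fun k =>
        (Finset.Icc (-(A : ℤ)) (A : ℤ)).filter fun z : ℤ => (z : ZMod m) = r i j k := by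
    intro a ha
    have ha' := Finset.mem_filter.1 ha
    have ha1 := mem_Box.1 ha'.1
    simp only [Fintype.mem_piFinset]
    intro i j k
    rw [Finset.mem_filter, Finset.mem_Icc]
    refine ⟨abs_le.1 (ha1 i j k), ?_⟩
    exact congrFun (congrFun (congrFun ha'.2 i) j) k
  refine (Finset.card_le_card hsub).trans ?_
  simp only [Fintype.card_piFinset]
  calc ∏ i : Fin 4, ∏ j : Fin 4, ∏ k : Fin 4,
        ((Finset.Icc (-(A : ℤ)) (A : ℤ)).filter fun z : ℤ => (z : ZMod m) = r i j k).card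
      ≤ ∏ _i : Fin 4, ∏ _j : Fin 4, ∏ _k : Fin 4, ((2 * A + 1) / m + 1) :=
        Finset.prod_le_prod' fun i _ => Finset.prod_le_prod' fun j _ =>
          Finset.prod_le_prod' fun k _ => LD_Equi_one m A (r i j k)
    _ = ((2 * A + 1) / m + 1) ^ 64 := by
        simp only [Finset.prod_const, Finset.card_univ, Fintype.card_fin]
        rw [← pow_mul, ← pow_mul]

theorem LD_cls (m : ℕ) [NeZero m] (A : ℕ) (S : Finset (Ten (ZMod m))) :
    ((Box A).filter fun a => ct (ZMod m) a ∈ S).card ≤ S.card * ((2 * A + 1) / m + 1) ^ 64 := by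
  have hsub : ((Box A).filter fun a => ct (ZMod m) a ∈ S) ⊆
      S.biUnion fun r => (Box A).filter fun a => ct (ZMod m) a = r := by
    intro a ha
    have ha' := Finset.mem_filter.1 ha
    rw [Finset.mem_biUnion]
    exact ⟨ct (ZMod m) a, ha'.2, Finset.mem_filter.2 ⟨ha'.1, rfl⟩⟩
  refine (Finset.card_le_card hsub).trans (Finset.card_biUnion_le.trans ?_)
  refine (Finset.sum_le_sum fun r _ => LD_Equi_ten m A r).trans ?_
  rw [Finset.sum_const, smul_eq_mul]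

theorem LD_equi (m : ℕ) [NeZero m] : ∃ A0 : ℕ, ∀ A ≥ A0, ∀ S : Finset (Ten (ZMod m)),
    (((Box A).filter fun a => ct (ZMod m) a ∈ S).card : ℝ) ≤
      2 * ((S.card : ℝ) / (m : ℝ) ^ 64) * (2 * A + 1 : ℝ) ^ 64 := by
  refine ⟨50 * m, fun A hA S => ?_⟩
  have hm : (0 : ℝ) < (m : ℝ) := by
    have := NeZero.pos m
    exact_mod_cast this
  have h1 : (((Box A).filter fun a => ct (ZMod m) a ∈ S).card : ℝ) ≤
      (S.card : ℝ) * ((((2 * A + 1) / m : ℕ) : ℝ) + 1) ^ 64 := by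
    exact_mod_cast LD_cls m A S
  have h2 : (((2 * A + 1) / m : ℕ) : ℝ) ≤ ((2 * A + 1 : ℝ)) / (m : ℝ) := by
    have := @Nat.cast_div_le ℝ _ _ _ (2 * A + 1) m
    push_cast at this
    exact this
  have hA' : (50 : ℝ) * m ≤ A := by exact_mod_cast hA
  have h3 : (1 : ℝ) ≤ (1 / 100) * ((2 * A + 1 : ℝ) / (m : ℝ)) := by
    rw [← mul_div_assoc, le_div_iff₀ hm]
    linarith
  have h4 : (((2 * A + 1) / m : ℕ) : ℝ) + 1 ≤ (101 / 100) * ((2 * A + 1 : ℝ) / (m : ℝ)) := by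
    linarith
  have h5 : ((((2 * A + 1) / m : ℕ) : ℝ) + 1) ^ 64 ≤
      ((101 / 100) * ((2 * A + 1 : ℝ) / (m : ℝ))) ^ 64 :=
    pow_le_pow_left₀ (by positivity) h4 64
  have h6 : ((101 / 100 : ℝ) * ((2 * A + 1 : ℝ) / (m : ℝ))) ^ 64 ≤
      2 * ((2 * A + 1 : ℝ) ^ 64 / (m : ℝ) ^ 64) := by
    have h7 : (101 / 100 : ℝ) ^ 64 ≤ 2 := by norm_num
    have h8 : (0 : ℝ) ≤ (2 * A + 1 : ℝ) ^ 64 / (m : ℝ) ^ 64 := by positivity
    rw [mul_pow, div_pow (2 * A + 1 : ℝ)]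
    generalize (101 / 100 : ℝ) ^ 64 = t at h7 ⊢
    generalize (2 * A + 1 : ℝ) ^ 64 / (m : ℝ) ^ 64 = u at h8 ⊢
    exact mul_le_mul_of_nonneg_right h7 h8
  calc (((Box A).filter fun a => ct (ZMod m) a ∈ S).card : ℝ)
      ≤ (S.card : ℝ) * ((((2 * A + 1) / m : ℕ) : ℝ) + 1) ^ 64 := h1
    _ ≤ (S.card : ℝ) * (2 * ((2 * A + 1 : ℝ) ^ 64 / (m : ℝ) ^ 64)) :=
        mul_le_mul_of_nonneg_left (h5.trans h6) (by positivity)
    _ = 2 * ((S.card : ℝ) / (m : ℝ) ^ 64) * (2 * A + 1 : ℝ) ^ 64 := by ring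

end Pool.Agent.Lib.MP_1ad228_ntC
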