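import Pool.Agent.Lib.MP_1ad228_ntC.LD_Base

/-!
JOB LD_Exc (MP_1ad228_nt stream C, piece LD).   `Exc`, `dev` are in Defs.lean.
-/

namespace Pool.Agent.Lib.MP_1ad228_ntC

open Classical

theorem LD_Exc_dadd {R : Type*} [CommRing R] (a b : Ten R) (x : Fin 4 → R) (j : Fin 4) :
    dev (a + b) x j = dev a x j + dev b x j := by
  simp only [dev, Pi.add_apply, ← Finset.sum_add_distrib]
  refine Finset.sum_congr rfl fun k _ => Finset.sum_congr rfl fun l _ => ?_
  ring

theorem LD_Exc_dsub {R : Type*} [CommRing R] (a b : Ten R) (x : Fin 4 → R) (j : Fin 4) :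
    dev (a - b) x j = dev a x j - dev b x j := by
  simp only [dev, Pi.sub_apply, ← Finset.sum_sub_distrib]
  refine Finset.sum_congr rfl fun k _ => Finset.sum_congr rfl fun l _ => ?_
  ring

theorem LD_Exc_sum {R : Type*} [CommRing R] (i : Fin 4) (F : Fin 4 → Fin 4 → R) :
    ∑ k, ∑ l, (if k = i ∧ l = i then F k l else 0) = F i i := by
  rw [Finset.sum_eq_single i, Finset.sum_eq_single i]
  · simp
  · intro l _ hl
    simp [hl]
  · intro h
    exact absurd (Finset.mem_univ _) h
  · intro k _ hk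
    simp [hk]
  · intro h
    exact absurd (Finset.mem_univ _) h

/-- The section. -/
noncomputable def LD_Exc_sec {R : Type*} [CommRing R] (i : Fin 4) (x t : Fin 4 → R) : Ten R :=
  fun j k l => if k = i ∧ l = i then
    (if j = i then t i - ∑ j' ∈ Finset.univ.erase i, t j' * x j' else t j) else 0

theorem LD_Exc_sec_ev {R : Type*} [CommRing R] (i : Fin 4) (x t : Fin 4 → R) (hi : x i = 1) :
    ev (LD_Exc_sec i x t) x = t i := by
  have h1 : ev (LD_Exc_sec i x t) x = ∑ j, (if j = i then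
      t i - ∑ j' ∈ Finset.univ.erase i, t j' * x j' else t j) * x j := by
    unfold ev LD_Exc_sec
    refine Finset.sum_congr rfl fun j _ => ?_
    have h2 := LD_Exc_sum i (fun k l => (if j = i then
      t i - ∑ j' ∈ Finset.univ.erase i, t j' * x j' else t j) * (x j * x k * x l))
    simp only [hi, mul_one] at h2
    rw [← h2]
    refine Finset.sum_congr rfl fun k _ => Finset.sum_congr rfl fun l _ => ?_
    by_cases h : k = i ∧ l = i
    · rw [if_pos h, if_pos h]
    · rw [if_neg h, if_neg h, zero_mul]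
  rw [h1, ← Finset.add_sum_erase _ _ (Finset.mem_univ i), if_pos rfl, hi, mul_one]
  have h3 : ∑ j ∈ Finset.univ.erase i, (if j = i then
      t i - ∑ j' ∈ Finset.univ.erase i, t j' * x j' else t j) * x j =
      ∑ j' ∈ Finset.univ.erase i, t j' * x j' := by
    refine Finset.sum_congr rfl fun j hj => ?_
    rw [if_neg (Finset.ne_of_mem_erase hj)]
  rw [h3, sub_add_cancel]

theorem LD_Exc_sec_dev {R : Type*} [CommRing R] (i : Fin 4) (x t : Fin 4 → R) (hi : x i = 1)
    (j : Fin 4) (hj : j ≠ i) : dev (LD_Exc_sec i x t) x j = t j := by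
  unfold dev LD_Exc_sec
  have h2 := LD_Exc_sum i (fun k l => t j * (x k * x l))
  simp only [hi, mul_one] at h2
  refine Eq.trans ?_ h2
  refine Finset.sum_congr rfl fun k _ => Finset.sum_congr rfl fun l _ => ?_
  have e1 : ¬ (j = i ∧ l = i) := fun h => hj h.1
  have e2 : ¬ (l = i ∧ j = i) := fun h => hj h.2
  rw [if_neg e1, if_neg e2, if_neg hj, add_zero, add_zero]
  by_cases h : k = i ∧ l = i
  · rw [if_pos h, if_pos h]
  · rw [if_neg h, if_neg h, zero_mul]

theorem LD_lin (m : ℕ) [NeZero m] (x : Fin 4 → ZMod m) (i : Fin 4) (hi : x i = 1) :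
    Nat.card {a : Ten (ZMod m) // ev a x = 0 ∧ ∀ j, j ≠ i → dev a x j = 0} = m ^ 60 := by
  let P : Ten (ZMod m) → Fin 4 → ZMod m := fun a j => if j = i then ev a x else dev a x j
  have hPs : ∀ t, P (LD_Exc_sec i x t) = t := by
    intro t
    funext j
    by_cases hj : j = i
    · subst hj
      exact (if_pos rfl).trans (LD_Exc_sec_ev j x t hi)
    · exact (if_neg hj).trans (LD_Exc_sec_dev i x t hi j hj)
  have hPadd : ∀ a b, P (a + b) = P a + P b := by
    intro a b
    funext j
    simp only [P, Pi.add_apply]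
    split_ifs
    · exact ev_add a b x
    · exact LD_Exc_dadd a b x j
  have hPsub : ∀ a b, P (a - b) = P a - P b := by
    intro a b
    funext j
    simp only [P, Pi.sub_apply]
    split_ifs
    · exact ev_sub a b x
    · exact LD_Exc_dsub a b x j
  have hPk : ∀ a, P a = 0 ↔ (ev a x = 0 ∧ ∀ j, j ≠ i → dev a x j = 0) := by
    intro a
    constructor
    · intro h
      refine ⟨?_, fun j hj => ?_⟩
      · have := congrFun h i
        simpa [P] using this
      · have := congrFun h j
        simpa [P, hj] using this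
    · rintro ⟨h1, h2⟩
      funext j
      by_cases hj : j = i
      · simp [P, hj, h1]
      · simp [P, hj, h2 j hj]
  have e : Ten (ZMod m) ≃
      {a : Ten (ZMod m) // ev a x = 0 ∧ ∀ j, j ≠ i → dev a x j = 0} × (Fin 4 → ZMod m) :=
    { toFun := fun a => (⟨a - LD_Exc_sec i x (P a), by
        rw [← hPk, hPsub, hPs, sub_self]⟩, P a)
      invFun := fun p => p.1.1 + LD_Exc_sec i x p.2
      left_inv := fun a => sub_add_cancel _ _
      right_inv := by
        rintro ⟨⟨k, hk⟩, t⟩
        have h1 : P (k + LD_Exc_sec i x t) = t := by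
          rw [hPadd, hPs, (hPk k).2 hk, zero_add]
        refine Prod.ext (Subtype.ext ?_) h1
        change k + LD_Exc_sec i x t - LD_Exc_sec i x (P (k + LD_Exc_sec i x t)) = k
        rw [h1, add_sub_cancel_right] }
  have h1 := Nat.card_congr e
  rw [Nat.card_prod] at h1
  have h2 : Nat.card (Ten (ZMod m)) = m ^ 64 := by
    rw [Nat.card_eq_fintype_card, Fintype.card_fun, Fintype.card_fun, Fintype.card_fun, ZMod.card,
      Fintype.card_fin, ← pow_mul, ← pow_mul]
  have h3 : Nat.card (Fin 4 → ZMod m) = m ^ 4 := by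
    rw [Nat.card_eq_fintype_card, Fintype.card_fun, ZMod.card, Fintype.card_fin]
  rw [h2, h3] at h1
  have h4 : m ^ 64 = m ^ 60 * m ^ 4 := by rw [← pow_add]
  rw [h4] at h1
  exact (Nat.eq_of_mul_eq_mul_right (pow_pos (NeZero.pos m) 4) h1).symm

theorem LD_exc (m : ℕ) [NeZero m] :
    Nat.card {a : Ten (ZMod m) // Exc m a} ≤ 4 * m ^ 63 := by
  let Q := {p : Fin 4 × (Fin 4 → ZMod m) // p.2 p.1 = 1}
  let T : Q → Type := fun p =>
    {a : Ten (ZMod m) // ev a p.1.2 = 0 ∧ ∀ j, j ≠ p.1.1 → dev a p.1.2 j = 0}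
  let F : (Σ p : Q, T p) → {a : Ten (ZMod m) // Exc m a} := fun s =>
    ⟨s.2.1, s.1.1.2, s.1.1.1, s.1.2, s.2.2.1, s.2.2.2⟩
  have hF : Function.Surjective F := by
    rintro ⟨a, x, i, hi, h1, h2⟩
    exact ⟨⟨⟨(i, x), hi⟩, ⟨a, h1, h2⟩⟩, rfl⟩
  have h1 : Nat.card {a : Ten (ZMod m) // Exc m a} ≤ Nat.card (Σ p : Q, T p) :=
    Nat.card_le_card_of_surjective F hF
  have h2 : Nat.card (Σ p : Q, T p) = Nat.card Q * m ^ 60 := by
    rw [Nat.card_sigma]
    have h3 : ∀ p : Q, Nat.card (T p) = m ^ 60 := fun p => LD_lin m p.1.2 p.1.1 p.2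
    rw [Finset.sum_congr rfl fun p _ => h3 p, Finset.sum_const, Finset.card_univ, smul_eq_mul,
      Nat.card_eq_fintype_card]
  let G : Q → Fin 4 × (Fin 3 → ZMod m) := fun p => (p.1.1, fun k => p.1.2 (p.1.1.succAbove k))
  have hG : Function.Injective G := by
    rintro ⟨⟨i, x⟩, hx⟩ ⟨⟨i', x'⟩, hx'⟩ h
    have e1 : i = i' := congrArg Prod.fst h
    subst e1
    have e2 : (fun k => x (i.succAbove k)) = fun k => x' (i.succAbove k) := congrArg Prod.snd h
    have e3 : x = x' := by
      funext j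
      rcases Fin.eq_self_or_eq_succAbove i j with hj | ⟨k, hk⟩
      · subst hj
        exact hx.trans hx'.symm
      · rw [hk]
        exact congrFun e2 k
    subst e3
    rfl
  have h4 : Nat.card Q ≤ 4 * m ^ 3 := by
    refine (Nat.card_le_card_of_injective G hG).trans_eq ?_
    rw [Nat.card_prod, Nat.card_eq_fintype_card, Nat.card_eq_fintype_card, Fintype.card_fun,
      ZMod.card, Fintype.card_fin, Fintype.card_fin]
  calc Nat.card {a : Ten (ZMod m) // Exc m a} ≤ Nat.card Q * m ^ 60 := h1.trans_eq h2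
    _ ≤ (4 * m ^ 3) * m ^ 60 := Nat.mul_le_mul_right _ h4
    _ = 4 * m ^ 63 := by rw [mul_assoc, ← pow_add]

end Pool.Agent.Lib.MP_1ad228_ntC
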