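import Pool.Agent.Lib.MP_1ad228_ntC.LD_Base

/-!
JOB LD_Hensel (MP_1ad228_nt stream C, piece LD).

LD_norm.  Let `y ≠ 0` be a zero in `ℚ_[p]^4`; choose `i` with `‖y i‖` maximal (`> 0`) and divide by
`y i`: `x = y / y i` has all norms `≤ 1` and `x i = 1`, so it comes from `ℤ_[p]`; `ev` is homogeneous of
degree 3 (`ev_scale`), so `ev (ct ℤ_[p] a) x = 0` in `ℤ_[p]` (injectivity of the coercion to `ℚ_[p]`).

LD_hensel.  Take `x : Fin 4 → ℤ_[p]`, `x i = 1`, from LD_norm and reduce mod `p^e`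
(`PadicInt.toZModPow e`): the reduced vector has `i`-th coordinate `1` and is a zero, so because
`¬ Exc` there is `j ≠ i` with `dev (ct (ZMod (p^e)) a) (reduced x) j ≠ 0`, i.e.
`dev (ct ℤ_[p] a) x j ∉ span {p^e}`, i.e. `‖dev (ct ℤ_[p] a) x j‖ > p^(-e)` (`PadicInt.norm_le_pow_iff_mem_span_pow`,
`PadicInt.ker_toZModPow`).
For `h : Fin 4 → ℤ_[p]` with `h j = 0` and all `h k ∈ p^(2e) ℤ_[p]` consider the polynomial
`G_h(T) = ev (ct a) (x + h with j-th coordinate replaced by T)` in `ℤ_[p][T]` and the point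
`T0 = x j`.  `G_h(x j) = ev (ct a) (x + h) ≡ ev (ct a) x = 0 mod p^(2e)`, so `‖G_h(x j)‖ ≤ p^(-2e)`;
`G_h'(x j) = dev (ct a) (x + h) j ≡ dev (ct a) x j mod p^(2e)` so its norm is `> p^(-e)` (equal to the
norm at `x`); so `‖G_h(x j)‖ < ‖G_h'(x j)‖^2` and `hensels_lemma` gives `z` with `G_h(z) = 0`.
The vector `w_h = x + h` with `j`-th coordinate `z` is a zero in `ℤ_[p]^4`; reduce it mod `p^n`: it is a
zero of `ct (ZMod (p^n)) a`; it is unimodular because its `i`-th coordinate `1 + h i` is a unit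
(`h i` divisible by `p`; `2e ≥ 1`).  Let `h` run over `h k = p^(2e) * s k`, `0 ≤ s k < p^(n-2e)`,
for the three `k ≠ j`: different `s` give different reductions mod `p^n` (coordinates `k ≠ j`), so
`sm (p^n) (ct _ a) ≥ (p^(n-2e))^3` (`Nat.card_le_card_of_injective`).
The polynomial can be built as: `G_h = ∑ i, ∑ j', ∑ k, C (a i j' k) * (X_i * X_j' * X_k)` with
`X_k = C (x k + h k)` for `k ≠ j`, `X_j = X`; its derivative evaluated at `T` is `dev` (Leibniz:
`dev a x j = ∑ k ∑ l (a j k l + a k j l + a k l j) x k x l`).  Congruences mod `p^(2e)`: `ev` and `dev`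
commute with ring homomorphisms (prove `ev (f ∘ a) (f ∘ x) = f (ev a x)` first), apply
`PadicInt.toZModPow (2e)`.
-/

namespace Pool.Agent.Lib.MP_1ad228_ntC

open Classical

theorem LD_Hensel_evmap {R S : Type*} [CommRing R] [CommRing S] (f : R →+* S) (a : Ten R)
    (x : Fin 4 → R) : f (ev a x) = ev (fun i j k => f (a i j k)) (fun i => f (x i)) := by
  simp only [ev, map_sum, map_mul]

theorem LD_Hensel_devmap {R S : Type*} [CommRing R] [CommRing S] (f : R →+* S) (a : Ten R)
    (x : Fin 4 → R) (j : Fin 4) :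
    f (dev a x j) = dev (fun i j k => f (a i j k)) (fun i => f (x i)) j := by
  simp only [dev, map_sum, map_mul, map_add]

theorem LD_Hensel_ctmap {R S : Type*} [CommRing R] [CommRing S] (f : R →+* S) (a : Ten ℤ) :
    (fun i j k => f (ct R a i j k)) = ct S a := by
  funext i j k
  simp [ct]

theorem LD_Hensel_deriv {R : Type*} [CommRing R] (A : Ten R) (w : Fin 4 → R) (j : Fin 4) (t : R) :
    (Polynomial.derivative (ev (fun i j k => Polynomial.C (A i j k))
      (fun k => if k = j then Polynomial.X else Polynomial.C (w k)))).eval t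
      = dev A (fun k => if k = j then t else w k) j := by
  have hd : ∀ k : Fin 4, (Polynomial.derivative (if k = j then (Polynomial.X : Polynomial R)
      else Polynomial.C (w k))).eval t = if k = j then 1 else 0 := by
    intro k
    by_cases hk : k = j <;> simp [hk]
  have hv : ∀ k : Fin 4, (if k = j then (Polynomial.X : Polynomial R)
      else Polynomial.C (w k)).eval t = if k = j then t else w k := by
    intro k
    by_cases hk : k = j <;> simp [hk]
  set Y : Fin 4 → Polynomial R := fun k => if k = j then Polynomial.X else Polynomial.C (w k)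
    with hY
  set v : Fin 4 → R := fun k => if k = j then t else w k with hvdef
  have hd' : ∀ k : Fin 4, (Polynomial.derivative (Y k)).eval t = if k = j then 1 else 0 := hd
  have hv' : ∀ k : Fin 4, (Y k).eval t = v k := hv
  have h1 : (Polynomial.derivative (ev (fun i j k => Polynomial.C (A i j k)) Y)).eval t
      = ∑ i, ∑ k, ∑ l, ((if i = j then A i k l * (v k * v l) else 0)
        + (if k = j then A i k l * (v i * v l) else 0)
        + (if l = j then A i k l * (v i * v k) else 0)) := by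
    simp only [ev, Polynomial.derivative_sum, Polynomial.eval_finsetSum]
    refine Finset.sum_congr rfl fun i _ => Finset.sum_congr rfl fun k _ =>
      Finset.sum_congr rfl fun l _ => ?_
    rw [Polynomial.derivative_C_mul, Polynomial.derivative_mul, Polynomial.derivative_mul]
    simp only [Polynomial.eval_mul, Polynomial.eval_add, Polynomial.eval_C, hd', hv']
    by_cases hi : i = j <;> by_cases hk : k = j <;> by_cases hl : l = j <;>
      simp only [hi, hk, hl, if_true, if_false] <;> ring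
  rw [h1]
  have e1 : ∑ i, ∑ k, ∑ l, (if i = j then A i k l * (v k * v l) else 0)
      = ∑ k, ∑ l, A j k l * (v k * v l) := by
    rw [Finset.sum_eq_single j]
    · exact Finset.sum_congr rfl fun k _ => Finset.sum_congr rfl fun l _ => by rw [if_pos rfl]
    · intro i _ hi
      exact Finset.sum_eq_zero fun k _ => Finset.sum_eq_zero fun l _ => by rw [if_neg hi]
    · intro h; exact absurd (Finset.mem_univ j) h
  have e2 : ∑ i, ∑ k, ∑ l, (if k = j then A i k l * (v i * v l) else 0)
      = ∑ k, ∑ l, A k j l * (v k * v l) := by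
    refine Finset.sum_congr rfl fun i _ => ?_
    rw [Finset.sum_eq_single j]
    · exact Finset.sum_congr rfl fun l _ => by rw [if_pos rfl]
    · intro k _ hk
      exact Finset.sum_eq_zero fun l _ => by rw [if_neg hk]
    · intro h; exact absurd (Finset.mem_univ j) h
  have e3 : ∑ i, ∑ k, ∑ l, (if l = j then A i k l * (v i * v k) else 0)
      = ∑ k, ∑ l, A k l j * (v k * v l) := by
    refine Finset.sum_congr rfl fun i _ => Finset.sum_congr rfl fun k _ => ?_
    rw [Finset.sum_eq_single j]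
    · rw [if_pos rfl]
    · intro l _ hl
      rw [if_neg hl]
    · intro h; exact absurd (Finset.mem_univ j) h
  simp only [Finset.sum_add_distrib]
  rw [e1, e2, e3, dev]
  simp only [add_mul, Finset.sum_add_distrib]

theorem LD_Hensel_norm (p : ℕ) [Fact p.Prime] (n : ℕ) (z : ℤ_[p]) :
    ‖z‖ ≤ (p : ℝ) ^ (-n : ℤ) ↔ PadicInt.toZModPow n z = 0 := by
  rw [PadicInt.norm_le_pow_iff_mem_span_pow, ← PadicInt.ker_toZModPow, RingHom.mem_ker]

theorem LD_norm (p : ℕ) [Fact p.Prime] (a : Ten ℤ)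
    (h : ∃ x : Fin 4 → ℚ_[p], x ≠ 0 ∧ ev (ct ℚ_[p] a) x = 0) :
    ∃ (x : Fin 4 → ℤ_[p]) (i : Fin 4), x i = 1 ∧ ev (ct ℤ_[p] a) x = 0 := by
  obtain ⟨y, hy0, hy⟩ := h
  obtain ⟨i, hi⟩ := Finite.exists_max (fun k => ‖y k‖)
  have hyi : y i ≠ 0 := by
    intro h0
    apply hy0
    funext k
    have h1 := hi k
    simp only [h0, norm_zero] at h1
    exact norm_le_zero_iff.1 h1
  have hn : ∀ k, ‖(y i)⁻¹ * y k‖ ≤ 1 := by
    intro k
    rw [norm_mul, norm_inv, inv_mul_le_iff₀ (norm_pos_iff.2 hyi), mul_one]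
    exact hi k
  refine ⟨fun k => ⟨(y i)⁻¹ * y k, hn k⟩, i, ?_, ?_⟩
  · apply Subtype.ext
    show (y i)⁻¹ * y i = ((1 : ℤ_[p]) : ℚ_[p])
    rw [inv_mul_cancel₀ hyi]
    rfl
  · have h1 : ((ev (ct ℤ_[p] a) (fun k => (⟨(y i)⁻¹ * y k, hn k⟩ : ℤ_[p])) : ℤ_[p]) : ℚ_[p])
        = 0 := by
      have h2 := LD_Hensel_evmap (PadicInt.Coe.ringHom (p := p)) (ct ℤ_[p] a)
        (fun k => (⟨(y i)⁻¹ * y k, hn k⟩ : ℤ_[p]))
      rw [LD_Hensel_ctmap] at h2
      have h3 : (fun k => PadicInt.Coe.ringHom (p := p) (⟨(y i)⁻¹ * y k, hn k⟩ : ℤ_[p]))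
          = fun k => (y i)⁻¹ * y k := rfl
      rw [h3, ev_scale, hy, mul_zero] at h2
      exact h2
    exact Subtype.ext h1

theorem LD_hensel (p : ℕ) [Fact p.Prime] (e n : ℕ) (he : 1 ≤ e) (hn : 2 * e ≤ n) (a : Ten ℤ)
    (h : ∃ x : Fin 4 → ℚ_[p], x ≠ 0 ∧ ev (ct ℚ_[p] a) x = 0)
    (hex : ¬ Exc (p ^ e) (ct (ZMod (p ^ e)) a)) :
    p ^ (3 * (n - 2 * e)) ≤ sm (p ^ n) (ct (ZMod (p ^ n)) a) := by
  have hp : p.Prime := Fact.out
  obtain ⟨x, i, hxi, hx⟩ := LD_norm p a h
  -- reduction modulo p ^ e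
  have hr1 : ev (ct (ZMod (p ^ e)) a) (fun k => PadicInt.toZModPow e (x k)) = 0 := by
    have h2 := LD_Hensel_evmap (PadicInt.toZModPow (p := p) e) (ct ℤ_[p] a) x
    rw [LD_Hensel_ctmap, hx, map_zero] at h2
    exact h2.symm
  have hr2 : ∃ j, j ≠ i ∧ dev (ct (ZMod (p ^ e)) a) (fun k => PadicInt.toZModPow e (x k)) j ≠ 0 := by
    by_contra hcon
    apply hex
    refine ⟨fun k => PadicInt.toZModPow e (x k), i, ?_, hr1, ?_⟩
    · show PadicInt.toZModPow e (x i) = 1
      rw [hxi, map_one]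
    · intro j hj
      by_contra h3
      exact hcon ⟨j, hj, h3⟩
  obtain ⟨j, hji, hj⟩ := hr2
  set q : ℕ := p ^ (n - 2 * e) with hq
  -- the perturbed vectors
  have hpe : ∀ r : ℕ, r ≤ 2 * e → PadicInt.toZModPow r ((p : ℤ_[p]) ^ (2 * e)) = 0 := by
    intro r hr
    rw [map_pow, map_natCast]
    have h4 : ((p : ZMod (p ^ r))) ^ (2 * e) = ((p ^ (2 * e) : ℕ) : ZMod (p ^ r)) := by
      push_cast; rfl
    rw [h4, ZMod.natCast_eq_zero_iff]
    exact pow_dvd_pow p hr
  have hzero : ∀ s : {k : Fin 4 // k ≠ j} → Fin q, ∃ w : Fin 4 → ℤ_[p],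
      (∀ k (hk : k ≠ j), w k = x k + (p : ℤ_[p]) ^ (2 * e) * ((s ⟨k, hk⟩ : ℕ) : ℤ_[p]))
        ∧ ev (ct ℤ_[p] a) w = 0 := by
    intro s
    let hh : Fin 4 → ℤ_[p] := fun k => if hk : k ≠ j then x k + (p : ℤ_[p]) ^ (2 * e) *
      ((s ⟨k, hk⟩ : ℕ) : ℤ_[p]) else x j
    have hhj : hh j = x j := by simp [hh]
    have hhk : ∀ k (hk : k ≠ j), hh k = x k + (p : ℤ_[p]) ^ (2 * e) *
        ((s ⟨k, hk⟩ : ℕ) : ℤ_[p]) := by
      intro k hk
      show (if hk : k ≠ j then x k + (p : ℤ_[p]) ^ (2 * e) *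
        ((s ⟨k, hk⟩ : ℕ) : ℤ_[p]) else x j) = _
      rw [dif_pos hk]
    have hred : ∀ r : ℕ, r ≤ 2 * e → ∀ k, PadicInt.toZModPow r (hh k) = PadicInt.toZModPow r (x k) := by
      intro r hr k
      by_cases hk : k = j
      · subst hk; rw [hhj]
      · rw [hhk k hk, map_add, map_mul, hpe r hr, zero_mul, add_zero]
    let F : Polynomial ℤ_[p] := ev (fun i j k => Polynomial.C (ct ℤ_[p] a i j k))
      (fun k => if k = j then Polynomial.X else Polynomial.C (hh k))
    have hFeval : ∀ t : ℤ_[p], F.eval t = ev (ct ℤ_[p] a) (fun k => if k = j then t else hh k) := by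
      intro t
      have h5 := LD_Hensel_evmap (Polynomial.evalRingHom t)
        (fun i j k => Polynomial.C (ct ℤ_[p] a i j k))
        (fun k => if k = j then Polynomial.X else Polynomial.C (hh k))
      have h6 : (fun i j k => Polynomial.evalRingHom t (Polynomial.C (ct ℤ_[p] a i j k)))
          = ct ℤ_[p] a := by
        funext i j k
        simp
      have h7 : (fun k : Fin 4 => Polynomial.evalRingHom t
          (if k = j then Polynomial.X else Polynomial.C (hh k))) =
          fun k => if k = j then t else hh k := by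
        funext k
        by_cases hk : k = j <;> simp [hk]
      rw [h6, h7] at h5
      exact h5
    have hFder : ∀ t : ℤ_[p], F.derivative.eval t
        = dev (ct ℤ_[p] a) (fun k => if k = j then t else hh k) j := fun t =>
      LD_Hensel_deriv (ct ℤ_[p] a) hh j t
    have hsame : (fun k : Fin 4 => if k = j then x j else hh k) = hh := by
      funext k
      by_cases hk : k = j
      · subst hk; rw [if_pos rfl, hhj]
      · rw [if_neg hk]
    have hn1 : ‖F.eval (x j)‖ ≤ (p : ℝ) ^ (-(2 * e : ℕ) : ℤ) := by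
      rw [LD_Hensel_norm, hFeval, hsame, LD_Hensel_evmap, LD_Hensel_ctmap]
      have h8 : (fun k => PadicInt.toZModPow (2 * e) (hh k))
          = fun k => PadicInt.toZModPow (2 * e) (x k) := funext fun k => hred _ le_rfl k
      rw [h8]
      have h9 := LD_Hensel_evmap (PadicInt.toZModPow (p := p) (2 * e)) (ct ℤ_[p] a) x
      rw [LD_Hensel_ctmap, hx, map_zero] at h9
      exact h9.symm
    have hn2 : (p : ℝ) ^ (-(e : ℕ) : ℤ) < ‖F.derivative.eval (x j)‖ := by
      by_contra hcon
      rw [not_lt, LD_Hensel_norm, hFder, hsame, LD_Hensel_devmap, LD_Hensel_ctmap] at hcon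
      have h8 : (fun k => PadicInt.toZModPow e (hh k))
          = fun k => PadicInt.toZModPow e (x k) := funext fun k => hred _ (by omega) k
      rw [h8] at hcon
      exact hj hcon
    have hn3 : ‖F.aeval (x j)‖ < ‖F.derivative.aeval (x j)‖ ^ 2 := by
      rw [Polynomial.coe_aeval_eq_eval]
      have h10 : (p : ℝ) ^ (-(2 * e : ℕ) : ℤ) = ((p : ℝ) ^ (-(e : ℕ) : ℤ)) ^ 2 := by
        rw [← zpow_natCast, ← zpow_mul]
        congr 1
        push_cast
        ring
      have hp0 : (0 : ℝ) < (p : ℝ) ^ (-(e : ℕ) : ℤ) :=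
        zpow_pos (by exact_mod_cast hp.pos) _
      calc ‖F.eval (x j)‖ ≤ ((p : ℝ) ^ (-(e : ℕ) : ℤ)) ^ 2 := by rw [← h10]; exact hn1
        _ < ‖F.derivative.eval (x j)‖ ^ 2 := by
          exact pow_lt_pow_left₀ hn2 hp0.le (by norm_num)
    obtain ⟨z, hz, _⟩ := hensels_lemma hn3
    rw [Polynomial.coe_aeval_eq_eval, hFeval] at hz
    refine ⟨fun k => if k = j then z else hh k, ?_, hz⟩
    intro k hk
    show (if k = j then z else hh k) = _
    rw [if_neg hk, hhk k hk]
  choose w hw1 hw2 using hzero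
  have hn0 : 0 < n := by omega
  have hNZ : NeZero (p ^ n) := ⟨pow_ne_zero _ hp.ne_zero⟩
  have hnil : IsNilpotent ((p : ZMod (p ^ n))) := by
    refine ⟨n, ?_⟩
    have h4 : ((p : ZMod (p ^ n))) ^ n = ((p ^ n : ℕ) : ZMod (p ^ n)) := by
      push_cast; rfl
    rw [h4, ZMod.natCast_self]
  let f : ({k : Fin 4 // k ≠ j} → Fin q) →
      {y : Fin 4 → ZMod (p ^ n) // Uni y ∧ ev (ct (ZMod (p ^ n)) a) y = 0} := fun s =>
    ⟨fun k => PadicInt.toZModPow n (w s k), by
      constructor
      · have h11 : PadicInt.toZModPow n (w s i) = 1 + (p : ZMod (p ^ n)) ^ (2 * e) *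
            ((s ⟨i, hji.symm⟩ : ℕ) : ZMod (p ^ n)) := by
          rw [hw1 s i hji.symm, hxi, map_add, map_one, map_mul, map_pow, map_natCast, map_natCast]
        have h12 : IsNilpotent ((p : ZMod (p ^ n)) ^ (2 * e) *
            ((s ⟨i, hji.symm⟩ : ℕ) : ZMod (p ^ n))) := by
          refine Commute.isNilpotent_mul_right (Commute.all _ _) ?_
          exact hnil.pow_of_pos (by omega)
        have h13 : IsUnit (PadicInt.toZModPow n (w s i)) := by
          rw [h11]
          exact h12.isUnit_one_add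
        obtain ⟨c, hc⟩ := h13.exists_left_inv
        refine ⟨Pi.single i c, ?_⟩
        have h14 : lin (Pi.single i c) (fun k => PadicInt.toZModPow n (w s k))
            = c * PadicInt.toZModPow n (w s i) := by
          simp [lin, Pi.single_apply]
        rw [h14, hc]
      · have h15 := LD_Hensel_evmap (PadicInt.toZModPow (p := p) n) (ct ℤ_[p] a) (w s)
        rw [LD_Hensel_ctmap, hw2 s, map_zero] at h15
        exact h15.symm⟩
  have hf : Function.Injective f := by
    intro s s' hss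
    funext ⟨k, hk⟩
    have h16 : PadicInt.toZModPow n (w s k) = PadicInt.toZModPow n (w s' k) :=
      congrFun (congrArg Subtype.val hss) k
    rw [hw1 s k hk, hw1 s' k hk, map_add, map_add] at h16
    have h17 := add_left_cancel h16
    rw [map_mul, map_mul, map_pow, map_natCast, map_natCast, map_natCast] at h17
    have h18 : ((p ^ (2 * e) * (s ⟨k, hk⟩ : ℕ) : ℕ) : ZMod (p ^ n))
        = ((p ^ (2 * e) * (s' ⟨k, hk⟩ : ℕ) : ℕ) : ZMod (p ^ n)) := by
      push_cast
      exact h17
    have hlt : ∀ t : Fin q, p ^ (2 * e) * (t : ℕ) < p ^ n := by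
      intro t
      have h19 : p ^ n = p ^ (2 * e) * q := by
        rw [hq, ← pow_add]
        congr 1
        omega
      rw [h19]
      exact Nat.mul_lt_mul_of_pos_left t.2 (pow_pos hp.pos _)
    have h20 := congrArg ZMod.val h18
    rw [ZMod.val_cast_of_lt (hlt _), ZMod.val_cast_of_lt (hlt _)] at h20
    exact Fin.ext (Nat.eq_of_mul_eq_mul_left (pow_pos hp.pos _) h20)
  have hcard := Nat.card_le_card_of_injective f hf
  have h21 : Nat.card ({k : Fin 4 // k ≠ j} → Fin q) = p ^ (3 * (n - 2 * e)) := by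
    rw [Nat.card_fun, Nat.card_eq_fintype_card (α := Fin q), Fintype.card_fin]
    have h22 : Nat.card {k : Fin 4 // k ≠ j} = 3 := by
      rw [Nat.card_eq_fintype_card, Fintype.card_subtype_compl, Fintype.card_fin,
        Fintype.card_subtype_eq]
    rw [h22, hq, ← pow_mul, mul_comm]
  rw [← h21]
  exact hcard

end Pool.Agent.Lib.MP_1ad228_ntC
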