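import Pool.Agent.Lib.MP_1ad228_ntC.LD_Mom
import Pool.Agent.Lib.MP_1ad228_ntC.LD_Exc
import Pool.Agent.Lib.MP_1ad228_ntC.LD_Hensel
import Pool.Agent.Lib.MP_1ad228_ntC.LD_Crt
import Pool.Agent.Lib.MP_1ad228_ntC.LD_Equi

/-! MP_1ad228_nt stream C, piece LD (local densities, paper section 8): assembly. -/

namespace Pool.Agent.Lib.MP_1ad228_ntC

open Classical

/-- Counting for the singular classes. -/
theorem LD_excBox (p e : ℕ) (hp : p.Prime) : ∃ A0 : ℕ, ∀ A ≥ A0,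
    (((Box A).filter fun a => Exc (p ^ e) (ct (ZMod (p ^ e)) a)).card : ℝ) ≤
      8 / (p : ℝ) ^ e * (2 * A + 1 : ℝ) ^ 64 := by
  have : NeZero (p ^ e) := ⟨(pow_pos hp.pos e).ne'⟩
  obtain ⟨A0, hA0⟩ := LD_equi (p ^ e)
  refine ⟨A0, fun A hA => ?_⟩
  have h1 := hA0 A hA (Finset.univ.filter fun a : Ten (ZMod (p ^ e)) => Exc (p ^ e) a)
  have h2 : ((Box A).filter fun a => ct (ZMod (p ^ e)) a ∈
      (Finset.univ.filter fun a : Ten (ZMod (p ^ e)) => Exc (p ^ e) a)) =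
      (Box A).filter fun a => Exc (p ^ e) (ct (ZMod (p ^ e)) a) := by
    refine Finset.filter_congr fun a _ => ?_
    simp only [Finset.mem_filter, Finset.mem_univ, true_and]
  rw [h2] at h1
  refine h1.trans ?_
  have h3 : (Finset.univ.filter fun a : Ten (ZMod (p ^ e)) => Exc (p ^ e) a).card
      ≤ 4 * (p ^ e) ^ 63 := by
    have := LD_exc (p ^ e)
    rwa [Nat.card_eq_fintype_card, Fintype.card_subtype] at this
  have h4 : ((Finset.univ.filter fun a : Ten (ZMod (p ^ e)) => Exc (p ^ e) a).card : ℝ)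
      ≤ 4 * ((p : ℝ) ^ e) ^ 63 := by
    exact_mod_cast h3
  have hpe : (0 : ℝ) < (p : ℝ) ^ e := pow_pos (by exact_mod_cast hp.pos) e
  have h5 : 2 * (((Finset.univ.filter fun a : Ten (ZMod (p ^ e)) => Exc (p ^ e) a).card : ℝ) /
      ((p ^ e : ℕ) : ℝ) ^ 64) ≤ 8 / (p : ℝ) ^ e := by
    push_cast
    have h6 : ((Finset.univ.filter fun a : Ten (ZMod (p ^ e)) => Exc (p ^ e) a).card : ℝ) /
      ((p : ℝ) ^ e) ^ 64 ≤ 4 / (p : ℝ) ^ e := by
      rw [div_le_div_iff₀ (pow_pos hpe _) hpe]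
      calc ((Finset.univ.filter fun a : Ten (ZMod (p ^ e)) => Exc (p ^ e) a).card : ℝ) *
            (p : ℝ) ^ e ≤ (4 * ((p : ℝ) ^ e) ^ 63) * (p : ℝ) ^ e := by gcongr
        _ = 4 * ((p : ℝ) ^ e) ^ 64 := by ring
    calc 2 * (((Finset.univ.filter fun a : Ten (ZMod (p ^ e)) => Exc (p ^ e) a).card : ℝ) /
      ((p : ℝ) ^ e) ^ 64) ≤ 2 * (4 / (p : ℝ) ^ e) := by gcongr
      _ = 8 / (p : ℝ) ^ e := by ring
  gcongr

/-- Counting for the classes with few zeros. -/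
theorem LD_fewBox (m : ℕ) [NeZero m] (p0 : ℕ) (hp0 : 8 ≤ p0)
    (hd : ∀ d, d ∣ m → 1 < d → p0 < d) : ∃ A0 : ℕ, ∀ A ≥ A0,
    (((Box A).filter fun a => (sm m (ct (ZMod m) a) : ℝ) ≤ (m : ℝ) ^ 3 / 2).card : ℝ) ≤
      32 / (p0 : ℝ) * (2 * A + 1 : ℝ) ^ 64 := by
  obtain ⟨A0, hA0⟩ := LD_equi m
  refine ⟨A0, fun A hA => ?_⟩
  have h1 := hA0 A hA (Finset.univ.filter fun a : Ten (ZMod m) => (sm m a : ℝ) ≤ (m : ℝ) ^ 3 / 2)
  have h2 : ((Box A).filter fun a => ct (ZMod m) a ∈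
      (Finset.univ.filter fun a : Ten (ZMod m) => (sm m a : ℝ) ≤ (m : ℝ) ^ 3 / 2)) =
      (Box A).filter fun a => (sm m (ct (ZMod m) a) : ℝ) ≤ (m : ℝ) ^ 3 / 2 := by
    refine Finset.filter_congr fun a _ => ?_
    simp only [Finset.mem_filter, Finset.mem_univ, true_and]
  rw [h2] at h1
  refine h1.trans ?_
  have h3 := LD_M1 m p0 hp0 hd
  have hm : (0 : ℝ) < (m : ℝ) := by exact_mod_cast Nat.pos_of_ne_zero (NeZero.ne m)
  have hp : (0 : ℝ) < (p0 : ℝ) := by exact_mod_cast (by omega : 0 < p0)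
  have h5 : 2 * (((Finset.univ.filter fun a : Ten (ZMod m) =>
      (sm m a : ℝ) ≤ (m : ℝ) ^ 3 / 2).card : ℝ) / (m : ℝ) ^ 64) ≤ 32 / (p0 : ℝ) := by
    have h6 : ((Finset.univ.filter fun a : Ten (ZMod m) =>
      (sm m a : ℝ) ≤ (m : ℝ) ^ 3 / 2).card : ℝ) / (m : ℝ) ^ 64 ≤ 16 / (p0 : ℝ) := by
      rw [div_le_iff₀ (pow_pos hm _)]
      exact h3
    calc 2 * (((Finset.univ.filter fun a : Ten (ZMod m) =>
      (sm m a : ℝ) ≤ (m : ℝ) ^ 3 / 2).card : ℝ) / (m : ℝ) ^ 64) ≤ 2 * (16 / (p0 : ℝ)) := by gcongr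
      _ = 32 / (p0 : ℝ) := by ring
  gcongr

/-- Primes up to `w`, with a condition. -/
theorem LD_split (w p0 : ℕ) (hw : p0 ≤ w) :
    WW w = (∏ p ∈ (Finset.range (p0 + 1)).filter Nat.Prime, p ^ w) *
      ∏ p ∈ ((Finset.range (w + 1)).filter Nat.Prime).filter (fun p => ¬ p ≤ p0), p ^ w := by
  unfold WW
  rw [← Finset.prod_filter_mul_prod_filter_not ((Finset.range (w + 1)).filter Nat.Prime)
    (fun p => p ≤ p0)]
  have h : ((Finset.range (w + 1)).filter Nat.Prime).filter (fun p => p ≤ p0) =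
      (Finset.range (p0 + 1)).filter Nat.Prime := by
    ext p
    simp only [Finset.mem_filter, Finset.mem_range]
    constructor
    · rintro ⟨⟨_, h2⟩, h3⟩
      exact ⟨by omega, h2⟩
    · rintro ⟨h1, h2⟩
      exact ⟨⟨by omega, h2⟩, by omega⟩
  rw [h]

/-- Lower bound for the number of zeros outside the exceptional sets. -/
theorem LD_lower (w p0 e : ℕ) (hw : p0 ≤ w) (he : 1 ≤ e) (hwe : 2 * e ≤ w) (a : Ten ℤ)
    (hsol : PSol a)
    (h1 : ∀ p ∈ (Finset.range (p0 + 1)).filter Nat.Prime, ¬ Exc (p ^ e) (ct (ZMod (p ^ e)) a))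
    (W2 : ℕ) (hW2 : W2 =
      ∏ p ∈ ((Finset.range (w + 1)).filter Nat.Prime).filter (fun p => ¬ p ≤ p0), p ^ w)
    (h2 : (W2 : ℝ) ^ 3 / 2 < (sm W2 (ct (ZMod W2) a) : ℝ)) :
    (1 / 2 * ∏ p ∈ (Finset.range (p0 + 1)).filter Nat.Prime, (1 / ((p : ℝ) ^ (6 * e)))) *
      (WW w : ℝ) ^ 3 ≤ (sm (WW w) (ct (ZMod (WW w)) a) : ℝ) := by
  have hs := LD_split w p0 hw
  rw [← hW2] at hs
  have hW1 : (∏ p ∈ (Finset.range (p0 + 1)).filter Nat.Prime, p ^ w) ≠ 0 := by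
    refine Finset.prod_ne_zero_iff.2 fun p hp => ?_
    exact (pow_pos (Finset.mem_filter.1 hp).2.pos _).ne'
  have hW2' : W2 ≠ 0 := by
    rw [hW2]
    refine Finset.prod_ne_zero_iff.2 fun p hp => ?_
    exact (pow_pos (Finset.mem_filter.1 (Finset.mem_filter.1 hp).1).2.pos _).ne'
  have hcop : (∏ p ∈ (Finset.range (p0 + 1)).filter Nat.Prime, p ^ w).Coprime W2 := by
    rw [hW2]
    refine Nat.Coprime.prod_left fun p hp => Nat.Coprime.prod_right fun r hr => ?_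
    simp only [Finset.mem_filter, Finset.mem_range] at hp hr
    refine Nat.Coprime.pow _ _ ((Nat.coprime_primes hp.2 hr.1.2).2 ?_)
    omega
  have hmul := LD_mul _ _ hW1 hW2' hcop a
  have hprod := LD_prod ((Finset.range (p0 + 1)).filter Nat.Prime) (fun p => p ^ w)
    (fun p hp => (pow_pos (Finset.mem_filter.1 hp).2.pos _).ne')
    (fun p hp r hr hpr => Nat.Coprime.pow _ _
      ((Nat.coprime_primes (Finset.mem_filter.1 hp).2 (Finset.mem_filter.1 hr).2).2 hpr)) a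
  have hloc : ∏ p ∈ (Finset.range (p0 + 1)).filter Nat.Prime, p ^ (3 * (w - 2 * e)) ≤
      ∏ p ∈ (Finset.range (p0 + 1)).filter Nat.Prime, sm (p ^ w) (ct (ZMod (p ^ w)) a) := by
    refine Finset.prod_le_prod' fun p hp => ?_
    have : Fact p.Prime := ⟨(Finset.mem_filter.1 hp).2⟩
    exact LD_hensel p e w he hwe a (hsol p) (h1 p hp)
  have hall : ((∏ p ∈ (Finset.range (p0 + 1)).filter Nat.Prime, p ^ (3 * (w - 2 * e)) : ℕ) : ℝ) *
      ((W2 : ℝ) ^ 3 / 2) ≤ (sm (WW w) (ct (ZMod (WW w)) a) : ℝ) := by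
    rw [hs]
    calc ((∏ p ∈ (Finset.range (p0 + 1)).filter Nat.Prime, p ^ (3 * (w - 2 * e)) : ℕ) : ℝ) *
      ((W2 : ℝ) ^ 3 / 2) ≤
        ((∏ p ∈ (Finset.range (p0 + 1)).filter Nat.Prime, sm (p ^ w) (ct (ZMod (p ^ w)) a) : ℕ) : ℝ)
          * (sm W2 (ct (ZMod W2) a) : ℝ) := by
          gcongr
      _ ≤ ((sm (∏ p ∈ (Finset.range (p0 + 1)).filter Nat.Prime, p ^ w)
            (ct (ZMod (∏ p ∈ (Finset.range (p0 + 1)).filter Nat.Prime, p ^ w)) a) : ℕ) : ℝ)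
          * (sm W2 (ct (ZMod W2) a) : ℝ) := by
          gcongr
      _ ≤ _ := by exact_mod_cast hmul
  refine le_trans (le_of_eq ?_) hall
  rw [hs]
  push_cast
  have hr : ∀ p ∈ (Finset.range (p0 + 1)).filter Nat.Prime,
      (1 / ((p : ℝ) ^ (6 * e))) * ((p : ℝ) ^ w) ^ 3 = (p : ℝ) ^ (3 * (w - 2 * e)) := by
    intro p hp
    have hp0 : (0 : ℝ) < (p : ℝ) := by exact_mod_cast (Finset.mem_filter.1 hp).2.pos
    rw [one_div, inv_mul_eq_div, div_eq_iff (pow_pos hp0 _).ne', ← pow_mul, ← pow_add]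
    have hx : w * 3 = 3 * (w - 2 * e) + 6 * e := by omega
    rw [hx]
  rw [mul_pow, ← Finset.prod_pow]
  calc (1 / 2 * ∏ p ∈ (Finset.range (p0 + 1)).filter Nat.Prime, (1 / ((p : ℝ) ^ (6 * e)))) *
        ((∏ p ∈ (Finset.range (p0 + 1)).filter Nat.Prime, ((p : ℝ) ^ w) ^ 3) * (W2 : ℝ) ^ 3)
      = (∏ p ∈ (Finset.range (p0 + 1)).filter Nat.Prime,
          ((1 / ((p : ℝ) ^ (6 * e))) * ((p : ℝ) ^ w) ^ 3)) * ((W2 : ℝ) ^ 3 / 2) := by
        rw [Finset.prod_mul_distrib]; ring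
    _ = _ := by rw [Finset.prod_congr rfl hr]

/-- paper section 8. -/
theorem locDens (ε : ℝ) (hε : 0 < ε) : ∃ τ : ℝ, 0 < τ ∧ ∃ w0 : ℕ, ∀ w ≥ w0, ∃ A0 : ℕ, ∀ A ≥ A0,
    (((Box A).filter fun a => PSol a ∧
        (sm (WW w) (ct (ZMod (WW w)) a) : ℝ) < τ * (WW w : ℝ) ^ 3).card : ℝ)
      ≤ ε * (2 * A + 1 : ℝ) ^ 64 := by
  obtain ⟨p1, hp1⟩ := exists_nat_gt (64 / ε)
  set p0 : ℕ := p1 + 8 with hp0def
  have hp08 : 8 ≤ p0 := by omega
  have hp0pos : (0 : ℝ) < (p0 : ℝ) := by exact_mod_cast (by omega : 0 < p0)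
  have hp0 : 32 / (p0 : ℝ) ≤ ε / 2 := by
    rw [div_le_div_iff₀ hp0pos (by norm_num)]
    have h1 : 64 < p1 * ε := by
      rwa [div_lt_iff₀ hε] at hp1
    have h2 : (p0 : ℝ) = p1 + 8 := by rw [hp0def]; push_cast; ring
    rw [h2]
    nlinarith
  obtain ⟨e1, he1⟩ := pow_unbounded_of_one_lt (16 * (p0 + 1) / ε) (by norm_num : (1 : ℝ) < 2)
  set e : ℕ := e1 + 1 with hedef
  have he : 1 ≤ e := by omega
  have he2 : 16 * ((p0 : ℝ) + 1) / ε ≤ 2 ^ e := by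
    refine he1.le.trans ?_
    exact pow_le_pow_right₀ (by norm_num) (by omega)
  set P : Finset ℕ := (Finset.range (p0 + 1)).filter Nat.Prime with hP
  refine ⟨1 / 2 * ∏ p ∈ P, (1 / ((p : ℝ) ^ (6 * e))), ?_, 2 * e + p0, fun w hw => ?_⟩
  · refine mul_pos (by norm_num) (Finset.prod_pos fun p hp => ?_)
    have hp0 : (0 : ℝ) < (p : ℝ) := by exact_mod_cast (Finset.mem_filter.1 hp).2.pos
    positivity
  have hw0 : p0 ≤ w := by omega
  have hwe : 2 * e ≤ w := by omega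
  obtain ⟨W2, hW2⟩ : ∃ W2 : ℕ, W2 =
      ∏ p ∈ ((Finset.range (w + 1)).filter Nat.Prime).filter (fun p => ¬ p ≤ p0), p ^ w := ⟨_, rfl⟩
  have hW2' : W2 ≠ 0 := by
    rw [hW2]
    refine Finset.prod_ne_zero_iff.2 fun p hp => ?_
    exact (pow_pos (Finset.mem_filter.1 (Finset.mem_filter.1 hp).1).2.pos _).ne'
  have : NeZero W2 := ⟨hW2'⟩
  have hdiv : ∀ d, d ∣ W2 → 1 < d → p0 < d := by
    intro d hd hd1
    obtain ⟨r, hr, hrd⟩ := Nat.exists_prime_and_dvd hd1.ne'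
    have h1 : r ∣ W2 := hrd.trans hd
    rw [hW2] at h1
    obtain ⟨p, hp, hrp⟩ := (Prime.dvd_finsetProd_iff hr.prime _).1 h1
    have h2 := hr.dvd_of_dvd_pow hrp
    simp only [Finset.mem_filter, Finset.mem_range] at hp
    have h3 : r = p := (Nat.prime_dvd_prime_iff_eq hr hp.1.2).1 h2
    have h4 : r ≤ d := Nat.le_of_dvd (by omega) hrd
    omega
  obtain ⟨A1, hA1⟩ := LD_fewBox W2 p0 hp08 hdiv
  choose! A2 hA2 using fun p (hp : Nat.Prime p) => LD_excBox p e hp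
  refine ⟨A1 + ∑ p ∈ P, A2 p, fun A hA => ?_⟩
  have hsub : ((Box A).filter fun a => PSol a ∧
        (sm (WW w) (ct (ZMod (WW w)) a) : ℝ) <
          (1 / 2 * ∏ p ∈ P, (1 / ((p : ℝ) ^ (6 * e)))) * (WW w : ℝ) ^ 3) ⊆
      ((Box A).filter fun a => (sm W2 (ct (ZMod W2) a) : ℝ) ≤ (W2 : ℝ) ^ 3 / 2) ∪
        P.biUnion (fun p => (Box A).filter fun a => Exc (p ^ e) (ct (ZMod (p ^ e)) a)) := by
    intro a ha
    simp only [Finset.mem_filter] at ha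
    simp only [Finset.mem_union, Finset.mem_biUnion, Finset.mem_filter]
    by_contra hcon
    rw [not_or] at hcon
    have h2 : (W2 : ℝ) ^ 3 / 2 < (sm W2 (ct (ZMod W2) a) : ℝ) := by
      by_contra h
      exact hcon.1 ⟨ha.1, not_lt.1 h⟩
    have h1 : ∀ p ∈ P, ¬ Exc (p ^ e) (ct (ZMod (p ^ e)) a) := by
      intro p hp h
      exact hcon.2 ⟨p, hp, ha.1, h⟩
    have := LD_lower w p0 e hw0 he hwe a ha.2.1 h1 W2 hW2 h2
    exact absurd this (not_le.2 ha.2.2)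
  have hc1 : (((Box A).filter fun a => PSol a ∧
        (sm (WW w) (ct (ZMod (WW w)) a) : ℝ) <
          (1 / 2 * ∏ p ∈ P, (1 / ((p : ℝ) ^ (6 * e)))) * (WW w : ℝ) ^ 3).card : ℝ) ≤
      (((Box A).filter fun a => (sm W2 (ct (ZMod W2) a) : ℝ) ≤ (W2 : ℝ) ^ 3 / 2).card : ℝ) +
        ∑ p ∈ P, (((Box A).filter fun a => Exc (p ^ e) (ct (ZMod (p ^ e)) a)).card : ℝ) := by
    have h1 := (Finset.card_le_card hsub).trans (Finset.card_union_le _ _)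
    have h2 := h1.trans (Nat.add_le_add_left Finset.card_biUnion_le _)
    exact_mod_cast h2
  refine hc1.trans ?_
  have hA1' : A ≥ A1 := le_trans (Nat.le_add_right _ _) hA
  have h3 : ∀ p ∈ P, (((Box A).filter fun a => Exc (p ^ e) (ct (ZMod (p ^ e)) a)).card : ℝ) ≤
      (ε / (2 * (p0 + 1))) * (2 * A + 1 : ℝ) ^ 64 := by
    intro p hp
    have hpp := (Finset.mem_filter.1 hp).2
    have hAp : A ≥ A2 p := by
      have : A2 p ≤ ∑ p ∈ P, A2 p := Finset.single_le_sum (f := A2) (fun _ _ => Nat.zero_le _) hp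
      omega
    refine (hA2 p hpp A hAp).trans ?_
    have hpe : (2 : ℝ) ^ e ≤ (p : ℝ) ^ e := by
      gcongr
      exact_mod_cast hpp.two_le
    have hlow : 16 * ((p0 : ℝ) + 1) / ε ≤ (p : ℝ) ^ e := he2.trans hpe
    have h8 : 8 / (p : ℝ) ^ e ≤ ε / (2 * (p0 + 1)) := by
      have hpp' : (0 : ℝ) < (p : ℝ) ^ e := lt_of_lt_of_le (by positivity) hpe
      rw [div_le_div_iff₀ hpp' (by positivity)]
      rw [div_le_iff₀ hε] at hlow
      nlinarith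
    gcongr
  have h4 : ∑ p ∈ P, (((Box A).filter fun a => Exc (p ^ e) (ct (ZMod (p ^ e)) a)).card : ℝ) ≤
      (ε / 2) * (2 * A + 1 : ℝ) ^ 64 := by
    refine (Finset.sum_le_sum h3).trans ?_
    rw [Finset.sum_const, nsmul_eq_mul]
    have hcard : (P.card : ℝ) ≤ p0 + 1 := by
      have : P.card ≤ p0 + 1 := by
        refine (Finset.card_filter_le _ _).trans ?_
        rw [Finset.card_range]
      exact_mod_cast this
    calc (P.card : ℝ) * (ε / (2 * (p0 + 1)) * (2 * A + 1 : ℝ) ^ 64)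
        ≤ (p0 + 1) * (ε / (2 * (p0 + 1)) * (2 * A + 1 : ℝ) ^ 64) := by gcongr
      _ = (ε / 2) * (2 * A + 1 : ℝ) ^ 64 := by
          field_simp
  have h5 := hA1 A hA1'
  have h6 : 32 / (p0 : ℝ) * (2 * A + 1 : ℝ) ^ 64 ≤ (ε / 2) * (2 * A + 1 : ℝ) ^ 64 := by gcongr
  calc _ ≤ (ε / 2) * (2 * A + 1 : ℝ) ^ 64 + (ε / 2) * (2 * A + 1 : ℝ) ^ 64 :=
        add_le_add (h5.trans h6) h4
    _ = ε * (2 * A + 1 : ℝ) ^ 64 := by ring

end Pool.Agent.Lib.MP_1ad228_ntC
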