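import Pool.Agent.Lib.MP_1ad228_ntC.LW_Pair

/-!
JOB LW_Count.  Primitive points in a residue class with the first coordinate in prescribed intervals.

PROOF.  `W = WW w`. Every prime `p ≤ 6 ≤ w` divides `W` (`Finset.dvd_prod_of_mem`, `p^w`, `w ≠ 0`), `W ≥ 1`. Take integer
lifts `c i : ℤ` of `x0 i` (`ZMod.intCast_surjective` or `(x0 i).val`). `cv (ZMod W) x = x0` iff `(W:ℤ) ∣ x i - c i` for
all `i` (`ZMod.intCast_eq_intCast_iff_dvd_sub` / `ZMod.intCast_zmod_eq_zero_iff_dvd` ...).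
Let `P` = the set of pairs of `pairCount q W` with `a = c 1`, `b = c 2`, `R` = the set of `r ∈ Icc (-B) B` with
`q |r| ≤ 2B`, `W ∣ r - c 3`: by `classGe` at least `4X - 2 ≥ X` elements, `X = B/(qW)`, if `X ≥ 1`.
For `(s, t) ∈ P`, `r ∈ R`, and `z ∈ Icc (j s t r) (j s t r + ρ)` with `W ∣ z - c 0` (at least
`(ρ+1)/W - 1 ≥ ρ/(2W)` values by `classGe` with `Ioc (j - 1) (j + ρ)`, `ρ ≥ 2W`) the vector `![z, s, t, r]` lies in the set:
it is unimodular because otherwise a prime `p` divides all coordinates, hence `p ∣ W` (property of `P`), but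
`lin u x0 = 1` gives (lift `u` to integers) `W ∣ lin u' x - 1`, so `p ∣ 1`.  (No prime divides all `x i` implies
`Uni x`: the ideal `Ideal.span (Set.range x)` of ℤ is principal, generated by `d`, `d ∣ x i` for all `i`, so `d` has no
prime factor and is not 0, so it is a unit and `1` is in the span: `Ideal.mem_span_range_iff_exists_fun`.)
So the cardinality is at least (injectivity of `(s,t,r,z) ↦ ![z,s,t,r]`; e.g. `Finset.card_sigma` or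
`Finset.card_eq_sum_card_fiberwise` over `x ↦ ((x 1, x 2), x 3)`)
`|P| * |R| * ρ/(2W) ≥ 2X² * X * ρ/(2W) = B³ρ/(q³W⁴)`.
-/

namespace Pool.Agent.Lib.MP_1ad228_ntC

open Classical

private theorem lwc_pos (w : ℕ) : 0 < WW w := by
  unfold WW
  refine Finset.prod_pos fun p hp => ?_
  exact pow_pos (Finset.mem_filter.1 hp).2.pos _

private theorem lwc_dvd (w : ℕ) (hw : 6 ≤ w) (p : ℕ) (hp : p.Prime) (h6 : p ≤ 6) : p ∣ WW w := by
  unfold WW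
  have h1 : p ^ w ∣ ∏ p ∈ (Finset.range (w + 1)).filter Nat.Prime, p ^ w :=
    Finset.dvd_prod_of_mem (fun p => p ^ w) (Finset.mem_filter.2 ⟨Finset.mem_range.2 (by omega), hp⟩)
  exact (dvd_pow_self p (by omega)).trans h1

private theorem lwc_uni (x : Fin 4 → ℤ) (h : ∀ p : ℕ, p.Prime → ¬ ∀ i, (p : ℤ) ∣ x i) : Uni x := by
  obtain ⟨d, hd⟩ := (IsPrincipalIdealRing.principal (Ideal.span (Set.range x))).principal
  have h1 : d ∈ Ideal.span (Set.range x) := by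
    rw [hd]
    exact Ideal.mem_span_singleton_self d
  have h2 : ∀ i, d ∣ x i := by
    intro i
    have h3 : x i ∈ Ideal.span (Set.range x) := Ideal.subset_span ⟨i, rfl⟩
    rw [hd] at h3
    exact Ideal.mem_span_singleton.1 h3
  have h4 : d.natAbs = 1 := by
    by_contra hne
    obtain ⟨p, hp, hpd⟩ := Nat.exists_prime_and_dvd hne
    refine h p hp fun i => ?_
    exact (Int.natCast_dvd.2 hpd).trans (h2 i)
  have h5 : IsUnit d := Int.isUnit_iff_natAbs_eq.2 h4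
  have h6 : (1 : ℤ) ∈ Ideal.span (Set.range x) := by
    rw [hd]
    exact Ideal.mem_span_singleton.2 h5.dvd
  obtain ⟨c, hc⟩ := Ideal.mem_span_range_iff_exists_fun.1 h6
  exact ⟨c, hc⟩

private theorem lwc_prim (W : ℕ) (x0 : Fin 4 → ZMod W) (hx0 : Uni x0) (x : Fin 4 → ℤ)
    (hc : cv (ZMod W) x = x0) (h : ∀ p : ℕ, p.Prime → (p : ℤ) ∣ x 1 → (p : ℤ) ∣ x 2 → p ∣ W) : Uni x := by
  refine lwc_uni x fun p hp hall => ?_
  obtain ⟨u, hu⟩ := hx0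
  have hlift : ∀ i, ∃ z : ℤ, (z : ZMod W) = u i := fun i => ZMod.intCast_surjective (u i)
  choose u' hu' using hlift
  have h1 : ((lin u' x : ℤ) : ZMod W) = ((1 : ℤ) : ZMod W) := by
    rw [← lin_cv, hc, Int.cast_one, ← hu]
    congr 1
    funext i
    exact hu' i
  have h2 : (W : ℤ) ∣ 1 - lin u' x := (ZMod.intCast_eq_intCast_iff_dvd_sub _ _ _).1 h1
  have h3 : (p : ℤ) ∣ (W : ℤ) := by exact_mod_cast h p hp (hall 1) (hall 2)
  have h4 : (p : ℤ) ∣ lin u' x := by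
    unfold lin
    exact Finset.dvd_sum fun i _ => Dvd.dvd.mul_left (hall i) _
  have h5 : (p : ℤ) ∣ 1 := by
    have := dvd_add (h3.trans h2) h4
    have h6 : (1 : ℤ) - lin u' x + lin u' x = 1 := by ring
    rwa [h6] at this
  have h7 : p ∣ 1 := by exact_mod_cast h5
  exact hp.one_lt.ne' (Nat.dvd_one.1 h7)

theorem countCl (q w : ℕ) (hq : 2 ≤ q) (hw : 6 ≤ w) : ∃ B0 : ℕ, ∀ B ≥ B0, ∀ ρ : ℕ,
    2 * WW w ≤ ρ → ∀ j : ℤ → ℤ → ℤ → ℤ,
    (∀ s t r : ℤ, (B : ℤ) ≤ (q : ℤ) * s → (q : ℤ) * s ≤ 2 * B → (q : ℤ) * |t| ≤ 2 * B → (q : ℤ) * |r| ≤ 2 * B →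
      -(B : ℤ) ≤ j s t r ∧ j s t r + ρ ≤ B) →
    ∀ x0 : Fin 4 → ZMod (WW w), Uni x0 →
    (B : ℝ) ^ 3 * ρ ≤ (q : ℝ) ^ 3 * (WW w : ℝ) ^ 4 *
      (((VBox B).filter fun x => (B : ℤ) ≤ (q : ℤ) * x 1 ∧ (q : ℤ) * x 1 ≤ 2 * B ∧ (q : ℤ) * |x 2| ≤ 2 * B ∧
        (q : ℤ) * |x 3| ≤ 2 * B ∧ j (x 1) (x 2) (x 3) ≤ x 0 ∧ x 0 ≤ j (x 1) (x 2) (x 3) + ρ ∧
        Uni x ∧ cv (ZMod (WW w)) x = x0).card : ℝ) := by
  have hWpos : 0 < WW w := lwc_pos w
  obtain ⟨B1, hB1⟩ := pairCount q (WW w) hq hWpos (lwc_dvd w hw)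
  generalize hW : WW w = W at *
  refine ⟨max B1 (q * W), fun B hB ρ hρ j hj x0 hx0 => ?_⟩
  have hBB1 : B ≥ B1 := (le_max_left _ _).trans hB
  have hBqW : q * W ≤ B := (le_max_right _ _).trans hB
  have hlift : ∀ i, ∃ z : ℤ, (z : ZMod W) = x0 i := fun i => ZMod.intCast_surjective (x0 i)
  choose c hc using hlift
  have hq0 : (0 : ℝ) < q := by
    have : 0 < q := by omega
    exact_mod_cast this
  have hW0 : (0 : ℝ) < W := by exact_mod_cast hWpos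
  have hP := hB1 B hBB1 (c 1) (c 2)
  set P := (Finset.Icc (-(B : ℤ)) B ×ˢ Finset.Icc (-(B : ℤ)) B).filter fun s =>
        (B : ℤ) ≤ (q : ℤ) * s.1 ∧ (q : ℤ) * s.1 ≤ 2 * B ∧ (q : ℤ) * |s.2| ≤ 2 * B ∧ (W : ℤ) ∣ s.1 - c 1 ∧
        (W : ℤ) ∣ s.2 - c 2 ∧ ∀ p : ℕ, p.Prime → (p : ℤ) ∣ s.1 → (p : ℤ) ∣ s.2 → p ∣ W with hPdef
  -- the last coordinate
  obtain ⟨m, hm⟩ : ∃ m : ℕ, m = 2 * B / q := ⟨_, rfl⟩
  have hm1 : q * m ≤ 2 * B := by
    rw [hm]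
    exact Nat.mul_div_le _ _
  have hm2 : 2 * B < q * (m + 1) := by
    rw [hm]
    exact Nat.lt_mul_div_succ _ (by omega)
  set R := (Finset.Ioc (-(m : ℤ) - 1) (m : ℤ)).filter fun z => (W : ℤ) ∣ z - c 3 with hR
  have hRc : (B : ℝ) ≤ q * W * (R.card : ℝ) := by
    have h1 := classGe (-(m : ℤ) - 1) (m : ℤ) W hWpos (c 3)
    rw [← hR] at h1
    have h2 : (((m : ℤ) : ℝ) - ((-(m : ℤ) - 1 : ℤ) : ℝ)) / W - 1 = (2 * (m : ℝ) + 1) / W - 1 := by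
      push_cast
      ring
    rw [h2] at h1
    have h3 : (2 * (B : ℝ)) < q * ((m : ℝ) + 1) := by exact_mod_cast hm2
    have h4 : (q : ℝ) * W ≤ B := by exact_mod_cast hBqW
    have h5 : (2 * (m : ℝ) + 1) ≤ W * (R.card : ℝ) + W := by
      have h6 : (2 * (m : ℝ) + 1) / W ≤ (R.card : ℝ) + 1 := by linarith
      rw [div_le_iff₀ hW0] at h6
      linarith
    have h7 : (q : ℝ) * (2 * (m : ℝ) + 1) ≤ q * (W * (R.card : ℝ) + W) := mul_le_mul_of_nonneg_left h5 hq0.le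
    have h8 : (q : ℝ) ≤ q * W := by
      have : (1 : ℝ) ≤ W := by exact_mod_cast hWpos
      nlinarith
    nlinarith
  -- the first coordinate
  let Z : (ℤ × ℤ) × ℤ → Finset ℤ := fun v =>
    (Finset.Ioc (j v.1.1 v.1.2 v.2 - 1) (j v.1.1 v.1.2 v.2 + ρ)).filter fun z => (W : ℤ) ∣ z - c 0
  have hZ : ∀ v, (ρ : ℝ) ≤ 2 * W * ((Z v).card : ℝ) := by
    intro v
    have h1 := classGe (j v.1.1 v.1.2 v.2 - 1) (j v.1.1 v.1.2 v.2 + ρ) W hWpos (c 0)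
    have h2 : (((j v.1.1 v.1.2 v.2 + ρ : ℤ) : ℝ) - ((j v.1.1 v.1.2 v.2 - 1 : ℤ) : ℝ)) / W - 1 =
        ((ρ : ℝ) + 1) / W - 1 := by
      push_cast
      ring
    rw [h2] at h1
    have h3 : (2 : ℝ) * W ≤ ρ := by exact_mod_cast hρ
    have h4 : ((ρ : ℝ) + 1) / W ≤ ((Z v).card : ℝ) + 1 := by
      show ((ρ : ℝ) + 1) / W ≤ ((((Finset.Ioc (j v.1.1 v.1.2 v.2 - 1) (j v.1.1 v.1.2 v.2 + ρ)).filter
        fun z => (W : ℤ) ∣ z - c 0).card : ℕ) : ℝ) + 1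
      linarith
    rw [div_le_iff₀ hW0] at h4
    nlinarith
  set E := (VBox B).filter fun x => (B : ℤ) ≤ (q : ℤ) * x 1 ∧ (q : ℤ) * x 1 ≤ 2 * B ∧ (q : ℤ) * |x 2| ≤ 2 * B ∧
        (q : ℤ) * |x 3| ≤ 2 * B ∧ j (x 1) (x 2) (x 3) ≤ x 0 ∧ x 0 ≤ j (x 1) (x 2) (x 3) + ρ ∧
        Uni x ∧ cv (ZMod W) x = x0 with hE
  have hcard : ((P ×ˢ R).sigma Z).card ≤ E.card := by
    refine Finset.card_le_card_of_injOn
      (fun y : (Σ _ : (ℤ × ℤ) × ℤ, ℤ) => (![y.2, y.1.1.1, y.1.1.2, y.1.2] : Fin 4 → ℤ)) ?_ ?_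
    · rintro ⟨⟨⟨s, t⟩, r⟩, z⟩ hy
      rw [Finset.mem_coe, Finset.mem_sigma, Finset.mem_product] at hy
      obtain ⟨⟨hst, hr⟩, hz⟩ := hy
      simp only at hst hr hz
      rw [hPdef, Finset.mem_filter, Finset.mem_product, Finset.mem_Icc, Finset.mem_Icc] at hst
      rw [hR, Finset.mem_filter, Finset.mem_Ioc] at hr
      have hz' : z ∈ (Finset.Ioc (j s t r - 1) (j s t r + ρ)).filter fun z => (W : ℤ) ∣ z - c 0 := hz
      rw [Finset.mem_filter, Finset.mem_Ioc] at hz'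
      obtain ⟨⟨⟨hs1, hs2⟩, ht1, ht2⟩, hs3, hs4, ht3, hs5, ht5, hpr⟩ := hst
      simp only at hs1 hs2 ht1 ht2 hs3 hs4 ht3 hs5 ht5 hpr
      have hr1 : |r| ≤ (m : ℤ) := by
        rw [abs_le]
        constructor <;> omega
      have hr2 : (q : ℤ) * |r| ≤ 2 * B := by
        have h1 : (q : ℤ) * |r| ≤ (q : ℤ) * m := mul_le_mul_of_nonneg_left hr1 (by positivity)
        have h2 : (q : ℤ) * m ≤ 2 * B := by exact_mod_cast hm1
        exact h1.trans h2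
      have hmB : m ≤ B := by
        have h1 : 2 * m ≤ q * m := Nat.mul_le_mul_right m hq
        omega
      have hr3 : |r| ≤ (B : ℤ) := hr1.trans (by exact_mod_cast hmB)
      have hjj := hj s t r hs3 hs4 ht3 hr2
      have hcv : cv (ZMod W) (![z, s, t, r] : Fin 4 → ℤ) = x0 := by
        have hcv1 : ∀ (a b : ℤ) (i : Fin 4), b = c i → (W : ℤ) ∣ a - b → (a : ZMod W) = x0 i := by
          intro a b i hb hab
          rw [← hc i, ← hb]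
          exact ((ZMod.intCast_eq_intCast_iff_dvd_sub _ _ _).2 hab).symm
        funext i
        fin_cases i
        · exact hcv1 z (c 0) 0 rfl hz'.2
        · exact hcv1 s (c 1) 1 rfl hs5
        · exact hcv1 t (c 2) 2 rfl ht5
        · exact hcv1 r (c 3) 3 rfl hr.2
      rw [Finset.mem_coe, hE, Finset.mem_filter, mem_VBox]
      refine ⟨?_, hs3, hs4, ht3, hr2, ?_, ?_, ?_, hcv⟩
      · intro i
        fin_cases i
        · show |z| ≤ (B : ℤ)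
          rw [abs_le]
          constructor <;> omega
        · show |s| ≤ (B : ℤ)
          rw [abs_le]
          exact ⟨hs1, hs2⟩
        · show |t| ≤ (B : ℤ)
          rw [abs_le]
          exact ⟨ht1, ht2⟩
        · exact hr3
      · show j s t r ≤ z
        omega
      · exact hz'.1.2
      · exact lwc_prim W x0 hx0 _ hcv hpr
    · rintro ⟨⟨⟨s, t⟩, r⟩, z⟩ _ ⟨⟨⟨s', t'⟩, r'⟩, z'⟩ _ h
      have e0 := congrFun h 0
      have e1 := congrFun h 1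
      have e2 := congrFun h 2
      have e3 := congrFun h 3
      simp only [Matrix.cons_val_zero, Matrix.cons_val_one, Matrix.cons_val] at e0 e1 e2 e3
      subst e0 e1 e2 e3
      rfl
  rw [Finset.card_sigma] at hcard
  have hsum : (P.card : ℝ) * (R.card : ℝ) * ρ ≤ 2 * W * (E.card : ℝ) := by
    have h1 : ((P ×ˢ R).card : ℝ) * ρ ≤ 2 * W * ((∑ v ∈ P ×ˢ R, (Z v).card : ℕ) : ℝ) := by
      rw [Nat.cast_sum, Finset.mul_sum, ← nsmul_eq_mul, ← Finset.sum_const]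
      exact Finset.sum_le_sum fun v _ => hZ v
    have h2 : ((∑ v ∈ P ×ˢ R, (Z v).card : ℕ) : ℝ) ≤ (E.card : ℝ) := by exact_mod_cast hcard
    rw [Finset.card_product, Nat.cast_mul] at h1
    exact h1.trans (mul_le_mul_of_nonneg_left h2 (by positivity))
  have hB0 : (0 : ℝ) ≤ B := Nat.cast_nonneg B
  have hρ0 : (0 : ℝ) ≤ ρ := Nat.cast_nonneg ρ
  have h1 : 2 * (B : ℝ) ^ 2 * B ≤ ((q : ℝ) ^ 2 * (W : ℝ) ^ 2 * (P.card : ℝ)) * (q * W * (R.card : ℝ)) :=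
    mul_le_mul hP hRc hB0 (by positivity)
  have h2 : 2 * (B : ℝ) ^ 2 * B * ρ ≤
      ((q : ℝ) ^ 2 * (W : ℝ) ^ 2 * (P.card : ℝ)) * (q * W * (R.card : ℝ)) * ρ :=
    mul_le_mul_of_nonneg_right h1 hρ0
  have h3 : ((q : ℝ) ^ 2 * (W : ℝ) ^ 2 * (P.card : ℝ)) * (q * W * (R.card : ℝ)) * ρ ≤
      (q : ℝ) ^ 3 * (W : ℝ) ^ 3 * (2 * W * (E.card : ℝ)) := by
    have h4 : ((q : ℝ) ^ 2 * (W : ℝ) ^ 2 * (P.card : ℝ)) * (q * W * (R.card : ℝ)) * ρ =
        (q : ℝ) ^ 3 * (W : ℝ) ^ 3 * ((P.card : ℝ) * (R.card : ℝ) * ρ) := by ring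
    rw [h4]
    exact mul_le_mul_of_nonneg_left hsum (by positivity)
  have h5 : (q : ℝ) ^ 3 * (W : ℝ) ^ 3 * (2 * W * (E.card : ℝ)) = 2 * ((q : ℝ) ^ 3 * (W : ℝ) ^ 4 * (E.card : ℝ)) := by
    ring
  have h6 : 2 * (B : ℝ) ^ 2 * B * ρ = 2 * ((B : ℝ) ^ 3 * ρ) := by ring
  linarith

end Pool.Agent.Lib.MP_1ad228_ntC
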