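import Pool.Agent.Lib.MP_1ad228_ntC.Basic

/-!
JOB LW_Jint.  Intervals where the cubic form is small (paper section 7).

PROOF.  `F z = ev a ![z, s, t, r]`.
`lip`: for `x, y` with all coordinates bounded by `B` and `|x i - y i| ≤ 1` for `i = 0` and `x i = y i` otherwise:
`|ev a x - ev a y| ≤ 64 * A * (3 B²)` (termwise `|x i x j x k - y i y j y k| ≤ 3 B²`).  So
`|F (z+1) - F z| ≤ 192 A B²` for `-B ≤ z`, `z + 1 ≤ B`, and by induction `|F z - F z'| ≤ 192 A B² |z - z'|`.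
Main term: for `|z| ≤ B` the other 63 terms of `ev` contain one of `s, t, r`, all of absolute value `≤ 2B/(127E)`, so
`127 E |F z - a_000 z³| ≤ 63 A B² * 2B = 126 A B³`.  With `A ≤ E |a_000|`: `|F (±B) ∓ a_000 B³| * 127 E ≤ 126 E |a_000| B³`,
so `F B` and `F (-B)` have strictly opposite signs when `B ≥ 1`, `a_000 ≠ 0` (`A ≥ 1`).
Discrete intermediate value: there is `z*` in `[-B, B]` with `|F z*| ≤ 192 A B²` (e.g. the last `z` in `[-B, B)`
such that `F z * F B ≤ 0`; then `F (z+1)` has the sign of `F B`, so `|F z| ≤ |F (z+1) - F z|`; use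
`Int.induction`/`Nat.find` or `Finset.exists_max_image`).
If `z* ≤ 0` let `j = z*`, otherwise `j = z* - ρ`; `ρ ≤ B`, so `-B ≤ j`, `j + ρ ≤ B`, and for `j ≤ z ≤ j + ρ`:
`|F z| ≤ 192 A B² (ρ + 1)`, so `K |F z| (127E)³ ≤ A B² * B = A B³ ≤ A (127 E s)³`; cancel `(127E)³`.
-/

namespace Pool.Agent.Lib.MP_1ad228_ntC

open Classical

private theorem LWJ_lip {A B : ℕ} {a : Ten ℤ} (ha : ∀ i j k, |a i j k| ≤ (A : ℤ)) {x y : Fin 4 → ℤ}
    (hx : ∀ i, |x i| ≤ (B : ℤ)) (hy : ∀ i, |y i| ≤ (B : ℤ)) (hd : ∀ i, |x i - y i| ≤ 1) :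
    |ev a x - ev a y| ≤ 192 * A * B ^ 2 := by
  have hB : (0 : ℤ) ≤ B := Nat.cast_nonneg B
  have h1 : ∀ i j k : Fin 4, |a i j k * (x i * x j * x k) - a i j k * (y i * y j * y k)| ≤
      (A : ℤ) * (3 * B ^ 2) := by
    intro i j k
    rw [← mul_sub, abs_mul]
    refine mul_le_mul (ha i j k) ?_ (abs_nonneg _) (Nat.cast_nonneg _)
    have e : x i * x j * x k - y i * y j * y k =
        (x i - y i) * (x j * x k) + y i * ((x j - y j) * x k) + y i * y j * (x k - y k) := by ring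
    rw [e]
    have b1 : |(x i - y i) * (x j * x k)| ≤ 1 * (B * B) := by
      rw [abs_mul, abs_mul]
      exact mul_le_mul (hd i) (mul_le_mul (hx j) (hx k) (abs_nonneg _) hB)
        (mul_nonneg (abs_nonneg _) (abs_nonneg _)) zero_le_one
    have b2 : |y i * ((x j - y j) * x k)| ≤ B * (1 * B) := by
      rw [abs_mul, abs_mul]
      exact mul_le_mul (hy i) (mul_le_mul (hd j) (hx k) (abs_nonneg _) zero_le_one)
        (mul_nonneg (abs_nonneg _) (abs_nonneg _)) hB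
    have b3 : |y i * y j * (x k - y k)| ≤ B * B * 1 := by
      rw [abs_mul, abs_mul]
      exact mul_le_mul (mul_le_mul (hy i) (hy j) (abs_nonneg _) hB) (hd k) (abs_nonneg _)
        (mul_nonneg hB hB)
    have b4 := abs_add_le ((x i - y i) * (x j * x k) + y i * ((x j - y j) * x k))
      (y i * y j * (x k - y k))
    have b5 := abs_add_le ((x i - y i) * (x j * x k)) (y i * ((x j - y j) * x k))
    linarith
  have e : ev a x - ev a y =
      ∑ i, ∑ j, ∑ k, (a i j k * (x i * x j * x k) - a i j k * (y i * y j * y k)) := by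
    simp only [ev, ← Finset.sum_sub_distrib]
  rw [e]
  calc |∑ i, ∑ j, ∑ k, (a i j k * (x i * x j * x k) - a i j k * (y i * y j * y k))|
      ≤ ∑ i, |∑ j, ∑ k, (a i j k * (x i * x j * x k) - a i j k * (y i * y j * y k))| :=
        Finset.abs_sum_le_sum_abs _ _
    _ ≤ ∑ i : Fin 4, ∑ j : Fin 4, ∑ k : Fin 4, (A : ℤ) * (3 * B ^ 2) := by
        refine Finset.sum_le_sum fun i _ => (Finset.abs_sum_le_sum_abs _ _).trans ?_
        refine Finset.sum_le_sum fun j _ => (Finset.abs_sum_le_sum_abs _ _).trans ?_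
        exact Finset.sum_le_sum fun k _ => h1 i j k
    _ = 192 * A * B ^ 2 := by
        simp only [Finset.sum_const, Finset.card_univ, Fintype.card_fin, nsmul_eq_mul]
        push_cast
        ring

private theorem LWJ_main {A B : ℕ} {D : ℤ} (hD : 0 ≤ D) {a : Ten ℤ}
    (ha : ∀ i j k, |a i j k| ≤ (A : ℤ)) {x : Fin 4 → ℤ}
    (hx : ∀ i, |x i| ≤ (B : ℤ)) (hd : ∀ i, i ≠ 0 → D * |x i| ≤ 2 * B) :
    D * |ev a x - a 0 0 0 * (x 0 * x 0 * x 0)| ≤ 126 * (A * B ^ 3) := by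
  have hB : (0 : ℤ) ≤ B := Nat.cast_nonneg B
  have hA : (0 : ℤ) ≤ A := Nat.cast_nonneg A
  have h1 : ∀ i j k : Fin 4, ¬ (i = 0 ∧ j = 0 ∧ k = 0) →
      D * |a i j k * (x i * x j * x k)| ≤ 2 * (A * B ^ 3) := by
    intro i j k h
    have e1 : D * |a i j k * (x i * x j * x k)| = |a i j k| * (D * (|x i| * |x j| * |x k|)) := by
      rw [abs_mul, abs_mul, abs_mul]; ring
    have e2 : 2 * ((A : ℤ) * B ^ 3) = A * (2 * B * B * B) := by ring
    rw [e1, e2]
    have hn : ∀ i, 0 ≤ |x i| := fun i => abs_nonneg _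
    refine mul_le_mul (ha i j k) ?_ (mul_nonneg hD (mul_nonneg (mul_nonneg (hn _) (hn _)) (hn _))) hA
    by_cases hi : i = 0
    · by_cases hj : j = 0
      · have hk : k ≠ 0 := fun hk => h ⟨hi, hj, hk⟩
        calc D * (|x i| * |x j| * |x k|) = (D * |x k|) * |x i| * |x j| := by ring
          _ ≤ 2 * B * B * B :=
            mul_le_mul (mul_le_mul (hd k hk) (hx i) (hn _) (by positivity)) (hx j) (hn _)
              (by positivity)
      · calc D * (|x i| * |x j| * |x k|) = (D * |x j|) * |x i| * |x k| := by ring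
          _ ≤ 2 * B * B * B :=
            mul_le_mul (mul_le_mul (hd j hj) (hx i) (hn _) (by positivity)) (hx k) (hn _)
              (by positivity)
    · calc D * (|x i| * |x j| * |x k|) = (D * |x i|) * |x j| * |x k| := by ring
        _ ≤ 2 * B * B * B :=
          mul_le_mul (mul_le_mul (hd i hi) (hx j) (hn _) (by positivity)) (hx k) (hn _)
            (by positivity)
  have h2 : ∀ i j k : Fin 4, D * |if (i = 0 ∧ j = 0 ∧ k = 0) then 0 else
      a i j k * (x i * x j * x k)| ≤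
        (if (i = 0 ∧ j = 0 ∧ k = 0) then (0 : ℤ) else 2 * ((A : ℤ) * (B : ℤ) ^ 3)) := by
    intro i j k
    by_cases h : (i = 0 ∧ j = 0 ∧ k = 0)
    · rw [if_pos h, if_pos h]; simp
    · rw [if_neg h, if_neg h]
      exact h1 i j k h
  have e : ev a x - a 0 0 0 * (x 0 * x 0 * x 0) =
      ∑ i : Fin 4, ∑ j : Fin 4, ∑ k : Fin 4, if (i = 0 ∧ j = 0 ∧ k = 0) then 0 else
      a i j k * (x i * x j * x k) := by
    simp only [ev, Fin.sum_univ_four]
    simp
    ring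
  rw [e]
  calc D * |∑ i : Fin 4, ∑ j : Fin 4, ∑ k : Fin 4, if (i = 0 ∧ j = 0 ∧ k = 0) then 0 else
      a i j k * (x i * x j * x k)|
      ≤ D * ∑ i : Fin 4, ∑ j : Fin 4, ∑ k : Fin 4, |if (i = 0 ∧ j = 0 ∧ k = 0) then 0 else
      a i j k * (x i * x j * x k)| := by
        refine mul_le_mul_of_nonneg_left ?_ hD
        refine (Finset.abs_sum_le_sum_abs _ _).trans ?_
        refine Finset.sum_le_sum fun i _ => (Finset.abs_sum_le_sum_abs _ _).trans ?_
        exact Finset.sum_le_sum fun j _ => (Finset.abs_sum_le_sum_abs _ _)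
    _ ≤ ∑ i : Fin 4, ∑ j : Fin 4, ∑ k : Fin 4,
        (if (i = 0 ∧ j = 0 ∧ k = 0) then 0 else 2 * ((A : ℤ) * B ^ 3)) := by
        rw [Finset.mul_sum]
        refine Finset.sum_le_sum fun i _ => ?_
        rw [Finset.mul_sum]
        refine Finset.sum_le_sum fun j _ => ?_
        rw [Finset.mul_sum]
        exact Finset.sum_le_sum fun k _ => h2 i j k
    _ = 126 * (A * B ^ 3) := by
        simp only [Fin.sum_univ_four]
        simp
        ring

private theorem LWJ_ivt {g : ℕ → ℤ} {L : ℤ} (hL : 0 ≤ L) (n : ℕ)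
    (hg : ∀ k < n, |g (k + 1) - g k| ≤ L) (h0 : g 0 ≤ 0) (hn : 0 ≤ g n) :
    ∃ k ≤ n, |g k| ≤ L := by
  induction n with
  | zero =>
    refine ⟨0, le_rfl, ?_⟩
    have : g 0 = 0 := le_antisymm h0 hn
    rw [this, abs_zero]
    exact hL
  | succ n ih =>
    by_cases h : 0 ≤ g n
    · obtain ⟨k, hk, hk'⟩ := ih (fun k hk => hg k (by omega)) h
      exact ⟨k, by omega, hk'⟩
    · refine ⟨n + 1, le_rfl, ?_⟩
      have h1 := hg n (by omega)
      rw [abs_le] at h1 ⊢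
      push Not at h
      constructor <;> linarith [h1.1, h1.2]

private theorem LWJ_ivt' {g : ℕ → ℤ} {L : ℤ} (hL : 0 ≤ L) (n : ℕ)
    (hg : ∀ k < n, |g (k + 1) - g k| ≤ L)
    (h : (g 0 ≤ 0 ∧ 0 ≤ g n) ∨ (0 ≤ g 0 ∧ g n ≤ 0)) :
    ∃ k ≤ n, |g k| ≤ L := by
  rcases h with h | h
  · exact LWJ_ivt hL n hg h.1 h.2
  · obtain ⟨k, hk, hk'⟩ := LWJ_ivt (g := fun k => - g k) hL n (fun k hk => by
      have := hg k hk
      rw [← abs_neg] at this
      have e : - g (k + 1) - - g k = -(g (k + 1) - g k) := by ring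
      rw [e]
      exact this) (by linarith [h.1]) (by linarith [h.2])
    exact ⟨k, hk, by rwa [abs_neg] at hk'⟩

private theorem LWJ_steps {g : ℕ → ℤ} {L : ℤ} {n : ℕ}
    (hg : ∀ k < n, |g (k + 1) - g k| ≤ L) (m k : ℕ) (h : m + k ≤ n) :
    |g (m + k) - g m| ≤ L * k := by
  induction k with
  | zero => simp
  | succ k ih =>
    have h1 := ih (by omega)
    have h2 := hg (m + k) (by omega)
    have h3 := abs_add_le (g (m + k + 1) - g (m + k)) (g (m + k) - g m)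
    have e : g (m + k + 1) - g (m + k) + (g (m + k) - g m) = g (m + (k + 1)) - g m := by
      rw [add_assoc m k 1]; ring
    rw [e] at h3
    push_cast
    linarith

private theorem LWJ_dist {g : ℕ → ℤ} {L : ℤ} (hL : 0 ≤ L) {n : ℕ}
    (hg : ∀ k < n, |g (k + 1) - g k| ≤ L) {m k d : ℕ} (hm : m ≤ n) (hk : k ≤ n)
    (h1 : k ≤ m + d) (h2 : m ≤ k + d) (hgm : |g m| ≤ L) : |g k| ≤ L * (d + 1) := by
  have h3 : |g k - g m| ≤ L * d := by
    rcases le_total m k with h | h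
    · obtain ⟨c, rfl⟩ := Nat.exists_eq_add_of_le h
      refine (LWJ_steps hg m c hk).trans ?_
      exact mul_le_mul_of_nonneg_left (by exact_mod_cast (by omega : c ≤ d)) hL
    · obtain ⟨c, rfl⟩ := Nat.exists_eq_add_of_le h
      rw [abs_sub_comm]
      refine (LWJ_steps hg k c hm).trans ?_
      exact mul_le_mul_of_nonneg_left (by exact_mod_cast (by omega : c ≤ d)) hL
  have h4 := abs_add_le (g k - g m) (g m)
  rw [sub_add_cancel] at h4
  linarith

theorem jint (E K B ρ A : ℕ) (hE : 1 ≤ E) (hK : 1 ≤ K) (hA : 1 ≤ A) (hB : 1 ≤ B)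
    (hρ : 192 * K * (127 * E) ^ 3 * (ρ + 1) ≤ B) (a : Ten ℤ) (ha : a ∈ Box A)
    (h0 : (A : ℤ) ≤ E * |a 0 0 0|) (s t r : ℤ) (h1 : (B : ℤ) ≤ (127 * E : ℕ) * s)
    (h2 : ((127 * E : ℕ) : ℤ) * s ≤ 2 * B) (h3 : ((127 * E : ℕ) : ℤ) * |t| ≤ 2 * B)
    (h4 : ((127 * E : ℕ) : ℤ) * |r| ≤ 2 * B) :
    ∃ j : ℤ, -(B : ℤ) ≤ j ∧ j + ρ ≤ B ∧ ∀ z : ℤ, j ≤ z → z ≤ j + ρ →
      (K : ℤ) * |ev a ![z, s, t, r]| ≤ A * s ^ 3 := by
  have hbox := mem_Box.1 ha
  set D : ℤ := ((127 * E : ℕ) : ℤ) with hDdef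
  have hDE : D = 127 * E := by rw [hDdef]; push_cast; ring
  have hE' : (1 : ℤ) ≤ E := by exact_mod_cast hE
  have hB' : (1 : ℤ) ≤ B := by exact_mod_cast hB
  have hA' : (1 : ℤ) ≤ A := by exact_mod_cast hA
  have hK' : (1 : ℤ) ≤ K := by exact_mod_cast hK
  have hD127 : 127 ≤ D := by rw [hDE]; linarith
  have hD0 : 0 ≤ D := by linarith
  have small : ∀ u : ℤ, D * |u| ≤ 2 * B → |u| ≤ B := by
    intro u hu
    have h5 : 127 * |u| ≤ D * |u| := mul_le_mul_of_nonneg_right hD127 (abs_nonneg u)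
    linarith [abs_nonneg u]
  have hs0 : 0 < s := by
    by_contra h
    push Not at h
    have : D * s ≤ 0 := mul_nonpos_of_nonneg_of_nonpos hD0 h
    linarith
  have hsa : D * |s| ≤ 2 * B := by rw [abs_of_pos hs0]; exact h2
  have hxb : ∀ z : ℤ, |z| ≤ B → ∀ i, |(![z, s, t, r] : Fin 4 → ℤ) i| ≤ (B : ℤ) := by
    intro z hz i
    fin_cases i
    · exact hz
    · exact small s hsa
    · exact small t h3
    · exact small r h4
  have hxd : ∀ z : ℤ, ∀ i : Fin 4, i ≠ 0 → D * |(![z, s, t, r] : Fin 4 → ℤ) i| ≤ 2 * B := by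
    intro z i hi
    fin_cases i
    · exact absurd rfl hi
    · exact hsa
    · exact h3
    · exact h4
  set Λ : ℤ := 192 * A * B ^ 2 with hΛ
  have hΛ0 : 0 ≤ Λ := by positivity
  set g : ℕ → ℤ := fun n => ev a ![-(B : ℤ) + n, s, t, r] with hg
  have hstep : ∀ k < 2 * B, |g (k + 1) - g k| ≤ Λ := by
    intro k hk
    have hk' : (k : ℤ) + 1 ≤ 2 * B := by exact_mod_cast hk
    refine LWJ_lip hbox (hxb _ ?_) (hxb _ ?_) ?_
    · rw [abs_le]; push_cast; constructor <;> linarith [(Nat.cast_nonneg k : (0 : ℤ) ≤ k)]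
    · rw [abs_le]; constructor <;> linarith [(Nat.cast_nonneg k : (0 : ℤ) ≤ k)]
    · intro i
      fin_cases i
      · show |-(B : ℤ) + ((k + 1 : ℕ) : ℤ) - (-(B : ℤ) + (k : ℤ))| ≤ 1
        push_cast
        have e : -(B : ℤ) + ((k : ℤ) + 1) - (-(B : ℤ) + (k : ℤ)) = 1 := by ring
        rw [e]; norm_num
      · show |s - s| ≤ 1
        simp
      · show |t - t| ≤ 1
        simp
      · show |r - r| ≤ 1
        simp
  have hmB := LWJ_main hD0 hbox (hxb (B : ℤ) (by simp)) (hxd (B : ℤ))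
  have hmB' := LWJ_main hD0 hbox (hxb (-(B : ℤ)) (by simp)) (hxd (-(B : ℤ)))
  have e0 : (![(B : ℤ), s, t, r] : Fin 4 → ℤ) 0 = B := rfl
  have e0' : (![-(B : ℤ), s, t, r] : Fin 4 → ℤ) 0 = -B := rfl
  rw [e0] at hmB
  rw [e0'] at hmB'
  have g0 : g 0 = ev a ![-(B : ℤ), s, t, r] := by simp [hg]
  have gn : g (2 * B) = ev a ![(B : ℤ), s, t, r] := by
    simp only [hg]
    have e : -(B : ℤ) + ((2 * B : ℕ) : ℤ) = B := by push_cast; ring
    rw [e]
  rw [← gn] at hmB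
  rw [← g0] at hmB'
  set u : ℤ := a 0 0 0 with hu
  have hB3 : (0 : ℤ) < B ^ 3 := by positivity
  have hAB : (A : ℤ) * B ^ 3 ≤ E * |u| * B ^ 3 := mul_le_mul_of_nonneg_right h0 hB3.le
  have hu0 : 0 < |u| := by
    by_contra h
    push Not at h
    have : (E : ℤ) * |u| ≤ 0 := mul_nonpos_of_nonneg_of_nonpos (by linarith) h
    linarith
  have f1 : D * |g (2 * B) - u * (B * B * B)| ≤ 126 * (E * |u| * B ^ 3) := by linarith
  have f2 : D * |g 0 - u * (-(B : ℤ) * -(B : ℤ) * -(B : ℤ))| ≤ 126 * (E * |u| * B ^ 3) := by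
    linarith
  have f3 : D * (|u| * B ^ 3) = 127 * (E * |u| * B ^ 3) := by rw [hDE]; ring
  have f4 : 0 < E * |u| * (B : ℤ) ^ 3 := by positivity
  have hDpos : 0 < D := by linarith
  have f5 : |g (2 * B) - u * (B * B * B)| < |u| * B ^ 3 := by
    refine lt_of_mul_lt_mul_left ?_ hD0
    linarith
  have f6 : |g 0 - u * (-(B : ℤ) * -(B : ℤ) * -(B : ℤ))| < |u| * B ^ 3 := by
    refine lt_of_mul_lt_mul_left ?_ hD0
    linarith
  have hsign : (g 0 ≤ 0 ∧ 0 ≤ g (2 * B)) ∨ (0 ≤ g 0 ∧ g (2 * B) ≤ 0) := by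
    rw [abs_lt] at f5 f6
    have e1 : u * ((B : ℤ) * B * B) = u * B ^ 3 := by ring
    have e2 : u * (-(B : ℤ) * -(B : ℤ) * -(B : ℤ)) = - (u * B ^ 3) := by ring
    rw [e1] at f5
    rw [e2] at f6
    rcases le_total 0 u with h | h
    · rw [abs_of_nonneg h] at f5 f6
      left
      constructor <;> linarith [f5.1, f5.2, f6.1, f6.2]
    · rw [abs_of_nonpos h] at f5 f6
      right
      constructor <;> linarith [f5.1, f5.2, f6.1, f6.2]
  obtain ⟨m, hm, hgm⟩ := LWJ_ivt' hΛ0 (2 * B) hstep hsign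
  -- the final estimate
  have hρB : ρ ≤ B := by
    have h5 : 1 ≤ 192 * K * (127 * E) ^ 3 := Nat.one_le_iff_ne_zero.2 (by positivity)
    have h6 : 1 * (ρ + 1) ≤ 192 * K * (127 * E) ^ 3 * (ρ + 1) := Nat.mul_le_mul_right _ h5
    omega
  have hρ' : 192 * (K : ℤ) * D ^ 3 * (ρ + 1) ≤ B := by
    rw [hDdef]
    exact_mod_cast hρ
  have hfin : (K : ℤ) * (Λ * (ρ + 1)) ≤ A * s ^ 3 := by
    have hD3 : 0 < D ^ 3 := by positivity
    refine le_of_mul_le_mul_left ?_ hD3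
    calc D ^ 3 * ((K : ℤ) * (Λ * (ρ + 1))) =
          ((A : ℤ) * (B : ℤ) ^ 2) * (192 * (K : ℤ) * D ^ 3 * (ρ + 1)) := by
          rw [hΛ]; ring
      _ ≤ ((A : ℤ) * (B : ℤ) ^ 2) * B := mul_le_mul_of_nonneg_left hρ' (by positivity)
      _ = A * (B : ℤ) ^ 3 := by ring
      _ ≤ A * (D * s) ^ 3 := mul_le_mul_of_nonneg_left (pow_le_pow_left₀ (by linarith) h1 3)
          (by linarith)
      _ = D ^ 3 * (A * s ^ 3) := by ring
  have hall : ∀ z : ℤ, -(B : ℤ) ≤ z → z ≤ B → z ≤ -(B : ℤ) + m + ρ → -(B : ℤ) + m ≤ z + ρ →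
      (K : ℤ) * |ev a ![z, s, t, r]| ≤ A * s ^ 3 := by
    intro z hz1 hz2 hz3 hz4
    obtain ⟨k, hk⟩ := Int.eq_ofNat_of_zero_le (show 0 ≤ z + B by linarith)
    have hzk : z = -(B : ℤ) + k := by linarith
    have hk2 : k ≤ 2 * B := by
      have : (k : ℤ) ≤ 2 * B := by linarith
      exact_mod_cast this
    have h5 : k ≤ m + ρ := by
      have : (k : ℤ) ≤ m + ρ := by linarith
      exact_mod_cast this
    have h6 : m ≤ k + ρ := by
      have : (m : ℤ) ≤ k + ρ := by linarith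
      exact_mod_cast this
    have h7 := LWJ_dist hΛ0 hstep hm hk2 h5 h6 hgm
    have h8 : ev a ![z, s, t, r] = g k := by rw [hzk]
    rw [h8]
    exact (mul_le_mul_of_nonneg_left h7 (by linarith)).trans hfin
  have hm' : (m : ℤ) ≤ 2 * B := by exact_mod_cast hm
  have hρB' : (ρ : ℤ) ≤ B := by exact_mod_cast hρB
  have hρ0 : (0 : ℤ) ≤ ρ := Nat.cast_nonneg ρ
  have hm0 : (0 : ℤ) ≤ m := Nat.cast_nonneg m
  by_cases hz : -(B : ℤ) + m ≤ 0
  · refine ⟨-(B : ℤ) + m, by linarith, by linarith, fun z hz1 hz2 => ?_⟩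
    exact hall z (by linarith) (by linarith) (by linarith) (by linarith)
  · push Not at hz
    refine ⟨-(B : ℤ) + m - ρ, by linarith, by linarith, fun z hz1 hz2 => ?_⟩
    exact hall z (by linarith) (by linarith) (by linarith) (by linarith)

end Pool.Agent.Lib.MP_1ad228_ntC
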