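import Pool.Agent.Lib.MP_1ad228_ntC.LW_Pair

/-!
JOB LW_Mu.  Upper bound for the number of allowed values; WW.

PROOF.  `muLe`: `MS W K A x` is contained in `(Finset.Ioc (-T-1) T).filter (W ∣ m)` with `T = ⌊A x_1³ / K⌋`
(integer division; if `K |m| ≤ A x_1³` then `|m| ≤ T`), so by `classLe` its cardinality is at most
`(2T + 1)/W + 1 ≤ 2 A x_1³/(K W) + 2`; multiply by `K W`.
`muPos`: `0` is an element (`x 1 ≥ 0`).
`WW_prime`: `p^w` is a factor of the product and `w ≠ 0`. `WW_one_le`: product of positive numbers.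
-/

namespace Pool.Agent.Lib.MP_1ad228_ntC

open Classical

theorem muLe (W K A : ℕ) (hW : 1 ≤ W) (hK : 1 ≤ K) (x : Fin 4 → ℤ) (hx : 0 ≤ x 1) :
    ((MS W K A x).card : ℝ) * (K * W) ≤ 2 * A * (x 1 : ℝ) ^ 3 + 2 * (K * W) := by
  have hK0 : (0 : ℤ) < (K : ℤ) := by exact_mod_cast hK
  have hW0 : (0 : ℤ) < (W : ℤ) := by exact_mod_cast hW
  have hX : (0 : ℤ) ≤ (A : ℤ) * (x 1) ^ 3 := mul_nonneg (Int.natCast_nonneg A) (pow_nonneg hx 3)
  -- the number of multiples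
  have hcard : ((MS W K A x).card : ℤ) * (K * W) ≤ 2 * (A * (x 1) ^ 3) + 1 * (K * W) := by
    obtain ⟨q, hq⟩ : ∃ q : ℕ, (q : ℤ) = ((A : ℤ) * (x 1) ^ 3) / (K * W) :=
      ⟨(((A : ℤ) * (x 1) ^ 3) / (K * W)).toNat, Int.toNat_of_nonneg (Int.ediv_nonneg hX (by positivity))⟩
    have hsub : MS W K A x ⊆ (Finset.Icc (-(q : ℤ)) (q : ℤ)).image fun t => (W : ℤ) * t := by
      intro m hm
      have hm' := Finset.mem_filter.1 hm
      obtain ⟨t, ht⟩ := hm'.2.1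
      have h2 := hm'.2.2
      rw [Finset.mem_image]
      refine ⟨t, ?_, ht.symm⟩
      rw [Finset.mem_Icc, ← abs_le, hq]
      rw [ht, abs_mul, abs_of_pos hW0, ← mul_assoc] at h2
      rw [Int.le_ediv_iff_mul_le (by positivity), mul_comm]
      exact h2
    have h3 := (Finset.card_le_card hsub).trans Finset.card_image_le
    rw [Int.card_Icc] at h3
    have h4 : ((q : ℤ) + 1 - -(q : ℤ)).toNat = 2 * q + 1 := by omega
    rw [h4] at h3
    have h5 : (q : ℤ) * (K * W) ≤ (A : ℤ) * (x 1) ^ 3 := by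
      rw [hq]
      exact Int.ediv_mul_le _ (by positivity)
    have h6 : ((MS W K A x).card : ℤ) ≤ 2 * q + 1 := by exact_mod_cast h3
    have h7 : (0 : ℤ) ≤ (K : ℤ) * W := by positivity
    calc ((MS W K A x).card : ℤ) * (K * W) ≤ (2 * q + 1) * (K * W) :=
          mul_le_mul_of_nonneg_right h6 h7
      _ = 2 * (q * (K * W)) + 1 * (K * W) := by ring
      _ ≤ 2 * (A * (x 1) ^ 3) + 1 * (K * W) := by linarith
  have h8 : ((MS W K A x).card : ℝ) * (K * W) ≤ 2 * (A * (x 1 : ℝ) ^ 3) + 1 * (K * W) := by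
    exact_mod_cast hcard
  have h9 : (0 : ℝ) ≤ (K : ℝ) * W := by positivity
  linarith

theorem muPos (W K A : ℕ) (x : Fin 4 → ℤ) (hx : 0 ≤ x 1) : 1 ≤ (MS W K A x).card := by
  have hX : (0 : ℤ) ≤ (A : ℤ) * (x 1) ^ 3 := mul_nonneg (Int.natCast_nonneg A) (pow_nonneg hx 3)
  have h0 : (0 : ℤ) ∈ MS W K A x := by
    unfold MS
    rw [Finset.mem_filter, Finset.mem_Icc]
    refine ⟨⟨by linarith, hX⟩, dvd_zero _, ?_⟩
    rw [abs_zero, mul_zero]
    exact hX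
  exact Finset.card_pos.2 ⟨0, h0⟩

theorem WW_prime (w p : ℕ) (hp : p.Prime) (hpw : p ≤ w) : p ∣ WW w := by
  have hw : w ≠ 0 := by
    have := hp.pos
    omega
  have h1 : p ^ w ∣ WW w := Finset.dvd_prod_of_mem (fun p => p ^ w)
    (Finset.mem_filter.2 ⟨Finset.mem_range.2 (by omega), hp⟩)
  exact (dvd_pow_self p hw).trans h1

theorem WW_one_le (w : ℕ) : 1 ≤ WW w := by
  unfold WW
  refine Nat.succ_le_of_lt (Finset.prod_pos fun p hp => ?_)
  exact pow_pos (Finset.mem_filter.1 hp).2.pos w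

end Pool.Agent.Lib.MP_1ad228_ntC
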