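import Pool.Agent.Lib.MP_1ad228_ntC.BadX
import Pool.Agent.Lib.MP_1ad228_ntC.LW_Count
import Pool.Agent.Lib.MP_1ad228_ntC.LW_Mu
import Pool.Agent.Lib.MP_1ad228_ntC.LW_Jint

namespace Pool.Agent.Lib.MP_1ad228_ntC

open Classical

theorem lowCount (q w B ρ : ℕ) (a : Ten ℤ) (j : ℤ → ℤ → ℤ → ℤ) (hW : 1 ≤ WW w)
    (hcl : ∀ x0 : Fin 4 → ZMod (WW w), Uni x0 →
      (B : ℝ) ^ 3 * ρ ≤ (q : ℝ) ^ 3 * (WW w : ℝ) ^ 4 *
      (((VBox B).filter fun x => (B : ℤ) ≤ (q : ℤ) * x 1 ∧ (q : ℤ) * x 1 ≤ 2 * B ∧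
        (q : ℤ) * |x 2| ≤ 2 * B ∧
        (q : ℤ) * |x 3| ≤ 2 * B ∧ j (x 1) (x 2) (x 3) ≤ x 0 ∧ x 0 ≤ j (x 1) (x 2) (x 3) + ρ ∧
        Uni x ∧ cv (ZMod (WW w)) x = x0).card : ℝ)) :
    (sm (WW w) (ct (ZMod (WW w)) a) : ℝ) * ((B : ℝ) ^ 3 * ρ) ≤ (q : ℝ) ^ 3 * (WW w : ℝ) ^ 4 *
      (((VBox B).filter fun x => (B : ℤ) ≤ (q : ℤ) * x 1 ∧ (q : ℤ) * x 1 ≤ 2 * B ∧
        (q : ℤ) * |x 2| ≤ 2 * B ∧
        (q : ℤ) * |x 3| ≤ 2 * B ∧ j (x 1) (x 2) (x 3) ≤ x 0 ∧ x 0 ≤ j (x 1) (x 2) (x 3) + ρ ∧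
        Uni x ∧ ((WW w : ℕ) : ℤ) ∣ ev a x).card : ℝ) := by
  set W : ℕ := WW w with hWdef
  have : NeZero W := ⟨by omega⟩
  set Z : Finset (Fin 4 → ZMod W) :=
    Finset.univ.filter (fun x => Uni x ∧ ev (ct (ZMod W) a) x = 0) with hZ
  have hs : sm W (ct (ZMod W) a) = Z.card := by
    unfold sm
    rw [Nat.card_eq_fintype_card, Fintype.card_subtype]
  set T : (Fin 4 → ZMod W) → Finset (Fin 4 → ℤ) := fun x0 =>
    (VBox B).filter fun x => (B : ℤ) ≤ (q : ℤ) * x 1 ∧ (q : ℤ) * x 1 ≤ 2 * B ∧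
        (q : ℤ) * |x 2| ≤ 2 * B ∧
        (q : ℤ) * |x 3| ≤ 2 * B ∧ j (x 1) (x 2) (x 3) ≤ x 0 ∧ x 0 ≤ j (x 1) (x 2) (x 3) + ρ ∧
        Uni x ∧ cv (ZMod W) x = x0 with hT
  have hsub : Z.biUnion T ⊆ (VBox B).filter fun x => (B : ℤ) ≤ (q : ℤ) * x 1 ∧
        (q : ℤ) * x 1 ≤ 2 * B ∧ (q : ℤ) * |x 2| ≤ 2 * B ∧
        (q : ℤ) * |x 3| ≤ 2 * B ∧ j (x 1) (x 2) (x 3) ≤ x 0 ∧ x 0 ≤ j (x 1) (x 2) (x 3) + ρ ∧
        Uni x ∧ (W : ℤ) ∣ ev a x := by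
    intro x hx
    rw [Finset.mem_biUnion] at hx
    obtain ⟨x0, hx0, hx⟩ := hx
    rw [hT] at hx
    rw [Finset.mem_filter] at hx
    rw [hZ, Finset.mem_filter] at hx0
    rw [Finset.mem_filter]
    refine ⟨hx.1, hx.2.1, hx.2.2.1, hx.2.2.2.1, hx.2.2.2.2.1, hx.2.2.2.2.2.1, hx.2.2.2.2.2.2.1,
      hx.2.2.2.2.2.2.2.1, ?_⟩
    have h := hx0.2.2
    rw [← hx.2.2.2.2.2.2.2.2, ev_ct] at h
    exact (ZMod.intCast_zmod_eq_zero_iff_dvd _ _).1 h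
  have hdis : ∀ x ∈ Z, ∀ y ∈ Z, x ≠ y → Disjoint (T x) (T y) := by
    intro x _ y _ hxy
    rw [Finset.disjoint_left]
    intro z hz hz'
    rw [hT] at hz hz'
    rw [Finset.mem_filter] at hz hz'
    exact hxy (hz.2.2.2.2.2.2.2.2.symm.trans hz'.2.2.2.2.2.2.2.2)
  have hcard : ∑ x0 ∈ Z, ((T x0).card : ℝ) ≤ (((VBox B).filter fun x => (B : ℤ) ≤ (q : ℤ) * x 1 ∧
        (q : ℤ) * x 1 ≤ 2 * B ∧ (q : ℤ) * |x 2| ≤ 2 * B ∧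
        (q : ℤ) * |x 3| ≤ 2 * B ∧ j (x 1) (x 2) (x 3) ≤ x 0 ∧ x 0 ≤ j (x 1) (x 2) (x 3) + ρ ∧
        Uni x ∧ (W : ℤ) ∣ ev a x).card : ℝ) := by
    have h1 := Finset.card_le_card hsub
    rw [Finset.card_biUnion hdis] at h1
    exact_mod_cast h1
  have hpos : (0 : ℝ) ≤ (q : ℝ) ^ 3 * (W : ℝ) ^ 4 := by positivity
  refine le_trans ?_ (mul_le_mul_of_nonneg_left hcard hpos)
  rw [hs, Finset.mul_sum, ← nsmul_eq_mul]
  refine Finset.card_nsmul_le_sum _ _ _ ?_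
  intro x0 hx0
  rw [hZ, Finset.mem_filter] at hx0
  exact hcl x0 hx0.2.1

theorem eta4 (x : Fin 4 → ℤ) : ![x 0, x 1, x 2, x 3] = x := by
  funext i
  fin_cases i <;> rfl

/-- paper section 7. -/
theorem low (E : ℕ) (hE : 1 ≤ E) : ∃ c : ℝ, 0 < c ∧ ∀ w K : ℕ, 6 ≤ w → 1 ≤ K →
    ∀ η : ℝ, 0 < η → ∃ g0 : ℕ, ∀ g ≥ g0, ∀ A : ℕ, 1 ≤ A → ∀ a ∈ Box A,
      (A : ℤ) ≤ E * |a 0 0 0| →
      ((g : ℝ) ^ 16 / A) * (c * (sm (WW w) (ct (ZMod (WW w)) a) : ℝ) / (WW w : ℝ) ^ 3 - η)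
        ≤ Ll g (127 * E) (WW w) K A a := by
  have hq1 : 127 ≤ 127 * E := by omega
  have hqr : (0 : ℝ) < ((127 * E : ℕ) : ℝ) := by exact_mod_cast (by omega : 0 < 127 * E)
  refine ⟨1 / (6912 * ((127 * E : ℕ) : ℝ) ^ 3), by positivity, ?_⟩
  intro w K hw hK η hη
  have hW1 : 1 ≤ WW w := WW_one_le w
  obtain ⟨B0, hB0⟩ := countCl (127 * E) w (by omega) hw
  obtain ⟨n1, hn1⟩ := exists_nat_ge
    (5 * 10 ^ 7 * K * (WW w : ℝ) * ((127 * E : ℕ) : ℝ) ^ 3 / (18 * η))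
  set q : ℕ := 127 * E with hqdef
  set W : ℕ := WW w with hWdef
  refine ⟨100 + B0 + n1 + 192 * K * q ^ 3 * (2 * W + 4), ?_⟩
  intro g hg A hA a ha h0
  have hg100 : 100 ≤ g := by omega
  have hgB : g ≤ g ^ 16 := by
    calc g = g ^ 1 := (pow_one g).symm
      _ ≤ g ^ 16 := Nat.pow_le_pow_right (by omega) (by norm_num)
  have hgB3 : g ≤ (g ^ 16) ^ 3 := by
    calc g = g ^ 1 := (pow_one g).symm
      _ ≤ g ^ 48 := Nat.pow_le_pow_right (by omega) (by norm_num)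
      _ = (g ^ 16) ^ 3 := by ring
  set B : ℕ := g ^ 16 with hBdef
  have hκ : 0 < 192 * K * q ^ 3 := by positivity
  set m : ℕ := B / (192 * K * q ^ 3) with hm
  have hm1 : 192 * K * q ^ 3 * m ≤ B := Nat.mul_div_le _ _
  have hm2 : B < 192 * K * q ^ 3 * (m + 1) := Nat.lt_mul_div_succ B hκ
  have hm3 : 2 * W + 4 ≤ m := by
    rw [hm, Nat.le_div_iff_mul_le hκ]
    calc (2 * W + 4) * (192 * K * q ^ 3) = 192 * K * q ^ 3 * (2 * W + 4) := by ring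
      _ ≤ g := by omega
      _ ≤ B := hgB
  obtain ⟨ρ, hρ⟩ : ∃ ρ : ℕ, m = ρ + 1 := ⟨m - 1, by omega⟩
  have hρW : 2 * W ≤ ρ := by omega
  have hBρ : B ≤ 384 * K * q ^ 3 * ρ := by
    have h1 : m + 1 ≤ 2 * ρ := by omega
    calc B ≤ 192 * K * q ^ 3 * (m + 1) := hm2.le
      _ ≤ 192 * K * q ^ 3 * (2 * ρ) := Nat.mul_le_mul_left _ h1
      _ = 384 * K * q ^ 3 * ρ := by ring
  -- the intervals
  have hj : ∀ s t r : ℤ, ∃ j : ℤ, ((B : ℤ) ≤ (q : ℤ) * s → (q : ℤ) * s ≤ 2 * B →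
      (q : ℤ) * |t| ≤ 2 * B → (q : ℤ) * |r| ≤ 2 * B →
      (-(B : ℤ) ≤ j ∧ j + ρ ≤ B ∧ ∀ z : ℤ, j ≤ z → z ≤ j + ρ →
        (K : ℤ) * |ev a ![z, s, t, r]| ≤ A * s ^ 3)) := by
    intro s t r
    by_cases hh : (B : ℤ) ≤ (q : ℤ) * s ∧ (q : ℤ) * s ≤ 2 * B ∧ (q : ℤ) * |t| ≤ 2 * B ∧
        (q : ℤ) * |r| ≤ 2 * B
    · obtain ⟨j, hj1, hj2, hj3⟩ := jint E K B ρ A hE hK hA (by omega)
        (by
          rw [← hρ]
          exact hm1) a ha h0 s t r hh.1 hh.2.1 hh.2.2.1 hh.2.2.2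
      exact ⟨j, fun _ _ _ _ => ⟨hj1, hj2, hj3⟩⟩
    · exact ⟨0, fun h1 h2 h3 h4 => absurd ⟨h1, h2, h3, h4⟩ hh⟩
  choose j hj using hj
  have hcl := hB0 B (by omega) ρ hρW j (fun s t r h1 h2 h3 h4 =>
    ⟨(hj s t r h1 h2 h3 h4).1, (hj s t r h1 h2 h3 h4).2.1⟩)
  have hcount := lowCount q w B ρ a j hW1 hcl
  rw [← hWdef] at hcount
  set T := (VBox B).filter fun x => (B : ℤ) ≤ (q : ℤ) * x 1 ∧ (q : ℤ) * x 1 ≤ 2 * B ∧
        (q : ℤ) * |x 2| ≤ 2 * B ∧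
        (q : ℤ) * |x 3| ≤ 2 * B ∧ j (x 1) (x 2) (x 3) ≤ x 0 ∧ x 0 ≤ j (x 1) (x 2) (x 3) + ρ ∧
        Uni x ∧ (W : ℤ) ∣ ev a x with hT
  set s : ℝ := (sm W (ct (ZMod W) a) : ℝ) with hs
  have hs0 : 0 ≤ s := by rw [hs]; positivity
  have hWr : (1 : ℝ) ≤ (W : ℝ) := by exact_mod_cast hW1
  have hKr : (1 : ℝ) ≤ (K : ℝ) := by exact_mod_cast hK
  have hAr : (1 : ℝ) ≤ (A : ℝ) := by exact_mod_cast hA
  have hBr : (0 : ℝ) < (B : ℝ) := by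
    have : 0 < B := by omega
    exact_mod_cast this
  have hgr : (0 : ℝ) < (g : ℝ) := by
    have : 0 < g := by omega
    exact_mod_cast this
  -- T is large
  have hTbig : s * (B : ℝ) ^ 4 ≤ 384 * K * (q : ℝ) ^ 6 * (W : ℝ) ^ 4 * (T.card : ℝ) := by
    have h1 : (B : ℝ) ≤ 384 * K * (q : ℝ) ^ 3 * ρ := by
      have h := (Nat.cast_le (α := ℝ)).2 hBρ
      push_cast at h
      exact h
    calc s * (B : ℝ) ^ 4 = s * (B : ℝ) ^ 3 * B := by ring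
      _ ≤ s * (B : ℝ) ^ 3 * (384 * K * (q : ℝ) ^ 3 * ρ) :=
          mul_le_mul_of_nonneg_left h1 (by positivity)
      _ = 384 * K * (q : ℝ) ^ 3 * (s * ((B : ℝ) ^ 3 * ρ)) := by ring
      _ ≤ 384 * K * (q : ℝ) ^ 3 * ((q : ℝ) ^ 3 * (W : ℝ) ^ 4 * (T.card : ℝ)) :=
          mul_le_mul_of_nonneg_left hcount (by positivity)
      _ = 384 * K * (q : ℝ) ^ 6 * (W : ℝ) ^ 4 * (T.card : ℝ) := by ring
  have hsplit : T.card = (T.filter fun x => HGood (g ^ 6) x).card +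
      (T.filter fun x => ¬ HGood (g ^ 6) x).card := by
    rw [Finset.card_filter_add_card_filter_not]
  have hbad : (T.filter fun x => ¬ HGood (g ^ 6) x).card ≤ 5 * 10 ^ 7 * g ^ 63 := by
    refine le_trans (Finset.card_le_card ?_) (badX g hg100)
    intro x hx
    rw [Finset.mem_filter, hT, Finset.mem_filter] at hx
    rw [Finset.mem_filter]
    exact ⟨hx.1.1, hx.2⟩
  set G := T.filter fun x => HGood (g ^ 6) x with hG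
  have hGbig : (T.card : ℝ) ≤ (G.card : ℝ) + 5 * 10 ^ 7 * (g : ℝ) ^ 63 := by
    have : T.card ≤ G.card + 5 * 10 ^ 7 * g ^ 63 := by omega
    exact_mod_cast this
  have hGsub : G ⊆ (GG g q).filter (fun x => Loc W K A a x) := by
    intro x hx
    rw [hG, Finset.mem_filter, hT, Finset.mem_filter] at hx
    obtain ⟨⟨hx0, hx1, hx2, hx3, hx4, hx5, hx6, hx7, hx8⟩, hx9⟩ := hx
    rw [Finset.mem_filter, GG, Finset.mem_filter]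
    refine ⟨⟨hx0, ?_, hx7, hx9⟩, hx8, ?_⟩
    · rw [hBdef] at hx1
      push_cast at hx1 ⊢
      exact hx1
    · have h := (hj _ _ _ hx1 hx2 hx3 hx4).2.2 (x 0) hx5 hx6
      rw [eta4] at h
      exact h
  -- lower bound for each term
  have hterm : ∀ x ∈ G, (K * W * (q : ℝ) ^ 3 / (18 * A * (B : ℝ) ^ 3)) ≤
      1 / ((MS W K A x).card : ℝ) := by
    intro x hx
    rw [hG, Finset.mem_filter, hT, Finset.mem_filter] at hx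
    obtain ⟨⟨hx0, hx1, hx2, -⟩, -⟩ := hx
    have hx1pos : 0 ≤ x 1 := by
      by_contra hneg
      push Not at hneg
      have h1 : (q : ℤ) * x 1 ≤ 0 :=
        mul_nonpos_of_nonneg_of_nonpos (Int.natCast_nonneg _) hneg.le
      have h2 : (0 : ℤ) < (B : ℤ) := by exact_mod_cast hBr
      omega
    have hmu1 : (1 : ℝ) ≤ ((MS W K A x).card : ℝ) := by exact_mod_cast muPos W K A x hx1pos
    have hmu := muLe W K A hW1 hK x hx1pos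
    have hx2r : (q : ℝ) * (x 1 : ℝ) ≤ 2 * (B : ℝ) := by exact_mod_cast hx2
    have hx1r : (0 : ℝ) ≤ (x 1 : ℝ) := by exact_mod_cast hx1pos
    have hcube : ((q : ℝ) * (x 1 : ℝ)) ^ 3 ≤ (2 * (B : ℝ)) ^ 3 :=
      pow_le_pow_left₀ (by positivity) hx2r 3
    have hsm : (K : ℝ) * W * (q : ℝ) ^ 3 ≤ A * (B : ℝ) ^ 3 := by
      have h1 : K * W * q ^ 3 ≤ B ^ 3 := by
        refine le_trans ?_ hgB3
        have : K * W * q ^ 3 ≤ 192 * K * q ^ 3 * (2 * W + 4) := by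
          calc K * W * q ^ 3 = 1 * K * q ^ 3 * W := by ring
            _ ≤ 192 * K * q ^ 3 * (2 * W + 4) := by gcongr <;> omega
        omega
      calc (K : ℝ) * W * (q : ℝ) ^ 3 ≤ 1 * (B : ℝ) ^ 3 := by rw [one_mul]; exact_mod_cast h1
        _ ≤ A * (B : ℝ) ^ 3 := mul_le_mul_of_nonneg_right hAr (by positivity)
    rw [div_le_div_iff₀ (by positivity) (by positivity)]
    have h3 : ((MS W K A x).card : ℝ) * (K * W) * (q : ℝ) ^ 3 ≤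
        (2 * A * (x 1 : ℝ) ^ 3 + 2 * (K * W)) * (q : ℝ) ^ 3 :=
      mul_le_mul_of_nonneg_right hmu (by positivity)
    have h4 : (2 * A * (x 1 : ℝ) ^ 3 + 2 * (K * W)) * (q : ℝ) ^ 3 ≤ 18 * A * (B : ℝ) ^ 3 := by
      have e1 : (2 * A * (x 1 : ℝ) ^ 3 + 2 * (K * W)) * (q : ℝ) ^ 3 =
          2 * A * ((q : ℝ) * (x 1 : ℝ)) ^ 3 + 2 * (K * W * (q : ℝ) ^ 3) := by ring
      rw [e1]
      have h5 : 2 * (A : ℝ) * ((q : ℝ) * (x 1 : ℝ)) ^ 3 ≤ 2 * (A : ℝ) * (2 * (B : ℝ)) ^ 3 :=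
        mul_le_mul_of_nonneg_left hcube (by positivity)
      nlinarith [h5, hsm]
    calc (K : ℝ) * W * (q : ℝ) ^ 3 * ((MS W K A x).card : ℝ)
        = ((MS W K A x).card : ℝ) * (K * W) * (q : ℝ) ^ 3 := by ring
      _ ≤ 18 * A * (B : ℝ) ^ 3 := h3.trans h4
      _ = 1 * (18 * A * (B : ℝ) ^ 3) := by ring
  have hL : (G.card : ℝ) * (K * W * (q : ℝ) ^ 3 / (18 * A * (B : ℝ) ^ 3)) ≤ Ll g q W K A a := by
    unfold Ll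
    calc (G.card : ℝ) * (K * W * (q : ℝ) ^ 3 / (18 * A * (B : ℝ) ^ 3))
        ≤ ∑ x ∈ G, 1 / ((MS W K A x).card : ℝ) := by
          rw [← nsmul_eq_mul]
          exact Finset.card_nsmul_le_sum _ _ _ hterm
      _ ≤ _ := Finset.sum_le_sum_of_subset_of_nonneg hGsub (fun x _ _ => by positivity)
  refine le_trans ?_ hL
  -- final computation
  have hBg : (B : ℝ) = (g : ℝ) ^ 16 := by rw [hBdef]; push_cast; ring
  rw [← hBg]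
  have hq0 : (0 : ℝ) < (q : ℝ) := hqr
  have hW0 : (0 : ℝ) < (W : ℝ) := by linarith
  have hK0 : (0 : ℝ) < (K : ℝ) := by linarith
  have hA0 : (0 : ℝ) < (A : ℝ) := by linarith
  have e1 : (B : ℝ) / A * (1 / (6912 * (q : ℝ) ^ 3) * s / (W : ℝ) ^ 3 - η) =
      (s * (B : ℝ) ^ 4 / (384 * K * (q : ℝ) ^ 6 * (W : ℝ) ^ 4) - 18 * η * (B : ℝ) ^ 4 / (K * W * (q : ℝ) ^ 3)) *
        (K * W * (q : ℝ) ^ 3 / (18 * A * (B : ℝ) ^ 3)) := by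
    field_simp
    ring
  rw [e1]
  refine mul_le_mul_of_nonneg_right ?_ (by positivity)
  have h6 : s * (B : ℝ) ^ 4 / (384 * K * (q : ℝ) ^ 6 * (W : ℝ) ^ 4) ≤ (T.card : ℝ) := by
    rw [div_le_iff₀ (by positivity)]
    linarith [hTbig]
  have h7 : 5 * 10 ^ 7 * (g : ℝ) ^ 63 ≤ 18 * η * (B : ℝ) ^ 4 / (K * W * (q : ℝ) ^ 3) := by
    rw [le_div_iff₀ (by positivity)]
    have h8 : 5 * 10 ^ 7 * K * (W : ℝ) * (q : ℝ) ^ 3 ≤ (g : ℝ) * (18 * η) := by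
      rw [div_le_iff₀ (by positivity)] at hn1
      have hn : (n1 : ℝ) ≤ (g : ℝ) := by exact_mod_cast (by omega : n1 ≤ g)
      calc 5 * 10 ^ 7 * K * (W : ℝ) * (q : ℝ) ^ 3 ≤ (n1 : ℝ) * (18 * η) := hn1
        _ ≤ (g : ℝ) * (18 * η) := mul_le_mul_of_nonneg_right hn (by positivity)
    have e2 : 18 * η * (B : ℝ) ^ 4 = (g : ℝ) * (18 * η) * (g : ℝ) ^ 63 := by rw [hBg]; ring
    rw [e2]
    calc 5 * 10 ^ 7 * (g : ℝ) ^ 63 * (K * W * (q : ℝ) ^ 3)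
        = 5 * 10 ^ 7 * K * (W : ℝ) * (q : ℝ) ^ 3 * (g : ℝ) ^ 63 := by ring
      _ ≤ (g : ℝ) * (18 * η) * (g : ℝ) ^ 63 := mul_le_mul_of_nonneg_right h8 (by positivity)
  linarith [hGbig, h6, h7]

end Pool.Agent.Lib.MP_1ad228_ntC
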