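import Pool.Agent.Lib.MP_1ad228_ntC.Psi
import Pool.Agent.Lib.MP_1ad228_ntC.GGfacts

/-!
JOB MainParts.  Four small lemmas for the assembly.

PROOF.
`smallE`: the tensors of `Box A` with `E |a_000| < A`: the entry `a_000` has at most `2A/E + 1` values, i.e. at most
`(1/E + 1/(2A+1)) (2A+1) ≤ (2/E) (2A+1)` values when `2A + 1 ≥ E` (integers `z` with `E |z| < A`: at most
`2 * (A / E) + 1` (natural division) of them), and the other 63 entries `2A+1` each. (E.g. map
`a ↦ (a 0 0 0, a)`; fibres of `a ↦ a 0 0 0` on `Box A` have exactly `(2A+1)^63` elements: injection of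
`{a ∈ Box A, E |a_000| < A} × Icc (-A) A` into `{z, E|z| < A} × Box A`,
`(a, t) ↦ (a_000, a with entry 000 replaced by t)`.)
`cheb`: every term of `Vq` is nonnegative (`psi_nonneg`); for `a ∈ Box A` (a subset of `Box (2A)`) with
`Nn g q a = 0` and `t ≤ Ll g q W K A a`, `t ≥ 0`: the term is at least `(1/2) t^2` (`psi_half`).
`chooseG`: `g` = the largest natural number with `g^16 ≤ M A`; `(g+1)^16 ≤ 2^16 g^16` for `g ≥ 1`; `g → ∞` as
`A → ∞`.
`dvd_WW`: for `1 ≤ m ≤ w` every prime power `p^v` exactly dividing `m` has `p ≤ w`, `v ≤ w`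
(`p^v ≤ m ≤ w < 2^w`), so `m ∣ WW w` (`Nat.factorization` or `Finset.prod` over the prime factors).
-/

namespace Pool.Agent.Lib.MP_1ad228_ntC

open Classical

private theorem MainParts_inj (E A : ℕ) :
    ((Box A).filter fun a => (E : ℤ) * |a 0 0 0| < (A : ℤ)).card * (2 * A + 1) ≤
      ((Finset.Icc (-(A : ℤ)) A).filter fun z => (E : ℤ) * |z| < (A : ℤ)).card * (2 * A + 1) ^ 64 := by
  have hI : (Finset.Icc (-(A : ℤ)) A).card = 2 * A + 1 := by
    rw [Int.card_Icc]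
    omega
  rw [← card_Box A, ← Finset.card_product, ← hI, ← Finset.card_product]
  apply Finset.card_le_card_of_injOn
    (fun p : Ten ℤ × ℤ => (p.1 0 0 0, fun i j k => if i = 0 ∧ j = 0 ∧ k = 0 then p.2 else p.1 i j k))
  · intro p hp
    rw [Finset.mem_coe, Finset.mem_product, Finset.mem_filter, mem_Box, Finset.mem_Icc] at hp
    rw [Finset.mem_coe, Finset.mem_product, Finset.mem_filter, mem_Box, Finset.mem_Icc]
    refine ⟨⟨abs_le.1 (hp.1.1 0 0 0), hp.1.2⟩, ?_⟩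
    intro i j k
    by_cases h : i = 0 ∧ j = 0 ∧ k = 0
    · simp only [h, and_self, if_true]
      exact abs_le.2 hp.2
    · simp only [h, if_false]
      exact hp.1.1 i j k
  · intro p hp p' hp' heq
    have h1 : p.1 0 0 0 = p'.1 0 0 0 := congrArg Prod.fst heq
    have h2 := congrArg Prod.snd heq
    have h3 : p.2 = p'.2 := by
      have := congrFun (congrFun (congrFun h2 0) 0) 0
      simpa using this
    refine Prod.ext ?_ h3
    funext i j k
    by_cases h : i = 0 ∧ j = 0 ∧ k = 0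
    · obtain ⟨rfl, rfl, rfl⟩ := h
      exact h1
    · have := congrFun (congrFun (congrFun h2 i) j) k
      simpa only [h, if_false] using this

private theorem MainParts_Z (E A : ℕ) (hE : 1 ≤ E) :
    (((Finset.Icc (-(A : ℤ)) A).filter fun z => (E : ℤ) * |z| < (A : ℤ)).card : ℝ) ≤ 2 * (A : ℝ) / E + 1 := by
  have hsub : ((Finset.Icc (-(A : ℤ)) A).filter fun z => (E : ℤ) * |z| < (A : ℤ)) ⊆
      Finset.Icc (-((A / E : ℕ) : ℤ)) ((A / E : ℕ) : ℤ) := by
    intro z hz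
    rw [Finset.mem_filter] at hz
    rw [Finset.mem_Icc, ← abs_le]
    have h1 : E * z.natAbs < A := by
      have := hz.2
      rw [← Int.natCast_natAbs] at this
      exact_mod_cast this
    have h2 : z.natAbs ≤ A / E := by
      rw [Nat.le_div_iff_mul_le (by omega)]
      rw [mul_comm]
      exact h1.le
    rw [← Int.natCast_natAbs]
    exact_mod_cast h2
  have h1 := Finset.card_le_card hsub
  rw [Int.card_Icc] at h1
  have h2 : (((A / E : ℕ) : ℤ) + 1 - -((A / E : ℕ) : ℤ)).toNat = 2 * (A / E) + 1 := by omega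
  rw [h2] at h1
  have h3 : (((Finset.Icc (-(A : ℤ)) A).filter fun z => (E : ℤ) * |z| < (A : ℤ)).card : ℝ) ≤
      2 * ((A / E : ℕ) : ℝ) + 1 := by exact_mod_cast h1
  have h4 : ((A / E : ℕ) : ℝ) ≤ (A : ℝ) / E := Nat.cast_div_le
  have h5 : 2 * (A : ℝ) / E = 2 * ((A : ℝ) / E) := by ring
  rw [h5]
  linarith

theorem smallE (E A : ℕ) (hE : 1 ≤ E) (hA : E ≤ 2 * A + 1) :
    (((Box A).filter fun a => (E : ℤ) * |a 0 0 0| < (A : ℤ)).card : ℝ) ≤
      2 / (E : ℝ) * (2 * (A : ℝ) + 1) ^ 64 := by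
  have h1 : (((Box A).filter fun a => (E : ℤ) * |a 0 0 0| < (A : ℤ)).card : ℝ) * (2 * (A : ℝ) + 1) ≤
      (((Finset.Icc (-(A : ℤ)) A).filter fun z => (E : ℤ) * |z| < (A : ℤ)).card : ℝ) * (2 * (A : ℝ) + 1) ^ 64 := by
    exact_mod_cast MainParts_inj E A
  have h2 := MainParts_Z E A hE
  have hE0 : (0 : ℝ) < E := by exact_mod_cast hE
  have hEA : (E : ℝ) ≤ 2 * (A : ℝ) + 1 := by exact_mod_cast hA
  have hA0 : (0 : ℝ) ≤ A := Nat.cast_nonneg _
  have h3 : 2 * (A : ℝ) / E + 1 ≤ 2 / (E : ℝ) * (2 * (A : ℝ) + 1) := by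
    rw [div_add_one hE0.ne', div_mul_eq_mul_div]
    apply div_le_div_of_nonneg_right _ hE0.le
    linarith
  have h4 : (((Box A).filter fun a => (E : ℤ) * |a 0 0 0| < (A : ℤ)).card : ℝ) * (2 * (A : ℝ) + 1) ≤
      (2 / (E : ℝ) * (2 * (A : ℝ) + 1) ^ 64) * (2 * (A : ℝ) + 1) := by
    refine h1.trans ?_
    refine (mul_le_mul_of_nonneg_right (h2.trans h3) (by positivity)).trans ?_
    apply le_of_eq
    ring
  exact le_of_mul_le_mul_right h4 (by positivity)

theorem cheb (g q W K A : ℕ) (hA : 1 ≤ A) (t : ℝ) (ht : 0 ≤ t) :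
    (((Box A).filter fun a => Nn g q a = 0 ∧ t ≤ Ll g q W K A a).card : ℝ) * (t ^ 2 / 2) ≤
      Vq g q W K A := by
  have hsub : ((Box A).filter fun a => Nn g q a = 0 ∧ t ≤ Ll g q W K A a) ⊆ Box (2 * A) := by
    intro a ha
    rw [Finset.mem_filter, mem_Box] at ha
    rw [mem_Box]
    intro i j k
    refine (ha.1 i j k).trans ?_
    push_cast
    omega
  unfold Vq
  calc (((Box A).filter fun a => Nn g q a = 0 ∧ t ≤ Ll g q W K A a).card : ℝ) * (t ^ 2 / 2)
      = ∑ _a ∈ (Box A).filter (fun a => Nn g q a = 0 ∧ t ≤ Ll g q W K A a), (t ^ 2 / 2) := by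
        rw [Finset.sum_const, nsmul_eq_mul]
    _ ≤ ∑ a ∈ (Box A).filter (fun a => Nn g q a = 0 ∧ t ≤ Ll g q W K A a),
        psi A a * ((Nn g q a : ℝ) - Ll g q W K A a) ^ 2 := by
        apply Finset.sum_le_sum
        intro a ha
        rw [Finset.mem_filter] at ha
        have h1 := psi_half hA ha.1
        rw [ha.2.1]
        have h2 : t ^ 2 ≤ (((0 : ℕ) : ℝ) - Ll g q W K A a) ^ 2 := by
          have h3 : (((0 : ℕ) : ℝ) - Ll g q W K A a) ^ 2 = (Ll g q W K A a) ^ 2 := by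
            rw [Nat.cast_zero]
            ring
          rw [h3]
          exact pow_le_pow_left₀ ht ha.2.2 2
        calc t ^ 2 / 2 = 1 / 2 * t ^ 2 := by ring
          _ ≤ psi A a * (((0 : ℕ) : ℝ) - Ll g q W K A a) ^ 2 :=
            mul_le_mul h1 h2 (by positivity) (psi_nonneg A a)
    _ ≤ ∑ a ∈ Box (2 * A), psi A a * ((Nn g q a : ℝ) - Ll g q W K A a) ^ 2 := by
        apply Finset.sum_le_sum_of_subset_of_nonneg hsub
        intro a _ _
        exact mul_nonneg (psi_nonneg A a) (sq_nonneg _)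

theorem chooseG (M g1 : ℕ) (hM : 1 ≤ M) : ∃ A0 : ℕ, ∀ A ≥ A0, ∃ g : ℕ, g1 ≤ g ∧ 1 ≤ g ∧
    g ^ 16 ≤ M * A ∧ M * A ≤ 2 ^ 16 * g ^ 16 := by
  refine ⟨(g1 + 1) ^ 16, fun A hA => ?_⟩
  have hMA : (g1 + 1) ^ 16 ≤ M * A := hA.trans (Nat.le_mul_of_pos_left A hM)
  have h1 : g1 + 1 ≤ M * A := (Nat.le_self_pow (by norm_num) (g1 + 1)).trans hMA
  have h2 := Nat.le_findGreatest (P := fun g => g ^ 16 ≤ M * A) h1 hMA
  have h3 := Nat.findGreatest_spec (P := fun g => g ^ 16 ≤ M * A) h1 hMA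
  have h4 : ∀ m, Nat.findGreatest (fun g => g ^ 16 ≤ M * A) (M * A) < m → m ≤ M * A → ¬ m ^ 16 ≤ M * A :=
    fun m hm hm' => Nat.findGreatest_is_greatest (P := fun g => g ^ 16 ≤ M * A) hm hm'
  generalize Nat.findGreatest (fun g => g ^ 16 ≤ M * A) (M * A) = g at h2 h3 h4
  refine ⟨g, by omega, by omega, h3, ?_⟩
  have h5 : M * A < (g + 1) ^ 16 := by
    by_cases h : g + 1 ≤ M * A
    · have := h4 (g + 1) (by omega) h
      omega
    · have := Nat.le_self_pow (n := 16) (by norm_num) (g + 1)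
      omega
  have h6 : (g + 1) ^ 16 ≤ (2 * g) ^ 16 := Nat.pow_le_pow_left (by omega) 16
  rw [mul_pow] at h6
  omega

theorem dvd_WW (w m : ℕ) (h1 : 1 ≤ m) (h2 : m ≤ w) : m ∣ WW w := by
  have h0 : m ≠ 0 := by omega
  have h3 : m = ∏ p ∈ m.primeFactors, p ^ m.factorization p := by
    conv_lhs => rw [← Nat.prod_factorization_pow_eq_self h0]
    rfl
  rw [h3]
  unfold WW
  refine (Finset.prod_dvd_prod_of_dvd _ (fun p => p ^ w) (fun p _ => ?_)).trans
    (Finset.prod_dvd_prod_of_subset _ _ _ ?_)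
  · exact pow_dvd_pow p ((Nat.factorization_lt p h0).le.trans h2)
  · intro p hp
    rw [Finset.mem_filter, Finset.mem_range]
    have hp1 := Nat.prime_of_mem_primeFactors hp
    have hp2 := Nat.le_of_mem_primeFactors hp
    exact ⟨by omega, hp1⟩

theorem WW_pos (w : ℕ) : 1 ≤ WW w := by
  unfold WW
  apply Nat.one_le_iff_ne_zero.2
  apply Finset.prod_ne_zero_iff.2
  intro p hp
  rw [Finset.mem_filter] at hp
  exact pow_ne_zero _ hp.2.ne_zero

end Pool.Agent.Lib.MP_1ad228_ntC
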