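import Pool.Agent.Lib.MP_1ad228_ntC.VarTot
import Pool.Agent.Lib.MP_1ad228_ntC.Low
import Pool.Agent.Lib.MP_1ad228_ntC.LocDens
import Pool.Agent.Lib.MP_1ad228_ntC.MainParts

/-!
JOB Main64.  Almost all locally soluble tensors have a small zero.

PROOF.  `E` natural with `2/E ≤ ε/4`, `q = 127 E`. `varTot` gives `C`, `low` gives `c`. `locDens (ε/4)` gives `τ`,
`w0`. Let `η = c τ/2`, `d = min 1 (c^2 τ^2 ε/(128 C) )` small (see below). Take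
`k ≥ 1` with `1/k ≤ d`, `w ≥ max w0 6` with `1/(w+1) ≤ d`, `W = WW w`, `K = k^2`; `low` gives `g0`
(for `w, K, η`), `locDens` gives `A1` (for `w`). `M ≥ 1` with `2^16/M ≤ d`. For large `A` let `g` be the number of
`chooseG` with `g ≥ g1 := max g0 (..)`, where `g1` is so large that `1/g^2 ≤ d` and `432 k M ≤ g^4`.
Then `B = g^16 ≤ M A ≤ 2^16 B`; `A/B ≤ 2^16/M ≤ d`; `432 g^12 k ≤ A`
(`432 k M g^12 ≤ g^16 ≤ M A`); `8 q^2 ≤ A g^16` for `A ≥ 8 q^2`.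
The bad set `{a ∈ Box A, PSol a, no zero x ≠ 0 with |x_i| ≤ M A}` is contained in the union of
(1) `E |a_000| < A`: at most `(ε/4)(2A+1)^64` (`smallE`),
(2) `PSol a` and `sm < τ W^3`: at most `(ε/4)(2A+1)^64` (`locDens`),
(3) `Nn g q a = 0` and `Ll g q W K A a ≥ t := (B/A) c τ/2`: because otherwise `sm ≥ τ W^3`,
`A ≤ E |a_000|` and `low` gives `Ll ≥ (B/A)(c τ - η) = t`; and a point of `GG g q` on the surface is a zero
`x ≠ 0` (`GG_pos`) with `|x_i| ≤ g^16 ≤ M A` (`GG_le`), so `Nn g q a = 0`.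
`cheb` and `varTot`: number in (3) is at most
`(8/(c τ)^2)(A/B)^2 C A^64 ((B/A)^2 * 3d + B/A) = (8C/(cτ)^2) A^64 (3d + A/B) ≤ (32 C d/(cτ)^2) A^64`
and this is at most `(ε/4)(2A+1)^64` by the choice of `d` (`d ≤ c^2 τ^2 ε/(128 C)`, `A ≤ 2A+1`).
-/

namespace Pool.Agent.Lib.MP_1ad228_ntC

open Classical

private theorem Main64_ar (n Q C A64 b S c τ ε d : ℝ) (hC : 0 < C) (hA : 0 ≤ A64) (hb : 0 < b) (hc : 0 < c)
    (hτ : 0 < τ) (h1 : n * ((b * (c * τ / 2)) ^ 2 / 2) ≤ Q) (h2 : Q ≤ C * A64 * (b ^ 2 * S + b))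
    (hS : S ≤ 3 * d) (hd : 1 ≤ d * b) (hd2 : d ≤ c ^ 2 * τ ^ 2 * ε / (128 * C)) : n ≤ ε / 4 * A64 := by
  have h3 : b ≤ b ^ 2 * d := by
    calc b = b * 1 := by ring
      _ ≤ b * (d * b) := mul_le_mul_of_nonneg_left hd hb.le
      _ = b ^ 2 * d := by ring
  have h4 : b ^ 2 * S + b ≤ b ^ 2 * (4 * d) := by
    have : b ^ 2 * S ≤ b ^ 2 * (3 * d) := mul_le_mul_of_nonneg_left hS (by positivity)
    calc b ^ 2 * S + b ≤ b ^ 2 * (3 * d) + b ^ 2 * d := add_le_add this h3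
      _ = b ^ 2 * (4 * d) := by ring
  have h5 : C * d ≤ c ^ 2 * τ ^ 2 * ε / 128 := by
    calc C * d ≤ C * (c ^ 2 * τ ^ 2 * ε / (128 * C)) := mul_le_mul_of_nonneg_left hd2 hC.le
      _ = c ^ 2 * τ ^ 2 * ε / 128 := by
        field_simp
  have h6 : n * ((b * (c * τ / 2)) ^ 2 / 2) ≤ (ε / 4 * A64) * ((b * (c * τ / 2)) ^ 2 / 2) := by
    calc n * ((b * (c * τ / 2)) ^ 2 / 2) ≤ C * A64 * (b ^ 2 * S + b) := h1.trans h2
      _ ≤ C * A64 * (b ^ 2 * (4 * d)) := mul_le_mul_of_nonneg_left h4 (by positivity)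
      _ = (A64 * b ^ 2 * 4) * (C * d) := by ring
      _ ≤ (A64 * b ^ 2 * 4) * (c ^ 2 * τ ^ 2 * ε / 128) := mul_le_mul_of_nonneg_left h5 (by positivity)
      _ = (ε / 4 * A64) * ((b * (c * τ / 2)) ^ 2 / 2) := by ring
  exact le_of_mul_le_mul_right h6 (by positivity)

private theorem Main64_inv (d : ℝ) (hd : 0 < d) (n : ℕ) (hn : ⌈1 / d⌉₊ + 1 ≤ n) : 1 / (n : ℝ) ≤ d := by
  have h1 : 1 / d ≤ (n : ℝ) := by
    have h2 := Nat.le_ceil (1 / d)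
    have h3 : ((⌈1 / d⌉₊ : ℕ) : ℝ) ≤ (n : ℝ) := by
      have : ⌈1 / d⌉₊ ≤ n := by omega
      exact_mod_cast this
    linarith
  have h2 : (0 : ℝ) < n := by
    have : 0 < n := by omega
    exact_mod_cast this
  rw [div_le_iff₀ hd] at h1
  rw [div_le_iff₀ h2]
  linarith

theorem main64 (ε : ℝ) (hε : 0 < ε) : ∃ M A0 : ℕ, ∀ A ≥ A0,
    (((Box A).filter fun a => PSol a ∧
        ¬ ∃ x : Fin 4 → ℤ, x ≠ 0 ∧ (∀ i, |x i| ≤ (M : ℤ) * A) ∧ ev a x = 0).card : ℝ)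
      ≤ ε * (2 * A + 1 : ℝ) ^ 64 := by
  obtain ⟨E, hE1, hE2⟩ : ∃ E : ℕ, 1 ≤ E ∧ 2 / (E : ℝ) ≤ ε / 4 := by
    refine ⟨⌈1 / (ε / 8)⌉₊ + 1, by omega, ?_⟩
    have := Main64_inv (ε / 8) (by positivity) (⌈1 / (ε / 8)⌉₊ + 1) le_rfl
    calc 2 / ((⌈1 / (ε / 8)⌉₊ + 1 : ℕ) : ℝ) = 2 * (1 / ((⌈1 / (ε / 8)⌉₊ + 1 : ℕ) : ℝ)) := by ring
      _ ≤ 2 * (ε / 8) := by linarith
      _ = ε / 4 := by ring
  obtain ⟨C, hC, hvar⟩ := varTot (127 * E) (by omega)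
  obtain ⟨c, hc, hlow⟩ := low E hE1
  obtain ⟨τ, hτ, w0, hloc⟩ := locDens (ε / 4) (by positivity)
  have hη : 0 < c * τ / 2 := by positivity
  have hdpos : 0 < min 1 (c ^ 2 * τ ^ 2 * ε / (128 * C)) := lt_min one_pos (by positivity)
  have hd2 : min 1 (c ^ 2 * τ ^ 2 * ε / (128 * C)) ≤ c ^ 2 * τ ^ 2 * ε / (128 * C) := min_le_right _ _
  generalize min 1 (c ^ 2 * τ ^ 2 * ε / (128 * C)) = d at hdpos hd2
  obtain ⟨r, hr⟩ : ∃ r : ℕ, r = ⌈1 / d⌉₊ + 1 := ⟨_, rfl⟩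
  have hinv : ∀ n : ℕ, r ≤ n → 1 / (n : ℝ) ≤ d := fun n hn => Main64_inv d hdpos n (hr ▸ hn)
  have hr1 : 1 ≤ r := by omega
  -- w = max w0 6 + r, k = r, M = 2^16 * r
  obtain ⟨g0, hg0⟩ := hlow (w0 + 6 + r) (r ^ 2) (by omega) (Nat.one_le_pow _ _ hr1) (c * τ / 2) hη
  obtain ⟨A1, hA1⟩ := hloc (w0 + 6 + r) (by omega)
  obtain ⟨A2, hA2⟩ := chooseG (2 ^ 16 * r) (g0 + r + 432 * r * (2 ^ 16 * r)) (by omega)
  refine ⟨2 ^ 16 * r, A1 + A2 + 8 * (127 * E) ^ 2 + E + 1, fun A hA => ?_⟩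
  obtain ⟨g, hg1, hg2, hg3, hg4⟩ := hA2 A (by omega)
  have hloc' := hA1 A (by omega)
  have hA0 : 1 ≤ A := by omega
  have hA0r : (0 : ℝ) < A := by exact_mod_cast hA0
  have hg0r : (0 : ℝ) < g := by exact_mod_cast hg2
  have hgr : r ≤ g := by omega
  have hWpos := WW_pos (w0 + 6 + r)
  have hWr : (0 : ℝ) < (WW (w0 + 6 + r) : ℝ) := by exact_mod_cast hWpos
  have hcond1 : 432 * g ^ 12 * r ≤ A := by
    have h1 : 432 * r * (2 ^ 16 * r) ≤ g := by omega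
    have h2 : g ≤ g ^ 4 := Nat.le_self_pow (by norm_num) g
    have h3 : (432 * r * (2 ^ 16 * r)) * g ^ 12 ≤ g ^ 4 * g ^ 12 := Nat.mul_le_mul_right _ (h1.trans h2)
    have h4 : g ^ 4 * g ^ 12 = g ^ 16 := by rw [← pow_add]
    rw [h4] at h3
    have h5 : (2 ^ 16 * r) * (432 * g ^ 12 * r) ≤ (2 ^ 16 * r) * A := by
      calc (2 ^ 16 * r) * (432 * g ^ 12 * r) = (432 * r * (2 ^ 16 * r)) * g ^ 12 := by ring
        _ ≤ g ^ 16 := h3
        _ ≤ (2 ^ 16 * r) * A := hg3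
    exact Nat.le_of_mul_le_mul_left h5 (by omega)
  have hcond2 : 8 * (127 * E) ^ 2 ≤ A * g ^ 16 := by
    have h1 : 8 * (127 * E) ^ 2 ≤ A := by omega
    have h2 : 1 ≤ g ^ 16 := Nat.one_le_pow _ _ hg2
    exact h1.trans (Nat.le_mul_of_pos_right A h2)
  have hQ := hvar r (w0 + 6 + r) g A (WW (w0 + 6 + r)) hr1 hg2 hA0 hWpos (fun m h1 h2 => dvd_WW _ m h1 h2) hcond1 hcond2
  -- the three sets
  have hsub : ((Box A).filter fun a => PSol a ∧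
        ¬ ∃ x : Fin 4 → ℤ, x ≠ 0 ∧ (∀ i, |x i| ≤ ((2 ^ 16 * r : ℕ) : ℤ) * A) ∧ ev a x = 0) ⊆
      ((Box A).filter fun a => (E : ℤ) * |a 0 0 0| < (A : ℤ)) ∪
      (((Box A).filter fun a => PSol a ∧
        (sm (WW (w0 + 6 + r)) (ct (ZMod (WW (w0 + 6 + r))) a) : ℝ) < τ * (WW (w0 + 6 + r) : ℝ) ^ 3) ∪
      ((Box A).filter fun a => Nn g (127 * E) a = 0 ∧
        ((g : ℝ) ^ 16 / A) * (c * τ / 2) ≤ Ll g (127 * E) (WW (w0 + 6 + r)) (r ^ 2) A a)) := by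
    intro a ha
    rw [Finset.mem_filter] at ha
    rw [Finset.mem_union, Finset.mem_union]
    by_cases h1 : (E : ℤ) * |a 0 0 0| < (A : ℤ)
    · left
      rw [Finset.mem_filter]
      exact ⟨ha.1, h1⟩
    · right
      by_cases h2 : (sm (WW (w0 + 6 + r)) (ct (ZMod (WW (w0 + 6 + r))) a) : ℝ) < τ * (WW (w0 + 6 + r) : ℝ) ^ 3
      · left
        rw [Finset.mem_filter]
        exact ⟨ha.1, ha.2.1, h2⟩
      · right
        rw [Finset.mem_filter]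
        push Not at h1 h2
        refine ⟨ha.1, ?_, ?_⟩
        · unfold Nn
          rw [Finset.card_eq_zero, Finset.filter_eq_empty_iff]
          intro x hx hev
          apply ha.2.2
          refine ⟨x, ?_, ?_, hev⟩
          · intro h0
            have := GG_pos hg2 hx
            rw [h0] at this
            simp at this
          · intro i
            refine (GG_le hx i).trans ?_
            exact_mod_cast hg3
        · have h3 := hg0 g (by omega) A hA0 a ha.1 h1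
          refine le_trans ?_ h3
          apply mul_le_mul_of_nonneg_left _ (by positivity)
          have h4 : c * τ ≤ c * (sm (WW (w0 + 6 + r)) (ct (ZMod (WW (w0 + 6 + r))) a) : ℝ) / (WW (w0 + 6 + r) : ℝ) ^ 3 := by
            rw [le_div_iff₀ (by positivity)]
            calc c * τ * (WW (w0 + 6 + r) : ℝ) ^ 3 = c * (τ * (WW (w0 + 6 + r) : ℝ) ^ 3) := by ring
              _ ≤ _ := mul_le_mul_of_nonneg_left h2 hc.le
          linarith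
  have hcard := (Finset.card_le_card hsub).trans ((Finset.card_union_le _ _).trans
    (Nat.add_le_add_left (Finset.card_union_le _ _) _))
  have hS1 := smallE E A hE1 (by omega)
  have hS3 := cheb g (127 * E) (WW (w0 + 6 + r)) (r ^ 2) A hA0 (((g : ℝ) ^ 16 / A) * (c * τ / 2)) (by positivity)
  have hA64 : (A : ℝ) ^ 64 ≤ (2 * (A : ℝ) + 1) ^ 64 := pow_le_pow_left₀ hA0r.le (by linarith) 64
  have hS3' : (((Box A).filter fun a => Nn g (127 * E) a = 0 ∧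
        ((g : ℝ) ^ 16 / A) * (c * τ / 2) ≤ Ll g (127 * E) (WW (w0 + 6 + r)) (r ^ 2) A a).card : ℝ) ≤
      ε / 4 * (A : ℝ) ^ 64 := by
    refine Main64_ar _ _ C ((A : ℝ) ^ 64) ((g : ℝ) ^ 16 / A) (1 / (r : ℝ) + 1 / (((w0 + 6 + r : ℕ) : ℝ) + 1) + 1 / (g : ℝ) ^ 2)
      c τ ε d hC (by positivity) (by positivity) hc hτ hS3 hQ ?_ ?_ hd2
    · have e1 := hinv r le_rfl
      have e2 : 1 / (((w0 + 6 + r : ℕ) : ℝ) + 1) ≤ d := by
        have := hinv (w0 + 6 + r + 1) (by omega)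
        rw [Nat.cast_succ] at this
        exact this
      have e3 : 1 / (g : ℝ) ^ 2 ≤ d := by
        refine le_trans ?_ (hinv g hgr)
        apply one_div_le_one_div_of_le hg0r
        have : (1 : ℝ) ≤ g := by exact_mod_cast hg2
        nlinarith
      linarith
    · -- 1 ≤ d * (B / A)
      have e1 := hinv r le_rfl
      have hr0 : (0 : ℝ) < r := by exact_mod_cast hr1
      have e2 : (2 ^ 16 * (r : ℝ)) * A ≤ 2 ^ 16 * (g : ℝ) ^ 16 := by exact_mod_cast hg4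
      have e3 : (r : ℝ) * A ≤ (g : ℝ) ^ 16 := by
        have : (2 : ℝ) ^ 16 * ((r : ℝ) * A) ≤ 2 ^ 16 * (g : ℝ) ^ 16 := by
          calc (2 : ℝ) ^ 16 * ((r : ℝ) * A) = (2 ^ 16 * (r : ℝ)) * A := by ring
            _ ≤ _ := e2
        exact le_of_mul_le_mul_left this (by positivity)
      have e4 : (r : ℝ) ≤ (g : ℝ) ^ 16 / A := by
        rw [le_div_iff₀ hA0r]
        exact e3
      calc (1 : ℝ) = 1 / (r : ℝ) * r := by field_simp
        _ ≤ d * r := mul_le_mul_of_nonneg_right e1 hr0.le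
        _ ≤ d * ((g : ℝ) ^ 16 / A) := mul_le_mul_of_nonneg_left e4 hdpos.le
  have hS1' : (((Box A).filter fun a => (E : ℤ) * |a 0 0 0| < (A : ℤ)).card : ℝ) ≤
      ε / 4 * (2 * (A : ℝ) + 1) ^ 64 :=
    hS1.trans (mul_le_mul_of_nonneg_right hE2 (by positivity))
  have hcard' : (((Box A).filter fun a => PSol a ∧
        ¬ ∃ x : Fin 4 → ℤ, x ≠ 0 ∧ (∀ i, |x i| ≤ ((2 ^ 16 * r : ℕ) : ℤ) * A) ∧ ev a x = 0).card : ℝ) ≤
      (((Box A).filter fun a => (E : ℤ) * |a 0 0 0| < (A : ℤ)).card : ℝ) +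
      ((((Box A).filter fun a => PSol a ∧
        (sm (WW (w0 + 6 + r)) (ct (ZMod (WW (w0 + 6 + r))) a) : ℝ) < τ * (WW (w0 + 6 + r) : ℝ) ^ 3).card : ℝ) +
      (((Box A).filter fun a => Nn g (127 * E) a = 0 ∧
        ((g : ℝ) ^ 16 / A) * (c * τ / 2) ≤ Ll g (127 * E) (WW (w0 + 6 + r)) (r ^ 2) A a).card : ℝ)) := by
    exact_mod_cast hcard
  have hS3'' : ε / 4 * (A : ℝ) ^ 64 ≤ ε / 4 * (2 * (A : ℝ) + 1) ^ 64 :=
    mul_le_mul_of_nonneg_left hA64 (by positivity)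
  have hpos : 0 ≤ ε / 4 * (2 * (A : ℝ) + 1) ^ 64 := by positivity
  calc (((Box A).filter fun a => PSol a ∧
        ¬ ∃ x : Fin 4 → ℤ, x ≠ 0 ∧ (∀ i, |x i| ≤ ((2 ^ 16 * r : ℕ) : ℤ) * A) ∧ ev a x = 0).card : ℝ)
      ≤ ε / 4 * (2 * (A : ℝ) + 1) ^ 64 + (ε / 4 * (2 * (A : ℝ) + 1) ^ 64 + ε / 4 * (2 * (A : ℝ) + 1) ^ 64) :=
        hcard'.trans (add_le_add hS1' (add_le_add hloc' (hS3'.trans hS3'')))
    _ ≤ ε * (2 * (A : ℝ) + 1) ^ 64 := by linarith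

end Pool.Agent.Lib.MP_1ad228_ntC
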