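import Pool.Agent.Lib.MP_1ad228_ntC.FmXfer
import Pool.Agent.Lib.MP_1ad228_ntC.FmLoc
import Pool.Agent.Lib.MP_1ad228_ntC.Main64

/-!
# JOB FormsBad (about 60 lines): transfer of main64 to forms

`main64` with `ε / 10^44` gives `M`, `A0`.  `xfer` with `S = {f | f ∈ Forms A ∧ LocSol f ∧ ¬ SmallZero (M * A) f}` and `T = ` the set of `main64` (`psol_of_locSol`, `smallZero_iff`):
`#S (A / 5 + 1)^44 ≤ #T ≤ ε / 10^44 (2 A + 1)^64`, and `A / 5 + 1 ≥ (2 A + 1) / 10` in the reals (`A < 5 (A / 5 + 1)`, so `A + 1 ≤ 5 (A / 5 + 1)`), so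
`#S ((2 A + 1) / 10)^44 ≤ ε / 10^44 (2 A + 1)^64`; divide.
-/

namespace Pool.Agent.Lib.MP_1ad228_ntC

open Classical

theorem formsBad (ε : ℝ) (hε : 0 < ε) : ∃ M A0 : ℕ, ∀ A ≥ A0,
    (({f | f ∈ Forms A ∧ LocSol f ∧ ¬ SmallZero (M * A) f} : Set (MvPolynomial (Fin 4) ℤ)).ncard : ℝ)
      ≤ ε * (2 * A + 1 : ℝ) ^ 20 := by
  obtain ⟨M, A0, h⟩ := main64 (ε / 10 ^ 44) (by positivity)
  refine ⟨M, A0, fun A hA => ?_⟩
  have h1 := h A hA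
  set S : Set (MvPolynomial (Fin 4) ℤ) := {f | f ∈ Forms A ∧ LocSol f ∧ ¬ SmallZero (M * A) f}
    with hS
  set T := (Box A).filter fun a => PSol a ∧
        ¬ ∃ x : Fin 4 → ℤ, x ≠ 0 ∧ (∀ i, |x i| ≤ (M : ℤ) * A) ∧ ev a x = 0 with hT
  have h2 : S.ncard * (A / 5 + 1) ^ 44 ≤ T.card := by
    refine xfer S (fun f hf => hf.1) T ?_
    intro f hf a ha hpa
    subst hpa
    rw [hT, Finset.mem_filter]
    exact ⟨ha, psol_of_locSol hf.2.1, fun hx => hf.2.2 ((smallZero_iff _ a).2 hx)⟩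
  have h3 : (S.ncard : ℝ) * (((A / 5 : ℕ) : ℝ) + 1) ^ 44 ≤ (T.card : ℝ) := by exact_mod_cast h2
  have h4 : (2 * A + 1 : ℝ) / 10 ≤ ((A / 5 : ℕ) : ℝ) + 1 := by
    have : A + 1 ≤ 5 * (A / 5 + 1) := by omega
    have h5 : ((A + 1 : ℕ) : ℝ) ≤ ((5 * (A / 5 + 1) : ℕ) : ℝ) := Nat.cast_le.2 this
    push_cast at h5
    linarith
  have h6 : ((2 * A + 1 : ℝ) / 10) ^ 44 ≤ (((A / 5 : ℕ) : ℝ) + 1) ^ 44 :=
    pow_le_pow_left₀ (by positivity) h4 44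
  have h7 : (S.ncard : ℝ) * ((2 * A + 1 : ℝ) / 10) ^ 44 ≤ ε / 10 ^ 44 * (2 * A + 1 : ℝ) ^ 64 :=
    (mul_le_mul_of_nonneg_left h6 (Nat.cast_nonneg _)).trans (h3.trans h1)
  have h8 : (0 : ℝ) < ((2 * A + 1 : ℝ) / 10) ^ 44 := by positivity
  refine le_of_mul_le_mul_right (h7.trans (le_of_eq ?_)) h8
  rw [div_pow]
  ring

end Pool.Agent.Lib.MP_1ad228_ntC
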