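import Pool.Agent.Lib.MP_1ad228_ntC.BadX
import Pool.Agent.Lib.MP_1ad228_ntC.LW_Count
import Pool.Agent.Lib.MP_1ad228_ntC.LW_Mu

namespace Pool.Agent.Lib.MP_1ad228_ntC

open Classical

/-- many test points (from the counting lemma of section 7 and `badX`). -/
theorem manyG : ∃ c : ℝ, 0 < c ∧ ∃ g0 : ℕ, ∀ g ≥ g0, c * (g : ℝ) ^ 64 ≤ ((GG g 127).card : ℝ) := by
  have hW1 : 1 ≤ WW 6 := WW_one_le 6
  obtain ⟨B0, hB0⟩ := countCl 127 6 (by norm_num) (le_refl 6)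
  set W : ℕ := WW 6 with hW
  have hWr : (1 : ℝ) ≤ (W : ℝ) := by exact_mod_cast hW1
  have hc0 : (0 : ℝ) < (127 : ℝ) ^ 3 * (W : ℝ) ^ 4 := by positivity
  refine ⟨1 / (2 * ((127 : ℝ) ^ 3 * (W : ℝ) ^ 4)), by positivity,
    100 + B0 + 2 * W + 10 ^ 8 * 127 ^ 3 * W ^ 4, ?_⟩
  intro g hg
  have hg100 : 100 ≤ g := by omega
  have hgB : g ≤ g ^ 16 := by
    calc g = g ^ 1 := (pow_one g).symm
      _ ≤ g ^ 16 := Nat.pow_le_pow_right (by omega) (by norm_num)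
  have h1 := hB0 (g ^ 16) (by omega) (g ^ 16) (by omega) (fun _ _ _ => 0)
    (by
      intro s t r _ _ _ _
      have : (0 : ℤ) ≤ ((g ^ 16 : ℕ) : ℤ) := Int.natCast_nonneg _
      constructor
      · omega
      · omega) (fun _ => 1) ⟨Pi.single 0 1, by simp [lin, Pi.single_apply]⟩
  set T := (VBox (g ^ 16)).filter fun x => ((g ^ 16 : ℕ) : ℤ) ≤ ((127 : ℕ) : ℤ) * x 1 ∧
        ((127 : ℕ) : ℤ) * x 1 ≤ 2 * ((g ^ 16 : ℕ) : ℤ) ∧ ((127 : ℕ) : ℤ) * |x 2| ≤ 2 * ((g ^ 16 : ℕ) : ℤ) ∧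
        ((127 : ℕ) : ℤ) * |x 3| ≤ 2 * ((g ^ 16 : ℕ) : ℤ) ∧ (fun _ _ _ => (0 : ℤ)) (x 1) (x 2) (x 3) ≤ x 0 ∧
        x 0 ≤ (fun _ _ _ => (0 : ℤ)) (x 1) (x 2) (x 3) + ((g ^ 16 : ℕ) : ℤ) ∧
        Uni x ∧ cv (ZMod W) x = fun _ => 1 with hT
  have hsplit : T.card = (T.filter fun x => HGood (g ^ 6) x).card +
      (T.filter fun x => ¬ HGood (g ^ 6) x).card := by
    rw [Finset.card_filter_add_card_filter_not]
  have hgood : (T.filter fun x => HGood (g ^ 6) x).card ≤ (GG g 127).card := by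
    refine Finset.card_le_card ?_
    intro x hx
    rw [Finset.mem_filter, hT, Finset.mem_filter] at hx
    rw [GG, Finset.mem_filter]
    refine ⟨hx.1.1, ?_, hx.1.2.2.2.2.2.2.2.1, hx.2⟩
    have := hx.1.2.1
    push_cast at this ⊢
    exact this
  have hbad : (T.filter fun x => ¬ HGood (g ^ 6) x).card ≤ 5 * 10 ^ 7 * g ^ 63 := by
    refine le_trans (Finset.card_le_card ?_) (badX g hg100)
    intro x hx
    rw [Finset.mem_filter, hT, Finset.mem_filter] at hx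
    rw [Finset.mem_filter]
    exact ⟨hx.1.1, hx.2⟩
  have h2 : (T.card : ℝ) ≤ ((GG g 127).card : ℝ) + 5 * 10 ^ 7 * (g : ℝ) ^ 63 := by
    have : T.card ≤ (GG g 127).card + 5 * 10 ^ 7 * g ^ 63 := by omega
    exact_mod_cast this
  have h3 : (g : ℝ) ^ 64 ≤ ((127 : ℝ) ^ 3 * (W : ℝ) ^ 4) * (T.card : ℝ) := by
    have e : ((g ^ 16 : ℕ) : ℝ) ^ 3 * ((g ^ 16 : ℕ) : ℝ) = (g : ℝ) ^ 64 := by
      push_cast; ring
    rw [e] at h1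
    have e2 : ((127 : ℕ) : ℝ) = 127 := by norm_num
    rw [e2] at h1
    exact h1
  have hgl : (10 : ℝ) ^ 8 * ((127 : ℝ) ^ 3 * (W : ℝ) ^ 4) ≤ (g : ℝ) := by
    have : 10 ^ 8 * 127 ^ 3 * W ^ 4 ≤ g := by omega
    have h := (Nat.cast_le (α := ℝ)).2 this
    push_cast at h
    linarith
  have hg63 : (0 : ℝ) ≤ (g : ℝ) ^ 63 := by positivity
  have h4 : (10 : ℝ) ^ 8 * ((127 : ℝ) ^ 3 * (W : ℝ) ^ 4) * (g : ℝ) ^ 63 ≤ (g : ℝ) ^ 64 := by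
    calc (10 : ℝ) ^ 8 * ((127 : ℝ) ^ 3 * (W : ℝ) ^ 4) * (g : ℝ) ^ 63
        ≤ (g : ℝ) * (g : ℝ) ^ 63 := mul_le_mul_of_nonneg_right hgl hg63
      _ = (g : ℝ) ^ 64 := by ring
  rw [div_mul_eq_mul_div, one_mul, div_le_iff₀ (by positivity)]
  have h5 : ((127 : ℝ) ^ 3 * (W : ℝ) ^ 4) * (T.card : ℝ) ≤
      ((127 : ℝ) ^ 3 * (W : ℝ) ^ 4) * (((GG g 127).card : ℝ) + 5 * 10 ^ 7 * (g : ℝ) ^ 63) :=
    mul_le_mul_of_nonneg_left h2 hc0.le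
  nlinarith [h3, h4, h5]

end Pool.Agent.Lib.MP_1ad228_ntC
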