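import Pool.Agent.Lib.MP_1ad228_ntC.Pre
import Pool.Agent.Lib.MP_1ad228_ntC.Trans
import Pool.Agent.Lib.MP_1ad228_ntC.CntPairs

/-!
JOB N1.  Upper bound for the number of tensors vanishing at one test point.

PROOF.  `P = A g^48/(2 q^3)`. For every integer `v` with `|v| ≤ P` there is an integer tensor with value
`v` at `x` (`val1`, `GG_uni`), so by `pre1` one with entries at most
`P q^3/g^48 + 144 g^6 ≤ A/2 + A/2 = A`. `cntInt` gives `S` with at least `P` elements, `trans1` gives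
`P * n1 x A ≤ (4A+1)^64 ≤ (5A)^64` (`A ≥ 1`). Divide by `P > 0`.
-/

namespace Pool.Agent.Lib.MP_1ad228_ntC

open Classical

private theorem N1_aux (c n A K : ℕ) (P : ℝ) (hA1 : (1 : ℝ) ≤ A) (hS2 : P ≤ (c : ℝ))
    (h2 : c * n ≤ (4 * A + 1) ^ K) : P * (n : ℝ) ≤ (5 * (A : ℝ)) ^ K := by
  have h3 : (c : ℝ) * (n : ℝ) ≤ (4 * (A : ℝ) + 1) ^ K := by exact_mod_cast h2
  calc P * (n : ℝ) ≤ (c : ℝ) * (n : ℝ) := mul_le_mul_of_nonneg_right hS2 (Nat.cast_nonneg _)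
    _ ≤ (4 * (A : ℝ) + 1) ^ K := h3
    _ ≤ (5 * (A : ℝ)) ^ K := pow_le_pow_left₀ (by positivity) (by linarith) K

theorem N1 (g q A : ℕ) (hg : 1 ≤ g) (hq : 1 ≤ q) (hA : 288 * g ^ 6 ≤ A) (x : Fin 4 → ℤ)
    (hx : x ∈ GG g q) :
    (n1 x A : ℝ) ≤ (5 * (A : ℝ)) ^ 64 * (2 * (q : ℝ) ^ 3 / ((A : ℝ) * (g : ℝ) ^ 48)) := by
  have hg0 : (0 : ℝ) < g := by exact_mod_cast hg
  have hq0 : (0 : ℝ) < q := by exact_mod_cast hq
  have hA' : 288 * (g : ℝ) ^ 6 ≤ (A : ℝ) := by exact_mod_cast hA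
  have hA1 : (1 : ℝ) ≤ A := by
    have h1 : (1 : ℝ) ≤ (g : ℝ) ^ 6 := one_le_pow₀ (by exact_mod_cast hg)
    linarith
  obtain ⟨P, hP⟩ : ∃ P : ℝ, P = (A : ℝ) * (g : ℝ) ^ 48 / (2 * (q : ℝ) ^ 3) := ⟨_, rfl⟩
  have hP0 : 0 < P := by
    rw [hP]
    positivity
  obtain ⟨S, hS1, hS2⟩ := cntInt P hP0.le
  have h1 : ∀ v ∈ S, ∃ a ∈ Box A, ev a x = v := by
    intro v hv
    obtain ⟨a, ha⟩ := val1 x (GG_uni hx) v
    obtain ⟨a', ha1, ha2⟩ := pre1 g q hg hq x hx a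
    refine ⟨a', mem_Box.2 fun i j k => ?_, ha1.trans ha⟩
    have h2 := ha2 i j k
    rw [ha] at h2
    have h3 : |(v : ℝ)| * (q : ℝ) ^ 3 / (g : ℝ) ^ 48 ≤ (A : ℝ) / 2 := by
      calc |(v : ℝ)| * (q : ℝ) ^ 3 / (g : ℝ) ^ 48 ≤ P * (q : ℝ) ^ 3 / (g : ℝ) ^ 48 := by
            gcongr
            exact hS1 v hv
        _ = (A : ℝ) / 2 := by
            rw [hP]
            field_simp
    have h4 : |(a' i j k : ℝ)| ≤ (A : ℝ) := by linarith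
    exact_mod_cast h4
  have h4 := N1_aux S.card (n1 x A) A 64 P hA1 hS2 (trans1 S x A h1)
  have h5 : 2 * (q : ℝ) ^ 3 / ((A : ℝ) * (g : ℝ) ^ 48) = 1 / P := by
    rw [hP, one_div_div]
  rw [h5, mul_one_div, le_div_iff₀ hP0, mul_comm]
  exact h4

end Pool.Agent.Lib.MP_1ad228_ntC
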