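import Pool.Agent.Lib.MP_1ad228_ntC.Pre
import Pool.Agent.Lib.MP_1ad228_ntC.Trans
import Pool.Agent.Lib.MP_1ad228_ntC.CntPairs

/-!
JOB N2.  Upper bound for the number of tensors vanishing at two test points.

PROOF.  `D = Dd x y ≥ 1`, `Δ = Del x y ≥ 1` (`Del_pos`, `Dd_pos`), `D ≤ Δ` (`Dd_le_Del`).
`P = A g^48/(8 q^3)`, `R = A Δ g^16/(8 q^2)`. For every integer `m'` there is an integer tensor `v(m')` with value
`m'` at `y` (`val1`, `GG_uni hy`); let `m1 m'` be its value at `x`, `c m' = m' x_1^3/y_1^3`.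
Adding `t` times the tensor of `valD` (value 0 at `y`, `D` at `x`) all pairs of values
`(m1 m' + t D, m')` are attained by integer tensors. If `|m'| ≤ P` and `|m - c m'| ≤ R` then by `pre2`
there is one with entries at most `A/8 + A/8 + 216 g^12 ≤ A/4 + A/2 ≤ A` (`432 g^12 ≤ A`).
`D ≤ 2R`: `8 q^2 ≤ A g^16` gives `2R ≥ 2Δ ≥ D`. `cntPairs` gives `S` with at least `P R/D` elements,
`trans2` gives `(P R/D) * n2 x y A ≤ (4A+1)^64 ≤ (5A)^64`;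
`P R / D = A^2 g^64 Δ/(64 q^5 D)`.
-/

namespace Pool.Agent.Lib.MP_1ad228_ntC

open Classical

theorem N2 (g q A : ℕ) (hg : 1 ≤ g) (hq : 1 ≤ q) (hA : 432 * g ^ 12 ≤ A)
    (hB : 8 * q ^ 2 ≤ A * g ^ 16) (x y : Fin 4 → ℤ) (hx : x ∈ GG g q) (hy : y ∈ GG g q)
    (hxy : x ≠ y) :
    (n2 x y A : ℝ) ≤ (5 * (A : ℝ)) ^ 64 *
      (64 * (q : ℝ) ^ 5 / ((A : ℝ) ^ 2 * (g : ℝ) ^ 64) * ((Dd x y : ℝ) / (Del x y : ℝ))) := by
  have hΔ : 1 ≤ Del x y := Del_pos hg hx hy hxy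
  have hD : 1 ≤ Dd x y := Dd_pos x y hΔ
  have hDΔ : Dd x y ≤ Del x y := Dd_le_Del x y hΔ
  have hA1 : 1 ≤ A := by
    have h1 : 1 ≤ g ^ 12 := Nat.one_le_pow _ _ hg
    omega
  choose tv htv using fun m' : ℤ => val1 y (GG_uni hy) m'
  obtain ⟨w, hwy, hwx⟩ := valD x y (GG_uni hx)
  have gR : (0 : ℝ) < (g : ℝ) := by exact_mod_cast hg
  have qR : (0 : ℝ) < (q : ℝ) := by exact_mod_cast hq
  have AR : (0 : ℝ) < (A : ℝ) := by exact_mod_cast hA1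
  have DR : (0 : ℝ) < (Dd x y : ℝ) := by exact_mod_cast hD
  have ΔR : (0 : ℝ) < (Del x y : ℝ) := by exact_mod_cast hΔ
  have DΔR : (Dd x y : ℝ) ≤ (Del x y : ℝ) := by exact_mod_cast hDΔ
  set P : ℝ := (A : ℝ) * (g : ℝ) ^ 48 / (8 * (q : ℝ) ^ 3) with hPdef
  set R : ℝ := (A : ℝ) * (Del x y : ℝ) * (g : ℝ) ^ 16 / (8 * (q : ℝ) ^ 2) with hRdef
  have hP : 0 ≤ P := by positivity
  have hR : (Dd x y : ℝ) ≤ 2 * R := by
    have h1 : (8 : ℝ) * (q : ℝ) ^ 2 ≤ (A : ℝ) * (g : ℝ) ^ 16 := by exact_mod_cast hB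
    have h2 : (Del x y : ℝ) ≤ R := by
      rw [hRdef, le_div_iff₀ (by positivity)]
      calc (Del x y : ℝ) * (8 * (q : ℝ) ^ 2) ≤ (Del x y : ℝ) * ((A : ℝ) * (g : ℝ) ^ 16) :=
            mul_le_mul_of_nonneg_left h1 ΔR.le
        _ = (A : ℝ) * (Del x y : ℝ) * (g : ℝ) ^ 16 := by ring
    linarith
  obtain ⟨S, hS, hcard⟩ := cntPairs P R hP (Dd x y) hD hR
    (fun m' => (m' : ℝ) * (x 1 : ℝ) ^ 3 / (y 1 : ℝ) ^ 3) (fun m' => ev (tv m') x)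
  have hbox : ∀ v ∈ S, ∃ a ∈ Box A, ev a x = v.1 ∧ ev a y = v.2 := by
    intro v hv
    obtain ⟨h1, h2, t, ht⟩ := hS v hv
    obtain ⟨a', e1, e2, e3⟩ := pre2 g q hg hq x y hx hy hxy (tv v.2 + t • w)
    have f1 : ev (tv v.2 + t • w) x = v.1 := by
      rw [ev_add, ev_smul', hwx, ht]
    have f2 : ev (tv v.2 + t • w) y = v.2 := by
      rw [ev_add, ev_smul', hwy, htv, mul_zero, add_zero]
    rw [f1] at e1 e3
    rw [f2] at e2 e3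
    refine ⟨a', mem_Box.2 ?_, e1, e2⟩
    intro i j k
    have h3 := e3 i j k
    have h4 : |((v.2 : ℤ) : ℝ)| * (q : ℝ) ^ 3 / (g : ℝ) ^ 48 ≤ (A : ℝ) / 8 := by
      rw [div_le_iff₀ (by positivity)]
      calc |((v.2 : ℤ) : ℝ)| * (q : ℝ) ^ 3 ≤ P * (q : ℝ) ^ 3 :=
            mul_le_mul_of_nonneg_right h1 (by positivity)
        _ = (A : ℝ) / 8 * (g : ℝ) ^ 48 := by
            rw [hPdef]
            field_simp
    have h5 : |((v.1 : ℤ) : ℝ) - ((v.2 : ℤ) : ℝ) * (x 1 : ℝ) ^ 3 / (y 1 : ℝ) ^ 3| * (q : ℝ) ^ 2 /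
        ((Del x y : ℝ) * (g : ℝ) ^ 16) ≤ (A : ℝ) / 8 := by
      rw [div_le_iff₀ (by positivity)]
      calc |((v.1 : ℤ) : ℝ) - ((v.2 : ℤ) : ℝ) * (x 1 : ℝ) ^ 3 / (y 1 : ℝ) ^ 3| * (q : ℝ) ^ 2
          ≤ R * (q : ℝ) ^ 2 := mul_le_mul_of_nonneg_right h2 (by positivity)
        _ = (A : ℝ) / 8 * ((Del x y : ℝ) * (g : ℝ) ^ 16) := by
            rw [hRdef]
            field_simp
    have h6 : (216 : ℝ) * (g : ℝ) ^ 12 ≤ (A : ℝ) / 2 := by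
      have h7 : (432 : ℝ) * (g : ℝ) ^ 12 ≤ (A : ℝ) := by exact_mod_cast hA
      linarith
    have h8 : |(a' i j k : ℝ)| ≤ (A : ℝ) := by linarith
    have h9 : ((|a' i j k| : ℤ) : ℝ) ≤ ((A : ℤ) : ℝ) := by
      rw [Int.cast_abs, Int.cast_natCast]
      exact h8
    exact_mod_cast h9
  have htr := trans2 S x y A hbox
  have htrR : (S.card : ℝ) * (n2 x y A : ℝ) ≤ (4 * (A : ℝ) + 1) ^ 64 := by exact_mod_cast htr
  have h45 : (4 * (A : ℝ) + 1) ^ 64 ≤ (5 * (A : ℝ)) ^ 64 := by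
    have : (1 : ℝ) ≤ (A : ℝ) := by exact_mod_cast hA1
    exact pow_le_pow_left₀ (by positivity) (by linarith) 64
  have hn : (0 : ℝ) ≤ (n2 x y A : ℝ) := Nat.cast_nonneg _
  have h10 : P * (R / (Dd x y : ℝ)) * (n2 x y A : ℝ) ≤ (5 * (A : ℝ)) ^ 64 :=
    le_trans (mul_le_mul_of_nonneg_right hcard hn) (le_trans htrR h45)
  have hPR : P * (R / (Dd x y : ℝ)) *
      (64 * (q : ℝ) ^ 5 / ((A : ℝ) ^ 2 * (g : ℝ) ^ 64) * ((Dd x y : ℝ) / (Del x y : ℝ))) = 1 := by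
    rw [hPdef, hRdef]
    field_simp
    norm_num
  have hPRpos : 0 < P * (R / (Dd x y : ℝ)) := by positivity
  have h11 : (n2 x y A : ℝ) ≤ (5 * (A : ℝ)) ^ 64 / (P * (R / (Dd x y : ℝ))) := by
    rw [le_div_iff₀ hPRpos]
    linarith
  refine le_trans h11 (le_of_eq ?_)
  rw [div_eq_iff hPRpos.ne', mul_assoc, mul_comm _ (P * (R / (Dd x y : ℝ))), hPR, mul_one]

end Pool.Agent.Lib.MP_1ad228_ntC
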