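import Pool.Agent.Lib.MP_1ad228_ntC.PairSum
import Pool.Agent.Lib.MP_1ad228_ntC.N1
import Pool.Agent.Lib.MP_1ad228_ntC.N2
import Pool.Agent.Lib.MP_1ad228_ntC.EEle

/-!
JOB PairTot.  The second moment without local terms.

PROOF.  `y = x`: `n2_self` and `N1` (`288 g^6 ≤ 432 g^12 ≤ A`). `y ≠ x`: `N2` and `psAll`. Sum over `x`:
`card (GG g q) ≤ 81 g^64` (`card_GG_le`). Take
`C = 81 * 5^64 * (2 q^3 + 64 q^5 * 60000 q^6)`.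
-/

namespace Pool.Agent.Lib.MP_1ad228_ntC

open Classical

private theorem PairTot_row (q g A : ℕ) (hq : 1 ≤ q) (hg : 1 ≤ g) (hA : 1 ≤ A) (hgA : 432 * g ^ 12 ≤ A)
    (hqA : 8 * q ^ 2 ≤ A * g ^ 16) (x : Fin 4 → ℤ) (hx : x ∈ GG g q) :
    ∑ y ∈ GG g q, (n2 x y A : ℝ) ≤ (5 * (A : ℝ)) ^ 64 * (2 * (q : ℝ) ^ 3 / ((A : ℝ) * (g : ℝ) ^ 48)
      + 64 * (q : ℝ) ^ 5 / ((A : ℝ) ^ 2 * (g : ℝ) ^ 64) * (60000 * (q : ℝ) ^ 6 * (g : ℝ) ^ 32)) := by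
  have h6 : 288 * g ^ 6 ≤ A := by
    have h1 : g ^ 6 ≤ g ^ 12 := Nat.pow_le_pow_right hg (by norm_num)
    omega
  have hsplit : ∑ y ∈ GG g q, (n2 x y A : ℝ) =
      (n2 x x A : ℝ) + ∑ y ∈ (GG g q).filter (fun y => y ≠ x), (n2 x y A : ℝ) := by
    have h1 := Finset.add_sum_erase (GG g q) (fun y => (n2 x y A : ℝ)) hx
    have h2 : (GG g q).erase x = (GG g q).filter (fun y => y ≠ x) := by
      ext y
      simp only [Finset.mem_erase, Finset.mem_filter]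
      tauto
    rw [h2] at h1
    exact h1.symm
  rw [hsplit, mul_add]
  apply add_le_add
  · rw [n2_self]
    exact N1 g q A hg hq h6 x hx
  · calc ∑ y ∈ (GG g q).filter (fun y => y ≠ x), (n2 x y A : ℝ)
        ≤ ∑ y ∈ (GG g q).filter (fun y => y ≠ x), (5 * (A : ℝ)) ^ 64 *
          (64 * (q : ℝ) ^ 5 / ((A : ℝ) ^ 2 * (g : ℝ) ^ 64) * ((Dd x y : ℝ) / (Del x y : ℝ))) := by
          apply Finset.sum_le_sum
          intro y hy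
          rw [Finset.mem_filter] at hy
          exact N2 g q A hg hq hgA hqA x y hx hy.1 (Ne.symm hy.2)
      _ = (5 * (A : ℝ)) ^ 64 * (64 * (q : ℝ) ^ 5 / ((A : ℝ) ^ 2 * (g : ℝ) ^ 64) *
          ∑ y ∈ (GG g q).filter (fun y => y ≠ x), ((Dd x y : ℝ) / (Del x y : ℝ))) := by
          rw [Finset.mul_sum, Finset.mul_sum]
      _ ≤ _ := by
          apply mul_le_mul_of_nonneg_left _ (by positivity)
          apply mul_le_mul_of_nonneg_left _ (by positivity)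
          exact psAll g q hg hq x hx

theorem pairTot (q : ℕ) (hq : 1 ≤ q) : ∃ C : ℝ, 0 < C ∧ ∀ g A : ℕ, 1 ≤ g → 1 ≤ A →
    432 * g ^ 12 ≤ A → 8 * q ^ 2 ≤ A * g ^ 16 →
    ∑ x ∈ GG g q, ∑ y ∈ GG g q, (n2 x y A : ℝ) ≤
      C * (A : ℝ) ^ 64 * (((g : ℝ) ^ 16 / A) ^ 2 + (g : ℝ) ^ 16 / A) := by
  have hq0 : (0 : ℝ) < q := by exact_mod_cast hq
  refine ⟨81 * 5 ^ 64 * (2 * (q : ℝ) ^ 3 + 64 * (q : ℝ) ^ 5 * (60000 * (q : ℝ) ^ 6)), by positivity, ?_⟩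
  intro g A hg hA hgA hqA
  have hA0 : (0 : ℝ) < A := by exact_mod_cast hA
  have hg0 : (0 : ℝ) < g := by exact_mod_cast hg
  have h1 : ∑ x ∈ GG g q, ∑ y ∈ GG g q, (n2 x y A : ℝ) ≤
      ((GG g q).card : ℝ) * ((5 * (A : ℝ)) ^ 64 * (2 * (q : ℝ) ^ 3 / ((A : ℝ) * (g : ℝ) ^ 48)
      + 64 * (q : ℝ) ^ 5 / ((A : ℝ) ^ 2 * (g : ℝ) ^ 64) * (60000 * (q : ℝ) ^ 6 * (g : ℝ) ^ 32))) := by
    calc ∑ x ∈ GG g q, ∑ y ∈ GG g q, (n2 x y A : ℝ) ≤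
        ∑ _x ∈ GG g q, ((5 * (A : ℝ)) ^ 64 * (2 * (q : ℝ) ^ 3 / ((A : ℝ) * (g : ℝ) ^ 48)
        + 64 * (q : ℝ) ^ 5 / ((A : ℝ) ^ 2 * (g : ℝ) ^ 64) * (60000 * (q : ℝ) ^ 6 * (g : ℝ) ^ 32))) :=
          Finset.sum_le_sum (fun x hx => PairTot_row q g A hq hg hA hgA hqA x hx)
      _ = _ := by rw [Finset.sum_const, nsmul_eq_mul]
  have h2 := card_GG_le (g := g) (q := q) hg
  refine h1.trans ?_
  refine (mul_le_mul_of_nonneg_right h2 (by positivity)).trans ?_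
  have e1 : 81 * (g : ℝ) ^ 64 * ((5 * (A : ℝ)) ^ 64 * (2 * (q : ℝ) ^ 3 / ((A : ℝ) * (g : ℝ) ^ 48)
      + 64 * (q : ℝ) ^ 5 / ((A : ℝ) ^ 2 * (g : ℝ) ^ 64) * (60000 * (q : ℝ) ^ 6 * (g : ℝ) ^ 32))) =
      81 * 5 ^ 64 * (A : ℝ) ^ 64 * (2 * (q : ℝ) ^ 3 * ((g : ℝ) ^ 16 / A) +
        64 * (q : ℝ) ^ 5 * (60000 * (q : ℝ) ^ 6) * ((g : ℝ) ^ 16 / A) ^ 2) := by
    rw [mul_pow]
    field_simp
  rw [e1]
  have p1 : (0 : ℝ) ≤ (g : ℝ) ^ 16 / A := by positivity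
  have p2 : (0 : ℝ) ≤ ((g : ℝ) ^ 16 / A) ^ 2 := by positivity
  generalize (g : ℝ) ^ 16 / A = t at p1 p2 ⊢
  have p3 : (0 : ℝ) ≤ 2 * (q : ℝ) ^ 3 := by positivity
  have p4 : (0 : ℝ) ≤ 64 * (q : ℝ) ^ 5 * (60000 * (q : ℝ) ^ 6) := by positivity
  generalize 2 * (q : ℝ) ^ 3 = a at p3 ⊢
  generalize 64 * (q : ℝ) ^ 5 * (60000 * (q : ℝ) ^ 6) = b at p4 ⊢
  have e2 : 81 * 5 ^ 64 * (a + b) * (A : ℝ) ^ 64 * (t ^ 2 + t) =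
      81 * 5 ^ 64 * (A : ℝ) ^ 64 * ((a + b) * (t ^ 2 + t)) := by ring
  rw [e2]
  apply mul_le_mul_of_nonneg_left _ (by positivity)
  have : (a + b) * (t ^ 2 + t) = (a * t + b * t ^ 2) + (a * t ^ 2 + b * t) := by ring
  rw [this]
  have : 0 ≤ a * t ^ 2 + b * t := by positivity
  linarith

end Pool.Agent.Lib.MP_1ad228_ntC
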