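import Pool.Agent.Lib.MP_1ad228_ntC.PosA
import Pool.Agent.Lib.MP_1ad228_ntC.PairTot
import Pool.Agent.Lib.MP_1ad228_ntC.ManyG
import Pool.Agent.Lib.MP_1ad228_ntC.MainParts

/-!
JOB Pos64.  A positive proportion of tensors has a nonzero integer zero.

PROOF.  `q = 127`. `pairTot 127` gives `C`, `manyG` gives `c, g0`. `chooseG 1 g1` (with
`g1 = max g0 433`) gives `A0` and for `A ≥ A0` a `g ≥ g1` with `g^16 ≤ A ≤ 2^16 g^16`. Then `432 g^12 ≤ A`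
(`432 ≤ g^4`) and `8 q^2 ≤ A g^16`. `n1_low` with `Y = g^16` (`GG_le`): for `x ∈ GG g 127`
`n1 x A ≥ (A+1)^64/(128 A g^48 + 1) ≥ A^64/(129 A g^48)`. So with `G = GG g 127`,
`∑_x n1 ≥ c g^64 A^64/(129 A g^48) = (c/129) A^64 g^16/A ≥ (c/(129*2^16)) A^64`.
`pairTot`: `∑∑ n2 ≤ C A^64 ((g^16/A)^2 + g^16/A) ≤ 2 C A^64`. `csPos`: the number of `a ∈ Box A` with a zero in `G` is at
least `(c/(129*2^16))^2 A^128/(2 C A^64) = c' A^64`, and `A ≥ (2A+1)/3`. A zero in `G` is nonzero (`GG_pos`).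
-/

namespace Pool.Agent.Lib.MP_1ad228_ntC

open Classical

theorem pos64 : ∃ δ : ℝ, 0 < δ ∧ ∃ A0 : ℕ, ∀ A ≥ A0,
    δ * (2 * A + 1 : ℝ) ^ 64 ≤
      (((Box A).filter fun a => ∃ x : Fin 4 → ℤ, x ≠ 0 ∧ ev a x = 0).card : ℝ) := by
  obtain ⟨C, hC, hpair⟩ := pairTot 127 (by norm_num)
  obtain ⟨c, hc, g0, hmany⟩ := manyG
  obtain ⟨A0, hA0⟩ := chooseG 1 (max g0 433) (le_refl 1)
  refine ⟨c ^ 2 / (2 * C * (65536 * 129) ^ 2 * 3 ^ 64), by positivity, max A0 1, fun A hA => ?_⟩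
  obtain ⟨g, hg1, hg2, hg3, hg4⟩ := hA0 A (le_trans (le_max_left _ _) hA)
  have hA1 : 1 ≤ A := le_trans (le_max_right _ _) hA
  have hgg0 : g0 ≤ g := le_trans (le_max_left _ _) hg1
  have hg433 : 433 ≤ g := le_trans (le_max_right _ _) hg1
  rw [one_mul] at hg3 hg4
  have hgA : 432 * g ^ 12 ≤ A := by
    have h1 : 432 ≤ g ^ 4 := le_trans (by omega : 432 ≤ g) (Nat.le_self_pow (by norm_num) g)
    calc 432 * g ^ 12 ≤ g ^ 4 * g ^ 12 := Nat.mul_le_mul_right _ h1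
      _ = g ^ 16 := by ring
      _ ≤ A := hg3
  have hqA : 8 * 127 ^ 2 ≤ A * g ^ 16 := by
    have h1 : 433 ^ 2 ≤ g ^ 2 := Nat.pow_le_pow_left hg433 2
    have h2 : g ^ 2 ≤ g ^ 16 := Nat.pow_le_pow_right hg2 (by norm_num)
    have h3 : 1 * g ^ 16 ≤ A * g ^ 16 := Nat.mul_le_mul_right _ hA1
    omega
  have hS2 := hpair g A hg2 hA1 hgA hqA
  have hG := hmany g hgg0
  have hcs := csPos (GG g 127) A
  set a : ℝ := (A : ℝ) with ha
  set γ : ℝ := (g : ℝ) with hγ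
  have ha1 : (1 : ℝ) ≤ a := by rw [ha]; exact_mod_cast hA1
  have hγ1 : (1 : ℝ) ≤ γ := by rw [hγ]; exact_mod_cast hg2
  have ha0 : (0 : ℝ) < a := by linarith
  have hγ0 : (0 : ℝ) < γ := by linarith
  have hγa : γ ^ 16 ≤ a := by rw [hγ, ha]; exact_mod_cast hg3
  have haγ : a ≤ 65536 * γ ^ 16 := by
    have h1 : ((A : ℕ) : ℝ) ≤ ((2 ^ 16 * g ^ 16 : ℕ) : ℝ) := by exact_mod_cast hg4
    push_cast at h1
    rw [ha, hγ]
    linarith
  set S1 : ℝ := ∑ x ∈ GG g 127, (n1 x A : ℝ) with hS1def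
  set S2 : ℝ := ∑ x ∈ GG g 127, ∑ y ∈ GG g 127, (n2 x y A : ℝ) with hS2def
  set N' : ℝ := (((Box A).filter fun a => ∃ x ∈ GG g 127, ev a x = 0).card : ℝ) with hN'
  have hn1 : ∀ x ∈ GG g 127, a ^ 64 ≤ (129 * a * γ ^ 48) * (n1 x A : ℝ) := by
    intro x hx
    have h1 := n1_low x A (g ^ 16) (fun i => by
      have := GG_le hx i
      push_cast
      exact this)
    have h2 : ((A + 1 : ℕ) : ℝ) ^ 64 ≤ (128 * a * (γ ^ 16) ^ 3 + 1) * (n1 x A : ℝ) := by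
      have h3 : (((A + 1) ^ 64 : ℕ) : ℝ) ≤ (((128 * A * (g ^ 16) ^ 3 + 1) * n1 x A : ℕ) : ℝ) := by
        exact_mod_cast h1
      push_cast at h3
      push_cast
      exact h3
    have h4 : a ^ 64 ≤ ((A + 1 : ℕ) : ℝ) ^ 64 := by
      apply pow_le_pow_left₀ ha0.le
      push_cast
      linarith
    have h5 : 128 * a * (γ ^ 16) ^ 3 + 1 ≤ 129 * a * γ ^ 48 := by
      have h6 : (γ ^ 16) ^ 3 = γ ^ 48 := by ring
      have h7 : (1 : ℝ) ≤ a * γ ^ 48 :=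
        one_le_mul_of_one_le_of_one_le ha1 (one_le_pow₀ hγ1)
      rw [h6]
      linarith
    calc a ^ 64 ≤ (128 * a * (γ ^ 16) ^ 3 + 1) * (n1 x A : ℝ) := h4.trans h2
      _ ≤ (129 * a * γ ^ 48) * (n1 x A : ℝ) :=
        mul_le_mul_of_nonneg_right h5 (Nat.cast_nonneg _)
  have hsum : ((GG g 127).card : ℝ) * a ^ 64 ≤ (129 * a * γ ^ 48) * S1 := by
    have h1 := Finset.sum_le_sum hn1
    rw [Finset.sum_const, nsmul_eq_mul, ← Finset.mul_sum] at h1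
    exact h1
  have hS1a : c * a ^ 64 ≤ (65536 * 129) * S1 := by
    have h1 : c * γ ^ 64 * a ^ 64 ≤ (129 * a * γ ^ 48) * S1 :=
      (mul_le_mul_of_nonneg_right hG (by positivity)).trans hsum
    have h2 : (c * γ ^ 16 * a ^ 64) * γ ^ 48 ≤ (129 * a * S1) * γ ^ 48 := by
      calc (c * γ ^ 16 * a ^ 64) * γ ^ 48 = c * γ ^ 64 * a ^ 64 := by ring
        _ ≤ (129 * a * γ ^ 48) * S1 := h1
        _ = (129 * a * S1) * γ ^ 48 := by ring
    have h3 : c * γ ^ 16 * a ^ 64 ≤ 129 * a * S1 := le_of_mul_le_mul_right h2 (by positivity)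
    have h4 : (c * a ^ 64) * a ≤ ((65536 * 129) * S1) * a := by
      calc (c * a ^ 64) * a ≤ (c * a ^ 64) * (65536 * γ ^ 16) :=
            mul_le_mul_of_nonneg_left haγ (by positivity)
        _ = 65536 * (c * γ ^ 16 * a ^ 64) := by ring
        _ ≤ 65536 * (129 * a * S1) := mul_le_mul_of_nonneg_left h3 (by norm_num)
        _ = ((65536 * 129) * S1) * a := by ring
    exact le_of_mul_le_mul_right h4 ha0
  have hS2a : S2 ≤ 2 * C * a ^ 64 := by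
    have h1 : γ ^ 16 / a ≤ 1 := by
      rw [div_le_one ha0]
      exact hγa
    have h0 : 0 ≤ γ ^ 16 / a := by positivity
    have h2 : (γ ^ 16 / a) ^ 2 ≤ 1 := pow_le_one₀ h0 h1
    calc S2 ≤ C * a ^ 64 * ((γ ^ 16 / a) ^ 2 + γ ^ 16 / a) := hS2
      _ ≤ C * a ^ 64 * 2 := mul_le_mul_of_nonneg_left (by linarith) (by positivity)
      _ = 2 * C * a ^ 64 := by ring
  have hN0 : 0 ≤ N' := by rw [hN']; positivity
  have hfin : c ^ 2 * a ^ 64 ≤ (2 * C * (65536 * 129) ^ 2) * N' := by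
    have h1 : (c * a ^ 64) ^ 2 ≤ ((65536 * 129) * S1) ^ 2 :=
      pow_le_pow_left₀ (by positivity) hS1a 2
    have h2 : S1 ^ 2 ≤ N' * (2 * C * a ^ 64) :=
      hcs.trans (mul_le_mul_of_nonneg_left hS2a hN0)
    have h3 : (c ^ 2 * a ^ 64) * a ^ 64 ≤ ((2 * C * (65536 * 129) ^ 2) * N') * a ^ 64 := by
      calc (c ^ 2 * a ^ 64) * a ^ 64 = (c * a ^ 64) ^ 2 := by ring
        _ ≤ ((65536 * 129) * S1) ^ 2 := h1
        _ = (65536 * 129) ^ 2 * S1 ^ 2 := by ring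
        _ ≤ (65536 * 129) ^ 2 * (N' * (2 * C * a ^ 64)) :=
          mul_le_mul_of_nonneg_left h2 (by positivity)
        _ = ((2 * C * (65536 * 129) ^ 2) * N') * a ^ 64 := by ring
    exact le_of_mul_le_mul_right h3 (by positivity)
  have hNN : N' ≤ (((Box A).filter fun a => ∃ x : Fin 4 → ℤ, x ≠ 0 ∧ ev a x = 0).card : ℝ) := by
    rw [hN']
    apply Nat.cast_le.mpr
    apply Finset.card_le_card
    intro t ht
    rw [Finset.mem_filter] at ht ⊢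
    obtain ⟨ht1, x, hx, hx0⟩ := ht
    refine ⟨ht1, x, ?_, hx0⟩
    intro h0
    have h1 := GG_pos hg2 hx
    rw [h0] at h1
    exact lt_irrefl _ h1
  have h3a : (2 * a + 1) ^ 64 ≤ 3 ^ 64 * a ^ 64 := by
    rw [← mul_pow]
    exact pow_le_pow_left₀ (by linarith) (by linarith) 64
  refine le_trans ?_ hNN
  rw [div_mul_eq_mul_div, div_le_iff₀ (by positivity)]
  calc c ^ 2 * (2 * a + 1) ^ 64 ≤ c ^ 2 * (3 ^ 64 * a ^ 64) :=
        mul_le_mul_of_nonneg_left h3a (by positivity)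
    _ = (c ^ 2 * a ^ 64) * 3 ^ 64 := by ring
    _ ≤ ((2 * C * (65536 * 129) ^ 2) * N') * 3 ^ 64 :=
        mul_le_mul_of_nonneg_right hfin (by positivity)
    _ = N' * (2 * C * (65536 * 129) ^ 2 * 3 ^ 64) := by ring

end Pool.Agent.Lib.MP_1ad228_ntC
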