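import Pool.Agent.Lib.MP_1ad228_ntC.FmFib
import Pool.Agent.Lib.MP_1ad228_ntC.FmXfer
import Pool.Agent.Lib.MP_1ad228_ntC.FmLoc
import Pool.Agent.Lib.MP_1ad228_ntC.Pos64

/-!
# JOB FormsPos (about 70 lines): transfer of pos64 to forms

Let `A' = A / 6`, `T = {a ∈ Box A' | ∃ x ≠ 0, ev a x = 0}`, `#T ≥ δ (2 A' + 1)^64` for `A' ≥ A0`.  `poly` sends `T` into `S = {f | f ∈ Forms A ∧ LocSol f}` (`poly_mem`: `Forms (6 A')`, and
`6 A' ≤ A`; `locSol_of_zero`), with fibres of at most `(2 A' + 1)^44` elements (`fib44`), so `#T ≤ (2 A' + 1)^44 #(image) ≤ (2 A' + 1)^44 #S` (`Finset.card_le_mul_card_image`,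
`Set.ncard_le_ncard` with `Forms_finite`).  So `#S ≥ δ (2 A' + 1)^20 ≥ δ (2 A + 1)^20 / 7^20` for `A ≥ 12`: `6 A' ≥ A - 5`, `7 (2 A' + 1) ≥ 7 (A - 2) / 3 ≥ 2 A + 1`.
-/

namespace Pool.Agent.Lib.MP_1ad228_ntC

open Classical

theorem formsPos : ∃ δ : ℝ, 0 < δ ∧ ∃ A0 : ℕ, ∀ A ≥ A0, δ * (2 * A + 1 : ℝ) ^ 20 ≤
    (({f | f ∈ Forms A ∧ LocSol f} : Set (MvPolynomial (Fin 4) ℤ)).ncard : ℝ) := by
  obtain ⟨δ, hδ, A0, h⟩ := pos64
  refine ⟨δ / 7 ^ 20, by positivity, 6 * A0 + 12, fun A hA => ?_⟩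
  have hA1 : A0 ≤ A / 6 := by omega
  have h1 := h (A / 6) hA1
  set B := A / 6 with hB
  have h6B : 6 * B ≤ A := by omega
  set S : Set (MvPolynomial (Fin 4) ℤ) := {f | f ∈ Forms A ∧ LocSol f} with hS
  set T := (Box B).filter fun a => ∃ x : Fin 4 → ℤ, x ≠ 0 ∧ ev a x = 0 with hT
  have hSf : S.Finite := (Forms_finite A).subset fun f hf => hf.1
  have h2 : T.card ≤ (2 * B + 1) ^ 44 * S.ncard := by
    rw [Set.ncard_eq_toFinset_card S hSf]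
    have h3 : T.card ≤ (2 * B + 1) ^ 44 * (T.image poly).card := by
      refine Finset.card_le_mul_card_image T _ fun f _ => ?_
      refine le_trans (Finset.card_le_card ?_) (fib44 B f)
      intro a ha
      rw [Finset.mem_filter] at ha ⊢
      exact ⟨(Finset.mem_filter.1 ha.1).1, ha.2⟩
    refine h3.trans (Nat.mul_le_mul_left _ (Finset.card_le_card ?_))
    intro f hf
    obtain ⟨a, ha, rfl⟩ := Finset.mem_image.1 hf
    rw [hT, Finset.mem_filter] at ha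
    obtain ⟨ha1, x, hx, hx0⟩ := ha
    rw [Set.Finite.mem_toFinset]
    have hm := poly_mem ha1
    refine ⟨⟨hm.1, fun m => (hm.2 m).trans ?_⟩, locSol_of_zero hx hx0⟩
    exact_mod_cast h6B
  have h3 : (T.card : ℝ) ≤ (2 * (B : ℝ) + 1) ^ 44 * (S.ncard : ℝ) := by exact_mod_cast h2
  have h4 : (2 * A + 1 : ℝ) ≤ 7 * (2 * (B : ℝ) + 1) := by
    have : 2 * A + 1 ≤ 7 * (2 * B + 1) := by omega
    exact_mod_cast this
  have h5 : (2 * A + 1 : ℝ) ^ 20 ≤ (7 * (2 * (B : ℝ) + 1)) ^ 20 :=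
    pow_le_pow_left₀ (by positivity) h4 20
  have h8 : (0 : ℝ) < (2 * (B : ℝ) + 1) ^ 44 := by positivity
  refine le_of_mul_le_mul_left ?_ h8
  refine le_trans ?_ (h1.trans h3)
  calc (2 * (B : ℝ) + 1) ^ 44 * (δ / 7 ^ 20 * (2 * A + 1 : ℝ) ^ 20)
      ≤ (2 * (B : ℝ) + 1) ^ 44 * (δ / 7 ^ 20 * (7 * (2 * (B : ℝ) + 1)) ^ 20) := by
        refine mul_le_mul_of_nonneg_left (mul_le_mul_of_nonneg_left h5 (by positivity)) h8.le
    _ = δ * (2 * (B : ℝ) + 1) ^ 64 := by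
        rw [mul_pow 7]
        field_simp

end Pool.Agent.Lib.MP_1ad228_ntC
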