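import Pool.Agent.Lib.MP_1ad228_ntC.FmXfer
import Pool.Agent.Lib.MP_1ad228_ntC.FmMat

/-!
# JOB FormsSing (about 100 lines): few singular cubic forms

Let `N` be the constant of `exists_sing` and `T = {a ∈ Box A | ¬ Smooth (poly a)}`.
(1) `#T ≤ N (4 A + 1)^63`: let `F : Ten ℤ`, `F i j k = if i = j ∧ j = k then 1 else 0`, `poly F = Fer`.  The map `a ↦ b = a - a 0 0 0 • F` sends `T` into `U = {b ∈ Box (2 A) | b 0 0 0 = 0}`, and
the fibre of `b` is mapped injectively by `a ↦ a 0 0 0` (`a = b + a 0 0 0 • F`) to a finite set `S` of integers `s` with `¬ Smooth (poly b + C s * Fer)`, so it has at most `N` elements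
(`poly_hom`; `Finset.card_le_mul_card_image`).  `#U ≤ (4 A + 1)^63`: a `piFinset` with one factor `{0}` (`Fintype.card_piFinset`, `Fin.prod_univ_four`), or: `U × Icc (-2A) (2A)` injects into
`Box (2 A)` (replace the entry `0 0 0`), `card_Box`, and cancel `4 A + 1`.
(2) `xfer` with `S = {f ∈ Forms A | ¬ Smooth f}` and `T`: `#S (A / 5 + 1)^44 ≤ N (4 A + 1)^63 ≤ N 2^63 (2 A + 1)^63`, and `A / 5 + 1 ≥ (2 A + 1) / 10`
(real numbers; `Nat.lt_div_mul_add`-type), so `#S ≤ N 2^63 10^44 (2 A + 1)^19`.  `C = N 2^63 10^44 + 1`.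
-/

namespace Pool.Agent.Lib.MP_1ad228_ntC

open Classical

private theorem FormsSing_add (a b : Ten ℤ) : poly (a + b) = poly a + poly b := by
  unfold poly
  simp only [Pi.add_apply, map_add, Finset.sum_add_distrib]

private theorem FormsSing_smul (s : ℤ) (a : Ten ℤ) : poly (s • a) = MvPolynomial.C s * poly a := by
  unfold poly
  simp only [Pi.smul_apply, smul_eq_mul, Finset.mul_sum, MvPolynomial.C_mul_monomial]

/-- the Fermat tensor -/
private def FormsSing_F : Ten ℤ := fun i j k => if i = j ∧ j = k then 1 else 0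

private theorem FormsSing_Fer : poly FormsSing_F = Fer := by
  unfold poly Fer
  refine Finset.sum_congr rfl fun i _ => ?_
  rw [Finset.sum_eq_single i]
  · rw [Finset.sum_eq_single i]
    · unfold FormsSing_F
      rw [if_pos ⟨rfl, rfl⟩, MvPolynomial.X_pow_eq_monomial]
      unfold mo
      rw [← Finsupp.single_add, ← Finsupp.single_add]
    · intro k _ hk
      unfold FormsSing_F
      rw [if_neg (fun h => hk h.2.symm), map_zero]
    · intro h
      exact absurd (Finset.mem_univ i) h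
  · intro j _ hj
    refine Finset.sum_eq_zero fun k _ => ?_
    unfold FormsSing_F
    rw [if_neg (fun h => hj h.1.symm), map_zero]
  · intro h
    exact absurd (Finset.mem_univ i) h

private theorem FormsSing_U (B K : ℕ) (hK : (Box B).card = (2 * B + 1) ^ (K + 1)) :
    ((Box B).filter fun b => b 0 0 0 = 0).card ≤ (2 * B + 1) ^ K := by
  have h1 : ((Box B).filter fun b => b 0 0 0 = 0).card * (2 * B + 1) ≤ (Box B).card := by
    have h2 : (Finset.Icc (-(B : ℤ)) (B : ℤ)).card = 2 * B + 1 := by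
      rw [Int.card_Icc]
      omega
    rw [← h2, ← Finset.card_product]
    refine Finset.card_le_card_of_injOn
      (fun x => fun i j k => if i = 0 ∧ j = 0 ∧ k = 0 then x.2 else x.1 i j k) ?_ ?_
    · rintro ⟨b, t⟩ hx
      rw [Finset.mem_coe, Finset.mem_product, Finset.mem_filter, Finset.mem_Icc] at hx
      obtain ⟨⟨hb, -⟩, ht⟩ := hx
      rw [Finset.mem_coe, mem_Box]
      intro i j k
      show |if i = 0 ∧ j = 0 ∧ k = 0 then t else b i j k| ≤ (B : ℤ)
      split_ifs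
      · exact abs_le.2 ht
      · exact (mem_Box.1 hb) i j k
    · rintro ⟨b, t⟩ hx ⟨b', t'⟩ hx' he
      rw [Finset.mem_coe, Finset.mem_product, Finset.mem_filter] at hx hx'
      have hb0 : b 0 0 0 = 0 := hx.1.2
      have hb0' : b' 0 0 0 = 0 := hx'.1.2
      have he' : ∀ i j k, (if i = 0 ∧ j = 0 ∧ k = 0 then t else b i j k) =
          if i = 0 ∧ j = 0 ∧ k = 0 then t' else b' i j k := fun i j k =>
        congrFun (congrFun (congrFun he i) j) k
      have ht : t = t' := by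
        have h3 := he' 0 0 0
        rwa [if_pos ⟨rfl, rfl, rfl⟩, if_pos ⟨rfl, rfl, rfl⟩] at h3
      have hb : b = b' := by
        funext i j k
        by_cases h : i = 0 ∧ j = 0 ∧ k = 0
        · obtain ⟨rfl, rfl, rfl⟩ := h
          rw [hb0, hb0']
        · have h3 := he' i j k
          rwa [if_neg h, if_neg h] at h3
      rw [ht, hb]
  rw [hK, pow_succ] at h1
  exact Nat.le_of_mul_le_mul_right h1 (Nat.succ_pos _)

private theorem FormsSing_T (N A K : ℕ) (hN : ∀ f : MvPolynomial (Fin 4) ℤ, f.IsHomogeneous 3 →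
    ∀ S : Finset ℤ, (∀ s ∈ S, ¬ Smooth (f + MvPolynomial.C s * Fer)) → S.card ≤ N)
    (hK : (Box (2 * A)).card = (2 * (2 * A) + 1) ^ (K + 1)) :
    ((Box A).filter fun a => ¬ Smooth (poly a)).card ≤ N * (2 * (2 * A) + 1) ^ K := by
  refine (Finset.card_le_mul_card_image (f := fun a : Ten ℤ => a - a 0 0 0 • FormsSing_F) _ N
    ?_).trans (Nat.mul_le_mul_left N ?_)
  · intro b _
    obtain ⟨T, hT⟩ : ∃ T, T = ((Box A).filter fun a => ¬ Smooth (poly a)).filter
      (fun a => a - a 0 0 0 • FormsSing_F = b) := ⟨_, rfl⟩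
    have hmem : ∀ a ∈ T, ¬ Smooth (poly a) ∧ a = b + a 0 0 0 • FormsSing_F := by
      intro a ha
      rw [hT, Finset.mem_filter, Finset.mem_filter] at ha
      exact ⟨ha.1.2, (sub_eq_iff_eq_add.1 ha.2)⟩
    have hinj : Set.InjOn (fun a : Ten ℤ => a 0 0 0) (T : Set (Ten ℤ)) := by
      intro a ha a' ha' h
      have h' : a 0 0 0 = a' 0 0 0 := h
      rw [(hmem a ha).2, (hmem a' ha').2, h']
    have h1 := hN (poly b) (poly_hom b) (T.image fun a => a 0 0 0) (by
      intro s hs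
      rw [Finset.mem_image] at hs
      obtain ⟨a, ha, rfl⟩ := hs
      rw [← FormsSing_Fer, ← FormsSing_smul, ← FormsSing_add, ← (hmem a ha).2]
      exact (hmem a ha).1)
    rw [Finset.card_image_of_injOn hinj, hT] at h1
    exact h1
  · refine (Finset.card_le_card ?_).trans (FormsSing_U (2 * A) K hK)
    intro b hb
    rw [Finset.mem_image] at hb
    obtain ⟨a, ha, rfl⟩ := hb
    rw [Finset.mem_filter] at ha
    have ha1 := mem_Box.1 ha.1
    rw [Finset.mem_filter, mem_Box]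
    refine ⟨fun i j k => ?_, ?_⟩
    · show |a i j k - a 0 0 0 * FormsSing_F i j k| ≤ ((2 * A : ℕ) : ℤ)
      have h1 := abs_le.1 (ha1 i j k)
      have h2 := abs_le.1 (ha1 0 0 0)
      unfold FormsSing_F
      rw [abs_le]
      push_cast
      split_ifs
      · constructor <;> linarith
      · constructor <;> linarith
    · show a 0 0 0 - a 0 0 0 * FormsSing_F 0 0 0 = 0
      unfold FormsSing_F
      rw [if_pos ⟨rfl, rfl⟩, mul_one, sub_self]

private theorem FormsSing_real (s N A a c : ℕ)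
    (h : s * (A / 5 + 1) ^ a ≤ N * (2 * (2 * A) + 1) ^ (a + c)) :
    (s : ℝ) ≤ ((N : ℝ) * 2 ^ (a + c) * 10 ^ a + 1) * (2 * A + 1 : ℝ) ^ c := by
  have hQ : (0 : ℝ) < 2 * A + 1 := by positivity
  obtain ⟨Q, hQd⟩ : ∃ Q : ℝ, Q = 2 * A + 1 := ⟨_, rfl⟩
  rw [← hQd] at hQ ⊢
  have h1 : (s : ℝ) * (((A / 5 : ℕ) : ℝ) + 1) ^ a ≤ (N : ℝ) * (2 * (2 * A) + 1) ^ (a + c) := by
    exact_mod_cast h
  have h2 : Q / 10 ≤ ((A / 5 : ℕ) : ℝ) + 1 := by
    have h3 : A < 5 * (A / 5) + 5 := by omega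
    have h4 : (A : ℝ) < 5 * ((A / 5 : ℕ) : ℝ) + 5 := by exact_mod_cast h3
    have h5 : A + 1 ≤ 5 * (A / 5) + 5 := h3
    have h6 : (A : ℝ) + 1 ≤ 5 * ((A / 5 : ℕ) : ℝ) + 5 := by exact_mod_cast h5
    rw [hQd]
    linarith
  have h7 : (s : ℝ) * (Q / 10) ^ a ≤ (N : ℝ) * (2 * Q) ^ (a + c) := by
    calc (s : ℝ) * (Q / 10) ^ a ≤ (s : ℝ) * (((A / 5 : ℕ) : ℝ) + 1) ^ a := by
          gcongr
      _ ≤ (N : ℝ) * (2 * (2 * A) + 1) ^ (a + c) := h1
      _ ≤ (N : ℝ) * (2 * Q) ^ (a + c) := by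
          gcongr
          rw [hQd]
          linarith
  have h8 : (s : ℝ) * (Q / 10) ^ a * (10 ^ a / Q ^ a) = s := by
    rw [div_pow]
    have h9 : Q ^ a ≠ 0 := (pow_pos hQ a).ne'
    have h10 : (10 : ℝ) ^ a ≠ 0 := (pow_pos (by norm_num) a).ne'
    field_simp
  have h11 : (N : ℝ) * (2 * Q) ^ (a + c) * (10 ^ a / Q ^ a) = (N : ℝ) * 2 ^ (a + c) * 10 ^ a * Q ^ c := by
    rw [mul_pow, pow_add Q a c]
    have h9 : Q ^ a ≠ 0 := (pow_pos hQ a).ne'
    field_simp
  have h12 : (s : ℝ) ≤ (N : ℝ) * 2 ^ (a + c) * 10 ^ a * Q ^ c := by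
    rw [← h8, ← h11]
    exact mul_le_mul_of_nonneg_right h7 (by positivity)
  have h13 : 0 ≤ Q ^ c := by positivity
  rw [add_mul, one_mul]
  linarith

theorem formsSing : ∃ C : ℝ, 0 < C ∧ ∀ A : ℕ,
    (({f | f ∈ Forms A ∧ ¬ Smooth f} : Set (MvPolynomial (Fin 4) ℤ)).ncard : ℝ)
      ≤ C * (2 * A + 1 : ℝ) ^ 19 := by
  obtain ⟨N, hN⟩ := exists_sing
  refine ⟨(N : ℝ) * 2 ^ (44 + 19) * 10 ^ 44 + 1, by positivity, fun A => ?_⟩
  apply FormsSing_real _ N A 44 19
  refine (xfer {f | f ∈ Forms A ∧ ¬ Smooth f} (fun f hf => hf.1)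
    ((Box A).filter fun a => ¬ Smooth (poly a)) ?_).trans ?_
  · intro f hf a ha he
    rw [Finset.mem_filter]
    refine ⟨ha, ?_⟩
    rw [he]
    exact hf.2
  · exact FormsSing_T N A 63 hN (card_Box (2 * A))

end Pool.Agent.Lib.MP_1ad228_ntC
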