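import Pool.Agent.Lib.MP_1ad228_ntC.FormsBad
import Pool.Agent.Lib.MP_1ad228_ntC.FormsPos
import Pool.Agent.Lib.MP_1ad228_ntC.FormsSing

/-!
MP_1ad228_nt, stream C: the final statements on cubic forms.
-/

namespace Pool.Agent.Lib.MP_1ad228_ntC

theorem ff_split (A : ℕ) :
    (({f | f ∈ Forms A ∧ LocSol f} : Set (MvPolynomial (Fin 4) ℤ)).ncard : ℝ) ≤
      (({f | f ∈ Forms A ∧ Smooth f ∧ LocSol f} : Set (MvPolynomial (Fin 4) ℤ)).ncard : ℝ) +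
      (({f | f ∈ Forms A ∧ ¬ Smooth f} : Set (MvPolynomial (Fin 4) ℤ)).ncard : ℝ) := by
  have hfin := Forms_finite A
  have h1 : ({f | f ∈ Forms A ∧ LocSol f} : Set (MvPolynomial (Fin 4) ℤ)) ⊆
      {f | f ∈ Forms A ∧ Smooth f ∧ LocSol f} ∪ {f | f ∈ Forms A ∧ ¬ Smooth f} := by
    rintro f ⟨h1, h2⟩
    by_cases hs : Smooth f
    · exact Or.inl ⟨h1, hs, h2⟩
    · exact Or.inr ⟨h1, hs⟩
  have h2 : ({f | f ∈ Forms A ∧ Smooth f ∧ LocSol f} ∪ {f | f ∈ Forms A ∧ ¬ Smooth f} :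
      Set (MvPolynomial (Fin 4) ℤ)).Finite :=
    (hfin.subset fun f hf => hf.1).union (hfin.subset fun f hf => hf.1)
  have h3 := (Set.ncard_le_ncard h1 h2).trans (Set.ncard_union_le _ _)
  exact_mod_cast h3

theorem forms_pos_smooth : ∃ δ : ℝ, 0 < δ ∧ ∃ A0 : ℕ, ∀ A ≥ A0, δ * (2 * A + 1 : ℝ) ^ 20 ≤
    (({f | f ∈ Forms A ∧ Smooth f ∧ LocSol f} : Set (MvPolynomial (Fin 4) ℤ)).ncard : ℝ) := by
  obtain ⟨δ, hδ, A1, h1⟩ := formsPos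
  obtain ⟨C, hC, h2⟩ := formsSing
  refine ⟨δ / 2, by positivity, max A1 ⌈2 * C / δ⌉₊, fun A hA => ?_⟩
  have hA1 : A1 ≤ A := (le_max_left _ _).trans hA
  have hA2 : 2 * C / δ ≤ (A : ℝ) := (Nat.le_ceil _).trans (by exact_mod_cast (le_max_right _ _).trans hA)
  have h3 := h1 A hA1
  have h4 := h2 A
  have h5 := ff_split A
  have h6 : C * (2 * A + 1 : ℝ) ^ 19 ≤ δ / 2 * (2 * A + 1 : ℝ) ^ 20 := by
    have h7 : 2 * C ≤ A * δ := by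
      rwa [div_le_iff₀ hδ] at hA2
    have h8 : (0 : ℝ) ≤ (2 * A + 1 : ℝ) ^ 19 := by positivity
    have h9 : C ≤ δ / 2 * (2 * A + 1 : ℝ) := by
      have : (0 : ℝ) ≤ A * δ := by positivity
      nlinarith
    calc C * (2 * A + 1 : ℝ) ^ 19 ≤ (δ / 2 * (2 * A + 1 : ℝ)) * (2 * A + 1 : ℝ) ^ 19 :=
          mul_le_mul_of_nonneg_right h9 h8
      _ = δ / 2 * (2 * A + 1 : ℝ) ^ 20 := by ring
  linarith

theorem forms_hundred (ε : ℝ) (hε : 0 < ε) : ∃ M A0 : ℕ, ∀ A ≥ A0,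
    (({f | f ∈ Forms A ∧ Smooth f ∧ LocSol f ∧ ¬ SmallZero (M * A) f} :
      Set (MvPolynomial (Fin 4) ℤ)).ncard : ℝ) ≤
      ε * (({f | f ∈ Forms A ∧ Smooth f ∧ LocSol f} : Set (MvPolynomial (Fin 4) ℤ)).ncard : ℝ) := by
  obtain ⟨δ, hδ, A1, h1⟩ := forms_pos_smooth
  obtain ⟨M, A2, h2⟩ := formsBad (ε * δ) (by positivity)
  refine ⟨M, max A1 A2, fun A hA => ?_⟩
  have hA1 : A1 ≤ A := (le_max_left _ _).trans hA
  have hA2 : A2 ≤ A := (le_max_right _ _).trans hA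
  have hfin := Forms_finite A
  have h3 : (({f | f ∈ Forms A ∧ Smooth f ∧ LocSol f ∧ ¬ SmallZero (M * A) f} :
      Set (MvPolynomial (Fin 4) ℤ)).ncard : ℝ) ≤
      (({f | f ∈ Forms A ∧ LocSol f ∧ ¬ SmallZero (M * A) f} :
        Set (MvPolynomial (Fin 4) ℤ)).ncard : ℝ) := by
    have h4 := Set.ncard_le_ncard (s := {f | f ∈ Forms A ∧ Smooth f ∧ LocSol f ∧ ¬ SmallZero (M * A) f})
      (t := {f | f ∈ Forms A ∧ LocSol f ∧ ¬ SmallZero (M * A) f})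
      (fun f hf => ⟨hf.1, hf.2.2.1, hf.2.2.2⟩) (hfin.subset fun f hf => hf.1)
    exact_mod_cast h4
  calc _ ≤ _ := h3
    _ ≤ ε * δ * (2 * A + 1 : ℝ) ^ 20 := h2 A hA2
    _ = ε * (δ * (2 * A + 1 : ℝ) ^ 20) := by ring
    _ ≤ _ := mul_le_mul_of_nonneg_left (h1 A hA1) hε.le

end Pool.Agent.Lib.MP_1ad228_ntC
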