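import Pool.Agent.Lib.MP_1ad228_ntC.Basic

/-! MP_1ad228_nt stream C, piece LD (local densities, paper section 8): one definition. -/

namespace Pool.Agent.Lib.MP_1ad228_ntC

open Classical

/-- Ideal generated by the 2 x 2 minors of `(x, y)`. -/
def II {R : Type*} [CommRing R] (x y : Fin 4 → R) : Ideal R :=
  Ideal.span (Set.range fun s : Fin 4 × Fin 4 => mn x y s.1 s.2)

theorem mn_mem_II {R : Type*} [CommRing R] (x y : Fin 4 → R) (i j : Fin 4) :
    mn x y i j ∈ II x y := Ideal.subset_span ⟨(i, j), rfl⟩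

end Pool.Agent.Lib.MP_1ad228_ntC
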