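import Pool.Agent.Lib.MP_1ad228_ntC.LD_Base

/-!
JOB LD_Cnt (MP_1ad228_nt stream C, piece LD).

LD_tors.  For `c ∣ m`, `m = c * d`: `c * t = 0` in `ZMod m` iff `m ∣ c * t.val` iff `d ∣ t.val`;
the numbers `t.val < m` divisible by `d` are `d * s`, `s < c`.  (Or: bijection `Fin c ≃ ...`,
`s ↦ (d * s : ZMod m)`.)

LD_cardI.  An ideal `I` of `ZMod m` is an additive subgroup of a group with `m` elements: its
cardinality divides `m` (`AddSubgroup.card_addSubgroup_dvd_card`, `Nat.card_zmod`), and every element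
is killed by the order of the group (`card_nsmul_eq_zero'` in the additive group `I`).

LD_cnty.  Put `T = {t | c * t = 0}` (`c` elements by LD_tors).  Let `lin u x = 1`.  If
`Nat.card (II x y) = c` then all minors `mn x y i j` lie in `II x y`, hence in `T` (LD_cardI).  With
`lam = lin u y`: `y j - lam * x j = ∑ i, u i * mn x y i j` (because `∑ u i x i = 1`), so
`w = y - lam • x` has all coordinates in `T`.  Consider the finite set `P = ZMod m × (Fin 4 → T)` with
`m * c ^ 4` elements and the map `Φ (lam, w) = lam • x + w`.  Every `y` as above is in the image, and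
every nonempty fibre has at least `c` elements: `(lam + t, w - t • x)`, `t ∈ T`, all have the same
image.  So `#{y} * c ≤ m * c ^ 4`, and `c > 0` (as `c ∣ m`, `m ≠ 0`), so `#{y} ≤ m * c ^ 3`.
Cleaner version: the map `{y} × T → ZMod m × (Fin 4 → T)`,
`(y, t) ↦ (lin u y + t, y - (lin u y + t) • x)` is injective
(`y` is recovered as `lam • x + w`, then `t = lam - lin u y`); so
`#{y} * c ≤ m * c ^ 4` by `Nat.card_le_card_of_injective`.
-/

namespace Pool.Agent.Lib.MP_1ad228_ntC

open Classical

theorem LD_tors (m : ℕ) [NeZero m] (c : ℕ) (hc : c ∣ m) :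
    Nat.card {t : ZMod m // (c : ZMod m) * t = 0} = c := by
  obtain ⟨d, hd⟩ := hc
  have hm0 : m ≠ 0 := NeZero.ne m
  have hc0 : 0 < c := Nat.pos_of_ne_zero (by rintro rfl; simp at hd; exact hm0 hd)
  have hd0 : 0 < d := Nat.pos_of_ne_zero (by rintro rfl; simp at hd; exact hm0 hd)
  have key : ∀ t : ZMod m, (c : ZMod m) * t = 0 ↔ d ∣ t.val := by
    intro t
    have h1 : (c : ZMod m) * t = ((c * t.val : ℕ) : ZMod m) := by
      rw [Nat.cast_mul, ZMod.natCast_zmod_val]
    rw [h1, ZMod.natCast_eq_zero_iff]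
    constructor
    · intro h
      have h2 : c * d ∣ c * t.val := by rw [← hd]; exact h
      exact Nat.dvd_of_mul_dvd_mul_left hc0 h2
    · intro h
      have h2 : c * d ∣ c * t.val := Nat.mul_dvd_mul_left c h
      rw [← hd] at h2; exact h2
  have hlt : ∀ s : Fin c, d * (s : ℕ) < m := by
    intro s
    rw [hd, mul_comm c d]
    exact Nat.mul_lt_mul_of_pos_left s.2 hd0
  have hval : ∀ s : Fin c, (((d * (s : ℕ) : ℕ) : ZMod m)).val = d * (s : ℕ) := fun s =>
    ZMod.val_cast_of_lt (hlt s)
  let f : Fin c → {t : ZMod m // (c : ZMod m) * t = 0} := fun s =>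
    ⟨((d * (s : ℕ) : ℕ) : ZMod m), (key _).2 (by rw [hval]; exact Dvd.intro _ rfl)⟩
  have hf : Function.Bijective f := by
    constructor
    · intro s s' h
      have h1 : ((d * (s : ℕ) : ℕ) : ZMod m) = ((d * (s' : ℕ) : ℕ) : ZMod m) :=
        congrArg Subtype.val h
      have h2 := congrArg ZMod.val h1
      rw [hval, hval] at h2
      exact Fin.ext (Nat.eq_of_mul_eq_mul_left hd0 h2)
    · rintro ⟨t, ht⟩
      obtain ⟨s, hs⟩ := (key t).1 ht
      have hs' : s < c := by
        have h3 : t.val < m := ZMod.val_lt t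
        rw [hs, hd, mul_comm c d] at h3
        exact Nat.lt_of_mul_lt_mul_left h3
      refine ⟨⟨s, hs'⟩, Subtype.ext ?_⟩
      show ((d * s : ℕ) : ZMod m) = t
      rw [← hs, ZMod.natCast_zmod_val]
  have h := Nat.card_eq_of_bijective f hf
  rw [← h, Nat.card_eq_fintype_card, Fintype.card_fin]

theorem LD_cardI (m : ℕ) [NeZero m] (I : Ideal (ZMod m)) :
    Nat.card I ∣ m ∧ ∀ t ∈ I, ((Nat.card I : ℕ) : ZMod m) * t = 0 := by
  constructor
  · have h := AddSubgroup.card_addSubgroup_dvd_card (Submodule.toAddSubgroup I)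
    rw [Nat.card_zmod] at h
    exact h
  · intro t ht
    have h : Nat.card I • (⟨t, ht⟩ : I) = 0 := card_nsmul_eq_zero'
    have h2 := congrArg Subtype.val h
    rw [← nsmul_eq_mul]
    exact h2

theorem LD_cnty (m : ℕ) [NeZero m] (x : Fin 4 → ZMod m) (hx : Uni x) (c : ℕ) (hc : c ∣ m) :
    Nat.card {y : Fin 4 → ZMod m // Nat.card (II x y) = c} ≤ m * c ^ 3 := by
  obtain ⟨u, hu⟩ := hx
  have hm0 : m ≠ 0 := NeZero.ne m
  have hc0 : 0 < c := Nat.pos_of_ne_zero (by rintro rfl; exact hm0 (zero_dvd_iff.1 hc))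
  have hT := LD_tors m c hc
  have hw : ∀ y : Fin 4 → ZMod m, Nat.card (II x y) = c → ∀ j,
      (c : ZMod m) * (y j - lin u y * x j) = 0 := by
    intro y hy j
    have h1 : y j - lin u y * x j = ∑ i, u i * mn x y i j := by
      have h2 : y j = lin u x * y j := by rw [hu, one_mul]
      calc y j - lin u y * x j = lin u x * y j - lin u y * x j := by rw [← h2]
        _ = ∑ i, u i * mn x y i j := by
          simp only [lin, mn, Finset.sum_mul, mul_sub, Finset.sum_sub_distrib]
          refine congrArg₂ (· - ·) (Finset.sum_congr rfl fun i _ => by ring)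
            (Finset.sum_congr rfl fun i _ => by ring)
    rw [h1, Finset.mul_sum]
    refine Finset.sum_eq_zero fun i _ => ?_
    have h3 := (LD_cardI m (II x y)).2 (mn x y i j) (mn_mem_II x y i j)
    rw [hy] at h3
    calc (c : ZMod m) * (u i * mn x y i j) = u i * ((c : ZMod m) * mn x y i j) := by ring
      _ = 0 := by rw [h3, mul_zero]
  let T := {t : ZMod m // (c : ZMod m) * t = 0}
  let Y := {y : Fin 4 → ZMod m // Nat.card (II x y) = c}
  let Φ : Y × T → ZMod m × (Fin 4 → T) := fun q =>
    (lin u q.1.1 + q.2.1, fun j => ⟨q.1.1 j - (lin u q.1.1 + q.2.1) * x j, by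
      have h1 := hw q.1.1 q.1.2 j
      have h2 := q.2.2
      calc (c : ZMod m) * (q.1.1 j - (lin u q.1.1 + q.2.1) * x j)
          = (c : ZMod m) * (q.1.1 j - lin u q.1.1 * x j) - ((c : ZMod m) * q.2.1) * x j := by ring
        _ = 0 := by rw [h1, h2]; ring⟩)
  have hΦ : Function.Injective Φ := by
    rintro ⟨⟨y, hy⟩, ⟨t, ht⟩⟩ ⟨⟨y', hy'⟩, ⟨t', ht'⟩⟩ h
    have h1 : lin u y + t = lin u y' + t' := congrArg Prod.fst h
    have h2 : ∀ j, y j - (lin u y + t) * x j = y' j - (lin u y' + t') * x j := by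
      intro j
      have h3 := congrFun (congrArg Prod.snd h) j
      exact congrArg Subtype.val h3
    have h4 : y = y' := by
      funext j
      have := h2 j
      rw [h1] at this
      exact sub_left_injective this
    subst h4
    have h5 : t = t' := add_left_cancel h1
    subst h5
    rfl
  have hcard := Nat.card_le_card_of_injective Φ hΦ
  rw [Nat.card_prod, Nat.card_prod, Nat.card_zmod, Nat.card_fun, hT,
    Nat.card_eq_fintype_card (α := Fin 4), Fintype.card_fin] at hcard
  have h6 : Nat.card Y * c ≤ (m * c ^ 3) * c := by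
    calc Nat.card Y * c ≤ m * c ^ 4 := hcard
      _ = (m * c ^ 3) * c := by ring
  exact Nat.le_of_mul_le_mul_right h6 hc0

end Pool.Agent.Lib.MP_1ad228_ntC
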