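import Pool.Agent.Lib.MP_1ad228_ntC.LD_Cnt

/-!
MP_1ad228_nt stream C, piece LD: sum of squares of divisors, number of unimodular vectors mod m.
-/

namespace Pool.Agent.Lib.MP_1ad228_ntC

open Classical

theorem LD_sq (m : ℕ) [NeZero m] (p0 : ℕ) (hp0 : 1 ≤ p0) (hd : ∀ d, d ∣ m → 1 < d → p0 < d) :
    ∑ c ∈ m.divisors, (c : ℝ) ^ 2 ≤ (m : ℝ) ^ 2 * (1 + 1 / p0) := by
  have hm : m ≠ 0 := NeZero.ne m
  have h1 : ∑ c ∈ m.divisors, (c : ℝ) ^ 2 = (m : ℝ) ^ 2 * ∑ d ∈ m.divisors, ((d : ℝ) ^ 2)⁻¹ := by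
    rw [← Nat.sum_div_divisors m (fun c => (c : ℝ) ^ 2), Finset.mul_sum]
    refine Finset.sum_congr rfl fun d hd' => ?_
    have hdm := Nat.dvd_of_mem_divisors hd'
    have hd0 : (d : ℝ) ≠ 0 := by
      have := Nat.pos_of_mem_divisors hd'
      positivity
    rw [Nat.cast_div hdm hd0]
    field_simp
  rw [h1]
  refine mul_le_mul_of_nonneg_left ?_ (by positivity)
  have h1m : 1 ∈ m.divisors := Nat.mem_divisors.mpr ⟨one_dvd _, hm⟩
  rw [← Finset.add_sum_erase _ _ h1m]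
  have h2 : ∑ d ∈ m.divisors.erase 1, ((d : ℝ) ^ 2)⁻¹
      ≤ ∑ d ∈ Finset.Ioc p0 (max p0 m), ((d : ℝ) ^ 2)⁻¹ := by
    refine Finset.sum_le_sum_of_subset_of_nonneg ?_ (fun _ _ _ => by positivity)
    intro d hd'
    rw [Finset.mem_erase] at hd'
    have hdm := Nat.dvd_of_mem_divisors hd'.2
    have hpos := Nat.pos_of_mem_divisors hd'.2
    rw [Finset.mem_Ioc]
    exact ⟨hd d hdm (by omega), (Nat.le_of_dvd (Nat.pos_of_ne_zero hm) hdm).trans (le_max_right _ _)⟩
  have h3 := sum_Ioc_inv_sq_le_sub (α := ℝ) (k := p0) (n := max p0 m) (by omega) (le_max_left _ _)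
  have h4 : (0 : ℝ) ≤ ((max p0 m : ℕ) : ℝ)⁻¹ := by positivity
  have h5 : (1 : ℝ) / p0 = (p0 : ℝ)⁻¹ := one_div _
  rw [h5]
  have h6 : (((1 : ℕ) : ℝ) ^ 2)⁻¹ = 1 := by norm_num
  rw [h6]
  linarith

theorem LD_uni (m : ℕ) [NeZero m] (p0 : ℕ) (hp0 : 1 ≤ p0) (hd : ∀ d, d ∣ m → 1 < d → p0 < d) :
    (m : ℝ) ^ 4 * (1 - 1 / p0) ≤ (Nat.card {x : Fin 4 → ZMod m // Uni x} : ℝ) := by
  have hm : m ≠ 0 := NeZero.ne m
  let T : ℕ → Finset (ZMod m) := fun c => Finset.univ.filter fun t => (c : ZMod m) * t = 0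
  have hT : ∀ c, c ∣ m → (T c).card = c := by
    intro c hc
    have := LD_tors m c hc
    rw [Nat.card_eq_fintype_card, Fintype.card_subtype] at this
    exact this
  let N : Finset (Fin 4 → ZMod m) := Finset.univ.filter fun x => ¬ Uni x
  have hsub : N ⊆ (m.divisors.erase m).biUnion fun c => Fintype.piFinset fun _ => T c := by
    intro x hx
    have hx' : ¬ Uni x := (Finset.mem_filter.mp hx).2
    obtain ⟨hc, hk⟩ := LD_cardI m (Ideal.span (Set.range x))
    rw [Finset.mem_biUnion]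
    refine ⟨Nat.card (Ideal.span (Set.range x)), ?_, ?_⟩
    · rw [Finset.mem_erase]
      refine ⟨?_, Nat.mem_divisors.mpr ⟨hc, hm⟩⟩
      intro hcm
      apply hx'
      have htop : Ideal.span (Set.range x) = ⊤ := by
        have h1 : (1 : ZMod m) ∈ Ideal.span (Set.range x) := by
          have hinj : Function.Injective
              (fun t : Ideal.span (Set.range x) => (t : ZMod m)) := Subtype.val_injective
          have hb : Function.Bijective
              (fun t : Ideal.span (Set.range x) => (t : ZMod m)) := by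
            refine (Nat.bijective_iff_injective_and_card _).mpr ⟨hinj, ?_⟩
            rw [Nat.card_zmod]
            exact hcm
          obtain ⟨t, ht⟩ := hb.2 1
          rw [← ht]
          exact t.2
        exact (Ideal.eq_top_iff_one _).mpr h1
      have h1 : (1 : ZMod m) ∈ Ideal.span (Set.range x) := (Ideal.eq_top_iff_one _).mp htop
      obtain ⟨u, hu⟩ := Ideal.mem_span_range_iff_exists_fun.mp h1
      exact ⟨u, hu⟩
    · rw [Fintype.mem_piFinset]
      intro i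
      exact Finset.mem_filter.mpr ⟨Finset.mem_univ _,
        hk (x i) (Ideal.subset_span ⟨i, rfl⟩)⟩
  have hN : (N.card : ℝ) ≤ ∑ c ∈ m.divisors.erase m, (c : ℝ) ^ 4 := by
    have h1 : N.card ≤ ∑ c ∈ m.divisors.erase m, (Fintype.piFinset fun _ : Fin 4 => T c).card :=
      (Finset.card_le_card hsub).trans Finset.card_biUnion_le
    have h2 : ∑ c ∈ m.divisors.erase m, (Fintype.piFinset fun _ : Fin 4 => T c).card
        = ∑ c ∈ m.divisors.erase m, c ^ 4 := by
      refine Finset.sum_congr rfl fun c hc => ?_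
      have hcm := Nat.dvd_of_mem_divisors (Finset.mem_of_mem_erase hc)
      simp [Fintype.card_piFinset, hT c hcm]
    rw [h2] at h1
    exact_mod_cast h1
  have hsq := LD_sq m p0 hp0 hd
  have hmm : m ∈ m.divisors := Nat.mem_divisors.mpr ⟨dvd_rfl, hm⟩
  rw [← Finset.add_sum_erase _ _ hmm] at hsq
  have h4 : ∑ c ∈ m.divisors.erase m, (c : ℝ) ^ 4
      ≤ (m : ℝ) ^ 2 * ∑ c ∈ m.divisors.erase m, (c : ℝ) ^ 2 := by
    rw [Finset.mul_sum]
    refine Finset.sum_le_sum fun c hc => ?_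
    have hcm : (c : ℝ) ≤ m := by
      exact_mod_cast Nat.divisor_le (Finset.mem_of_mem_erase hc)
    have : (c : ℝ) ^ 2 ≤ (m : ℝ) ^ 2 := by gcongr
    nlinarith [sq_nonneg (c : ℝ)]
  have h5 : (m : ℝ) ^ 2 * ∑ c ∈ m.divisors.erase m, (c : ℝ) ^ 2 ≤ (m : ℝ) ^ 4 * (1 / p0) := by
    have : ∑ c ∈ m.divisors.erase m, (c : ℝ) ^ 2 ≤ (m : ℝ) ^ 2 * (1 / p0) := by nlinarith
    calc (m : ℝ) ^ 2 * ∑ c ∈ m.divisors.erase m, (c : ℝ) ^ 2
        ≤ (m : ℝ) ^ 2 * ((m : ℝ) ^ 2 * (1 / p0)) := mul_le_mul_of_nonneg_left this (by positivity)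
      _ = _ := by ring
  have h6 : (Nat.card {x : Fin 4 → ZMod m // Uni x} : ℝ) + N.card = (m : ℝ) ^ 4 := by
    have h7 : Nat.card {x : Fin 4 → ZMod m // Uni x}
        = (Finset.univ.filter fun x : Fin 4 → ZMod m => Uni x).card := by
      rw [Nat.card_eq_fintype_card, Fintype.card_subtype]
    have h8 := Finset.card_filter_add_card_filter_not
      (s := (Finset.univ : Finset (Fin 4 → ZMod m))) (fun x => Uni x)
    have h9 : (Finset.univ : Finset (Fin 4 → ZMod m)).card = m ^ 4 := by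
      rw [Finset.card_univ, Fintype.card_fun, ZMod.card, Fintype.card_fin]
    rw [h7]
    rw [h9] at h8
    exact_mod_cast h8
  have h10 : (m : ℝ) ^ 4 * (1 - 1 / p0) = (m : ℝ) ^ 4 - (m : ℝ) ^ 4 * (1 / p0) := by ring
  rw [h10]
  linarith

end Pool.Agent.Lib.MP_1ad228_ntC
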