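import Pool.Agent.Lib.MP_1ad228_ntC.LD_Ker
import Pool.Agent.Lib.MP_1ad228_ntC.LD_Uni

/-!
JOB LD_Mom (MP_1ad228_nt stream C, piece LD).   (LD_Ker, LD_Cnt, LD_Uni are other jobs: use their
theorems LD_ker1, LD_ker2, LD_cardI, LD_cnty, LD_sq, LD_uni.)

Put `U = Nat.card {x // Uni x}` (`U ≤ m^4`), `s(a) = sm m a = #{x // Uni x ∧ ev a x = 0}`.

LD_mom1.  Exchange the order: `∑_a s(a) = ∑_{x Uni} #{a // ev a x = 0}` and each term times `m` is
`m ^ 64` (LD_ker1), so each term is `m ^ 63`.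

LD_mom2.  `∑_a s(a)^2 = ∑_{x Uni} ∑_{y Uni} #{a // ev a x = 0 ∧ ev a y = 0}` and by LD_ker2 the term
is `≤ m^64 / (m * card (II x y)) = m^63 / card (II x y)` (`card (II x y) > 0`).  For fixed `x` group
`y` by `c = card (II x y)`, a divisor of `m` (LD_cardI): `∑_y 1 / card (II x y) ≤ ∑_{c ∣ m} (m c^3) / c
= m ∑_{c ∣ m} c^2 ≤ m^3 (1 + 1/p0)` (LD_cnty, LD_sq).

LD_M1.  Chebyshev.  `E = U / m` is the average of `s` (LD_mom1); `V = ∑_a (s(a) - E)^2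
= ∑ s^2 - 2 E ∑ s + m^64 E^2 ≤ U m^66 (1+1/p0) - U^2 m^62 = U m^62 (m^4 (1+1/p0) - U)
≤ U m^62 * (2 m^4/p0) ≤ 2 m^70 / p0` (LD_uni, `U ≤ m^4`).  If `s(a) ≤ m^3/2` then
`E - s(a) ≥ m^3 (1 - 1/p0) - m^3/2 ≥ (3/8) m^3` since `p0 ≥ 8`.  So
`#{a} * (9/64) m^6 ≤ 2 m^70 / p0`, `#{a} ≤ (128/9) m^64 / p0 ≤ 16 / p0 * m^64`.
-/

namespace Pool.Agent.Lib.MP_1ad228_ntC

open Classical

private theorem LD_Mom_card (m : ℕ) [NeZero m] (P : (Fin 4 → ZMod m) → Prop) :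
    (Nat.card {x : Fin 4 → ZMod m // P x} : ℝ) =
      ((Finset.univ.filter fun x : Fin 4 → ZMod m => P x).card : ℝ) := by
  rw [Nat.card_eq_fintype_card, Fintype.card_subtype]

private theorem LD_Mom_cardT (m : ℕ) [NeZero m] (P : Ten (ZMod m) → Prop) :
    Nat.card {a : Ten (ZMod m) // P a} = (Finset.univ.filter fun a : Ten (ZMod m) => P a).card := by
  rw [Nat.card_eq_fintype_card, Fintype.card_subtype]

private theorem LD_Mom_sm (m : ℕ) [NeZero m] (a : Ten (ZMod m)) :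
    (sm m a : ℝ) = ∑ x ∈ Finset.univ.filter (fun x : Fin 4 → ZMod m => Uni x),
      (if ev a x = 0 then (1 : ℝ) else 0) := by
  unfold sm
  rw [LD_Mom_card, Finset.sum_boole, Finset.filter_filter]
  refine congrArg _ (congrArg Finset.card ?_)
  ext x
  simp only [Finset.mem_filter]

private theorem LD_Mom_pos (m : ℕ) [NeZero m] : (0 : ℝ) < (m : ℝ) := by
  have : 0 < m := Nat.pos_of_ne_zero (NeZero.ne m)
  exact_mod_cast this

theorem LD_mom1 (m : ℕ) [NeZero m] :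
    ∑ a : Ten (ZMod m), (sm m a : ℝ) =
      (Nat.card {x : Fin 4 → ZMod m // Uni x} : ℝ) * (m : ℝ) ^ 63 := by
  have hm := LD_Mom_pos m
  have h1 : ∀ x ∈ Finset.univ.filter (fun x : Fin 4 → ZMod m => Uni x),
      ∑ a : Ten (ZMod m), (if ev a x = 0 then (1 : ℝ) else 0) = (m : ℝ) ^ 63 := by
    intro x hx
    have hu : Uni x := (Finset.mem_filter.mp hx).2
    have hk := LD_ker1 m x hu
    rw [LD_Mom_cardT] at hk
    rw [Finset.sum_boole]
    have h2 : (((Finset.univ.filter fun a : Ten (ZMod m) => ev a x = 0).card : ℝ)) * (m : ℝ) =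
        (m : ℝ) ^ 64 := by
      exact_mod_cast hk
    have h3 : (m : ℝ) ^ 64 = (m : ℝ) ^ 63 * m := by ring
    rw [h3] at h2
    exact mul_right_cancel₀ hm.ne' h2
  calc ∑ a : Ten (ZMod m), (sm m a : ℝ)
      = ∑ a : Ten (ZMod m), ∑ x ∈ Finset.univ.filter (fun x : Fin 4 → ZMod m => Uni x),
          (if ev a x = 0 then (1 : ℝ) else 0) := Finset.sum_congr rfl fun a _ => LD_Mom_sm m a
    _ = ∑ x ∈ Finset.univ.filter (fun x : Fin 4 → ZMod m => Uni x), ∑ a : Ten (ZMod m),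
          (if ev a x = 0 then (1 : ℝ) else 0) := Finset.sum_comm
    _ = ∑ x ∈ Finset.univ.filter (fun x : Fin 4 → ZMod m => Uni x), (m : ℝ) ^ 63 :=
        Finset.sum_congr rfl h1
    _ = _ := by rw [Finset.sum_const, nsmul_eq_mul, LD_Mom_card]

private theorem LD_Mom_pair (m : ℕ) [NeZero m] (x y : Fin 4 → ZMod m) (hx : Uni x) (hy : Uni y) :
    ∑ a : Ten (ZMod m), ((if ev a x = 0 then (1 : ℝ) else 0) * (if ev a y = 0 then (1 : ℝ) else 0))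
      ≤ (m : ℝ) ^ 63 / (Nat.card (II x y) : ℝ) := by
  have hm := LD_Mom_pos m
  have hc : 0 < Nat.card (II x y) := Nat.card_pos
  have hc' : (0 : ℝ) < (Nat.card (II x y) : ℝ) := by exact_mod_cast hc
  have hk := LD_ker2 m x y hx hy
  rw [LD_Mom_cardT] at hk
  have h1 : ∑ a : Ten (ZMod m),
      ((if ev a x = 0 then (1 : ℝ) else 0) * (if ev a y = 0 then (1 : ℝ) else 0)) =
      ((Finset.univ.filter fun a : Ten (ZMod m) => ev a x = 0 ∧ ev a y = 0).card : ℝ) := by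
    rw [← Finset.sum_boole]
    refine Finset.sum_congr rfl fun a _ => ?_
    by_cases h : ev a x = 0
    · by_cases h' : ev a y = 0
      · simp [h, h']
      · simp [h, h']
    · simp [h]
  rw [h1, le_div_iff₀ hc']
  have h2 : ((Finset.univ.filter fun a : Ten (ZMod m) => ev a x = 0 ∧ ev a y = 0).card : ℝ) *
      ((m : ℝ) * (Nat.card (II x y) : ℝ)) ≤ (m : ℝ) ^ 64 := by
    exact_mod_cast hk
  have h3 : (m : ℝ) ^ 64 = (m : ℝ) ^ 63 * m := by ring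
  rw [h3] at h2
  refine le_of_mul_le_mul_right ?_ hm
  calc _ = ((Finset.univ.filter fun a : Ten (ZMod m) => ev a x = 0 ∧ ev a y = 0).card : ℝ) *
      ((m : ℝ) * (Nat.card (II x y) : ℝ)) := by ring
    _ ≤ _ := h2

private theorem LD_Mom_row (m : ℕ) [NeZero m] (p0 : ℕ) (hp0 : 1 ≤ p0)
    (hd : ∀ d, d ∣ m → 1 < d → p0 < d) (x : Fin 4 → ZMod m) (hx : Uni x) :
    ∑ y ∈ Finset.univ.filter (fun y : Fin 4 → ZMod m => Uni y),
      (m : ℝ) ^ 63 / (Nat.card (II x y) : ℝ) ≤ (m : ℝ) ^ 66 * (1 + 1 / p0) := by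
  have hm := LD_Mom_pos m
  have hm0 : m ≠ 0 := NeZero.ne m
  have h1 : ∑ y ∈ Finset.univ.filter (fun y : Fin 4 → ZMod m => Uni y),
      (m : ℝ) ^ 63 / (Nat.card (II x y) : ℝ) ≤
      ∑ y : Fin 4 → ZMod m, (m : ℝ) ^ 63 / (Nat.card (II x y) : ℝ) :=
    Finset.sum_le_sum_of_subset_of_nonneg (Finset.filter_subset _ _)
      (fun y _ _ => by positivity)
  have hmap : ∀ y ∈ (Finset.univ : Finset (Fin 4 → ZMod m)), Nat.card (II x y) ∈ m.divisors := by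
    intro y _
    exact Nat.mem_divisors.mpr ⟨(LD_cardI m (II x y)).1, hm0⟩
  rw [← Finset.sum_fiberwise_of_maps_to hmap] at h1
  refine h1.trans ?_
  have h2 : ∀ c ∈ m.divisors,
      ∑ y ∈ Finset.univ.filter (fun y : Fin 4 → ZMod m => Nat.card (II x y) = c),
        (m : ℝ) ^ 63 / (Nat.card (II x y) : ℝ) ≤ (m : ℝ) ^ 64 * (c : ℝ) ^ 2 := by
    intro c hc
    have hcd : c ∣ m := Nat.dvd_of_mem_divisors hc
    have hc0 : 0 < c := Nat.pos_of_mem_divisors hc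
    have hc' : (0 : ℝ) < (c : ℝ) := by exact_mod_cast hc0
    have h3 : ∑ y ∈ Finset.univ.filter (fun y : Fin 4 → ZMod m => Nat.card (II x y) = c),
        (m : ℝ) ^ 63 / (Nat.card (II x y) : ℝ) =
        ∑ y ∈ Finset.univ.filter (fun y : Fin 4 → ZMod m => Nat.card (II x y) = c),
        (m : ℝ) ^ 63 / (c : ℝ) := by
      refine Finset.sum_congr rfl fun y hy => ?_
      rw [(Finset.mem_filter.mp hy).2]
    rw [h3, Finset.sum_const, nsmul_eq_mul]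
    have h4 : ((Finset.univ.filter fun y : Fin 4 → ZMod m => Nat.card (II x y) = c).card : ℝ) ≤
        (m : ℝ) * (c : ℝ) ^ 3 := by
      have := LD_cnty m x hx c hcd
      rw [Nat.card_eq_fintype_card, Fintype.card_subtype] at this
      exact_mod_cast this
    calc ((Finset.univ.filter fun y : Fin 4 → ZMod m => Nat.card (II x y) = c).card : ℝ) *
          ((m : ℝ) ^ 63 / (c : ℝ))
        ≤ ((m : ℝ) * (c : ℝ) ^ 3) * ((m : ℝ) ^ 63 / (c : ℝ)) := by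
          exact mul_le_mul_of_nonneg_right h4 (by positivity)
      _ = (m : ℝ) ^ 64 * (c : ℝ) ^ 2 := by
          field_simp
  refine (Finset.sum_le_sum h2).trans ?_
  rw [← Finset.mul_sum]
  calc (m : ℝ) ^ 64 * ∑ c ∈ m.divisors, (c : ℝ) ^ 2
      ≤ (m : ℝ) ^ 64 * ((m : ℝ) ^ 2 * (1 + 1 / p0)) :=
        mul_le_mul_of_nonneg_left (LD_sq m p0 hp0 hd) (by positivity)
    _ = _ := by ring

theorem LD_mom2 (m : ℕ) [NeZero m] (p0 : ℕ) (hp0 : 1 ≤ p0) (hd : ∀ d, d ∣ m → 1 < d → p0 < d) :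
    ∑ a : Ten (ZMod m), (sm m a : ℝ) ^ 2 ≤
      (Nat.card {x : Fin 4 → ZMod m // Uni x} : ℝ) * ((m : ℝ) ^ 66 * (1 + 1 / p0)) := by
  set S := Finset.univ.filter (fun x : Fin 4 → ZMod m => Uni x) with hS
  calc ∑ a : Ten (ZMod m), (sm m a : ℝ) ^ 2
      = ∑ a : Ten (ZMod m), ∑ x ∈ S, ∑ y ∈ S,
          ((if ev a x = 0 then (1 : ℝ) else 0) * (if ev a y = 0 then (1 : ℝ) else 0)) := by
        refine Finset.sum_congr rfl fun a _ => ?_
        rw [LD_Mom_sm, pow_two, Finset.sum_mul_sum]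
    _ = ∑ x ∈ S, ∑ y ∈ S, ∑ a : Ten (ZMod m),
          ((if ev a x = 0 then (1 : ℝ) else 0) * (if ev a y = 0 then (1 : ℝ) else 0)) := by
        rw [Finset.sum_comm]
        refine Finset.sum_congr rfl fun x _ => ?_
        rw [Finset.sum_comm]
    _ ≤ ∑ x ∈ S, ∑ y ∈ S, (m : ℝ) ^ 63 / (Nat.card (II x y) : ℝ) := by
        refine Finset.sum_le_sum fun x hx => Finset.sum_le_sum fun y hy => ?_
        exact LD_Mom_pair m x y (Finset.mem_filter.mp hx).2 (Finset.mem_filter.mp hy).2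
    _ ≤ ∑ x ∈ S, (m : ℝ) ^ 66 * (1 + 1 / p0) := by
        refine Finset.sum_le_sum fun x hx => ?_
        exact LD_Mom_row m p0 hp0 hd x (Finset.mem_filter.mp hx).2
    _ = _ := by rw [Finset.sum_const, nsmul_eq_mul, LD_Mom_card]

theorem LD_M1 (m : ℕ) [NeZero m] (p0 : ℕ) (hp0 : 8 ≤ p0) (hd : ∀ d, d ∣ m → 1 < d → p0 < d) :
    ((Finset.univ.filter fun a : Ten (ZMod m) => (sm m a : ℝ) ≤ (m : ℝ) ^ 3 / 2).card : ℝ) ≤
      16 / p0 * (m : ℝ) ^ 64 := by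
  have hm := LD_Mom_pos m
  have hp1 : 1 ≤ p0 := by omega
  have hp : (8 : ℝ) ≤ (p0 : ℝ) := by exact_mod_cast hp0
  have hp' : (0 : ℝ) < (p0 : ℝ) := by linarith
  set U : ℝ := (Nat.card {x : Fin 4 → ZMod m // Uni x} : ℝ) with hU
  have hU1 : (m : ℝ) ^ 4 * (1 - 1 / p0) ≤ U := LD_uni m p0 hp1 hd
  have hU0 : 0 ≤ U := by positivity
  have hU2 : U ≤ (m : ℝ) ^ 4 := by
    have h : Nat.card {x : Fin 4 → ZMod m // Uni x} ≤ Nat.card (Fin 4 → ZMod m) :=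
      Nat.card_le_card_of_injective _ Subtype.val_injective
    have h' : Nat.card (Fin 4 → ZMod m) = m ^ 4 := by
      rw [Nat.card_eq_fintype_card, Fintype.card_pi]
      simp [ZMod.card]
    rw [h'] at h
    rw [hU]
    exact_mod_cast h
  have hm1 := LD_mom1 m
  have hm2 := LD_mom2 m p0 hp1 hd
  have hcardT : ((Finset.univ : Finset (Ten (ZMod m))).card : ℝ) = (m : ℝ) ^ 64 := by
    have : (Finset.univ : Finset (Ten (ZMod m))).card = m ^ 64 := by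
      rw [Finset.card_univ]
      simp only [Fintype.card_pi, ZMod.card, Finset.prod_const, Finset.card_univ, Fintype.card_fin]
      rw [← pow_mul, ← pow_mul]
    exact_mod_cast this
  have hV : ∑ a : Ten (ZMod m), ((sm m a : ℝ) - U / m) ^ 2 ≤ 2 * (m : ℝ) ^ 70 / p0 := by
    have e1 : ∑ a : Ten (ZMod m), ((sm m a : ℝ) - U / m) ^ 2 =
        ∑ a : Ten (ZMod m), (sm m a : ℝ) ^ 2 - U ^ 2 * (m : ℝ) ^ 62 := by
      have e2 : ∀ a : Ten (ZMod m), ((sm m a : ℝ) - U / m) ^ 2 =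
          (sm m a : ℝ) ^ 2 - (2 * (U / m)) * (sm m a : ℝ) + (U / m) ^ 2 := fun a => by ring
      simp only [e2]
      rw [Finset.sum_add_distrib, Finset.sum_sub_distrib, ← Finset.mul_sum, hm1,
        Finset.sum_const, nsmul_eq_mul, hcardT]
      field_simp
      ring
    rw [e1]
    have e3 : ∑ a : Ten (ZMod m), (sm m a : ℝ) ^ 2 - U ^ 2 * (m : ℝ) ^ 62 ≤
        U * ((m : ℝ) ^ 66 * (1 + 1 / p0)) - U ^ 2 * (m : ℝ) ^ 62 := by linarith
    refine e3.trans ?_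
    have e4 : U * ((m : ℝ) ^ 66 * (1 + 1 / p0)) - U ^ 2 * (m : ℝ) ^ 62 =
        U * ((m : ℝ) ^ 62 * ((m : ℝ) ^ 4 * (1 + 1 / p0) - U)) := by ring
    rw [e4]
    have e5 : (m : ℝ) ^ 4 * (1 + 1 / p0) - U ≤ 2 * (m : ℝ) ^ 4 / p0 := by
      have : (m : ℝ) ^ 4 * (1 + 1 / p0) - (m : ℝ) ^ 4 * (1 - 1 / p0) = 2 * (m : ℝ) ^ 4 / p0 := by
        ring
      linarith
    have e6 : (0 : ℝ) ≤ (m : ℝ) ^ 62 := by positivity
    calc U * ((m : ℝ) ^ 62 * ((m : ℝ) ^ 4 * (1 + 1 / p0) - U))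
        ≤ U * ((m : ℝ) ^ 62 * (2 * (m : ℝ) ^ 4 / p0)) := by
          exact mul_le_mul_of_nonneg_left (mul_le_mul_of_nonneg_left e5 e6) hU0
      _ ≤ (m : ℝ) ^ 4 * ((m : ℝ) ^ 62 * (2 * (m : ℝ) ^ 4 / p0)) := by
          exact mul_le_mul_of_nonneg_right hU2 (by positivity)
      _ = 2 * (m : ℝ) ^ 70 / p0 := by ring
  set T := Finset.univ.filter (fun a : Ten (ZMod m) => (sm m a : ℝ) ≤ (m : ℝ) ^ 3 / 2) with hT
  have hlow : (T.card : ℝ) * ((3 / 8 * (m : ℝ) ^ 3) ^ 2) ≤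
      ∑ a : Ten (ZMod m), ((sm m a : ℝ) - U / m) ^ 2 := by
    calc (T.card : ℝ) * ((3 / 8 * (m : ℝ) ^ 3) ^ 2)
        = ∑ a ∈ T, ((3 / 8 * (m : ℝ) ^ 3) ^ 2) := by rw [Finset.sum_const, nsmul_eq_mul]
      _ ≤ ∑ a ∈ T, ((sm m a : ℝ) - U / m) ^ 2 := by
          refine Finset.sum_le_sum fun a ha => ?_
          have h1 : (sm m a : ℝ) ≤ (m : ℝ) ^ 3 / 2 := (Finset.mem_filter.mp ha).2
          have h2 : (m : ℝ) ^ 3 * (1 - 1 / p0) ≤ U / m := by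
            rw [le_div_iff₀ hm]
            calc (m : ℝ) ^ 3 * (1 - 1 / p0) * m = (m : ℝ) ^ 4 * (1 - 1 / p0) := by ring
              _ ≤ U := hU1
          have h3 : (1 : ℝ) / p0 ≤ 1 / 8 := one_div_le_one_div_of_le (by norm_num) hp
          have h4 : (m : ℝ) ^ 3 * (7 / 8) ≤ (m : ℝ) ^ 3 * (1 - 1 / p0) :=
            mul_le_mul_of_nonneg_left (by linarith) (by positivity)
          have h5 : 3 / 8 * (m : ℝ) ^ 3 ≤ U / m - (sm m a : ℝ) := by linarith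
          have h6 : (0 : ℝ) ≤ 3 / 8 * (m : ℝ) ^ 3 := by positivity
          have h7 : (3 / 8 * (m : ℝ) ^ 3) ^ 2 ≤ (U / m - (sm m a : ℝ)) ^ 2 :=
            pow_le_pow_left₀ h6 h5 2
          calc (3 / 8 * (m : ℝ) ^ 3) ^ 2 ≤ (U / m - (sm m a : ℝ)) ^ 2 := h7
            _ = ((sm m a : ℝ) - U / m) ^ 2 := by ring
      _ ≤ _ := Finset.sum_le_sum_of_subset_of_nonneg (Finset.filter_subset _ _)
          (fun a _ _ => by positivity)
  have hfin : (T.card : ℝ) * ((3 / 8 * (m : ℝ) ^ 3) ^ 2) ≤ 2 * (m : ℝ) ^ 70 / p0 := hlow.trans hV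
  have hm6 : (0 : ℝ) < 9 / 64 * (m : ℝ) ^ 6 := by positivity
  refine le_of_mul_le_mul_right ?_ hm6
  calc (T.card : ℝ) * (9 / 64 * (m : ℝ) ^ 6) = (T.card : ℝ) * ((3 / 8 * (m : ℝ) ^ 3) ^ 2) := by ring
    _ ≤ 2 * (m : ℝ) ^ 70 / p0 := hfin
    _ ≤ 16 / p0 * (m : ℝ) ^ 64 * (9 / 64 * (m : ℝ) ^ 6) := by
        have : 16 / p0 * (m : ℝ) ^ 64 * (9 / 64 * (m : ℝ) ^ 6) = (9 / 4) * ((m : ℝ) ^ 70 / p0) := by
          ring
        rw [this]
        have h0 : (0 : ℝ) ≤ (m : ℝ) ^ 70 / p0 := by positivity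
        have h1 : 2 * (m : ℝ) ^ 70 / p0 = 2 * ((m : ℝ) ^ 70 / p0) := by ring
        rw [h1]
        linarith

end Pool.Agent.Lib.MP_1ad228_ntC
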