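import Pool.Agent.Lib.MP_1ad228_ntC.PerpSpan

/-!
JOB Span2.  Tensors vanishing at two non proportional `H`-good points are spanned by 216 short
integer tensors.

PROOF.  Let `f` be the three short vectors of `x`, `g` those of `y`. Index `t = (π, s, s', j)`, `π` one of
the six ordered pairs of distinct slots: `c t` has `f_s` in the first slot of the pair, `g_s'` in the second
slot of the pair, `e_j = Pi.single j 1` in the remaining slot (six `ten`s, a `match`/`![..]` on `Fin 6`).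
By `ev_ten` it vanishes at `x` and at `y`; entries at most `H * H`.
Spanning: take `j` with `D := mn x y 1 j ≠ 0`; rational vectors `p = (y_j e_1 - y_1 e_j)/D`,
`r = (-x_j e_1 + x_1 e_j)/D`: `p(x) = 1, p(y) = 0, r(x) = 0, r(y) = 1`. For `i` put `P_i = x_i p`,
`R_i = y_i r`, `h_i = e_i - P_i - R_i` (kills `x` and `y`), `α_i = P_i + h_i` (kills `y`),
`β_i = R_i + h_i` (kills `x`). Identity of tensors:
  `e_i⊗e_j⊗e_k = P_i⊗P_j⊗P_k + R_i⊗R_j⊗R_k + β_i⊗α_j⊗e_k + P_i⊗β_j⊗e_k + P_i⊗P_j⊗β_k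
      + β_i⊗R_j⊗α_k + h_i⊗R_j⊗R_k`.
Each of the last five terms has a factor killing `x` in one slot and a factor killing `y` in a different
slot, so it lies in the rational span of the casts of the `c t` (by `perpSpan` for `x` and for `y`; work with
the `Submodule ℚ (Ten ℚ)` spanned by `ct ℚ (c t)`). Multiply by `b_ijk` and sum: the first terms give
`ev b x • p⊗p⊗p = 0` and `ev b y • r⊗r⊗r = 0`.
-/

namespace Pool.Agent.Lib.MP_1ad228_ntC

open Classical

private def span2_A (v w : Fin 4 → ℚ) : (Fin 4 → ℚ) →ₗ[ℚ] Ten ℚ where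
  toFun u := ten u v w
  map_add' a b := by funext i j k; simp only [ten, Pi.add_apply]; ring
  map_smul' r a := by
    funext i j k
    simp only [ten, Pi.smul_apply, smul_eq_mul, RingHom.id_apply]
    ring

private def span2_B (u w : Fin 4 → ℚ) : (Fin 4 → ℚ) →ₗ[ℚ] Ten ℚ where
  toFun v := ten u v w
  map_add' a b := by funext i j k; simp only [ten, Pi.add_apply]; ring
  map_smul' r a := by
    funext i j k
    simp only [ten, Pi.smul_apply, smul_eq_mul, RingHom.id_apply]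
    ring

private def span2_C (u v : Fin 4 → ℚ) : (Fin 4 → ℚ) →ₗ[ℚ] Ten ℚ where
  toFun w := ten u v w
  map_add' a b := by funext i j k; simp only [ten, Pi.add_apply]; ring
  map_smul' r a := by
    funext i j k
    simp only [ten, Pi.smul_apply, smul_eq_mul, RingHom.id_apply]
    ring

private theorem span2_mem (S : Submodule ℚ (Ten ℚ)) {A B C : Set (Fin 4 → ℚ)}
    (h : ∀ a ∈ A, ∀ b ∈ B, ∀ c ∈ C, ten a b c ∈ S) {u v w : Fin 4 → ℚ}
    (hu : u ∈ Submodule.span ℚ A) (hv : v ∈ Submodule.span ℚ B) (hw : w ∈ Submodule.span ℚ C) :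
    ten u v w ∈ S := by
  have h1 : ∀ a ∈ A, ∀ b ∈ B, ten a b w ∈ S := by
    intro a ha b hb
    have h2 : Submodule.span ℚ C ≤ S.comap (span2_C a b) :=
      Submodule.span_le.2 fun c hc => h a ha b hb c hc
    exact h2 hw
  have h3 : ∀ a ∈ A, ten a v w ∈ S := by
    intro a ha
    have h2 : Submodule.span ℚ B ≤ S.comap (span2_B a w) :=
      Submodule.span_le.2 fun b hb => h1 a ha b hb
    exact h2 hv
  have h2 : Submodule.span ℚ A ≤ S.comap (span2_A v w) :=
    Submodule.span_le.2 fun a ha => h3 a ha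
  exact h2 hu

private theorem span2_top (v : Fin 4 → ℚ) :
    v ∈ Submodule.span ℚ (Set.range fun j : Fin 4 => (Pi.single j 1 : Fin 4 → ℚ)) := by
  have h := (Pi.basisFun ℚ (Fin 4)).span_eq
  have h2 : (Set.range fun j : Fin 4 => (Pi.single j 1 : Fin 4 → ℚ)) =
      Set.range (Pi.basisFun ℚ (Fin 4)) := by
    congr 1
    funext j
    rw [Pi.basisFun_apply]
  rw [h2, h]
  trivial

private theorem span2_perp (x : Fin 4 → ℤ) (hx : x ≠ 0) (f : Fin 3 → Fin 4 → ℤ)
    (hf : LinearIndependent ℤ f) (h0 : ∀ s, lin (f s) x = 0) {u : Fin 4 → ℚ}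
    (hu : lin u (cv ℚ x) = 0) :
    u ∈ Submodule.span ℚ (Set.range fun s : Fin 3 => cv ℚ (f s)) := by
  obtain ⟨t, ht⟩ := perpSpan x hx f hf h0 u hu
  have h1 : u = ∑ s, t s • cv ℚ (f s) := by
    funext i
    rw [ht i, Finset.sum_apply]
    rfl
  rw [h1]
  exact Submodule.sum_mem _ fun s _ => Submodule.smul_mem _ _ (Submodule.subset_span ⟨s, rfl⟩)

private theorem span2_ct (u v w : Fin 4 → ℤ) :
    ct ℚ (ten u v w) = ten (cv ℚ u) (cv ℚ v) (cv ℚ w) := by
  funext i j k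
  simp [ct, ten, cv]

private theorem span2_cvs (j : Fin 4) : cv ℚ (Pi.single j 1 : Fin 4 → ℤ) = Pi.single j 1 := by
  funext i
  simp only [cv, Pi.single_apply]
  split_ifs <;> simp

private theorem span2_sum (b : Ten ℚ) :
    b = ∑ i, ∑ j, ∑ k, b i j k • ten (Pi.single i 1) (Pi.single j 1) (Pi.single k 1) := by
  funext i j k
  simp [Finset.sum_apply, Pi.smul_apply, ten, Pi.single_apply]

private def span2_c (f g : Fin 3 → Fin 4 → ℤ) (t : Fin 6 × Fin 3 × Fin 3 × Fin 4) : Ten ℤ :=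
  (![ten (f t.2.1) (g t.2.2.1) (Pi.single t.2.2.2 1),
    ten (g t.2.2.1) (f t.2.1) (Pi.single t.2.2.2 1),
    ten (f t.2.1) (Pi.single t.2.2.2 1) (g t.2.2.1),
    ten (g t.2.2.1) (Pi.single t.2.2.2 1) (f t.2.1),
    ten (Pi.single t.2.2.2 1) (f t.2.1) (g t.2.2.1),
    ten (Pi.single t.2.2.2 1) (g t.2.2.1) (f t.2.1)] : Fin 6 → Ten ℤ) t.1

private theorem span2_le {H : ℕ} {a b c : ℤ} (ha : |a| ≤ (H : ℤ)) (hb : |b| ≤ (H : ℤ))
    (hc : |c| ≤ 1) : |a * b * c| ≤ (H : ℤ) ^ 2 := by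
  rw [abs_mul, abs_mul]
  calc |a| * |b| * |c| ≤ H * H * 1 := by gcongr
    _ = (H : ℤ) ^ 2 := by ring

private theorem span2_e (i j : Fin 4) : |(Pi.single i 1 : Fin 4 → ℤ) j| ≤ 1 := by
  rw [Pi.single_apply]
  split_ifs <;> simp

theorem span2 (H : ℕ) (x y : Fin 4 → ℤ) (hxy : ∃ j, mn x y 1 j ≠ 0) (hx : HGood H x)
    (hy : HGood H y) :
    ∃ c : (Fin 6 × Fin 3 × Fin 3 × Fin 4) → Ten ℤ, (∀ t, ev (c t) x = 0) ∧
      (∀ t, ev (c t) y = 0) ∧ (∀ t i j k, |c t i j k| ≤ (H : ℤ) ^ 2) ∧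
      ∀ b : Ten ℚ, ev b (cv ℚ x) = 0 → ev b (cv ℚ y) = 0 →
        ∃ r : (Fin 6 × Fin 3 × Fin 3 × Fin 4) → ℚ,
          ∀ i j k, b i j k = ∑ t, r t * (c t i j k : ℚ) := by
  obtain ⟨f, hf, hf0, hfH⟩ := hx
  obtain ⟨g, hg, hg0, hgH⟩ := hy
  obtain ⟨j0, hj0⟩ := hxy
  have hx0 : x ≠ 0 := by
    intro h
    apply hj0
    simp [mn, h]
  have hy0 : y ≠ 0 := by
    intro h
    apply hj0
    simp [mn, h]
  refine ⟨span2_c f g, ?_, ?_, ?_, ?_⟩
  · rintro ⟨a, s, s', j⟩
    fin_cases a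
    · show ev (ten (f s) (g s') (Pi.single j 1)) x = 0
      rw [ev_ten, hf0]
      ring
    · show ev (ten (g s') (f s) (Pi.single j 1)) x = 0
      rw [ev_ten, hf0]
      ring
    · show ev (ten (f s) (Pi.single j 1) (g s')) x = 0
      rw [ev_ten, hf0]
      ring
    · show ev (ten (g s') (Pi.single j 1) (f s)) x = 0
      rw [ev_ten, hf0]
      ring
    · show ev (ten (Pi.single j 1) (f s) (g s')) x = 0
      rw [ev_ten, hf0]
      ring
    · show ev (ten (Pi.single j 1) (g s') (f s)) x = 0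
      rw [ev_ten, hf0]
      ring
  · rintro ⟨a, s, s', j⟩
    fin_cases a
    · show ev (ten (f s) (g s') (Pi.single j 1)) y = 0
      rw [ev_ten, hg0]
      ring
    · show ev (ten (g s') (f s) (Pi.single j 1)) y = 0
      rw [ev_ten, hg0]
      ring
    · show ev (ten (f s) (Pi.single j 1) (g s')) y = 0
      rw [ev_ten, hg0]
      ring
    · show ev (ten (g s') (Pi.single j 1) (f s)) y = 0
      rw [ev_ten, hg0]
      ring
    · show ev (ten (Pi.single j 1) (f s) (g s')) y = 0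
      rw [ev_ten, hg0]
      ring
    · show ev (ten (Pi.single j 1) (g s') (f s)) y = 0
      rw [ev_ten, hg0]
      ring
  · rintro ⟨a, s, s', j⟩ i₁ i₂ i₃
    fin_cases a
    · show |f s i₁ * g s' i₂ * (Pi.single j 1 : Fin 4 → ℤ) i₃| ≤ (H : ℤ) ^ 2
      exact span2_le (hfH s i₁) (hgH s' i₂) (span2_e j i₃)
    · show |g s' i₁ * f s i₂ * (Pi.single j 1 : Fin 4 → ℤ) i₃| ≤ (H : ℤ) ^ 2
      exact span2_le (hgH s' i₁) (hfH s i₂) (span2_e j i₃)
    · show |f s i₁ * (Pi.single j 1 : Fin 4 → ℤ) i₂ * g s' i₃| ≤ (H : ℤ) ^ 2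
      rw [mul_right_comm]
      exact span2_le (hfH s i₁) (hgH s' i₃) (span2_e j i₂)
    · show |g s' i₁ * (Pi.single j 1 : Fin 4 → ℤ) i₂ * f s i₃| ≤ (H : ℤ) ^ 2
      rw [mul_right_comm]
      exact span2_le (hgH s' i₁) (hfH s i₃) (span2_e j i₂)
    · show |(Pi.single j 1 : Fin 4 → ℤ) i₁ * f s i₂ * g s' i₃| ≤ (H : ℤ) ^ 2
      rw [mul_assoc, mul_comm]
      exact span2_le (hfH s i₂) (hgH s' i₃) (span2_e j i₁)
    · show |(Pi.single j 1 : Fin 4 → ℤ) i₁ * g s' i₂ * f s i₃| ≤ (H : ℤ) ^ 2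
      rw [mul_assoc, mul_comm]
      exact span2_le (hgH s' i₂) (hfH s i₃) (span2_e j i₁)
  · intro b hbx hby
    let S : Submodule ℚ (Ten ℚ) := Submodule.span ℚ (Set.range fun t => ct ℚ (span2_c f g t))
    have m0 : ∀ u v w : Fin 4 → ℚ, lin u (cv ℚ x) = 0 → lin v (cv ℚ y) = 0 → ten u v w ∈ S := by
      intro u v w hu hv
      refine span2_mem S ?_ (span2_perp x hx0 f hf hf0 hu) (span2_perp y hy0 g hg hg0 hv)
        (span2_top w)
      rintro _ ⟨s, rfl⟩ _ ⟨s', rfl⟩ _ ⟨j, rfl⟩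
      refine Submodule.subset_span ⟨(0, s, s', j), ?_⟩
      show ct ℚ (ten (f s) (g s') (Pi.single j 1)) = _
      rw [span2_ct, span2_cvs]
    have m1 : ∀ u v w : Fin 4 → ℚ, lin u (cv ℚ y) = 0 → lin v (cv ℚ x) = 0 → ten u v w ∈ S := by
      intro u v w hu hv
      refine span2_mem S ?_ (span2_perp y hy0 g hg hg0 hu) (span2_perp x hx0 f hf hf0 hv)
        (span2_top w)
      rintro _ ⟨s', rfl⟩ _ ⟨s, rfl⟩ _ ⟨j, rfl⟩
      refine Submodule.subset_span ⟨(1, s, s', j), ?_⟩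
      show ct ℚ (ten (g s') (f s) (Pi.single j 1)) = _
      rw [span2_ct, span2_cvs]
    have m2 : ∀ u v w : Fin 4 → ℚ, lin u (cv ℚ x) = 0 → lin w (cv ℚ y) = 0 → ten u v w ∈ S := by
      intro u v w hu hw
      refine span2_mem S ?_ (span2_perp x hx0 f hf hf0 hu) (span2_top v)
        (span2_perp y hy0 g hg hg0 hw)
      rintro _ ⟨s, rfl⟩ _ ⟨j, rfl⟩ _ ⟨s', rfl⟩
      refine Submodule.subset_span ⟨(2, s, s', j), ?_⟩
      show ct ℚ (ten (f s) (Pi.single j 1) (g s')) = _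
      rw [span2_ct, span2_cvs]
    have m3 : ∀ u v w : Fin 4 → ℚ, lin u (cv ℚ y) = 0 → lin w (cv ℚ x) = 0 → ten u v w ∈ S := by
      intro u v w hu hw
      refine span2_mem S ?_ (span2_perp y hy0 g hg hg0 hu) (span2_top v)
        (span2_perp x hx0 f hf hf0 hw)
      rintro _ ⟨s', rfl⟩ _ ⟨j, rfl⟩ _ ⟨s, rfl⟩
      refine Submodule.subset_span ⟨(3, s, s', j), ?_⟩
      show ct ℚ (ten (g s') (Pi.single j 1) (f s)) = _
      rw [span2_ct, span2_cvs]
    let X : Fin 4 → ℚ := cv ℚ x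
    let Y : Fin 4 → ℚ := cv ℚ y
    let e : Fin 4 → Fin 4 → ℚ := fun i => Pi.single i 1
    let D : ℚ := X 1 * Y j0 - X j0 * Y 1
    have hD : D ≠ 0 := by
      have h1 : ((mn x y 1 j0 : ℤ) : ℚ) ≠ 0 := by exact_mod_cast hj0
      simpa [mn, D, X, Y, cv] using h1
    let p : Fin 4 → ℚ := D⁻¹ • (Y j0 • e 1 - Y 1 • e j0)
    let r : Fin 4 → ℚ := D⁻¹ • (X 1 • e j0 - X j0 • e 1)
    have hpx : lin p X = 1 := by
      show lin (D⁻¹ • (Y j0 • e 1 - Y 1 • e j0)) X = 1
      rw [lin_smul, lin_sub, lin_smul, lin_smul, lin_single, lin_single]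
      have h1 : Y j0 * X 1 - Y 1 * X j0 = D := by ring
      rw [h1, inv_mul_cancel₀ hD]
    have hpy : lin p Y = 0 := by
      show lin (D⁻¹ • (Y j0 • e 1 - Y 1 • e j0)) Y = 0
      rw [lin_smul, lin_sub, lin_smul, lin_smul, lin_single, lin_single]
      ring
    have hrx : lin r X = 0 := by
      show lin (D⁻¹ • (X 1 • e j0 - X j0 • e 1)) X = 0
      rw [lin_smul, lin_sub, lin_smul, lin_smul, lin_single, lin_single]
      ring
    have hry : lin r Y = 1 := by
      show lin (D⁻¹ • (X 1 • e j0 - X j0 • e 1)) Y = 1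
      rw [lin_smul, lin_sub, lin_smul, lin_smul, lin_single, lin_single]
      exact inv_mul_cancel₀ hD
    let P : Fin 4 → Fin 4 → ℚ := fun i => X i • p
    let R : Fin 4 → Fin 4 → ℚ := fun i => Y i • r
    let h : Fin 4 → Fin 4 → ℚ := fun i => e i - P i - R i
    let α : Fin 4 → Fin 4 → ℚ := fun i => P i + h i
    let β : Fin 4 → Fin 4 → ℚ := fun i => R i + h i
    have kPy : ∀ i, lin (P i) Y = 0 := by
      intro i
      show lin (X i • p) Y = 0
      rw [lin_smul, hpy, mul_zero]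
    have kRx : ∀ i, lin (R i) X = 0 := by
      intro i
      show lin (Y i • r) X = 0
      rw [lin_smul, hrx, mul_zero]
    have khx : ∀ i, lin (h i) X = 0 := by
      intro i
      show lin (e i - X i • p - R i) X = 0
      rw [lin_sub, lin_sub, kRx, lin_smul, hpx, lin_single]
      ring
    have khy : ∀ i, lin (h i) Y = 0 := by
      intro i
      show lin (e i - P i - Y i • r) Y = 0
      rw [lin_sub, lin_sub, kPy, lin_smul, hry, lin_single]
      ring
    have kαy : ∀ i, lin (α i) Y = 0 := by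
      intro i
      show lin (P i + h i) Y = 0
      rw [lin_add, kPy, khy, add_zero]
    have kβx : ∀ i, lin (β i) X = 0 := by
      intro i
      show lin (R i + h i) X = 0
      rw [lin_add, kRx, khx, add_zero]
    have hid : ∀ i j k, ten (e i) (e j) (e k) = (X i * X j * X k) • ten p p p +
        ((Y i * Y j * Y k) • ten r r r + (ten (β i) (α j) (e k) + (ten (P i) (β j) (e k) +
          (ten (P i) (P j) (β k) + (ten (β i) (R j) (α k) + ten (h i) (R j) (R k)))))) := by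
      intro i j k
      funext a b' c'
      simp only [ten, h, α, β, P, R, Pi.add_apply, Pi.smul_apply, Pi.sub_apply, smul_eq_mul]
      ring
    have hb2 : b - ev b X • ten p p p - ev b Y • ten r r r ∈ S := by
      have e1 : b - ev b X • ten p p p - ev b Y • ten r r r =
          ∑ i, ∑ j, ∑ k, b i j k • (ten (β i) (α j) (e k) + (ten (P i) (β j) (e k) +
          (ten (P i) (P j) (β k) + (ten (β i) (R j) (α k) + ten (h i) (R j) (R k))))) := by
        have e2 : b = ∑ i, ∑ j, ∑ k, b i j k • ten (e i) (e j) (e k) := span2_sum b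
        have e3 : ev b X • ten p p p = ∑ i, ∑ j, ∑ k, b i j k • (X i * X j * X k) • ten p p p := by
          unfold ev
          simp only [Finset.sum_smul, mul_smul]
        have e4 : ev b Y • ten r r r = ∑ i, ∑ j, ∑ k, b i j k • (Y i * Y j * Y k) • ten r r r := by
          unfold ev
          simp only [Finset.sum_smul, mul_smul]
        rw [e3, e4]
        refine (congrArg (fun z => z - (∑ i, ∑ j, ∑ k, b i j k • (X i * X j * X k) • ten p p p) -
          ∑ i, ∑ j, ∑ k, b i j k • (Y i * Y j * Y k) • ten r r r) e2).trans ?_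
        show (∑ i, ∑ j, ∑ k, b i j k • ten (e i) (e j) (e k)) -
          (∑ i, ∑ j, ∑ k, b i j k • (X i * X j * X k) • ten p p p) -
          ∑ i, ∑ j, ∑ k, b i j k • (Y i * Y j * Y k) • ten r r r = _
        rw [← Finset.sum_sub_distrib, ← Finset.sum_sub_distrib]
        refine Finset.sum_congr rfl fun i _ => ?_
        rw [← Finset.sum_sub_distrib, ← Finset.sum_sub_distrib]
        refine Finset.sum_congr rfl fun j _ => ?_
        rw [← Finset.sum_sub_distrib, ← Finset.sum_sub_distrib]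
        refine Finset.sum_congr rfl fun k _ => ?_
        rw [hid, smul_add, add_sub_cancel_left, smul_add, add_sub_cancel_left]
      rw [e1]
      refine Submodule.sum_mem _ fun i _ => Submodule.sum_mem _ fun j _ =>
        Submodule.sum_mem _ fun k _ => Submodule.smul_mem _ _ ?_
      exact Submodule.add_mem _ (m0 _ _ _ (kβx i) (kαy j)) (Submodule.add_mem _
        (m1 _ _ _ (kPy i) (kβx j)) (Submodule.add_mem _ (m3 _ _ _ (kPy i) (kβx k))
        (Submodule.add_mem _ (m2 _ _ _ (kβx i) (kαy k)) (m1 _ _ _ (khy i) (kRx j)))))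
    have hb3 : b ∈ S := by
      have e4 : ev b X = 0 := hbx
      have e5 : ev b Y = 0 := hby
      rw [e4, e5, zero_smul, zero_smul, sub_zero, sub_zero] at hb2
      exact hb2
    obtain ⟨t, ht⟩ := (Submodule.mem_span_range_iff_exists_fun ℚ).1 hb3
    refine ⟨t, fun i j k => ?_⟩
    rw [← ht]
    simp only [Finset.sum_apply, Pi.smul_apply, smul_eq_mul, ct]

end Pool.Agent.Lib.MP_1ad228_ntC
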