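import Pool.Agent.Lib.MP_1ad228_ntC.Span1
import Pool.Agent.Lib.MP_1ad228_ntC.Span2
import Pool.Agent.Lib.MP_1ad228_ntC.Round

/-!
JOB LL.  Short integer tensors with given values (paper section 1).

PROOF.  LL1: `span1` gives the integer tensors `c t`; the rational tensor `ct ℚ a - b` vanishes at `x`
(`ev_sub`, `ev_ct`), so it is `∑ r_t c_t`; `roundLem` with `N = H`, card of the index type
`3*3*4*4 = 144`, gives `a' = a - ∑ n_t c_t`, whose value at `x` is that of `a`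
(`ev_sub`, `ev_sum`, `ev_smul`). LL2: the same with `span2`, `N = H^2`, card `6*3*3*4 = 216`.
-/

namespace Pool.Agent.Lib.MP_1ad228_ntC

open Classical

private theorem LL_ev_sub_sum {ι : Type} [Fintype ι] (a : Ten ℤ) (c : ι → Ten ℤ) (n : ι → ℤ)
    (z : Fin 4 → ℤ) (hc : ∀ t, ev (c t) z = 0) :
    ev (fun i j k => a i j k - ∑ t, n t * c t i j k) z = ev a z := by
  have e : (fun i j k => a i j k - ∑ t, n t * c t i j k) = a - ∑ t, n t • c t := by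
    funext i j k
    simp only [Pi.sub_apply, Finset.sum_apply, Pi.smul_apply, smul_eq_mul]
  rw [e, ev_sub, ev_sum]
  simp only [ev_smul', hc, mul_zero, Finset.sum_const_zero, sub_zero]

private theorem LL_vanish (a : Ten ℤ) (b : Ten ℚ) (z : Fin 4 → ℤ)
    (he : ((ev a z : ℤ) : ℚ) = ev b (cv ℚ z)) : ev (ct ℚ a - b) (cv ℚ z) = 0 := by
  rw [ev_sub, ev_ct, he, sub_self]

theorem LL1 (H : ℕ) (x : Fin 4 → ℤ) (hx1 : x 1 ≠ 0) (hx : HGood H x) (a : Ten ℤ) (b : Ten ℚ)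
    (β : ℚ) (hb : ∀ i j k, |b i j k| ≤ β) (he : ((ev a x : ℤ) : ℚ) = ev b (cv ℚ x)) :
    ∃ a' : Ten ℤ, ev a' x = ev a x ∧ ∀ i j k, |(a' i j k : ℚ)| ≤ β + 144 * H := by
  obtain ⟨c, hc1, hc2, hc3⟩ := span1 H x hx1 hx
  obtain ⟨r, hr⟩ := hc3 (ct ℚ a - b) (LL_vanish a b x he)
  obtain ⟨n, hn⟩ := roundLem H a b β hb c hc2 r (fun i j k => by
    have := hr i j k
    simpa [ct] using this)
  refine ⟨fun i j k => a i j k - ∑ t, n t * c t i j k, LL_ev_sub_sum a c n x hc1, fun i j k => ?_⟩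
  have h1 := hn i j k
  have h2 : (Fintype.card (Fin 3 × Fin 3 × Fin 4 × Fin 4) : ℚ) = 144 := by
    simp only [Fintype.card_prod, Fintype.card_fin]
    norm_num
  rw [h2] at h1
  exact h1

theorem LL2 (H : ℕ) (x y : Fin 4 → ℤ) (hxy : ∃ j, mn x y 1 j ≠ 0) (hx : HGood H x)
    (hy : HGood H y) (a : Ten ℤ) (b : Ten ℚ) (β : ℚ) (hb : ∀ i j k, |b i j k| ≤ β)
    (he : ((ev a x : ℤ) : ℚ) = ev b (cv ℚ x)) (he' : ((ev a y : ℤ) : ℚ) = ev b (cv ℚ y)) :
    ∃ a' : Ten ℤ, ev a' x = ev a x ∧ ev a' y = ev a y ∧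
      ∀ i j k, |(a' i j k : ℚ)| ≤ β + 216 * (H : ℚ) ^ 2 := by
  obtain ⟨c, hc1, hc1', hc2, hc3⟩ := span2 H x y hxy hx hy
  obtain ⟨r, hr⟩ := hc3 (ct ℚ a - b) (LL_vanish a b x he) (LL_vanish a b y he')
  obtain ⟨n, hn⟩ := roundLem (H ^ 2) a b β hb c (fun t i j k => by
    have := hc2 t i j k
    push_cast
    exact this) r (fun i j k => by
    have := hr i j k
    simpa [ct] using this)
  refine ⟨fun i j k => a i j k - ∑ t, n t * c t i j k, LL_ev_sub_sum a c n x hc1,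
    LL_ev_sub_sum a c n y hc1', fun i j k => ?_⟩
  have h1 := hn i j k
  have h2 : (Fintype.card (Fin 6 × Fin 3 × Fin 3 × Fin 4) : ℚ) = 216 := by
    simp only [Fintype.card_prod, Fintype.card_fin]
    norm_num
  rw [h2] at h1
  have h3 : ((H ^ 2 : ℕ) : ℚ) = (H : ℚ) ^ 2 := by push_cast; rfl
  rw [h3] at h1
  exact h1

end Pool.Agent.Lib.MP_1ad228_ntC
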