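import Pool.Agent.Lib.MP_1ad228_ntC.Basic

/-!
JOB LW_Pair.  Pairs in residue classes without common prime factor outside W.

PROOF.  Put `X = B / (q W)` (real). For `M ≥ 1` and `v : ℤ`, an interval `Finset.Ioc a b` of integers contains between
`(b - a)/M - 1` and `(b - a)/M + 1` integers congruent to `v` mod `M` (`Int.Ioc_filter_modEq_card`).
`s`: the conditions `B ≤ q s ≤ 2 B` say `s ∈ Ioc (⌈B/q⌉ - 1) ⌊2B/q⌋`, an interval with length between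
`B/q - 1` and `B/q + 1`; `t`: `q |t| ≤ 2B` says `t ∈ Ioc (-⌊2B/q⌋ - 1) ⌊2B/q⌋`, length between `4B/q - 1` and `4B/q+1`
(both inside `[-B, B]` since `q ≥ 2`). So without the condition on primes there are at least
`(X - 2)(4X - 2) ≥ 4X^2 - 10 X` pairs (`X ≥ 2`).
If a prime `p` divides `s` and `t` and not `W`, then `p ≥ 7` and `p ≤ s ≤ 2B` (`s > 0`) in fact `p ≤ 2B/q = 2WX`. For a
fixed such `p` two values of `s` with `W ∣ s - a`, `p ∣ s` differ by a multiple of `W p` (coprime), so there are at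
most `X/p + 2` values of `s` and at most `4X/p + 2` values of `t`:
`(X/p + 2)(4X/p + 2) = 4X²/p² + 10X/p + 4 ≤ 5X²/p² + 29`. Sum over `7 ≤ p ≤ 2WX`:
`≤ 5X²/6 + 29 * 2WX` (`∑_{d ≥ 7} 1/d² ≤ ∑ 1/((d-1)d) ≤ 1/6`, telescoping).
So the number of good pairs is at least `4X² - 10X - X²(5/6) - 58WX ≥ 2X²` when `X ≥ 68 W`, i.e. `B ≥ 68 q W²`.
(Union bound over `p ∈ Finset.Icc 7 (2B/q)` (or `Finset.Icc 7 (2*B)` replaced by those `p` with `q p ≤ 2B`).)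
-/

namespace Pool.Agent.Lib.MP_1ad228_ntC

open Classical

/-- Counting integers of an interval in a residue class. -/
theorem classLe (a b : ℤ) (hab : a ≤ b) (M : ℕ) (hM : 1 ≤ M) (v : ℤ) :
    (((Finset.Ioc a b).filter fun z => (M : ℤ) ∣ z - v).card : ℝ) ≤ ((b : ℝ) - a) / M + 1 := by
  have hM' : (0 : ℤ) < (M : ℤ) := by exact_mod_cast hM
  have hMr : (0 : ℝ) < (M : ℝ) := by exact_mod_cast hM
  have h := Int.Ioc_filter_modEq_card a b hM' v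
  have hE : ((Finset.Ioc a b).filter fun z => (M : ℤ) ∣ z - v) =
      (Finset.Ioc a b).filter fun z => z ≡ v [ZMOD (M : ℤ)] := by
    apply Finset.filter_congr
    intro z _
    rw [Int.modEq_comm, Int.modEq_iff_dvd]
  rw [hE]
  have h2 : (((Finset.Ioc a b).filter fun z => z ≡ v [ZMOD (M : ℤ)]).card : ℝ) =
      ((max (⌊((b : ℚ) - v) / ((M : ℤ) : ℚ)⌋ - ⌊((a : ℚ) - v) / ((M : ℤ) : ℚ)⌋) 0 : ℤ) : ℝ) := by
    rw [← h]; norm_num
  rw [h2]
  have hMq : (0 : ℚ) < ((M : ℤ) : ℚ) := by exact_mod_cast hM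
  have h3 : (⌊((b : ℚ) - v) / ((M : ℤ) : ℚ)⌋ : ℚ) ≤ ((b : ℚ) - v) / ((M : ℤ) : ℚ) := Int.floor_le _
  have h4 : ((a : ℚ) - v) / ((M : ℤ) : ℚ) - 1 < (⌊((a : ℚ) - v) / ((M : ℤ) : ℚ)⌋ : ℚ) := Int.sub_one_lt_floor _
  have h5 : ((⌊((b : ℚ) - v) / ((M : ℤ) : ℚ)⌋ - ⌊((a : ℚ) - v) / ((M : ℤ) : ℚ)⌋ : ℤ) : ℚ) ≤
      ((b : ℚ) - a) / ((M : ℤ) : ℚ) + 1 := by
    push_cast at h3 h4 ⊢
    have : ((b : ℚ) - a) / (M : ℚ) = ((b : ℚ) - v) / (M : ℚ) - ((a : ℚ) - v) / (M : ℚ) := by ring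
    rw [this]; linarith
  have h6 : ((⌊((b : ℚ) - v) / ((M : ℤ) : ℚ)⌋ - ⌊((a : ℚ) - v) / ((M : ℤ) : ℚ)⌋ : ℤ) : ℝ) ≤
      ((b : ℝ) - a) / M + 1 := by
    have := (Rat.cast_le (K := ℝ)).mpr h5
    push_cast at this ⊢
    exact this
  rw [Int.cast_max]
  apply max_le h6
  have : (0 : ℝ) ≤ ((b : ℝ) - a) / M := by
    apply div_nonneg _ hMr.le
    have : (a : ℝ) ≤ b := by exact_mod_cast hab
    linarith
  push_cast
  linarith

theorem classGe (a b : ℤ) (M : ℕ) (hM : 1 ≤ M) (v : ℤ) :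
    ((b : ℝ) - a) / M - 1 ≤ (((Finset.Ioc a b).filter fun z => (M : ℤ) ∣ z - v).card : ℝ) := by
  have hM' : (0 : ℤ) < (M : ℤ) := by exact_mod_cast hM
  have h := Int.Ioc_filter_modEq_card a b hM' v
  have hE : ((Finset.Ioc a b).filter fun z => (M : ℤ) ∣ z - v) =
      (Finset.Ioc a b).filter fun z => z ≡ v [ZMOD (M : ℤ)] := by
    apply Finset.filter_congr
    intro z _
    rw [Int.modEq_comm, Int.modEq_iff_dvd]
  rw [hE]
  have h2 : (((Finset.Ioc a b).filter fun z => z ≡ v [ZMOD (M : ℤ)]).card : ℝ) =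
      ((max (⌊((b : ℚ) - v) / ((M : ℤ) : ℚ)⌋ - ⌊((a : ℚ) - v) / ((M : ℤ) : ℚ)⌋) 0 : ℤ) : ℝ) := by
    rw [← h]; norm_num
  rw [h2]
  have h3 : ((b : ℚ) - v) / ((M : ℤ) : ℚ) - 1 < (⌊((b : ℚ) - v) / ((M : ℤ) : ℚ)⌋ : ℚ) := Int.sub_one_lt_floor _
  have h4 : (⌊((a : ℚ) - v) / ((M : ℤ) : ℚ)⌋ : ℚ) ≤ ((a : ℚ) - v) / ((M : ℤ) : ℚ) := Int.floor_le _
  have h5 : ((b : ℚ) - a) / ((M : ℤ) : ℚ) - 1 ≤
      ((⌊((b : ℚ) - v) / ((M : ℤ) : ℚ)⌋ - ⌊((a : ℚ) - v) / ((M : ℤ) : ℚ)⌋ : ℤ) : ℚ) := by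
    push_cast at h3 h4 ⊢
    have : ((b : ℚ) - a) / (M : ℚ) = ((b : ℚ) - v) / (M : ℚ) - ((a : ℚ) - v) / (M : ℚ) := by ring
    rw [this]; linarith
  have h6 : ((b : ℝ) - a) / M - 1 ≤
      ((⌊((b : ℚ) - v) / ((M : ℤ) : ℚ)⌋ - ⌊((a : ℚ) - v) / ((M : ℤ) : ℚ)⌋ : ℤ) : ℝ) := by
    have := (Rat.cast_le (K := ℝ)).mpr h5
    push_cast at this ⊢
    exact this
  rw [Int.cast_max]
  exact le_trans h6 (le_max_left _ _)

/-- At most one class modulo `W p`. -/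
private theorem classLe2 (a b : ℤ) (hab : a ≤ b) (W p : ℕ) (hW : 1 ≤ W) (hp : 1 ≤ p) (hc : Nat.Coprime W p) (c : ℤ) :
    (((Finset.Ioc a b).filter fun z => (W : ℤ) ∣ z - c ∧ (p : ℤ) ∣ z).card : ℝ) ≤ ((b : ℝ) - a) / (W * p) + 1 := by
  have hcz : IsCoprime (W : ℤ) (p : ℤ) := Nat.isCoprime_iff_coprime.mpr hc
  obtain ⟨u, w, huw⟩ := hcz
  -- v = c * w * p : v ≡ c mod W, v ≡ 0 mod p
  have hsub : ((Finset.Ioc a b).filter fun z => (W : ℤ) ∣ z - c ∧ (p : ℤ) ∣ z) ⊆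
      ((Finset.Ioc a b).filter fun z => ((W * p : ℕ) : ℤ) ∣ z - c * w * p) := by
    intro z hz
    rw [Finset.mem_filter] at hz ⊢
    refine ⟨hz.1, ?_⟩
    obtain ⟨h1, h2⟩ := hz.2
    push_cast
    apply IsCoprime.mul_dvd ⟨u, w, huw⟩
    · have : z - c * w * p = (z - c) + (u * c) * (W : ℤ) := by linear_combination -c * huw
      rw [this]
      exact dvd_add h1 (Dvd.intro_left _ rfl)
    · exact dvd_sub h2 (Dvd.intro_left _ rfl)
  have h := classLe a b hab (W * p) (Nat.mul_pos hW hp) (c * w * p)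
  have h' := Finset.card_le_card hsub
  have h'' : (((Finset.Ioc a b).filter fun z => (W : ℤ) ∣ z - c ∧ (p : ℤ) ∣ z).card : ℝ) ≤
    (((Finset.Ioc a b).filter fun z => ((W * p : ℕ) : ℤ) ∣ z - c * w * p).card : ℝ) := by exact_mod_cast h'
  refine le_trans h'' (le_trans h ?_)
  push_cast
  exact le_rfl

private theorem sumInv (n : ℕ) : ∑ d ∈ Finset.Icc 7 n, (1 : ℝ) / (d : ℝ) ^ 2 ≤ 1 / 6 := by
  have key : ∀ n : ℕ, 6 ≤ n → ∑ d ∈ Finset.Icc 7 n, (1 : ℝ) / (d : ℝ) ^ 2 ≤ 1 / 6 - 1 / (n : ℝ) := by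
    intro n hn
    induction n, hn using Nat.le_induction with
    | base => norm_num
    | succ n hn ih =>
      rw [Finset.sum_Icc_succ_top (by omega)]
      have hn' : (0 : ℝ) < (n : ℝ) := by exact_mod_cast (by omega : 0 < n)
      have h1 : (1 : ℝ) / ((n + 1 : ℕ) : ℝ) ^ 2 ≤ 1 / (n : ℝ) - 1 / ((n + 1 : ℕ) : ℝ) := by
        push_cast
        rw [div_sub_div _ _ hn'.ne' (by positivity), div_le_div_iff₀ (by positivity) (by positivity)]
        nlinarith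
      linarith
  by_cases hn : 6 ≤ n
  · have := key n hn
    have h2 : (0 : ℝ) ≤ 1 / (n : ℝ) := by positivity
    linarith
  · have : Finset.Icc 7 n = ∅ := by
      apply Finset.Icc_eq_empty; omega
    rw [this]; norm_num

theorem pairCount (q W : ℕ) (hq : 2 ≤ q) (hW : 1 ≤ W)
    (h7 : ∀ p : ℕ, p.Prime → p ≤ 6 → p ∣ W) : ∃ B0 : ℕ, ∀ B ≥ B0, ∀ a b : ℤ,
    2 * (B : ℝ) ^ 2 ≤ (q : ℝ) ^ 2 * (W : ℝ) ^ 2 *
      (((Finset.Icc (-(B : ℤ)) B ×ˢ Finset.Icc (-(B : ℤ)) B).filter fun s =>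
        (B : ℤ) ≤ (q : ℤ) * s.1 ∧ (q : ℤ) * s.1 ≤ 2 * B ∧ (q : ℤ) * |s.2| ≤ 2 * B ∧ (W : ℤ) ∣ s.1 - a ∧
        (W : ℤ) ∣ s.2 - b ∧ ∀ p : ℕ, p.Prime → (p : ℤ) ∣ s.1 → (p : ℤ) ∣ s.2 → p ∣ W).card : ℝ) := by
  refine ⟨68 * q * W ^ 2, ?_⟩
  intro B hB a b
  have hq0 : 0 < q := by omega
  have hqz : (0 : ℤ) < (q : ℤ) := by exact_mod_cast hq0
  have hqr : (0 : ℝ) < (q : ℝ) := by exact_mod_cast hq0
  have hWr : (1 : ℝ) ≤ (W : ℝ) := by exact_mod_cast hW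
  have hB0 : 0 < B := by
    have : 0 < 68 * q * W ^ 2 := by positivity
    omega
  have hBr : (0 : ℝ) < (B : ℝ) := by exact_mod_cast hB0
  set X : ℝ := (B : ℝ) / (q * W) with hX
  have hX68 : 68 * (W : ℝ) ≤ X := by
    rw [hX, le_div_iff₀ (by positivity)]
    have : ((68 * q * W ^ 2 : ℕ) : ℝ) ≤ (B : ℝ) := by exact_mod_cast hB
    push_cast at this
    nlinarith
  have hBX : (B : ℝ) / q = W * X := by
    rw [hX]; field_simp
  -- endpoints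
  set s0 : ℤ := ((B : ℤ) - 1) / q with hs0
  set s1 : ℤ := (2 * (B : ℤ)) / q with hs1
  have e0u : ((s0 : ℤ) : ℝ) ≤ (B : ℝ) / q := by
    rw [le_div_iff₀ hqr]
    have h : s0 * q ≤ (B : ℤ) - 1 := Int.ediv_mul_le _ hqz.ne'
    have : s0 * q ≤ (B : ℤ) := by omega
    exact_mod_cast this
  have e0l : (B : ℝ) / q - 1 ≤ ((s0 : ℤ) : ℝ) := by
    have h : (B : ℤ) - 1 < (s0 + 1) * q := Int.lt_ediv_add_one_mul_self _ hqz
    have h' : (B : ℤ) ≤ (s0 + 1) * q := by omega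
    have h'' : (B : ℝ) ≤ ((s0 : ℝ) + 1) * q := by exact_mod_cast h'
    have := (div_le_iff₀ hqr).mpr h''
    linarith
  have e1u : ((s1 : ℤ) : ℝ) ≤ 2 * (B : ℝ) / q := by
    rw [le_div_iff₀ hqr]
    have h : s1 * q ≤ 2 * (B : ℤ) := Int.ediv_mul_le _ hqz.ne'
    exact_mod_cast h
  have e1l : 2 * (B : ℝ) / q - 1 ≤ ((s1 : ℤ) : ℝ) := by
    have h : 2 * (B : ℤ) < (s1 + 1) * q := Int.lt_ediv_add_one_mul_self _ hqz
    have h'' : 2 * (B : ℝ) ≤ ((s1 : ℝ) + 1) * q := by exact_mod_cast h.le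
    have := (div_le_iff₀ hqr).mpr h''
    linarith
  have h2BX : 2 * (B : ℝ) / q = 2 * (W * X) := by rw [mul_div_assoc, hBX]
  rw [hBX] at e0u e0l
  rw [h2BX] at e1u e1l
  have hX0 : 0 < X := by nlinarith
  have hs1nn : 0 ≤ s1 := by
    rw [hs1]; exact Int.ediv_nonneg (by positivity) hqz.le
  have hs0nn : 0 ≤ s0 := by
    rw [hs0]; exact Int.ediv_nonneg (by omega) hqz.le
  have hs01 : s0 ≤ s1 := by
    rw [hs0, hs1]
    apply Int.ediv_le_ediv hqz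
    omega
  have hs1B : s1 ≤ B := by
    rw [hs1]
    have : (2 * (B : ℤ)) / q ≤ B := by
      apply Int.ediv_le_of_le_mul hqz
      have : (2 : ℤ) ≤ q := by exact_mod_cast hq
      nlinarith [Int.natCast_nonneg B]
    exact this
  set t0 : ℤ := -s1 - 1 with ht0
  -- base sets
  set Sa : Finset ℤ := (Finset.Ioc s0 s1).filter fun z => (W : ℤ) ∣ z - a with hSa
  set Ta : Finset ℤ := (Finset.Ioc t0 s1).filter fun z => (W : ℤ) ∣ z - b with hTa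
  have cSa : X - 2 ≤ (Sa.card : ℝ) := by
    have h := classGe s0 s1 W hW a
    have h1 : X - 1 / W ≤ ((s1 : ℝ) - s0) / W := by
      rw [le_div_iff₀ (by linarith), sub_mul]
      rw [one_div, inv_mul_cancel₀ (by linarith)]
      nlinarith
    have h2 : 1 / (W : ℝ) ≤ 1 := by
      rw [div_le_one (by linarith)]; exact hWr
    rw [hSa]; linarith
  have cTa : 4 * X - 2 ≤ (Ta.card : ℝ) := by
    have h := classGe t0 s1 W hW b
    have h1 : 4 * X - 1 / W ≤ ((s1 : ℝ) - t0) / W := by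
      rw [le_div_iff₀ (by linarith), sub_mul]
      rw [one_div, inv_mul_cancel₀ (by linarith), ht0]
      push_cast
      nlinarith
    have h2 : 1 / (W : ℝ) ≤ 1 := by
      rw [div_le_one (by linarith)]; exact hWr
    rw [hTa]; linarith
  -- bad primes
  set N : ℕ := s1.toNat with hN
  have hNs : (N : ℤ) = s1 := Int.toNat_of_nonneg hs1nn
  set P : Finset ℕ := (Finset.Icc 7 N).filter fun p => p.Prime ∧ ¬ p ∣ W with hP
  set Bad : ℕ → Finset (ℤ × ℤ) := fun p =>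
    ((Finset.Ioc s0 s1).filter fun z => (W : ℤ) ∣ z - a ∧ (p : ℤ) ∣ z) ×ˢ
    ((Finset.Ioc t0 s1).filter fun z => (W : ℤ) ∣ z - b ∧ (p : ℤ) ∣ z) with hBad
  set G := ((Finset.Icc (-(B : ℤ)) B ×ˢ Finset.Icc (-(B : ℤ)) B).filter fun s =>
        (B : ℤ) ≤ (q : ℤ) * s.1 ∧ (q : ℤ) * s.1 ≤ 2 * B ∧ (q : ℤ) * |s.2| ≤ 2 * B ∧ (W : ℤ) ∣ s.1 - a ∧
        (W : ℤ) ∣ s.2 - b ∧ ∀ p : ℕ, p.Prime → (p : ℤ) ∣ s.1 → (p : ℤ) ∣ s.2 → p ∣ W) with hG
  have hcover : Sa ×ˢ Ta ⊆ G ∪ P.biUnion Bad := by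
    intro st hst
    rw [Finset.mem_product, hSa, hTa, Finset.mem_filter, Finset.mem_filter, Finset.mem_Ioc, Finset.mem_Ioc] at hst
    obtain ⟨⟨⟨a1, a2⟩, a3⟩, ⟨⟨b1, b2⟩, b3⟩⟩ := hst
    by_cases hbad : ∃ p : ℕ, p.Prime ∧ (p : ℤ) ∣ st.1 ∧ (p : ℤ) ∣ st.2 ∧ ¬ p ∣ W
    · obtain ⟨p, hp, p1, p2, p3⟩ := hbad
      apply Finset.mem_union_right
      rw [Finset.mem_biUnion]
      refine ⟨p, ?_, ?_⟩
      · rw [hP, Finset.mem_filter, Finset.mem_Icc]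
        refine ⟨⟨?_, ?_⟩, hp, p3⟩
        · by_contra hlt
          exact p3 (h7 p hp (by omega))
        · have h1 : (p : ℤ) ≤ st.1 := Int.le_of_dvd (by omega) p1
          have h2 : (p : ℤ) ≤ (N : ℤ) := by rw [hNs]; omega
          exact_mod_cast h2
      · rw [hBad]
        simp only [Finset.mem_product, Finset.mem_filter, Finset.mem_Ioc]
        exact ⟨⟨⟨a1, a2⟩, a3, p1⟩, ⟨⟨b1, b2⟩, b3, p2⟩⟩
    · apply Finset.mem_union_left
      rw [hG, Finset.mem_filter, Finset.mem_product, Finset.mem_Icc, Finset.mem_Icc]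
      push Not at hbad
      have hs : (q : ℤ) * st.1 ≤ 2 * B := by
        have := (Int.le_ediv_iff_mul_le hqz).mp (hs1 ▸ a2)
        linarith [mul_comm (q : ℤ) st.1]
      have ht : (q : ℤ) * |st.2| ≤ 2 * B := by
        have habs : |st.2| ≤ s1 := by rw [abs_le]; constructor <;> omega
        have := (Int.le_ediv_iff_mul_le hqz).mp (hs1 ▸ habs)
        linarith [mul_comm (q : ℤ) |st.2|]
      have hs' : (B : ℤ) ≤ (q : ℤ) * st.1 := by
        have := (Int.ediv_lt_iff_lt_mul hqz).mp (hs0 ▸ a1)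
        have h2 : (B : ℤ) ≤ st.1 * q := by omega
        linarith [mul_comm (q : ℤ) st.1]
      refine ⟨⟨⟨by omega, by omega⟩, ⟨by omega, by omega⟩⟩, hs', hs, ht, a3, b3, ?_⟩
      intro p hp h1 h2
      exact hbad p hp h1 h2
  have hcard1 : ((Sa.card * Ta.card : ℕ) : ℝ) ≤ (G.card : ℝ) + ∑ p ∈ P, ((Bad p).card : ℝ) := by
    have h1 := Finset.card_le_card hcover
    rw [Finset.card_product] at h1
    have h2 := Finset.card_union_le G (P.biUnion Bad)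
    have h3 : (P.biUnion Bad).card ≤ ∑ p ∈ P, (Bad p).card := Finset.card_biUnion_le
    have h4 : Sa.card * Ta.card ≤ G.card + ∑ p ∈ P, (Bad p).card := by omega
    exact_mod_cast h4
  have hbadp : ∀ p ∈ P, ((Bad p).card : ℝ) ≤ 5 * X ^ 2 * (1 / (p : ℝ) ^ 2) + 29 := by
    intro p hp
    rw [hP, Finset.mem_filter, Finset.mem_Icc] at hp
    obtain ⟨⟨p7, _⟩, pp, pW⟩ := hp
    have hc : Nat.Coprime W p := (Nat.coprime_comm.mp ((Nat.Prime.coprime_iff_not_dvd pp).mpr pW))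
    have hpr : (0 : ℝ) < (p : ℝ) := by exact_mod_cast pp.pos
    have hp1 : (1 : ℝ) ≤ (p : ℝ) := by exact_mod_cast pp.one_le
    have hWp : (1 : ℝ) ≤ (W : ℝ) * p := by nlinarith
    have h1 := classLe2 s0 s1 hs01 W p hW pp.one_le hc a
    have h2 := classLe2 t0 s1 (by omega) W p hW pp.one_le hc b
    have g1 : ((s1 : ℝ) - s0) / (W * p) + 1 ≤ X / p + 2 := by
      have : ((s1 : ℝ) - s0) / (W * p) ≤ X / p + 1 := by
        rw [div_le_iff₀ (by positivity), add_mul]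
        have : X / p * (W * p) = W * X := by field_simp
        rw [this]
        nlinarith
      linarith
    have g2 : ((s1 : ℝ) - t0) / (W * p) + 1 ≤ 4 * (X / p) + 2 := by
      have : ((s1 : ℝ) - t0) / (W * p) ≤ 4 * (X / p) + 1 := by
        rw [div_le_iff₀ (by positivity), add_mul]
        have : 4 * (X / p) * (W * p) = 4 * (W * X) := by field_simp
        rw [this, ht0]
        push_cast
        nlinarith
      linarith
    have hBc : ((Bad p).card : ℝ) =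
        (((Finset.Ioc s0 s1).filter fun z => (W : ℤ) ∣ z - a ∧ (p : ℤ) ∣ z).card : ℝ) *
        (((Finset.Ioc t0 s1).filter fun z => (W : ℤ) ∣ z - b ∧ (p : ℤ) ∣ z).card : ℝ) := by
      simp only [hBad]
      rw [Finset.card_product]
      push_cast
      rfl
    rw [hBc]
    have hy : 0 ≤ X / p := by positivity
    have h3 : (((Finset.Ioc s0 s1).filter fun z => (W : ℤ) ∣ z - a ∧ (p : ℤ) ∣ z).card : ℝ) *
        (((Finset.Ioc t0 s1).filter fun z => (W : ℤ) ∣ z - b ∧ (p : ℤ) ∣ z).card : ℝ) ≤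
        (X / p + 2) * (4 * (X / p) + 2) :=
      mul_le_mul (le_trans h1 g1) (le_trans h2 g2) (Nat.cast_nonneg _) (by positivity)
    refine le_trans h3 ?_
    have h4 : 5 * X ^ 2 * (1 / (p : ℝ) ^ 2) = 5 * (X / p) ^ 2 := by
      rw [div_pow]; ring
    rw [h4]
    nlinarith [sq_nonneg (X / p - 5)]
  have hsum : ∑ p ∈ P, ((Bad p).card : ℝ) ≤ 5 * X ^ 2 * (1 / 6) + 29 * (2 * (W * X)) := by
    refine le_trans (Finset.sum_le_sum hbadp) ?_
    rw [Finset.sum_add_distrib, ← Finset.mul_sum, Finset.sum_const, nsmul_eq_mul]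
    have h1 : ∑ i ∈ P, 1 / (i : ℝ) ^ 2 ≤ 1 / 6 := by
      refine le_trans ?_ (sumInv N)
      apply Finset.sum_le_sum_of_subset_of_nonneg
      · rw [hP]; exact Finset.filter_subset _ _
      · intro i _ _; positivity
    have h2 : (P.card : ℝ) ≤ 2 * (W * X) := by
      have h3 : P.card ≤ N := by
        calc P.card ≤ (Finset.Icc 7 N).card := by rw [hP]; exact Finset.card_filter_le _ _
          _ ≤ N := by rw [Nat.card_Icc]; omega
      have h4 : (P.card : ℝ) ≤ (N : ℝ) := by exact_mod_cast h3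
      have h5 : ((N : ℕ) : ℝ) = (s1 : ℝ) := by exact_mod_cast congrArg (fun z : ℤ => (z : ℝ)) hNs
      linarith
    have h6 : 5 * X ^ 2 * ∑ i ∈ P, 1 / (i : ℝ) ^ 2 ≤ 5 * X ^ 2 * (1 / 6) :=
      mul_le_mul_of_nonneg_left h1 (by positivity)
    linarith
  have hmain : 2 * X ^ 2 ≤ (G.card : ℝ) := by
    have h1 : (X - 2) * (4 * X - 2) ≤ ((Sa.card * Ta.card : ℕ) : ℝ) := by
      push_cast
      apply mul_le_mul cSa cTa
      · nlinarith
      · exact Nat.cast_nonneg _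
    have h2 : (X - 2) * (4 * X - 2) ≤ (G.card : ℝ) + (5 * X ^ 2 * (1 / 6) + 29 * (2 * (W * X))) := by
      linarith
    nlinarith [mul_le_mul_of_nonneg_right hX68 hX0.le, mul_le_mul_of_nonneg_right hWr hX0.le]
  have hfin : (q : ℝ) ^ 2 * (W : ℝ) ^ 2 * (2 * X ^ 2) = 2 * (B : ℝ) ^ 2 := by
    rw [hX]; field_simp
  rw [← hfin]
  exact mul_le_mul_of_nonneg_left hmain (by positivity)

end Pool.Agent.Lib.MP_1ad228_ntC
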