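import Pool.Agent.Lib.MP_1ad228_ntC.Alpha
import Pool.Agent.Lib.MP_1ad228_ntC.Beta

/-!
JOB PairSum.  Pair sums (paper section 5, assembly of alpha and beta).

PROOF.  All terms `Dd/Del` are nonnegative. `Del x y ≤ 2 g^32` (`Del_le`), `Dd x y ≥ 1`
(`Del_pos`, `Dd_pos`).
`psAll`: the set of `y ≠ x` is the union of `{Del ≤ Dd g^16}` (`alpha`) and
`{Dd g^16 < Del, 0 < Dd, Del ≤ 2 g^32}` (`beta` with `w = 0`, `Y = 2 g^32`):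
sum at most `46656 q^6 g^30 + 1728 q^3 * 4 g^64/g^32 ≤ 60000 q^6 g^32`.
`psBad`: the set of `y ≠ x` with `¬(Dd ∣ W ∧ q^2 g^32 ≤ k Del)` is contained in the union of
`{Del ≤ Dd g^16}` (`alpha`), `{Dd g^16 < Del, ¬ Dd ∣ W}`, where `w < Dd` by hypothesis (`1 ≤ Dd`), (`beta` with `w`,
`Y = 2 g^32`: `6912 q^3 g^32/(w+1)`), and `{Dd g^16 < Del, k Del < q^2 g^32}`, where
`Del ≤ Y := min (2 g^32) (q^2 g^32 / k)` (natural division) (`beta` with `0`, this `Y`, `Y ≤ q^2 g^32/k`: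
`1728 q^3 (q^2 g^32/k)^2/g^32 ≤ 1728 q^7 g^32/k`).
-/

namespace Pool.Agent.Lib.MP_1ad228_ntC

open Classical

private theorem pairSum_split2 {α : Type*} (G : Finset α) (f : α → ℝ) (p p1 p2 : α → Prop)
    [DecidablePred p] [DecidablePred p1] [DecidablePred p2]
    (hf : ∀ y ∈ G, 0 ≤ f y) (h : ∀ y ∈ G, p y → p1 y ∨ p2 y) :
    ∑ y ∈ G.filter p, f y ≤ ∑ y ∈ G.filter p1, f y + ∑ y ∈ G.filter p2, f y := by
  rw [Finset.sum_filter, Finset.sum_filter, Finset.sum_filter, ← Finset.sum_add_distrib]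
  refine Finset.sum_le_sum fun y hy => ?_
  have h0 := hf y hy
  by_cases hp : p y
  · rw [if_pos hp]
    rcases h y hy hp with h1 | h2
    · rw [if_pos h1]
      by_cases h2 : p2 y
      · rw [if_pos h2]; linarith
      · rw [if_neg h2]; linarith
    · rw [if_pos h2]
      by_cases h1 : p1 y
      · rw [if_pos h1]; linarith
      · rw [if_neg h1]; linarith
  · rw [if_neg hp]
    by_cases h1 : p1 y
    · rw [if_pos h1]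
      by_cases h2 : p2 y
      · rw [if_pos h2]; linarith
      · rw [if_neg h2]; linarith
    · rw [if_neg h1]
      by_cases h2 : p2 y
      · rw [if_pos h2]; linarith
      · rw [if_neg h2]; linarith

private theorem pairSum_nonneg (x y : Fin 4 → ℤ) : 0 ≤ (Dd x y : ℝ) / (Del x y : ℝ) :=
  div_nonneg (Nat.cast_nonneg _) (Nat.cast_nonneg _)

theorem psAll (g q : ℕ) (hg : 1 ≤ g) (hq : 1 ≤ q) (x : Fin 4 → ℤ) (hx : x ∈ GG g q) :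
    ∑ y ∈ (GG g q).filter (fun y => y ≠ x), (Dd x y : ℝ) / (Del x y : ℝ) ≤
      60000 * (q : ℝ) ^ 6 * (g : ℝ) ^ 32 := by
  have h1 := pairSum_split2 (GG g q) (fun y => (Dd x y : ℝ) / (Del x y : ℝ)) (fun y => y ≠ x)
    (fun y => y ≠ x ∧ Del x y ≤ Dd x y * g ^ 16)
    (fun y => y ≠ x ∧ Dd x y * g ^ 16 < Del x y ∧ 0 < Dd x y ∧ Del x y ≤ 2 * g ^ 32)
    (fun y _ => pairSum_nonneg x y) (by
      intro y hy hne
      have hD : 1 ≤ Del x y := Del_pos hg hx hy (fun h => hne h.symm)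
      by_cases h : Del x y ≤ Dd x y * g ^ 16
      · exact Or.inl ⟨hne, h⟩
      · exact Or.inr ⟨hne, not_le.mp h, Dd_pos x y hD, Del_le hx hy⟩)
  have h2 := alpha g q hg hq x hx
  have h3 := beta g q 0 (2 * g ^ 32) hg hq x hx le_rfl
  have hg1 : (1 : ℝ) ≤ (g : ℝ) := by exact_mod_cast hg
  have hq1 : (1 : ℝ) ≤ (q : ℝ) := by exact_mod_cast hq
  have e3 : 1728 * (q : ℝ) ^ 3 * ((2 * g ^ 32 : ℕ) : ℝ) ^ 2 / ((g : ℝ) ^ 32 * (((0 : ℕ) : ℝ) + 1))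
      = 6912 * ((q : ℝ) ^ 3 * (g : ℝ) ^ 32) := by
    have : (g : ℝ) ≠ 0 := by positivity
    push_cast
    field_simp
    ring
  have b2 : (q : ℝ) ^ 6 * (g : ℝ) ^ 30 ≤ (q : ℝ) ^ 6 * (g : ℝ) ^ 32 :=
    mul_le_mul_of_nonneg_left (pow_le_pow_right₀ hg1 (by norm_num)) (by positivity)
  have b3 : (q : ℝ) ^ 3 * (g : ℝ) ^ 32 ≤ (q : ℝ) ^ 6 * (g : ℝ) ^ 32 :=
    mul_le_mul_of_nonneg_right (pow_le_pow_right₀ hq1 (by norm_num)) (by positivity)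
  have b4 : 0 ≤ (q : ℝ) ^ 6 * (g : ℝ) ^ 32 := by positivity
  calc ∑ y ∈ (GG g q).filter (fun y => y ≠ x), (Dd x y : ℝ) / (Del x y : ℝ)
      ≤ 46656 * (q : ℝ) ^ 6 * (g : ℝ) ^ 30 + 6912 * ((q : ℝ) ^ 3 * (g : ℝ) ^ 32) := by
        rw [← e3]
        exact h1.trans (add_le_add h2 h3)
    _ ≤ 60000 * (q : ℝ) ^ 6 * (g : ℝ) ^ 32 := by
        have c1 : 46656 * (q : ℝ) ^ 6 * (g : ℝ) ^ 30 = 46656 * ((q : ℝ) ^ 6 * (g : ℝ) ^ 30) := by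
          ring
        have c2 : 60000 * (q : ℝ) ^ 6 * (g : ℝ) ^ 32 = 60000 * ((q : ℝ) ^ 6 * (g : ℝ) ^ 32) := by
          ring
        rw [c1, c2]
        linarith

theorem psBad (g q k w W : ℕ) (hg : 1 ≤ g) (hq : 1 ≤ q) (hk : 1 ≤ k)
    (hW : ∀ m, 1 ≤ m → m ≤ w → m ∣ W) (x : Fin 4 → ℤ) (hx : x ∈ GG g q) :
    ∑ y ∈ (GG g q).filter (fun y => y ≠ x ∧ ¬ (Dd x y ∣ W ∧ q ^ 2 * g ^ 32 ≤ k * Del x y)),
      (Dd x y : ℝ) / (Del x y : ℝ) ≤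
      46656 * (q : ℝ) ^ 6 * (g : ℝ) ^ 30 + 6912 * (q : ℝ) ^ 3 * (g : ℝ) ^ 32 / (w + 1)
        + 1728 * (q : ℝ) ^ 7 * (g : ℝ) ^ 32 / k := by
  have hg1 : (1 : ℝ) ≤ (g : ℝ) := by exact_mod_cast hg
  have hq1 : (1 : ℝ) ≤ (q : ℝ) := by exact_mod_cast hq
  have hk1 : (1 : ℝ) ≤ (k : ℝ) := by exact_mod_cast hk
  have hg0 : (g : ℝ) ≠ 0 := by positivity
  have hk0 : (0 : ℝ) < (k : ℝ) := by linarith
  have h1 := pairSum_split2 (GG g q) (fun y => (Dd x y : ℝ) / (Del x y : ℝ))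
    (fun y => y ≠ x ∧ ¬ (Dd x y ∣ W ∧ q ^ 2 * g ^ 32 ≤ k * Del x y))
    (fun y => y ≠ x ∧ Del x y ≤ Dd x y * g ^ 16)
    (fun y => (y ≠ x ∧ Dd x y * g ^ 16 < Del x y ∧ w < Dd x y ∧ Del x y ≤ 2 * g ^ 32) ∨
      (y ≠ x ∧ Dd x y * g ^ 16 < Del x y ∧ 0 < Dd x y ∧
        Del x y ≤ min (2 * g ^ 32) (q ^ 2 * g ^ 32 / k)))
    (fun y _ => pairSum_nonneg x y) (by
      intro y hy hne
      obtain ⟨hne, hno⟩ := hne
      have hD : 1 ≤ Del x y := Del_pos hg hx hy (fun h => hne h.symm)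
      have hd : 1 ≤ Dd x y := Dd_pos x y hD
      by_cases h : Del x y ≤ Dd x y * g ^ 16
      · exact Or.inl ⟨hne, h⟩
      · refine Or.inr ?_
        by_cases hdW : Dd x y ∣ W
        · refine Or.inr ⟨hne, not_le.mp h, hd, le_min (Del_le hx hy) ?_⟩
          have h5 : k * Del x y < q ^ 2 * g ^ 32 := by
            by_contra hcon
            exact hno ⟨hdW, not_lt.mp hcon⟩
          rw [Nat.le_div_iff_mul_le (by omega)]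
          rw [mul_comm]
          exact h5.le
        · refine Or.inl ⟨hne, not_le.mp h, ?_, Del_le hx hy⟩
          by_contra hcon
          exact hdW (hW _ hd (not_lt.mp hcon)))
  have h1' := pairSum_split2 (GG g q) (fun y => (Dd x y : ℝ) / (Del x y : ℝ))
    (fun y => (y ≠ x ∧ Dd x y * g ^ 16 < Del x y ∧ w < Dd x y ∧ Del x y ≤ 2 * g ^ 32) ∨
      (y ≠ x ∧ Dd x y * g ^ 16 < Del x y ∧ 0 < Dd x y ∧
        Del x y ≤ min (2 * g ^ 32) (q ^ 2 * g ^ 32 / k)))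
    (fun y => y ≠ x ∧ Dd x y * g ^ 16 < Del x y ∧ w < Dd x y ∧ Del x y ≤ 2 * g ^ 32)
    (fun y => y ≠ x ∧ Dd x y * g ^ 16 < Del x y ∧ 0 < Dd x y ∧
        Del x y ≤ min (2 * g ^ 32) (q ^ 2 * g ^ 32 / k))
    (fun y _ => pairSum_nonneg x y) (fun y _ h => h)
  have h2 := alpha g q hg hq x hx
  have h3 := beta g q w (2 * g ^ 32) hg hq x hx le_rfl
  have h4 := beta g q 0 (min (2 * g ^ 32) (q ^ 2 * g ^ 32 / k)) hg hq x hx (min_le_left _ _)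
  have e3 : 1728 * (q : ℝ) ^ 3 * ((2 * g ^ 32 : ℕ) : ℝ) ^ 2 / ((g : ℝ) ^ 32 * ((w : ℝ) + 1))
      = 6912 * (q : ℝ) ^ 3 * (g : ℝ) ^ 32 / (w + 1) := by
    have hw : (w : ℝ) + 1 ≠ 0 := by positivity
    push_cast
    field_simp
    ring
  have hYle : ((min (2 * g ^ 32) (q ^ 2 * g ^ 32 / k) : ℕ) : ℝ) ≤ (q : ℝ) ^ 2 * (g : ℝ) ^ 32 / k := by
    have a1 : ((min (2 * g ^ 32) (q ^ 2 * g ^ 32 / k) : ℕ) : ℝ) ≤ ((q ^ 2 * g ^ 32 / k : ℕ) : ℝ) := by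
      exact_mod_cast min_le_right _ _
    have a2 : ((q ^ 2 * g ^ 32 / k : ℕ) : ℝ) ≤ ((q ^ 2 * g ^ 32 : ℕ) : ℝ) / (k : ℝ) :=
      Nat.cast_div_le
    have a3 : ((q ^ 2 * g ^ 32 : ℕ) : ℝ) = (q : ℝ) ^ 2 * (g : ℝ) ^ 32 := by push_cast; ring
    rw [a3] at a2
    exact a1.trans a2
  have e4 : 1728 * (q : ℝ) ^ 3 * ((min (2 * g ^ 32) (q ^ 2 * g ^ 32 / k) : ℕ) : ℝ) ^ 2 /
      ((g : ℝ) ^ 32 * (((0 : ℕ) : ℝ) + 1)) ≤ 1728 * (q : ℝ) ^ 7 * (g : ℝ) ^ 32 / k := by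
    have a1 : ((min (2 * g ^ 32) (q ^ 2 * g ^ 32 / k) : ℕ) : ℝ) ^ 2 ≤
        ((q : ℝ) ^ 2 * (g : ℝ) ^ 32 / k) ^ 2 :=
      pow_le_pow_left₀ (Nat.cast_nonneg _) hYle 2
    have a2 : 1728 * (q : ℝ) ^ 3 * ((min (2 * g ^ 32) (q ^ 2 * g ^ 32 / k) : ℕ) : ℝ) ^ 2 /
      ((g : ℝ) ^ 32 * (((0 : ℕ) : ℝ) + 1)) ≤
        1728 * (q : ℝ) ^ 3 * ((q : ℝ) ^ 2 * (g : ℝ) ^ 32 / k) ^ 2 / ((g : ℝ) ^ 32) := by
      have : (g : ℝ) ^ 32 * (((0 : ℕ) : ℝ) + 1) = (g : ℝ) ^ 32 := by simp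
      rw [this]
      exact div_le_div_of_nonneg_right
        (mul_le_mul_of_nonneg_left a1 (by positivity)) (by positivity)
    have a3 : 1728 * (q : ℝ) ^ 3 * ((q : ℝ) ^ 2 * (g : ℝ) ^ 32 / k) ^ 2 / ((g : ℝ) ^ 32)
        = 1728 * (q : ℝ) ^ 7 * (g : ℝ) ^ 32 / (k * k) := by
      field_simp
    have a4 : 1728 * (q : ℝ) ^ 7 * (g : ℝ) ^ 32 / ((k : ℝ) * k) ≤
        1728 * (q : ℝ) ^ 7 * (g : ℝ) ^ 32 / k :=
      div_le_div_of_nonneg_left (by positivity) hk0 (by nlinarith)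
    rw [a3] at a2
    exact a2.trans a4
  rw [e3] at h3
  have h5 := h4.trans e4
  have h6 := add_le_add h3 h5
  have h7 := h1'.trans h6
  have h8 := h1.trans (add_le_add h2 h7)
  refine h8.trans (le_of_eq ?_)
  ring

end Pool.Agent.Lib.MP_1ad228_ntC
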