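import Pool.Agent.Lib.MP_1ad228_ntC.Basic

/-!
JOB PerpSpan.  Three independent integer vectors orthogonal to `x ≠ 0` span the orthogonal
complement of `x` over the rationals.

PROOF.  Over the rationals the cast vectors `cv ℚ (f s)` are linearly independent
(LinearIndependent over ℤ in the torsion free module, e.g. clear denominators:
if `∑ t_s f_s = 0` with rational `t_s`, multiply by a common denominator; or
`LinearIndependent.iff_fractionRing`, or the 4x3 integer matrix has rank 3).
The kernel of the nonzero linear functional `u ↦ lin u (cv ℚ x)` on `Fin 4 → ℚ` has dimension 3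
(`LinearMap.finrank_range_add_finrank_ker`), it contains the three independent vectors,
so they span it (`LinearIndependent.span_eq_top_of_card_eq_finrank` inside the kernel, or
`Submodule.eq_of_le_of_finrank_eq`).
-/

namespace Pool.Agent.Lib.MP_1ad228_ntC

open Classical

/-- The cast as a linear map over the integers. -/
private noncomputable def perpSpanCast : (Fin 4 → ℤ) →ₗ[ℤ] (Fin 4 → ℚ) where
  toFun x := fun i => (x i : ℚ)
  map_add' x y := by
    funext i
    simp
  map_smul' c x := by
    funext i
    simp

/-- The linear functional `u ↦ lin u y`. -/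
private noncomputable def perpSpanFun (y : Fin 4 → ℚ) : (Fin 4 → ℚ) →ₗ[ℚ] ℚ where
  toFun u := lin u y
  map_add' u v := lin_add u v y
  map_smul' c u := by
    rw [lin_smul]
    rfl

theorem perpSpan (x : Fin 4 → ℤ) (hx : x ≠ 0) (f : Fin 3 → Fin 4 → ℤ)
    (hf : LinearIndependent ℤ f) (h0 : ∀ s, lin (f s) x = 0) (u : Fin 4 → ℚ)
    (hu : lin u (cv ℚ x) = 0) : ∃ t : Fin 3 → ℚ, ∀ i, u i = ∑ s, t s * (f s i : ℚ) := by
  have hinj : LinearMap.ker perpSpanCast = ⊥ := by
    rw [LinearMap.ker_eq_bot]
    intro a b hab
    funext i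
    have := congrFun hab i
    exact Int.cast_injective this
  have h1 : LinearIndependent ℤ (perpSpanCast ∘ f) := hf.map' perpSpanCast hinj
  have h2 : LinearIndependent ℚ (perpSpanCast ∘ f) :=
    (LinearIndependent.iff_fractionRing ℤ ℚ).mp h1
  -- the vectors lie in the kernel
  have hker : ∀ s, (perpSpanCast ∘ f) s ∈ LinearMap.ker (perpSpanFun (cv ℚ x)) := by
    intro s
    rw [LinearMap.mem_ker]
    change lin (fun i => (f s i : ℚ)) (cv ℚ x) = 0
    have := h0 s
    have h3 : ((lin (f s) x : ℤ) : ℚ) = 0 := by rw [this]; simp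
    simpa [lin, cv] using h3
  -- dimension of the kernel
  have hne : perpSpanFun (cv ℚ x) ≠ 0 := by
    intro h
    apply hx
    funext i
    have h4 : perpSpanFun (cv ℚ x) (Pi.single i 1) = 0 := by rw [h]; rfl
    change lin (Pi.single i 1) (cv ℚ x) = 0 at h4
    rw [lin_single] at h4
    have h5 : x i = 0 := by simpa [cv] using h4
    exact h5
  have hrange : Module.finrank ℚ (LinearMap.range (perpSpanFun (cv ℚ x))) = 1 := by
    have : LinearMap.range (perpSpanFun (cv ℚ x)) = ⊤ :=
      LinearMap.range_eq_top.mpr (LinearMap.surjective hne)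
    rw [this]
    simp
  have hdim : Module.finrank ℚ (LinearMap.ker (perpSpanFun (cv ℚ x))) = 3 := by
    have := LinearMap.finrank_range_add_finrank_ker (perpSpanFun (cv ℚ x))
    rw [hrange] at this
    simp at this
    omega
  have hle : Submodule.span ℚ (Set.range (perpSpanCast ∘ f)) ≤
      LinearMap.ker (perpSpanFun (cv ℚ x)) := by
    rw [Submodule.span_le]
    rintro _ ⟨s, rfl⟩
    exact hker s
  have heq : Submodule.span ℚ (Set.range (perpSpanCast ∘ f)) =
      LinearMap.ker (perpSpanFun (cv ℚ x)) := by
    apply Submodule.eq_of_le_of_finrank_eq hle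
    rw [hdim, finrank_span_eq_card h2]
    simp
  have hmem : u ∈ Submodule.span ℚ (Set.range (perpSpanCast ∘ f)) := by
    rw [heq, LinearMap.mem_ker]
    exact hu
  rw [Submodule.mem_span_range_iff_exists_fun] at hmem
  obtain ⟨t, ht⟩ := hmem
  refine ⟨t, fun i => ?_⟩
  rw [← ht, Finset.sum_apply]
  refine Finset.sum_congr rfl fun s _ => ?_
  rfl

end Pool.Agent.Lib.MP_1ad228_ntC
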