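import Pool.Agent.Lib.MP_1ad228_ntC.GGfacts

/-!
JOB PosA.  Lower bound for `n1` and the Cauchy-Schwarz step.

PROOF.  `n1_low`: the `(A+1)^64` tensors with entries in `[0, A]` have values at `x` of absolute value at most
`64 A Y^3` (`ev_bound`), so some value is taken by at least `(A+1)^64/(128 A Y^3 + 1)` of them (pigeonhole,
`Finset.exists_le_card_fiber_of_mul_le_card_of_maps_to` or `Finset.card_le_mul_card_image`); subtracting one of them
from all of them gives distinct elements of `Box A` vanishing at `x` (`ev_sub`).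
`csPos`: for a finite set `G` of vectors, let `N a = #{x ∈ G, ev a x = 0}`. `∑_{a ∈ Box A} N a = ∑_x n1 x A`,
`∑_{a ∈ Box A} (N a)^2 = ∑_x ∑_y n2 x y A`, and by Cauchy-Schwarz
(`sq_sum_le_card_mul_sum_sq` / `Finset.sum_mul_sq_le_sq_mul_sq` on the `a` with `N a ≠ 0`)
`(∑ N a)^2 ≤ #{a ∈ Box A, ∃ x ∈ G, ev a x = 0} * ∑ (N a)^2`.
-/

namespace Pool.Agent.Lib.MP_1ad228_ntC

open Classical

theorem n1_low (x : Fin 4 → ℤ) (A Y : ℕ) (hx : ∀ i, |x i| ≤ (Y : ℤ)) :
    (A + 1) ^ 64 ≤ (128 * A * Y ^ 3 + 1) * n1 x A := by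
  obtain ⟨P, hP⟩ : ∃ P : Finset (Ten ℤ), P = Fintype.piFinset fun _ => Fintype.piFinset fun _ =>
    Fintype.piFinset fun _ => Finset.Icc (0 : ℤ) (A : ℤ) := ⟨_, rfl⟩
  have hPmem : ∀ a : Ten ℤ, a ∈ P → ∀ i j k, 0 ≤ a i j k ∧ a i j k ≤ (A : ℤ) := by
    intro a ha i j k
    rw [hP, Fintype.mem_piFinset] at ha
    have h1 := ha i
    rw [Fintype.mem_piFinset] at h1
    have h2 := h1 j
    rw [Fintype.mem_piFinset] at h2
    exact Finset.mem_Icc.1 (h2 k)
  have hPcard : P.card = (A + 1) ^ 64 := by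
    have h : ((A : ℤ) + 1 - 0).toNat = A + 1 := by omega
    rw [hP]
    simp only [Fintype.card_piFinset, Int.card_Icc, h, Finset.prod_const, Finset.card_univ,
      Fintype.card_fin]
    rw [← pow_mul, ← pow_mul]
  obtain ⟨T, hT⟩ : ∃ T : Finset ℤ, T = Finset.Icc (-((64 * A * Y ^ 3 : ℕ) : ℤ))
    ((64 * A * Y ^ 3 : ℕ) : ℤ) := ⟨_, rfl⟩
  have hTcard : T.card = 128 * A * Y ^ 3 + 1 := by
    rw [hT, Int.card_Icc]
    have h1 : 128 * A * Y ^ 3 = 2 * (64 * A * Y ^ 3) := by ring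
    rw [h1]
    omega
  have hmap : ∀ a ∈ P, ev a x ∈ T := by
    intro a ha
    have h1 : |ev a x| ≤ 64 * A * Y ^ 3 := by
      refine ev_bound (X := A) (fun i j k => ?_) hx
      have h2 := hPmem a ha i j k
      rw [abs_of_nonneg h2.1]
      exact h2.2
    rw [hT, Finset.mem_Icc, ← abs_le]
    push_cast
    exact h1
  have hfib : ∀ b ∈ T, (P.filter fun a => ev a x = b).card ≤ n1 x A := by
    intro b _
    rcases Finset.eq_empty_or_nonempty (P.filter fun a => ev a x = b) with h | ⟨a0, ha0⟩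
    · rw [h, Finset.card_empty]
      exact Nat.zero_le _
    · rw [Finset.mem_filter] at ha0
      unfold n1
      refine Finset.card_le_card_of_injOn (fun a => a - a0) ?_ ?_
      · intro a ha
        have ha' := Finset.mem_filter.1 (Finset.mem_coe.1 ha)
        refine Finset.mem_coe.2 (Finset.mem_filter.2 ⟨mem_Box.2 fun i j k => ?_, ?_⟩)
        · have h1 := hPmem a ha'.1 i j k
          have h2 := hPmem a0 ha0.1 i j k
          show |a i j k - a0 i j k| ≤ (A : ℤ)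
          rw [abs_le]
          constructor
          · linarith [h1.1, h2.2]
          · linarith [h1.2, h2.1]
        · rw [ev_sub, ha'.2, ha0.2, sub_self]
      · intro a _ a' _ h
        exact sub_left_injective h
  have h1 := Finset.card_le_mul_card_image_of_maps_to hmap (n1 x A) hfib
  rw [hPcard, hTcard, mul_comm] at h1
  exact h1

/-- the indicator function -/
private noncomputable def PosA_ind (a : Ten ℤ) (x : Fin 4 → ℤ) : ℝ := if ev a x = 0 then 1 else 0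

private theorem PosA_ind_nonneg (a : Ten ℤ) (x : Fin 4 → ℤ) : 0 ≤ PosA_ind a x := by
  unfold PosA_ind
  split_ifs
  · exact zero_le_one
  · exact le_rfl

private theorem PosA_n1 (x : Fin 4 → ℤ) (A : ℕ) :
    (n1 x A : ℝ) = ∑ a ∈ Box A, PosA_ind a x := by
  unfold n1 PosA_ind
  rw [Finset.sum_boole]

private theorem PosA_n2 (x y : Fin 4 → ℤ) (A : ℕ) :
    (n2 x y A : ℝ) = ∑ a ∈ Box A, PosA_ind a x * PosA_ind a y := by
  unfold n2 PosA_ind
  rw [← Finset.sum_boole]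
  refine Finset.sum_congr rfl fun a _ => ?_
  by_cases h1 : ev a x = 0
  · by_cases h2 : ev a y = 0
    · rw [if_pos ⟨h1, h2⟩, if_pos h1, if_pos h2, one_mul]
    · rw [if_neg (fun h => h2 h.2), if_neg h2, mul_zero]
  · rw [if_neg (fun h => h1 h.1), if_neg h1, zero_mul]

theorem csPos (G : Finset (Fin 4 → ℤ)) (A : ℕ) :
    (∑ x ∈ G, (n1 x A : ℝ)) ^ 2 ≤
      (((Box A).filter fun a => ∃ x ∈ G, ev a x = 0).card : ℝ) *
        ∑ x ∈ G, ∑ y ∈ G, (n2 x y A : ℝ) := by
  have e1 : ∑ x ∈ G, (n1 x A : ℝ) = ∑ a ∈ Box A, ∑ x ∈ G, PosA_ind a x := by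
    rw [Finset.sum_comm]
    exact Finset.sum_congr rfl fun x _ => PosA_n1 x A
  have e2 : ∑ x ∈ G, ∑ y ∈ G, (n2 x y A : ℝ) = ∑ a ∈ Box A, (∑ x ∈ G, PosA_ind a x) ^ 2 := by
    have h1 : ∀ x ∈ G, ∑ y ∈ G, (n2 x y A : ℝ) =
        ∑ a ∈ Box A, ∑ y ∈ G, PosA_ind a x * PosA_ind a y := by
      intro x _
      rw [Finset.sum_comm]
      exact Finset.sum_congr rfl fun y _ => PosA_n2 x y A
    rw [Finset.sum_congr rfl h1, Finset.sum_comm]
    refine Finset.sum_congr rfl fun a _ => ?_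
    rw [sq, Finset.sum_mul_sum]
  have e3 : ∑ a ∈ Box A, ∑ x ∈ G, PosA_ind a x =
      ∑ a ∈ (Box A).filter (fun a => ∃ x ∈ G, ev a x = 0), ∑ x ∈ G, PosA_ind a x := by
    refine (Finset.sum_filter_of_ne fun a _ h => ?_).symm
    by_contra hcon
    apply h
    refine Finset.sum_eq_zero fun x hx => ?_
    unfold PosA_ind
    rw [if_neg fun h' => hcon ⟨x, hx, h'⟩]
  rw [e1, e2, e3]
  refine (sq_sum_le_card_mul_sum_sq).trans ?_
  refine mul_le_mul_of_nonneg_left ?_ (Nat.cast_nonneg _)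
  exact Finset.sum_le_sum_of_subset_of_nonneg (Finset.filter_subset _ _)
    fun a _ _ => sq_nonneg _

end Pool.Agent.Lib.MP_1ad228_ntC
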