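import Pool.Agent.Lib.MP_1ad228_ntC.LL
import Pool.Agent.Lib.MP_1ad228_ntC.GGfacts

/-!
JOB Pre.  Short integer tensors with given values at test points, explicit bounds.

PROOF.  `pre1`: `LL1` with `H = g^6`, `b = (ev a x / x_1^3) e_1⊗e_1⊗e_1` (entry `(1,1,1)` only):
`ev b x = ev a x`; `1/x_1 ≤ q/g^16`.
`pre2`: let `j` be as in `exists_Del` (`Del_pos`), `Δ = mn x y 1 j`, `m = ev a x`, `m' = ev a y`,
`s = m - m' x_1^3 / y_1^3`. `b = (m'/y_1^3) e_1⊗e_1⊗e_1 + (s/(Δ x_1^2)) (y_j e_1 - y_1 e_j)⊗e_1⊗e_1`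
(rational tensor: entry `(1,1,1)` is `m'/y_1^3 + s y_j/(Δ x_1^2)`, entry `(j,1,1)` is `-s y_1/(Δ x_1^2)`,
all others 0; or use `ten` and `ev_add`, `ev_ten`). The linear form `(y_j e_1 - y_1 e_j)` has value `Δ`
at `x` and 0 at `y`. So `ev b y = m'`, `ev b x = m' x_1^3/y_1^3 + s = m`. Entries:
`|m'|/y_1^3 ≤ |m'| q^3/g^48` and `|s| max(|y_j|,|y_1|)/(|Δ| x_1^2) ≤ |s| g^16 q^2/(Del g^32)`.
Then `LL2` with `H = g^6` (`216 * (g^6)^2 = 216 g^12`). The statements are over ℝ: take `β` rational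
(all quantities are rational) and cast at the end.
-/

namespace Pool.Agent.Lib.MP_1ad228_ntC

open Classical

/-- the tensor with the single entry `c` at `(1, 1, 1)` -/
private theorem Pre_single {R : Type*} [CommRing R] (c : R) (x : Fin 4 → R) :
    ev (c • ten (Pi.single 1 1) (Pi.single 1 1) (Pi.single 1 1) : Ten R) x = c * x 1 ^ 3 := by
  rw [ev_smul', ev_ten, lin_single]
  ring

private theorem Pre_single_le (c β : ℚ) (hc : |c| ≤ β) (i j k : Fin 4) :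
    |(c • ten (Pi.single 1 1) (Pi.single 1 1) (Pi.single 1 1) : Ten ℚ) i j k| ≤ β := by
  have hβ : 0 ≤ β := (abs_nonneg c).trans hc
  show |c * ((Pi.single 1 1 : Fin 4 → ℚ) i * (Pi.single 1 1 : Fin 4 → ℚ) j *
    (Pi.single 1 1 : Fin 4 → ℚ) k)| ≤ β
  have h1 : ∀ i : Fin 4, |(Pi.single 1 1 : Fin 4 → ℚ) i| ≤ 1 := by
    intro i
    by_cases h : i = 1
    · subst h
      rw [Pi.single_eq_same, abs_one]
    · rw [Pi.single_eq_of_ne h, abs_zero]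
      exact zero_le_one
  have h2 : |(Pi.single 1 1 : Fin 4 → ℚ) i * (Pi.single 1 1 : Fin 4 → ℚ) j *
      (Pi.single 1 1 : Fin 4 → ℚ) k| ≤ 1 := by
    rw [abs_mul, abs_mul]
    exact mul_le_one₀ (mul_le_one₀ (h1 i) (abs_nonneg _) (h1 j)) (abs_nonneg _) (h1 k)
  rw [abs_mul]
  calc |c| * _ ≤ β * 1 := mul_le_mul hc h2 (abs_nonneg _) hβ
    _ = β := mul_one β

private theorem Pre_inv {g q : ℕ} (hg : 1 ≤ g) {x : Fin 4 → ℤ} (hx : x ∈ GG g q) :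
    0 < (x 1 : ℚ) ∧ 0 < (g : ℚ) ∧ 1 / (x 1 : ℚ) ≤ (q : ℚ) / (g : ℚ) ^ 16 := by
  have h0 : 0 < (x 1 : ℚ) := by exact_mod_cast GG_pos hg hx
  have hg0 : (0 : ℚ) < g := by exact_mod_cast hg
  refine ⟨h0, hg0, ?_⟩
  rw [div_le_div_iff₀ h0 (by positivity), one_mul]
  exact_mod_cast GG_pivot hx

private theorem Pre_inv3 {g q : ℕ} (hg : 1 ≤ g) {x : Fin 4 → ℤ} (hx : x ∈ GG g q) (m : ℚ) :
    |m / (x 1 : ℚ) ^ 3| ≤ |m| * (q : ℚ) ^ 3 / (g : ℚ) ^ 48 := by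
  obtain ⟨h0, hg0, h1⟩ := Pre_inv hg hx
  have h2 : |m / (x 1 : ℚ) ^ 3| = |m| * (1 / (x 1 : ℚ)) ^ 3 := by
    rw [abs_div, abs_of_pos (pow_pos h0 3)]
    field_simp
  rw [h2]
  calc |m| * (1 / (x 1 : ℚ)) ^ 3 ≤ |m| * ((q : ℚ) / (g : ℚ) ^ 16) ^ 3 := by
        gcongr
    _ = |m| * (q : ℚ) ^ 3 / (g : ℚ) ^ 48 := by
        rw [div_pow, ← pow_mul, mul_div_assoc]

theorem pre1 (g q : ℕ) (hg : 1 ≤ g) (hq : 1 ≤ q) (x : Fin 4 → ℤ) (hx : x ∈ GG g q) (a : Ten ℤ) :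
    ∃ a' : Ten ℤ, ev a' x = ev a x ∧ ∀ i j k,
      |(a' i j k : ℝ)| ≤ |((ev a x : ℤ) : ℝ)| * (q : ℝ) ^ 3 / (g : ℝ) ^ 48 + 144 * (g : ℝ) ^ 6 := by
  obtain ⟨h0, hg0, h1⟩ := Pre_inv hg hx
  obtain ⟨c, hc⟩ : ∃ c : ℚ, c = ((ev a x : ℤ) : ℚ) / (x 1 : ℚ) ^ 3 := ⟨_, rfl⟩
  have hcb : |c| ≤ |((ev a x : ℤ) : ℚ)| * (q : ℚ) ^ 3 / (g : ℚ) ^ 48 := by
    rw [hc]
    exact Pre_inv3 hg hx _
  obtain ⟨a', ha1, ha2⟩ := LL1 (g ^ 6) x (GG_pos hg hx).ne' (GG_good hx) a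
    (c • ten (Pi.single 1 1) (Pi.single 1 1) (Pi.single 1 1)) _ (Pre_single_le c _ hcb)
    (by
      rw [Pre_single, hc]
      show _ = _ * (x 1 : ℚ) ^ 3
      field_simp)
  refine ⟨a', ha1, fun i j k => ?_⟩
  have h3 := ha2 i j k
  have h4 : ((|(a' i j k : ℚ)| : ℚ) : ℝ) ≤ ((|((ev a x : ℤ) : ℚ)| * (q : ℚ) ^ 3 / (g : ℚ) ^ 48 +
      144 * ((g ^ 6 : ℕ) : ℚ) : ℚ) : ℝ) := by
    exact_mod_cast h3
  push_cast at h4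
  exact h4

theorem pre2 (g q : ℕ) (hg : 1 ≤ g) (hq : 1 ≤ q) (x y : Fin 4 → ℤ) (hx : x ∈ GG g q)
    (hy : y ∈ GG g q) (hxy : x ≠ y) (a : Ten ℤ) :
    ∃ a' : Ten ℤ, ev a' x = ev a x ∧ ev a' y = ev a y ∧ ∀ i j k,
      |(a' i j k : ℝ)| ≤ |((ev a y : ℤ) : ℝ)| * (q : ℝ) ^ 3 / (g : ℝ) ^ 48
        + |((ev a x : ℤ) : ℝ) - ((ev a y : ℤ) : ℝ) * (x 1 : ℝ) ^ 3 / (y 1 : ℝ) ^ 3| * (q : ℝ) ^ 2 /
            ((Del x y : ℝ) * (g : ℝ) ^ 16)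
        + 216 * (g : ℝ) ^ 12 := by
  obtain ⟨hx0, hg0, hx1⟩ := Pre_inv hg hx
  obtain ⟨hy0, -, hy1⟩ := Pre_inv hg hy
  have hDp := Del_pos hg hx hy hxy
  obtain ⟨j, hj1, hjne, hjD⟩ := exists_Del x y hDp
  obtain ⟨m, hm⟩ : ∃ m : ℚ, m = ((ev a x : ℤ) : ℚ) := ⟨_, rfl⟩
  obtain ⟨m', hm'⟩ : ∃ m' : ℚ, m' = ((ev a y : ℤ) : ℚ) := ⟨_, rfl⟩
  obtain ⟨Δ, hΔ⟩ : ∃ Δ : ℚ, Δ = ((mn x y 1 j : ℤ) : ℚ) := ⟨_, rfl⟩
  have hΔ0 : Δ ≠ 0 := by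
    rw [hΔ]
    exact_mod_cast hjne
  have hΔe : Δ = (x 1 : ℚ) * (y j : ℚ) - (x j : ℚ) * (y 1 : ℚ) := by
    rw [hΔ, mn]
    push_cast
    rfl
  have hΔa : |Δ| = (Del x y : ℚ) := by
    rw [hΔ]
    exact_mod_cast congrArg (fun z : ℤ => (z : ℚ)) hjD
  have hD0 : (0 : ℚ) < (Del x y : ℚ) := by exact_mod_cast hDp
  obtain ⟨s, hs⟩ : ∃ s : ℚ, s = m - m' * (x 1 : ℚ) ^ 3 / (y 1 : ℚ) ^ 3 := ⟨_, rfl⟩
  obtain ⟨c, hc⟩ : ∃ c : ℚ, c = m' / (y 1 : ℚ) ^ 3 := ⟨_, rfl⟩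
  obtain ⟨e, he⟩ : ∃ e : ℚ, e = s / (Δ * (x 1 : ℚ) ^ 2) := ⟨_, rfl⟩
  have hcb : |c| ≤ |m'| * (q : ℚ) ^ 3 / (g : ℚ) ^ 48 := by
    rw [hc]
    exact Pre_inv3 hg hy _
  -- the linear form
  obtain ⟨u, hu⟩ : ∃ u : Fin 4 → ℚ, u = (y j : ℚ) • (Pi.single 1 1 : Fin 4 → ℚ) -
      (y 1 : ℚ) • (Pi.single j 1 : Fin 4 → ℚ) := ⟨_, rfl⟩
  have hux : lin u (cv ℚ x) = Δ := by
    rw [hu, lin_sub, lin_smul, lin_smul, lin_single, lin_single, hΔe]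
    show (y j : ℚ) * (x 1 : ℚ) - (y 1 : ℚ) * (x j : ℚ) = _
    ring
  have huy : lin u (cv ℚ y) = 0 := by
    rw [hu, lin_sub, lin_smul, lin_smul, lin_single, lin_single]
    show (y j : ℚ) * (y 1 : ℚ) - (y 1 : ℚ) * (y j : ℚ) = _
    ring
  have hub : ∀ i, |u i| ≤ (g : ℚ) ^ 16 := by
    intro i
    have hyj : |(y j : ℚ)| ≤ (g : ℚ) ^ 16 := by exact_mod_cast GG_le hy j
    have hy1' : |(y 1 : ℚ)| ≤ (g : ℚ) ^ 16 := by exact_mod_cast GG_le hy 1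
    have hp : (0 : ℚ) ≤ (g : ℚ) ^ 16 := by positivity
    rw [hu]
    show |(y j : ℚ) * (Pi.single 1 1 : Fin 4 → ℚ) i - (y 1 : ℚ) * (Pi.single j 1 : Fin 4 → ℚ) i| ≤ _
    by_cases h1 : i = 1
    · subst h1
      rw [Pi.single_eq_same, Pi.single_eq_of_ne hj1.symm, mul_one, mul_zero, sub_zero]
      exact hyj
    · rw [Pi.single_eq_of_ne h1, mul_zero, zero_sub, abs_neg]
      by_cases h2 : i = j
      · subst h2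
        rw [Pi.single_eq_same, mul_one]
        exact hy1'
      · rw [Pi.single_eq_of_ne h2, mul_zero, abs_zero]
        exact hp
  have heb : |e| * (g : ℚ) ^ 16 ≤ |s| * (q : ℚ) ^ 2 / ((Del x y : ℚ) * (g : ℚ) ^ 16) := by
    have h2 : |e| = |s| / (Del x y : ℚ) * (1 / (x 1 : ℚ)) ^ 2 := by
      rw [he, abs_div, abs_mul, hΔa, abs_of_pos (pow_pos hx0 2)]
      field_simp
    rw [h2]
    calc |s| / (Del x y : ℚ) * (1 / (x 1 : ℚ)) ^ 2 * (g : ℚ) ^ 16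
        ≤ |s| / (Del x y : ℚ) * ((q : ℚ) / (g : ℚ) ^ 16) ^ 2 * (g : ℚ) ^ 16 := by
          gcongr
      _ = |s| * (q : ℚ) ^ 2 / ((Del x y : ℚ) * (g : ℚ) ^ 16) := by
          field_simp
  obtain ⟨b, hb⟩ : ∃ b : Ten ℚ, b = c • ten (Pi.single 1 1) (Pi.single 1 1) (Pi.single 1 1) +
      e • ten u (Pi.single 1 1) (Pi.single 1 1) := ⟨_, rfl⟩
  have hbx : ev b (cv ℚ x) = m := by
    rw [hb, ev_add, Pre_single, ev_smul', ev_ten, lin_single, hux]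
    show c * (x 1 : ℚ) ^ 3 + e * (Δ * (x 1 : ℚ) * (x 1 : ℚ)) = m
    rw [he, hc, hs]
    field_simp
    ring
  have hby : ev b (cv ℚ y) = m' := by
    rw [hb, ev_add, Pre_single, ev_smul', ev_ten, huy]
    show c * (y 1 : ℚ) ^ 3 + e * (0 * _ * _) = m'
    rw [hc]
    field_simp
    ring
  have hsg : ∀ i : Fin 4, |(Pi.single 1 1 : Fin 4 → ℚ) i| ≤ 1 := by
    intro i
    by_cases h : i = 1
    · subst h
      rw [Pi.single_eq_same, abs_one]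
    · rw [Pi.single_eq_of_ne h, abs_zero]
      exact zero_le_one
  have hbb : ∀ i k l, |b i k l| ≤ |m'| * (q : ℚ) ^ 3 / (g : ℚ) ^ 48 +
      |s| * (q : ℚ) ^ 2 / ((Del x y : ℚ) * (g : ℚ) ^ 16) := by
    intro i k l
    have h1 := Pre_single_le c _ hcb i k l
    have h2 : |(e • ten u (Pi.single 1 1) (Pi.single 1 1) : Ten ℚ) i k l| ≤
        |s| * (q : ℚ) ^ 2 / ((Del x y : ℚ) * (g : ℚ) ^ 16) := by
      show |e * (u i * (Pi.single 1 1 : Fin 4 → ℚ) k * (Pi.single 1 1 : Fin 4 → ℚ) l)| ≤ _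
      rw [abs_mul, abs_mul, abs_mul]
      refine le_trans ?_ heb
      refine mul_le_mul_of_nonneg_left ?_ (abs_nonneg _)
      calc |u i| * |(Pi.single 1 1 : Fin 4 → ℚ) k| * |(Pi.single 1 1 : Fin 4 → ℚ) l|
          ≤ (g : ℚ) ^ 16 * 1 * 1 := by
            refine mul_le_mul (mul_le_mul (hub i) (hsg k) (abs_nonneg _) (by positivity)) (hsg l)
              (abs_nonneg _) (by positivity)
        _ = _ := by ring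
    rw [hb]
    exact (abs_add_le _ _).trans (add_le_add h1 h2)
  obtain ⟨a', ha1, ha2, ha3⟩ := LL2 (g ^ 6) x y ⟨j, hjne⟩ (GG_good hx) (GG_good hy) a b _ hbb
    (by rw [hbx, hm]) (by rw [hby, hm'])
  refine ⟨a', ha1, ha2, fun i k l => ?_⟩
  have h3 := ha3 i k l
  rw [hs, hm, hm'] at h3
  have h4 : ((|(a' i k l : ℚ)| : ℚ) : ℝ) ≤ ((|((ev a y : ℤ) : ℚ)| * (q : ℚ) ^ 3 / (g : ℚ) ^ 48 +
      |((ev a x : ℤ) : ℚ) - ((ev a y : ℤ) : ℚ) * (x 1 : ℚ) ^ 3 / (y 1 : ℚ) ^ 3| * (q : ℚ) ^ 2 /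
        ((Del x y : ℚ) * (g : ℚ) ^ 16) + 216 * ((g ^ 6 : ℕ) : ℚ) ^ 2 : ℚ) : ℝ) := by
    exact_mod_cast h3
  push_cast at h4
  rw [← pow_mul] at h4
  exact h4

end Pool.Agent.Lib.MP_1ad228_ntC
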