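import Pool.Agent.Lib.MP_1ad228_ntC.Basic

/-!
JOB Psi.  The weight function.

PROOF.  `tn` is the supremum norm of integer tensors: `tn (a + b) ≤ tn a + tn b`, `tn (-a) = tn a`
(`tn_le`). Then everything is immediate: `psi_lip` from `|max 0 s - max 0 t| ≤ |s - t|` and
`|tn (a + c) - tn a| ≤ tn c`.
-/

namespace Pool.Agent.Lib.MP_1ad228_ntC

open Classical

private theorem Psi_ent (a : Ten ℤ) (i j k : Fin 4) : |a i j k| ≤ (tn a : ℤ) :=
  tn_le.1 le_rfl i j k

theorem tn_add (a b : Ten ℤ) : tn (a + b) ≤ tn a + tn b := by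
  rw [tn_le]
  intro i j k
  push_cast
  exact (abs_add_le (a i j k) (b i j k)).trans (add_le_add (Psi_ent a i j k) (Psi_ent b i j k))

theorem tn_neg (a : Ten ℤ) : tn (-a) = tn a := by
  unfold tn
  simp only [Pi.neg_apply, Int.natAbs_neg]

theorem psi_nonneg (A : ℕ) (a : Ten ℤ) : 0 ≤ psi A a := le_max_left _ _

theorem psi_le_one (A : ℕ) (a : Ten ℤ) : psi A a ≤ 1 := by
  unfold psi
  refine max_le zero_le_one ?_
  have h : (0 : ℝ) ≤ (tn a : ℝ) / (2 * A) := by positivity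
  linarith

theorem psi_half {A : ℕ} (hA : 1 ≤ A) {a : Ten ℤ} (ha : a ∈ Box A) : 1 / 2 ≤ psi A a := by
  have h1 : tn a ≤ A := mem_Box_iff_tn.1 ha
  have h2 : (tn a : ℝ) ≤ (A : ℝ) := by exact_mod_cast h1
  have hA' : (0 : ℝ) < (A : ℝ) := by exact_mod_cast hA
  have h3 : (tn a : ℝ) / (2 * A) ≤ 1 / 2 := by
    rw [div_le_iff₀ (by positivity)]
    linarith
  unfold psi
  refine le_trans ?_ (le_max_right _ _)
  linarith

theorem psi_zero {A : ℕ} (hA : 1 ≤ A) {a : Ten ℤ} (ha : a ∉ Box (2 * A)) : psi A a = 0 := by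
  have h1 : 2 * A < tn a := by
    by_contra h
    exact ha (mem_Box_iff_tn.2 (not_lt.1 h))
  have h2 : (2 * A : ℝ) < (tn a : ℝ) := by exact_mod_cast h1
  have hA' : (0 : ℝ) < (A : ℝ) := by exact_mod_cast hA
  have h3 : 1 ≤ (tn a : ℝ) / (2 * A) := by
    rw [le_div_iff₀ (by positivity)]
    linarith
  unfold psi
  exact max_eq_left (by linarith)

theorem psi_lip {A : ℕ} (hA : 1 ≤ A) (a c : Ten ℤ) :
    |psi A (a + c) - psi A a| ≤ (tn c : ℝ) / (2 * A) := by
  have hA' : (0 : ℝ) < (A : ℝ) := by exact_mod_cast hA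
  have h1 : tn (a + c) ≤ tn a + tn c := tn_add a c
  have h2 : tn a ≤ tn (a + c) + tn c := by
    have h := tn_add (a + c) (-c)
    rw [add_neg_cancel_right, tn_neg] at h
    exact h
  have h1' : (tn (a + c) : ℝ) ≤ tn a + tn c := by exact_mod_cast h1
  have h2' : (tn a : ℝ) ≤ tn (a + c) + tn c := by exact_mod_cast h2
  have h3 : |(tn a : ℝ) - tn (a + c)| ≤ tn c := abs_le.2 ⟨by linarith, by linarith⟩
  unfold psi
  have h4 := abs_max_sub_max_le_max 0 (1 - (tn (a + c) : ℝ) / (2 * A)) 0 (1 - (tn a : ℝ) / (2 * A))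
  rw [sub_self, abs_zero] at h4
  refine h4.trans ((max_eq_right (abs_nonneg _)).le.trans ?_)
  have h5 : 1 - (tn (a + c) : ℝ) / (2 * A) - (1 - (tn a : ℝ) / (2 * A)) =
      ((tn a : ℝ) - tn (a + c)) / (2 * A) := by ring
  rw [h5, abs_div, abs_of_pos (by positivity : (0 : ℝ) < 2 * A)]
  exact div_le_div_of_nonneg_right h3 (by positivity)

end Pool.Agent.Lib.MP_1ad228_ntC
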