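import Pool.Agent.Lib.MP_1ad228_ntC.Psi
import Pool.Agent.Lib.MP_1ad228_ntC.CoverC

/-!
The slices (paper section 3).

PROOF.  `sl_nonneg`: `psi_nonneg`. `sl_le`: `psi_le_one` and `cover2` with `M = 2`, `X = A`.
`sl_close`: `sl A x y m m'` is also the sum of `psi A a` over the `a` with values `(m, m')` in any larger finite
set, because `psi` vanishes outside `Box (2*A)` (`psi_zero`). Substituting `a = b + a0` (`ev_add`), the sum of
`sl A x y m m'` becomes the sum of `psi A (b + a0)` over `b ∈ Box (3*A)` with values `(0, 0)`: if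
`psi A (b + a0) ≠ 0` then `tn (b + a0) ≤ 2A`, so `tn b ≤ 2A + tn a0 ≤ 3A`. And `sl A x y 0 0` is the sum of
`psi A b` over the same set. Each term differs by at most `tn a0/(2A)` (`psi_lip`), and the number of `b` is at
most `6^64 * n2 x y A` (`cover2` with `M = 3`).
-/

namespace Pool.Agent.Lib.MP_1ad228_ntC

open Classical

theorem sl_nonneg (A : ℕ) (x y : Fin 4 → ℤ) (m m' : ℤ) : 0 ≤ sl A x y m m' :=
  Finset.sum_nonneg fun a _ => psi_nonneg A a

theorem sl_le (A : ℕ) (x y : Fin 4 → ℤ) (m m' : ℤ) :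
    sl A x y m m' ≤ 4 ^ 64 * (n2 x y A : ℝ) := by
  have h1 : sl A x y m m' ≤
      ∑ _a ∈ (Box (2 * A)).filter (fun a => ev a x = m ∧ ev a y = m'), (1 : ℝ) :=
    Finset.sum_le_sum fun a _ => psi_le_one A a
  have h2 := cover2 x y m m' 2 A (by norm_num)
  have h3 : (2 * 2 : ℕ) ^ 64 = 4 ^ 64 := by norm_num
  rw [h3] at h2
  have h4 : (((Box (2 * A)).filter fun a => ev a x = m ∧ ev a y = m').card : ℝ)
      ≤ 4 ^ 64 * (n2 x y A : ℝ) := by exact_mod_cast h2
  refine h1.trans ?_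
  rw [Finset.sum_const, nsmul_eq_mul, mul_one]
  exact h4

theorem sl_close (A : ℕ) (hA : 1 ≤ A) (x y : Fin 4 → ℤ) (a0 : Ten ℤ) (h0 : tn a0 ≤ A) :
    |sl A x y (ev a0 x) (ev a0 y) - sl A x y 0 0| ≤
      (tn a0 : ℝ) / (2 * A) * (6 ^ 64 * (n2 x y A : ℝ)) := by
  set B : Finset (Ten ℤ) := (Box (3 * A)).filter (fun b => ev b x = 0 ∧ ev b y = 0) with hB
  have c1 : sl A x y (ev a0 x) (ev a0 y) = ∑ b ∈ B, psi A (b + a0) := by
    have e1 : ∑ b ∈ B, psi A (b + a0) = ∑ b ∈ B.filter (fun b => b + a0 ∈ Box (2 * A)),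
        psi A (b + a0) := by
      symm
      refine Finset.sum_subset (Finset.filter_subset _ _) ?_
      intro b hb hnb
      apply psi_zero hA
      intro h
      exact hnb (Finset.mem_filter.mpr ⟨hb, h⟩)
    rw [e1]
    unfold sl
    refine Finset.sum_bij' (fun a _ => a - a0) (fun b _ => b + a0) ?_ ?_ ?_ ?_ ?_
    · intro a ha
      rw [Finset.mem_filter] at ha
      obtain ⟨ha1, ha2, ha3⟩ := ha
      have htn : tn (a - a0) ≤ 3 * A := by
        rw [mem_Box_iff_tn] at ha1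
        have := tn_add a (-a0)
        rw [tn_neg, ← sub_eq_add_neg] at this
        omega
      refine Finset.mem_filter.mpr ⟨?_, ?_⟩
      · refine Finset.mem_filter.mpr ⟨mem_Box_iff_tn.mpr htn, ?_, ?_⟩
        · rw [ev_sub, ha2, sub_self]
        · rw [ev_sub, ha3, sub_self]
      · rw [sub_add_cancel]; exact ha1
    · intro b hb
      rw [Finset.mem_filter] at hb
      obtain ⟨hb1, hb2⟩ := hb
      rw [hB, Finset.mem_filter] at hb1
      refine Finset.mem_filter.mpr ⟨hb2, ?_, ?_⟩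
      · rw [ev_add, hb1.2.1, zero_add]
      · rw [ev_add, hb1.2.2, zero_add]
    · intro a _
      exact sub_add_cancel a a0
    · intro b _
      exact add_sub_cancel_right b a0
    · intro a _
      rw [sub_add_cancel]
  have c2 : sl A x y 0 0 = ∑ b ∈ B, psi A b := by
    unfold sl
    refine Finset.sum_subset ?_ ?_
    · intro a ha
      rw [Finset.mem_filter] at ha
      refine Finset.mem_filter.mpr ⟨?_, ha.2⟩
      rw [mem_Box_iff_tn] at ha ⊢
      omega
    · intro b hb hnb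
      apply psi_zero hA
      intro h
      exact hnb (Finset.mem_filter.mpr ⟨h, (Finset.mem_filter.mp hb).2⟩)
  rw [c1, c2, ← Finset.sum_sub_distrib]
  have h2 := cover2 x y 0 0 3 A (by norm_num)
  have h3 : (2 * 3 : ℕ) ^ 64 = 6 ^ 64 := by norm_num
  rw [h3] at h2
  have h4 : (B.card : ℝ) ≤ 6 ^ 64 * (n2 x y A : ℝ) := by exact_mod_cast h2
  calc |∑ b ∈ B, (psi A (b + a0) - psi A b)|
      ≤ ∑ b ∈ B, |psi A (b + a0) - psi A b| := Finset.abs_sum_le_sum_abs _ _
    _ ≤ ∑ _b ∈ B, (tn a0 : ℝ) / (2 * A) := Finset.sum_le_sum fun b _ => psi_lip hA b a0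
    _ = (tn a0 : ℝ) / (2 * A) * B.card := by rw [Finset.sum_const, nsmul_eq_mul, mul_comm]
    _ ≤ _ := mul_le_mul_of_nonneg_left h4 (by positivity)

end Pool.Agent.Lib.MP_1ad228_ntC
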