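import Pool.Agent.Lib.MP_1ad228_ntC.PerpSpan

/-!
JOB Span1.  Tensors vanishing at an `H`-good point are spanned by 144 short integer tensors.

PROOF.  Let `f` be the three short vectors of `HGood H x`. Index `t = (slot, s, j, k)`; the tensor
`c t` is `f_s ⊗ e_j ⊗ e_k` for slot 0, `e_j ⊗ f_s ⊗ e_k` for slot 1, `e_j ⊗ e_k ⊗ f_s` for slot 2
(`ten` of integer vectors, `e_j = Pi.single j 1`). By `ev_ten` it vanishes at `x`; its entries are
entries of `f_s` or 0.
Spanning: `p = e_1 / x_1` (rational vector), `h_i = e_i - x_i p`, so `lin h_i x = 0`, hence by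
`perpSpan` `h_i` is a rational combination of the `f_s`. For every `b`
  `b = ∑ b_ijk e_i⊗e_j⊗e_k`, and
  `e_i⊗e_j⊗e_k = x_i x_j x_k p⊗p⊗p + h_i⊗e_j⊗e_k + x_i p⊗h_j⊗e_k + x_i x_j p⊗p⊗h_k`.
Summing, the first terms give `ev b x • p⊗p⊗p = 0`, the others lie in the rational span of the casts of
the `c t` (work with the `Submodule ℚ (Ten ℚ)` spanned by `ct ℚ (c t)`: it contains `h⊗v⊗w`,
`v⊗h⊗w`, `v⊗w⊗h` for all rational `v,w` and all `h` with `lin h x = 0`; expand `h` in the `f_s` and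
`v, w` in the `e_j`). At the end turn membership in the span of a finite family into coefficients
(`Submodule.mem_span_range_iff_exists_fun`).
-/

namespace Pool.Agent.Lib.MP_1ad228_ntC

open Classical

private def span1_A (v w : Fin 4 → ℚ) : (Fin 4 → ℚ) →ₗ[ℚ] Ten ℚ where
  toFun u := ten u v w
  map_add' a b := by funext i j k; simp only [ten, Pi.add_apply]; ring
  map_smul' r a := by
    funext i j k
    simp only [ten, Pi.smul_apply, smul_eq_mul, RingHom.id_apply]
    ring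

private def span1_B (u w : Fin 4 → ℚ) : (Fin 4 → ℚ) →ₗ[ℚ] Ten ℚ where
  toFun v := ten u v w
  map_add' a b := by funext i j k; simp only [ten, Pi.add_apply]; ring
  map_smul' r a := by
    funext i j k
    simp only [ten, Pi.smul_apply, smul_eq_mul, RingHom.id_apply]
    ring

private def span1_C (u v : Fin 4 → ℚ) : (Fin 4 → ℚ) →ₗ[ℚ] Ten ℚ where
  toFun w := ten u v w
  map_add' a b := by funext i j k; simp only [ten, Pi.add_apply]; ring
  map_smul' r a := by
    funext i j k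
    simp only [ten, Pi.smul_apply, smul_eq_mul, RingHom.id_apply]
    ring

private theorem span1_mem (S : Submodule ℚ (Ten ℚ)) {A B C : Set (Fin 4 → ℚ)}
    (h : ∀ a ∈ A, ∀ b ∈ B, ∀ c ∈ C, ten a b c ∈ S) {u v w : Fin 4 → ℚ}
    (hu : u ∈ Submodule.span ℚ A) (hv : v ∈ Submodule.span ℚ B) (hw : w ∈ Submodule.span ℚ C) :
    ten u v w ∈ S := by
  have h1 : ∀ a ∈ A, ∀ b ∈ B, ten a b w ∈ S := by
    intro a ha b hb
    have h2 : Submodule.span ℚ C ≤ S.comap (span1_C a b) :=
      Submodule.span_le.2 fun c hc => h a ha b hb c hc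
    exact h2 hw
  have h3 : ∀ a ∈ A, ten a v w ∈ S := by
    intro a ha
    have h2 : Submodule.span ℚ B ≤ S.comap (span1_B a w) :=
      Submodule.span_le.2 fun b hb => h1 a ha b hb
    exact h2 hv
  have h2 : Submodule.span ℚ A ≤ S.comap (span1_A v w) :=
    Submodule.span_le.2 fun a ha => h3 a ha
  exact h2 hu

private theorem span1_top (v : Fin 4 → ℚ) :
    v ∈ Submodule.span ℚ (Set.range fun j : Fin 4 => (Pi.single j 1 : Fin 4 → ℚ)) := by
  have h := (Pi.basisFun ℚ (Fin 4)).span_eq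
  have h2 : (Set.range fun j : Fin 4 => (Pi.single j 1 : Fin 4 → ℚ)) =
      Set.range (Pi.basisFun ℚ (Fin 4)) := by
    congr 1
    funext j
    rw [Pi.basisFun_apply]
  rw [h2, h]
  trivial

private theorem span1_perp (x : Fin 4 → ℤ) (hx : x ≠ 0) (f : Fin 3 → Fin 4 → ℤ)
    (hf : LinearIndependent ℤ f) (h0 : ∀ s, lin (f s) x = 0) {u : Fin 4 → ℚ}
    (hu : lin u (cv ℚ x) = 0) :
    u ∈ Submodule.span ℚ (Set.range fun s : Fin 3 => cv ℚ (f s)) := by
  obtain ⟨t, ht⟩ := perpSpan x hx f hf h0 u hu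
  have h1 : u = ∑ s, t s • cv ℚ (f s) := by
    funext i
    rw [ht i, Finset.sum_apply]
    rfl
  rw [h1]
  exact Submodule.sum_mem _ fun s _ => Submodule.smul_mem _ _ (Submodule.subset_span ⟨s, rfl⟩)

private theorem span1_ct (u v w : Fin 4 → ℤ) :
    ct ℚ (ten u v w) = ten (cv ℚ u) (cv ℚ v) (cv ℚ w) := by
  funext i j k
  simp [ct, ten, cv]

private theorem span1_cvs (j : Fin 4) : cv ℚ (Pi.single j 1 : Fin 4 → ℤ) = Pi.single j 1 := by
  funext i
  simp only [cv, Pi.single_apply]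
  split_ifs <;> simp

private theorem span1_sum (b : Ten ℚ) :
    b = ∑ i, ∑ j, ∑ k, b i j k • ten (Pi.single i 1) (Pi.single j 1) (Pi.single k 1) := by
  funext i j k
  simp [Finset.sum_apply, Pi.smul_apply, ten, Pi.single_apply]

private def span1_c (f : Fin 3 → Fin 4 → ℤ) (t : Fin 3 × Fin 3 × Fin 4 × Fin 4) : Ten ℤ :=
  (![ten (f t.2.1) (Pi.single t.2.2.1 1) (Pi.single t.2.2.2 1),
    ten (Pi.single t.2.2.1 1) (f t.2.1) (Pi.single t.2.2.2 1),
    ten (Pi.single t.2.2.1 1) (Pi.single t.2.2.2 1) (f t.2.1)] : Fin 3 → Ten ℤ) t.1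

private theorem span1_le {H : ℕ} {a b c : ℤ} (ha : |a| ≤ (H : ℤ)) (hb : |b| ≤ 1) (hc : |c| ≤ 1) :
    |a * b * c| ≤ (H : ℤ) := by
  rw [abs_mul, abs_mul]
  calc |a| * |b| * |c| ≤ H * 1 * 1 := by gcongr
    _ = H := by ring

private theorem span1_e (i j : Fin 4) : |(Pi.single i 1 : Fin 4 → ℤ) j| ≤ 1 := by
  rw [Pi.single_apply]
  split_ifs <;> simp

theorem span1 (H : ℕ) (x : Fin 4 → ℤ) (hx1 : x 1 ≠ 0) (hx : HGood H x) :
    ∃ c : (Fin 3 × Fin 3 × Fin 4 × Fin 4) → Ten ℤ, (∀ t, ev (c t) x = 0) ∧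
      (∀ t i j k, |c t i j k| ≤ (H : ℤ)) ∧
      ∀ b : Ten ℚ, ev b (cv ℚ x) = 0 →
        ∃ r : (Fin 3 × Fin 3 × Fin 4 × Fin 4) → ℚ,
          ∀ i j k, b i j k = ∑ t, r t * (c t i j k : ℚ) := by
  obtain ⟨f, hf, h0, hH⟩ := hx
  have hx0 : x ≠ 0 := fun h => hx1 (by rw [h]; rfl)
  refine ⟨span1_c f, ?_, ?_, ?_⟩
  · rintro ⟨a, s, j, k⟩
    fin_cases a
    · show ev (ten (f s) (Pi.single j 1) (Pi.single k 1)) x = 0
      rw [ev_ten, h0]
      ring
    · show ev (ten (Pi.single j 1) (f s) (Pi.single k 1)) x = 0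
      rw [ev_ten, h0]
      ring
    · show ev (ten (Pi.single j 1) (Pi.single k 1) (f s)) x = 0
      rw [ev_ten, h0]
      ring
  · rintro ⟨a, s, j, k⟩ i' j' k'
    fin_cases a
    · show |f s i' * (Pi.single j 1 : Fin 4 → ℤ) j' * (Pi.single k 1 : Fin 4 → ℤ) k'| ≤ (H : ℤ)
      exact span1_le (hH s i') (span1_e j j') (span1_e k k')
    · show |(Pi.single j 1 : Fin 4 → ℤ) i' * f s j' * (Pi.single k 1 : Fin 4 → ℤ) k'| ≤ (H : ℤ)
      rw [mul_comm ((Pi.single j 1 : Fin 4 → ℤ) i')]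
      exact span1_le (hH s j') (span1_e j i') (span1_e k k')
    · show |(Pi.single j 1 : Fin 4 → ℤ) i' * (Pi.single k 1 : Fin 4 → ℤ) j' * f s k'| ≤ (H : ℤ)
      rw [mul_comm, ← mul_assoc]
      exact span1_le (hH s k') (span1_e j i') (span1_e k j')
  · intro b hb
    let S : Submodule ℚ (Ten ℚ) := Submodule.span ℚ (Set.range fun t => ct ℚ (span1_c f t))
    have hx1' : (x 1 : ℚ) ≠ 0 := by exact_mod_cast hx1
    have m1 : ∀ h v w : Fin 4 → ℚ, lin h (cv ℚ x) = 0 → ten h v w ∈ S := by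
      intro h v w hh
      refine span1_mem S ?_ (span1_perp x hx0 f hf h0 hh) (span1_top v) (span1_top w)
      rintro _ ⟨s, rfl⟩ _ ⟨j, rfl⟩ _ ⟨k, rfl⟩
      refine Submodule.subset_span ⟨(0, s, j, k), ?_⟩
      show ct ℚ (ten (f s) (Pi.single j 1) (Pi.single k 1)) = _
      rw [span1_ct, span1_cvs, span1_cvs]
    have m2 : ∀ h v w : Fin 4 → ℚ, lin h (cv ℚ x) = 0 → ten v h w ∈ S := by
      intro h v w hh
      refine span1_mem S ?_ (span1_top v) (span1_perp x hx0 f hf h0 hh) (span1_top w)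
      rintro _ ⟨j, rfl⟩ _ ⟨s, rfl⟩ _ ⟨k, rfl⟩
      refine Submodule.subset_span ⟨(1, s, j, k), ?_⟩
      show ct ℚ (ten (Pi.single j 1) (f s) (Pi.single k 1)) = _
      rw [span1_ct, span1_cvs, span1_cvs]
    have m3 : ∀ h v w : Fin 4 → ℚ, lin h (cv ℚ x) = 0 → ten v w h ∈ S := by
      intro h v w hh
      refine span1_mem S ?_ (span1_top v) (span1_top w) (span1_perp x hx0 f hf h0 hh)
      rintro _ ⟨j, rfl⟩ _ ⟨k, rfl⟩ _ ⟨s, rfl⟩
      refine Submodule.subset_span ⟨(2, s, j, k), ?_⟩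
      show ct ℚ (ten (Pi.single j 1) (Pi.single k 1) (f s)) = _
      rw [span1_ct, span1_cvs, span1_cvs]
    let X : Fin 4 → ℚ := cv ℚ x
    let e : Fin 4 → Fin 4 → ℚ := fun i => Pi.single i 1
    let p : Fin 4 → ℚ := (X 1)⁻¹ • e 1
    let h : Fin 4 → Fin 4 → ℚ := fun i => e i - X i • p
    have hp : lin p X = 1 := by
      show lin ((X 1)⁻¹ • e 1) X = 1
      rw [lin_smul, lin_single]
      exact inv_mul_cancel₀ hx1'
    have hh : ∀ i, lin (h i) X = 0 := by
      intro i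
      show lin (e i - X i • p) X = 0
      rw [lin_sub, lin_smul, hp, lin_single]
      ring
    have hid : ∀ i j k, ten (e i) (e j) (e k) = (X i * X j * X k) • ten p p p +
        (ten (h i) (e j) (e k) + (X i • ten p (h j) (e k) + (X i * X j) • ten p p (h k))) := by
      intro i j k
      funext a b' c'
      simp only [ten, h, Pi.add_apply, Pi.smul_apply, Pi.sub_apply, smul_eq_mul]
      ring
    have hb2 : b - ev b X • ten p p p ∈ S := by
      have e1 : b - ev b X • ten p p p = ∑ i, ∑ j, ∑ k, b i j k • (ten (h i) (e j) (e k) +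
          (X i • ten p (h j) (e k) + (X i * X j) • ten p p (h k))) := by
        have e2 : b = ∑ i, ∑ j, ∑ k, b i j k • ten (e i) (e j) (e k) := span1_sum b
        have e3 : ev b X • ten p p p = ∑ i, ∑ j, ∑ k, b i j k • (X i * X j * X k) • ten p p p := by
          unfold ev
          simp only [Finset.sum_smul, mul_smul]
        rw [e3]
        refine (congrArg (fun y => y - ∑ i, ∑ j, ∑ k, b i j k • (X i * X j * X k) • ten p p p)
          e2).trans ?_
        show (∑ i, ∑ j, ∑ k, b i j k • ten (e i) (e j) (e k)) -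
          ∑ i, ∑ j, ∑ k, b i j k • (X i * X j * X k) • ten p p p = _
        rw [← Finset.sum_sub_distrib]
        refine Finset.sum_congr rfl fun i _ => ?_
        rw [← Finset.sum_sub_distrib]
        refine Finset.sum_congr rfl fun j _ => ?_
        rw [← Finset.sum_sub_distrib]
        refine Finset.sum_congr rfl fun k _ => ?_
        rw [hid, smul_add, add_sub_cancel_left]
      rw [e1]
      refine Submodule.sum_mem _ fun i _ => Submodule.sum_mem _ fun j _ =>
        Submodule.sum_mem _ fun k _ => Submodule.smul_mem _ _ ?_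
      exact Submodule.add_mem _ (m1 _ _ _ (hh i)) (Submodule.add_mem _
        (Submodule.smul_mem _ _ (m2 _ _ _ (hh j))) (Submodule.smul_mem _ _ (m3 _ _ _ (hh k))))
    have hb3 : b ∈ S := by
      have e4 : ev b X = 0 := hb
      rw [e4, zero_smul, sub_zero] at hb2
      exact hb2
    obtain ⟨r, hr⟩ := (Submodule.mem_span_range_iff_exists_fun ℚ).1 hb3
    refine ⟨r, fun i j k => ?_⟩
    rw [← hr]
    simp only [Finset.sum_apply, Pi.smul_apply, smul_eq_mul, ct]

end Pool.Agent.Lib.MP_1ad228_ntC
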