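import Pool.Agent.Lib.MP_1ad228_ntC.Basic

/-!
JOB Vals.  Which values are taken; the gcd of the minors.

PROOF.  `val1`: `lin u x = 1`, `a = m • ten u u u` (`ev_ten`).
`Dd_dvd`: `Finset.gcd_dvd` twice, `Int.natCast_dvd`/`Int.natAbs_dvd`. `dvd_Dd`: `Finset.dvd_gcd` twice.
`Dd_symm`: `mn_swap`, `Int.natAbs_neg`.
`Dd_bezout`: the ideal of ℤ generated by the 16 minors is generated by `Dd` (e.g. for a finite family of
integers `∃ c, ∑ c_i v_i = gcd` : Mathlib `Finset.exists_mul_emod_eq_...` or induction on the finset, or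
`Ideal.span`/principal ideal: the generator `d` of the span of the minors divides all minors, and `Dd`
divides `d` because `Dd` divides all minors; so they agree up to sign).
`valD`: with the `c` of `Dd_bezout` let `l k = ∑ j, c k j * y j - ∑ i, c i k * y i`; then
`lin l z = ∑ i, ∑ j, c i j * (z i * y j - z j * y i)`, so `lin l y = 0`, `lin l x = Dd x y`; with
`lin u x = 1` the tensor `ten l u u` works.
`lamLem`: `lin u x = 1`, `l = lin u y`: `y j - l * x j = ∑ i, u i * mn x y i j`.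
-/

namespace Pool.Agent.Lib.MP_1ad228_ntC

open Classical

theorem val1 (x : Fin 4 → ℤ) (hx : Uni x) (m : ℤ) : ∃ a : Ten ℤ, ev a x = m := by
  obtain ⟨u, hu⟩ := hx
  refine ⟨fun i j k => m * ten u u u i j k, ?_⟩
  rw [ev_smul, ev_ten, hu]
  ring

theorem Dd_dvd (x y : Fin 4 → ℤ) (i j : Fin 4) : (Dd x y : ℤ) ∣ mn x y i j := by
  rw [← Int.dvd_natAbs, Int.natCast_dvd_natCast]
  unfold Dd
  exact (Finset.gcd_dvd (Finset.mem_univ i)).trans (Finset.gcd_dvd (Finset.mem_univ j))

theorem dvd_Dd (x y : Fin 4 → ℤ) (m : ℕ) (h : ∀ i j, (m : ℤ) ∣ mn x y i j) : m ∣ Dd x y := by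
  unfold Dd
  refine Finset.dvd_gcd fun i _ => Finset.dvd_gcd fun j _ => ?_
  have := h i j
  rw [← Int.dvd_natAbs, Int.natCast_dvd_natCast] at this
  exact this

theorem Dd_symm (x y : Fin 4 → ℤ) : Dd y x = Dd x y := by
  unfold Dd
  simp only [mn_swap x y, Int.natAbs_neg]

private theorem Vals_gcd_aux {ι : Type} (s : Finset ι) (v : ι → ℤ) :
    ∃ c : ι → ℤ, ∑ i ∈ s, c i * v i = ((s.gcd fun i => (v i).natAbs : ℕ) : ℤ) := by
  induction s using Finset.induction_on with
  | empty => exact ⟨fun _ => 0, by simp⟩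
  | insert t s ht ih =>
    obtain ⟨c, hc⟩ := ih
    set G : ℕ := s.gcd fun i => (v i).natAbs with hG
    have hb := Int.gcd_eq_gcd_ab (v t) (G : ℤ)
    have e1 : ((insert t s).gcd fun i => (v i).natAbs) = Int.gcd (v t) (G : ℤ) := by
      rw [Finset.gcd_insert]
      rfl
    refine ⟨fun i => if i = t then Int.gcdA (v t) G else Int.gcdB (v t) G * c i, ?_⟩
    rw [Finset.sum_insert ht, e1, hb]
    simp only [if_true]
    have e2 : ∑ i ∈ s, (if i = t then Int.gcdA (v t) G else Int.gcdB (v t) G * c i) * v i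
        = Int.gcdB (v t) G * ∑ i ∈ s, c i * v i := by
      rw [Finset.mul_sum]
      refine Finset.sum_congr rfl fun i hi => ?_
      have hne : i ≠ t := by
        rintro rfl
        exact ht hi
      rw [if_neg hne]
      ring
    rw [e2, hc]
    ring

theorem Dd_bezout (x y : Fin 4 → ℤ) :
    ∃ c : Fin 4 → Fin 4 → ℤ, ∑ i, ∑ j, c i j * mn x y i j = (Dd x y : ℤ) := by
  have h1 : ∀ i : Fin 4, ∃ c : Fin 4 → ℤ, ∑ j, c j * mn x y i j =
      ((Finset.univ.gcd fun j : Fin 4 => (mn x y i j).natAbs : ℕ) : ℤ) :=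
    fun i => Vals_gcd_aux Finset.univ (fun j => mn x y i j)
  choose c hc using h1
  obtain ⟨d, hd⟩ := Vals_gcd_aux (Finset.univ : Finset (Fin 4))
    (fun i => ((Finset.univ.gcd fun j : Fin 4 => (mn x y i j).natAbs : ℕ) : ℤ))
  refine ⟨fun i j => d i * c i j, ?_⟩
  have e : ∀ i : Fin 4, ∑ j, d i * c i j * mn x y i j =
      d i * ((Finset.univ.gcd fun j : Fin 4 => (mn x y i j).natAbs : ℕ) : ℤ) := by
    intro i
    rw [← hc i, Finset.mul_sum]
    exact Finset.sum_congr rfl fun j _ => by ring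
  simp only [e]
  rw [hd]
  unfold Dd
  simp only [Int.natAbs_natCast]

theorem valD (x y : Fin 4 → ℤ) (hx : Uni x) :
    ∃ a : Ten ℤ, ev a y = 0 ∧ ev a x = (Dd x y : ℤ) := by
  obtain ⟨u, hu⟩ := hx
  obtain ⟨c, hc⟩ := Dd_bezout x y
  set l : Fin 4 → ℤ := fun k => ∑ j, c k j * y j - ∑ i, c i k * y i with hl
  have key : ∀ z : Fin 4 → ℤ, lin l z = ∑ i, ∑ j, c i j * (z i * y j - z j * y i) := by
    intro z
    unfold lin
    have e1 : ∑ i, l i * z i = ∑ i, ∑ j, c i j * (z i * y j) - ∑ i, ∑ j, c j i * (z i * y j) := by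
      rw [← Finset.sum_sub_distrib]
      refine Finset.sum_congr rfl fun i _ => ?_
      rw [hl]
      simp only [sub_mul, Finset.sum_mul]
      congr 1
      · exact Finset.sum_congr rfl fun j _ => by ring
      · exact Finset.sum_congr rfl fun j _ => by ring
    rw [e1]
    have e2 : ∑ i, ∑ j, c j i * (z i * y j) = ∑ i, ∑ j, c i j * (z j * y i) := by
      rw [Finset.sum_comm]
    rw [e2, ← Finset.sum_sub_distrib]
    refine Finset.sum_congr rfl fun i _ => ?_
    rw [← Finset.sum_sub_distrib]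
    exact Finset.sum_congr rfl fun j _ => by ring
  refine ⟨ten l u u, ?_, ?_⟩
  · rw [ev_ten, key]
    have : ∑ i, ∑ j, c i j * (y i * y j - y j * y i) = 0 := by
      refine Finset.sum_eq_zero fun i _ => Finset.sum_eq_zero fun j _ => ?_
      ring
    rw [this]
    ring
  · rw [ev_ten, key, hu]
    have : ∑ i, ∑ j, c i j * (x i * y j - x j * y i) = (Dd x y : ℤ) := by
      rw [← hc]
      rfl
    rw [this]
    ring

theorem lamLem (x y : Fin 4 → ℤ) (hx : Uni x) :
    ∃ l : ℤ, ∀ m : ℤ, (∀ i j, m ∣ mn x y i j) → ∀ j, m ∣ y j - l * x j := by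
  obtain ⟨u, hu⟩ := hx
  refine ⟨lin u y, fun m hm j => ?_⟩
  have e : y j - lin u y * x j = ∑ i, u i * mn x y i j := by
    have h1 : y j = lin u x * y j := by rw [hu, one_mul]
    conv_lhs => rw [h1]
    unfold lin mn
    rw [Finset.sum_mul, Finset.sum_mul, ← Finset.sum_sub_distrib]
    exact Finset.sum_congr rfl fun i _ => by ring
  rw [e]
  exact Finset.dvd_sum fun i _ => Dvd.dvd.mul_left (hm i j) _

end Pool.Agent.Lib.MP_1ad228_ntC
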