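import Pool.Agent.Lib.MP_1ad228_ntC.PairSum
import Pool.Agent.Lib.MP_1ad228_ntC.N1
import Pool.Agent.Lib.MP_1ad228_ntC.N2
import Pool.Agent.Lib.MP_1ad228_ntC.Expand
import Pool.Agent.Lib.MP_1ad228_ntC.EEgood

/-!
JOB VarTot.  The variance (paper sections 4, 5, assembly).

PROOF.  `K = k^2 ≥ 1`. `expand`: `Vq = ∑_x ∑_y EE x y`. Split the inner sum in `y = x`, good `y`
(`y ≠ x`, `Dd ∣ W` and `q^2 g^32 ≤ k Del`), bad `y` (the others). `B = g^16`.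
`y = x`: `EEle`, `n2_self`, `N1` (`288 g^6 ≤ 432 g^12 k ≤ A`):
  `|EE| ≤ 2*4^64*(5A)^64*2q^3/(A g^48)`.
good: `EEgood` and `N2` (`432 g^12 ≤ A`): `|EE| ≤ (5/k)*6^64*(5A)^64*64 q^5/(A^2 g^64) * (Dd/Del)`; sum with
`psAll`: at most `(5/k)*6^64*(5A)^64*64 q^5/(A^2 g^64) * 60000 q^6 g^32`.
bad: `EEle` and `N2`: `|EE| ≤ 2*4^64*(5A)^64*64 q^5/(A^2 g^64) * (Dd/Del)`; sum with `psBad`: at most
`2*4^64*(5A)^64*64 q^5/(A^2 g^64) * 60000 q^7 g^32 (1/g^2 + 1/(w+1) + 1/k)`.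
Sum over `x`: multiply by `card (GG g q) ≤ 81 g^64` (`card_GG_le`). With
`C = 10^8 * 6^64 * 5^64 * q^12 * 1000` (any large constant depending on `q` only; `g^64 * g^32/(A^2 g^64) = (g^16/A)^2`,
`g^64/(A g^48) = g^16/A`) the claim follows.
-/

namespace Pool.Agent.Lib.MP_1ad228_ntC

open Classical

/-- One row of the variance sum. -/
theorem VarTot_row (g q k w A W : ℕ) (hg : 1 ≤ g) (hq : 1 ≤ q) (hk : 1 ≤ k)
    (hW : ∀ m, 1 ≤ m → m ≤ w → m ∣ W) (h432 : 432 * g ^ 12 * k ≤ A)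
    (hB : 8 * q ^ 2 ≤ A * g ^ 16) (x : Fin 4 → ℤ) (hx : x ∈ GG g q) :
    ∑ y ∈ GG g q, EE W (k ^ 2) A x y ≤
      2 * 4 ^ 64 * ((5 * (A : ℝ)) ^ 64 * (2 * (q : ℝ) ^ 3 / ((A : ℝ) * (g : ℝ) ^ 48)))
      + (5 / (k : ℝ) * 6 ^ 64 * ((5 * (A : ℝ)) ^ 64 *
          (64 * (q : ℝ) ^ 5 / ((A : ℝ) ^ 2 * (g : ℝ) ^ 64)))) * (60000 * (q : ℝ) ^ 6 * (g : ℝ) ^ 32)
      + (2 * 4 ^ 64 * ((5 * (A : ℝ)) ^ 64 *
          (64 * (q : ℝ) ^ 5 / ((A : ℝ) ^ 2 * (g : ℝ) ^ 64)))) *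
        (46656 * (q : ℝ) ^ 6 * (g : ℝ) ^ 30 + 6912 * (q : ℝ) ^ 3 * (g : ℝ) ^ 32 / (w + 1)
        + 1728 * (q : ℝ) ^ 7 * (g : ℝ) ^ 32 / k) := by
  have hg12 : 432 * g ^ 12 ≤ A :=
    le_trans (Nat.le_mul_of_pos_right _ hk) h432
  have hg6 : 288 * g ^ 6 ≤ A := by
    refine le_trans ?_ hg12
    have h1 : g ^ 6 ≤ g ^ 12 := Nat.pow_le_pow_right hg (by norm_num)
    omega
  set N0 : ℝ := (5 * (A : ℝ)) ^ 64 with hN0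
  set al : ℝ := 64 * (q : ℝ) ^ 5 / ((A : ℝ) ^ 2 * (g : ℝ) ^ 64) with hal
  have hN0' : 0 ≤ N0 := by positivity
  have hal' : 0 ≤ al := by positivity
  have hkpos : (0 : ℝ) < k := by exact_mod_cast hk
  set ag : ℝ := 5 / (k : ℝ) * 6 ^ 64 * (N0 * al) with hag
  set ab : ℝ := 2 * 4 ^ 64 * (N0 * al) with hab
  have hag' : 0 ≤ ag := mul_nonneg (mul_nonneg (div_nonneg (by norm_num) hkpos.le)
    (pow_nonneg (by norm_num) 64)) (mul_nonneg hN0' hal')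
  have hab' : 0 ≤ ab := mul_nonneg (mul_nonneg (by norm_num) (pow_nonneg (by norm_num) 64))
    (mul_nonneg hN0' hal')
  have hr : ∀ y, 0 ≤ (Dd x y : ℝ) / (Del x y : ℝ) := fun y => by positivity
  have hsplit := Finset.sum_filter_add_sum_filter_not (GG g q) (fun y => y ≠ x)
    (fun y => EE W (k ^ 2) A x y)
  rw [← hsplit]
  -- the diagonal term
  have hdiag : ∑ y ∈ (GG g q).filter (fun y => ¬ y ≠ x), EE W (k ^ 2) A x y ≤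
      2 * 4 ^ 64 * (N0 * (2 * (q : ℝ) ^ 3 / ((A : ℝ) * (g : ℝ) ^ 48))) := by
    have h1 : (GG g q).filter (fun y => ¬ y ≠ x) = {x} := by
      ext y
      simp only [Finset.mem_filter, not_not, Finset.mem_singleton]
      constructor
      · exact fun h => h.2
      · rintro rfl; exact ⟨hx, rfl⟩
    rw [h1, Finset.sum_singleton]
    refine le_trans (le_abs_self _) (le_trans (EEle W (k ^ 2) A x x) ?_)
    rw [n2_self]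
    exact mul_le_mul_of_nonneg_left (N1 g q A hg hq hg6 x hx) (by positivity)
  -- the other terms
  have hoff : ∑ y ∈ (GG g q).filter (fun y => y ≠ x), EE W (k ^ 2) A x y ≤
      ag * ∑ y ∈ (GG g q).filter (fun y => y ≠ x), (Dd x y : ℝ) / (Del x y : ℝ)
      + ab * ∑ y ∈ (GG g q).filter
          (fun y => y ≠ x ∧ ¬ (Dd x y ∣ W ∧ q ^ 2 * g ^ 32 ≤ k * Del x y)),
          (Dd x y : ℝ) / (Del x y : ℝ) := by
    have h2 : ∑ y ∈ (GG g q).filter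
          (fun y => y ≠ x ∧ ¬ (Dd x y ∣ W ∧ q ^ 2 * g ^ 32 ≤ k * Del x y)),
          (Dd x y : ℝ) / (Del x y : ℝ)
        = ∑ y ∈ (GG g q).filter (fun y => y ≠ x),
          (if ¬ (Dd x y ∣ W ∧ q ^ 2 * g ^ 32 ≤ k * Del x y) then
            (Dd x y : ℝ) / (Del x y : ℝ) else 0) := by
      rw [← Finset.filter_filter, Finset.sum_filter]
    rw [h2, Finset.mul_sum, Finset.mul_sum, ← Finset.sum_add_distrib]
    refine Finset.sum_le_sum fun y hy => ?_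
    obtain ⟨hyG, hyx⟩ := Finset.mem_filter.1 hy
    have hN2 := N2 g q A hg hq hg12 hB x y hx hyG (Ne.symm hyx)
    refine le_trans (le_abs_self _) ?_
    by_cases hgood : Dd x y ∣ W ∧ q ^ 2 * g ^ 32 ≤ k * Del x y
    · have h3 := EEgood g q k A W hg hq hk h432 x y hx hyG (Ne.symm hyx) hgood.1 hgood.2
      rw [if_neg (not_not.2 hgood), mul_zero, add_zero]
      calc |EE W (k ^ 2) A x y| ≤ 5 / (k : ℝ) * 6 ^ 64 * (n2 x y A : ℝ) := h3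
        _ ≤ 5 / (k : ℝ) * 6 ^ 64 * (N0 * (al * ((Dd x y : ℝ) / (Del x y : ℝ)))) :=
          mul_le_mul_of_nonneg_left hN2 (by positivity)
        _ = ag * ((Dd x y : ℝ) / (Del x y : ℝ)) := by rw [hag]; ring
    · rw [if_pos hgood]
      have h4 : 0 ≤ ag * ((Dd x y : ℝ) / (Del x y : ℝ)) := mul_nonneg hag' (hr y)
      have h5 : |EE W (k ^ 2) A x y| ≤ ab * ((Dd x y : ℝ) / (Del x y : ℝ)) := by
        calc |EE W (k ^ 2) A x y| ≤ 2 * 4 ^ 64 * (n2 x y A : ℝ) := EEle W (k ^ 2) A x y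
          _ ≤ 2 * 4 ^ 64 * (N0 * (al * ((Dd x y : ℝ) / (Del x y : ℝ)))) :=
            mul_le_mul_of_nonneg_left hN2 (by positivity)
          _ = ab * ((Dd x y : ℝ) / (Del x y : ℝ)) := by rw [hab]; ring
      linarith
  have h6 := mul_le_mul_of_nonneg_left (psAll g q hg hq x hx) hag'
  have h7 := mul_le_mul_of_nonneg_left (psBad g q k w W hg hq hk hW x hx) hab'
  linarith

theorem varTot (q : ℕ) (hq : 1 ≤ q) : ∃ C : ℝ, 0 < C ∧ ∀ k w g A W : ℕ, 1 ≤ k → 1 ≤ g → 1 ≤ A →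
    1 ≤ W → (∀ m, 1 ≤ m → m ≤ w → m ∣ W) → 432 * g ^ 12 * k ≤ A → 8 * q ^ 2 ≤ A * g ^ 16 →
    Vq g q W (k ^ 2) A ≤
      C * (A : ℝ) ^ 64 * (((g : ℝ) ^ 16 / A) ^ 2 * (1 / k + 1 / (w + 1) + 1 / (g : ℝ) ^ 2)
        + (g : ℝ) ^ 16 / A) := by
  have hqpos : (0 : ℝ) < q := by exact_mod_cast hq
  have hq1 : (1 : ℝ) ≤ q := by exact_mod_cast hq
  set c1 : ℝ := 81 * (2 * 4 ^ 64) * 5 ^ 64 * 2 * (q : ℝ) ^ 3 with hc1
  set c2 : ℝ := 81 * (5 * 6 ^ 64) * 5 ^ 64 * 64 * 60000 * (q : ℝ) ^ 11 with hc2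
  set c3 : ℝ := 81 * (2 * 4 ^ 64) * 5 ^ 64 * 64 * 60000 * (q : ℝ) ^ 12 with hc3
  have hc1' : 0 < c1 := by positivity
  have hc2' : 0 < c2 := by positivity
  have hc3' : 0 < c3 := by positivity
  refine ⟨c1 + c2 + c3, by positivity, ?_⟩
  intro k w g A W hk hg hA hW1 hW h432 hB
  have hgpos : (0 : ℝ) < g := by exact_mod_cast hg
  have hApos : (0 : ℝ) < A := by exact_mod_cast hA
  have hkpos : (0 : ℝ) < k := by exact_mod_cast hk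
  have hwpos : (0 : ℝ) < (w : ℝ) + 1 := by positivity
  rw [expand g q W (k ^ 2) A (Nat.one_le_pow _ _ hk)]
  set R : ℝ := 2 * 4 ^ 64 * ((5 * (A : ℝ)) ^ 64 * (2 * (q : ℝ) ^ 3 / ((A : ℝ) * (g : ℝ) ^ 48)))
      + (5 / (k : ℝ) * 6 ^ 64 * ((5 * (A : ℝ)) ^ 64 *
          (64 * (q : ℝ) ^ 5 / ((A : ℝ) ^ 2 * (g : ℝ) ^ 64)))) * (60000 * (q : ℝ) ^ 6 * (g : ℝ) ^ 32)
      + (2 * 4 ^ 64 * ((5 * (A : ℝ)) ^ 64 *
          (64 * (q : ℝ) ^ 5 / ((A : ℝ) ^ 2 * (g : ℝ) ^ 64)))) *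
        (46656 * (q : ℝ) ^ 6 * (g : ℝ) ^ 30 + 6912 * (q : ℝ) ^ 3 * (g : ℝ) ^ 32 / (w + 1)
        + 1728 * (q : ℝ) ^ 7 * (g : ℝ) ^ 32 / k) with hR
  have hR0 : 0 ≤ R := by positivity
  have h1 : ∑ x ∈ GG g q, ∑ y ∈ GG g q, EE W (k ^ 2) A x y ≤ 81 * (g : ℝ) ^ 64 * R := by
    calc ∑ x ∈ GG g q, ∑ y ∈ GG g q, EE W (k ^ 2) A x y ≤ ∑ _x ∈ GG g q, R :=
          Finset.sum_le_sum fun x hx => VarTot_row g q k w A W hg hq hk hW h432 hB x hx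
      _ = ((GG g q).card : ℝ) * R := by rw [Finset.sum_const, nsmul_eq_mul]
      _ ≤ 81 * (g : ℝ) ^ 64 * R := mul_le_mul_of_nonneg_right (card_GG_le hg) hR0
  refine le_trans h1 ?_
  set T : ℝ := 1 / (k : ℝ) + 1 / ((w : ℝ) + 1) + 1 / (g : ℝ) ^ 2 with hT
  have hT0 : 0 ≤ T := by positivity
  have hkT : 1 / (k : ℝ) ≤ T := by
    rw [hT]
    have h2 : 0 ≤ 1 / ((w : ℝ) + 1) := by positivity
    have h3 : 0 ≤ 1 / (g : ℝ) ^ 2 := by positivity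
    linarith
  set v : ℝ := (g : ℝ) ^ 16 / A with hv
  have hv0 : 0 ≤ v := by positivity
  -- the last factor
  have h4 : 46656 * (q : ℝ) ^ 6 * (g : ℝ) ^ 30 + 6912 * (q : ℝ) ^ 3 * (g : ℝ) ^ 32 / (w + 1)
        + 1728 * (q : ℝ) ^ 7 * (g : ℝ) ^ 32 / k ≤ 60000 * (q : ℝ) ^ 7 * (g : ℝ) ^ 32 * T := by
    have e1 : 46656 * (q : ℝ) ^ 6 * (g : ℝ) ^ 30 = 46656 * (q : ℝ) ^ 6 * (g : ℝ) ^ 32 *
        (1 / (g : ℝ) ^ 2) := by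
      field_simp
    have e2 : 6912 * (q : ℝ) ^ 3 * (g : ℝ) ^ 32 / (w + 1)
        = 6912 * (q : ℝ) ^ 3 * (g : ℝ) ^ 32 * (1 / ((w : ℝ) + 1)) := by ring
    have e3 : 1728 * (q : ℝ) ^ 7 * (g : ℝ) ^ 32 / k
        = 1728 * (q : ℝ) ^ 7 * (g : ℝ) ^ 32 * (1 / (k : ℝ)) := by ring
    have hq67 : (q : ℝ) ^ 6 ≤ (q : ℝ) ^ 7 := pow_le_pow_right₀ hq1 (by norm_num)
    have hq37 : (q : ℝ) ^ 3 ≤ (q : ℝ) ^ 7 := pow_le_pow_right₀ hq1 (by norm_num)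
    rw [e1, e2, e3, hT, mul_add, mul_add]
    have f1 : 46656 * (q : ℝ) ^ 6 * (g : ℝ) ^ 32 * (1 / (g : ℝ) ^ 2) ≤
        60000 * (q : ℝ) ^ 7 * (g : ℝ) ^ 32 * (1 / (g : ℝ) ^ 2) := by
      have : 46656 * (q : ℝ) ^ 6 ≤ 60000 * (q : ℝ) ^ 7 := by nlinarith [pow_pos hqpos 7]
      gcongr
    have f2 : 6912 * (q : ℝ) ^ 3 * (g : ℝ) ^ 32 * (1 / ((w : ℝ) + 1)) ≤
        60000 * (q : ℝ) ^ 7 * (g : ℝ) ^ 32 * (1 / ((w : ℝ) + 1)) := by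
      have : 6912 * (q : ℝ) ^ 3 ≤ 60000 * (q : ℝ) ^ 7 := by nlinarith [pow_pos hqpos 7]
      gcongr
    have f3 : 1728 * (q : ℝ) ^ 7 * (g : ℝ) ^ 32 * (1 / (k : ℝ)) ≤
        60000 * (q : ℝ) ^ 7 * (g : ℝ) ^ 32 * (1 / (k : ℝ)) := by
      gcongr
      norm_num
    linarith
  have h5 : R ≤ 2 * 4 ^ 64 * ((5 * (A : ℝ)) ^ 64 * (2 * (q : ℝ) ^ 3 / ((A : ℝ) * (g : ℝ) ^ 48)))
      + (5 / (k : ℝ) * 6 ^ 64 * ((5 * (A : ℝ)) ^ 64 *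
          (64 * (q : ℝ) ^ 5 / ((A : ℝ) ^ 2 * (g : ℝ) ^ 64)))) * (60000 * (q : ℝ) ^ 6 * (g : ℝ) ^ 32)
      + (2 * 4 ^ 64 * ((5 * (A : ℝ)) ^ 64 *
          (64 * (q : ℝ) ^ 5 / ((A : ℝ) ^ 2 * (g : ℝ) ^ 64)))) *
        (60000 * (q : ℝ) ^ 7 * (g : ℝ) ^ 32 * T) := by
    rw [hR]
    have h6 := mul_le_mul_of_nonneg_left h4 (show (0 : ℝ) ≤ 2 * 4 ^ 64 * ((5 * (A : ℝ)) ^ 64 *
          (64 * (q : ℝ) ^ 5 / ((A : ℝ) ^ 2 * (g : ℝ) ^ 64))) by positivity)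
    linarith
  have h7 : 81 * (g : ℝ) ^ 64 * R ≤
      (A : ℝ) ^ 64 * (c1 * v + c2 * (v ^ 2 * (1 / (k : ℝ))) + c3 * (v ^ 2 * T)) := by
    calc 81 * (g : ℝ) ^ 64 * R ≤ 81 * (g : ℝ) ^ 64 * _ :=
          mul_le_mul_of_nonneg_left h5 (by positivity)
      _ = (A : ℝ) ^ 64 * (c1 * v + c2 * (v ^ 2 * (1 / (k : ℝ))) + c3 * (v ^ 2 * T)) := by
        rw [hc1, hc2, hc3, hv]
        have e5 : (5 * (A : ℝ)) ^ 64 = 5 ^ 64 * (A : ℝ) ^ 64 := mul_pow _ _ _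
        rw [e5]
        have hA0 : (A : ℝ) ≠ 0 := hApos.ne'
        have hg0 : (g : ℝ) ≠ 0 := hgpos.ne'
        have hk0 : (k : ℝ) ≠ 0 := hkpos.ne'
        generalize (4 : ℝ) ^ 64 = p4
        generalize (5 : ℝ) ^ 64 = p5
        generalize (6 : ℝ) ^ 64 = p6
        generalize (A : ℝ) ^ 64 = pA
        field_simp
  refine le_trans h7 ?_
  have h8 : v ^ 2 * (1 / (k : ℝ)) ≤ v ^ 2 * T := mul_le_mul_of_nonneg_left hkT (by positivity)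
  have h9 : 0 ≤ v ^ 2 * T := by positivity
  have h10 : c1 * v + c2 * (v ^ 2 * (1 / (k : ℝ))) + c3 * (v ^ 2 * T)
      ≤ (c1 + c2 + c3) * (v ^ 2 * T + v) := by
    have g1 : c2 * (v ^ 2 * (1 / (k : ℝ))) ≤ c2 * (v ^ 2 * T) :=
      mul_le_mul_of_nonneg_left h8 hc2'.le
    have g2 : 0 ≤ c1 * (v ^ 2 * T) := mul_nonneg hc1'.le h9
    have g3 : 0 ≤ c2 * v := mul_nonneg hc2'.le hv0
    have g4 : 0 ≤ c3 * v := mul_nonneg hc3'.le hv0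
    nlinarith
  calc (A : ℝ) ^ 64 * (c1 * v + c2 * (v ^ 2 * (1 / (k : ℝ))) + c3 * (v ^ 2 * T))
      ≤ (A : ℝ) ^ 64 * ((c1 + c2 + c3) * (v ^ 2 * T + v)) :=
        mul_le_mul_of_nonneg_left h10 (by positivity)
    _ = (c1 + c2 + c3) * (A : ℝ) ^ 64 * (v ^ 2 * T + v) := by ring

end Pool.Agent.Lib.MP_1ad228_ntC
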